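import Mathlib

/-!
# Converse regularity of Bergman extremal functions: definitions

All functions live on the whole plane and vanish outside the unit disc, so that every
integral is an integral over the plane (Lebesgue area measure).
-/

namespace BergmanReg

open MeasureTheory Metric Set Filter Topology Complex
open scoped ENNReal NNReal ComplexConjugate

noncomputable section

/-- the duality map `|a|^(p-2) a` -/
def psi (p : ℝ) (a : ℂ) : ℂ := ((‖a‖ ^ (p - 2) : ℝ) : ℂ) * a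

/-- the map `|a|^(p/2-1) a` -/
def vv (p : ℝ) (a : ℂ) : ℂ := ((‖a‖ ^ (p / 2 - 1) : ℝ) : ℂ) * a

/-- the regularised distance to the boundary point `1` -/
def rho (R : ℝ) (z : ℂ) : ℝ := Real.sqrt (R ^ 2 + ‖z - 1‖ ^ 2)

/-- the weight at the boundary point `1` and scale `R` -/
def eta (R : ℝ) (z : ℂ) : ℝ := R ^ 2 / (R ^ 2 + ‖z - 1‖ ^ 2)

/-- the `∂/∂z̄` derivative of `eta R` -/
def deta (R : ℝ) (z : ℂ) : ℂ :=
  -((R : ℂ) ^ 2 * (z - 1)) / ((R ^ 2 + ‖z - 1‖ ^ 2 : ℝ) : ℂ) ^ 2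

/-- the Wirtinger derivative `∂/∂z̄` -/
def dbar (f : ℂ → ℂ) (z : ℂ) : ℂ := (1 / 2) * (fderiv ℝ f z 1 + I * fderiv ℝ f z I)

/-- the Bergman space `A^p`, functions extended by zero outside the disc -/
structure InAp (p : ℝ) (f : ℂ → ℂ) : Prop where
  diff : DifferentiableOn ℂ f (ball 0 1)
  zero : ∀ z, z ∉ ball (0 : ℂ) 1 → f z = 0
  int : Integrable (fun z => ‖f z‖ ^ p)

/-- `L^q` of the disc, functions extended by zero outside the disc -/
structure InLq (q : ℝ) (g : ℂ → ℂ) : Prop where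
  meas : Measurable g
  zero : ∀ z, z ∉ ball (0 : ℂ) 1 → g z = 0
  int : Integrable (fun z => ‖g z‖ ^ q)

/-- `g` annihilates `A^p` (bilinear pairing) -/
def Orth (p : ℝ) (g : ℂ → ℂ) : Prop := ∀ f, InAp p f → ∫ z, f z * g z = 0

/-- Cauchy transform -/
def ct (g : ℂ → ℂ) (z : ℂ) : ℂ := ((Real.pi : ℝ) : ℂ)⁻¹ * ∫ w, g w / (z - w)

/-- the twisted difference of the Cauchy transform -/
def dc (c : ℂ) (g : ℂ → ℂ) (z : ℂ) : ℂ := (conj c)⁻¹ * ct g (c * z) - ct g z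

/-- weighted energy -/
def ee (p R : ℝ) (F : ℂ → ℂ) : ℝ := ∫ z, eta R z * ‖F z‖ ^ p

/-- weighted tangential difference -/
def nn (p R : ℝ) (c : ℂ) (F : ℂ → ℂ) : ℝ :=
  ∫ z, eta R z * ‖vv p (F (c * z)) - vv p (F z)‖ ^ 2

/-- the annihilator `conj (|F|^(p-2) F - k)` -/
def gg (p : ℝ) (F k : ℂ → ℂ) (z : ℂ) : ℂ := conj (psi p (F z) - k z)

/-- an extremal pair -/
structure Pair (p q : ℝ) (F k : ℂ → ℂ) : Prop where
  hF : InAp p F
  hk : InLq q k
  orth : Orth p (gg p F k)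

/-- the radial kernel `t^(-2+ε) max(t,r)^(-2ε)` -/
def hh (ε r t : ℝ) : ℝ := t ^ (-2 + ε) * (max t r) ^ (-(2 * ε))

/-- the third order kernel -/
def kk (D : ℝ) (x : ℂ) : ℂ := 1 / x - 2 / (x + (D : ℂ)) + 1 / (x + 2 * (D : ℂ))

/-- normalised area measure of the unit disc -/
def dA : Measure ℂ := ENNReal.ofReal (Real.pi⁻¹) • (volume.restrict (ball (0 : ℂ) 1))

/-- membership in the Bergman space `A^r`: analytic on the unit disc and `|f|^r`
integrable for normalised area measure -/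
def MemA (r : ℝ) (f : ℂ → ℂ) : Prop :=
  DifferentiableOn ℂ f (ball 0 1) ∧ Integrable (fun z => ‖f z‖ ^ r) dA

/-- the `A^r` norm -/
def normA (r : ℝ) (f : ℂ → ℂ) : ℝ := (∫ z, ‖f z‖ ^ r ∂dA) ^ (1 / r)

/-- `F` maximises `Re ∫ f conj k dA` over the unit sphere of `A^p` -/
def IsExtremal (p : ℝ) (k F : ℂ → ℂ) : Prop :=
  MemA p F ∧ normA p F = 1 ∧ ∀ f, MemA p f → normA p f = 1 →
    (∫ z, f z * conj (k z) ∂dA).re ≤ (∫ z, F z * conj (k z) ∂dA).re

end

end BergmanReg
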