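import Pool.Agent.Lib.MP_efd5b3_an.Defs

section

/-!
# The weights `rho`, `eta`, `deta`
-/

namespace BergmanReg

open MeasureTheory Metric Set Filter Topology Complex
open scoped ENNReal NNReal ComplexConjugate

noncomputable section

theorem wt_rho_sq (R : ℝ) (z : ℂ) : rho R z ^ 2 = R ^ 2 + ‖z - 1‖ ^ 2 := by
  unfold rho
  rw [Real.sq_sqrt (by positivity)]

theorem rho_pos {R : ℝ} (hR : 0 < R) (z : ℂ) : 0 < rho R z :=
  Real.sqrt_pos.2 (by positivity)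

theorem wt_rho_nonneg (R : ℝ) (z : ℂ) : 0 ≤ rho R z := Real.sqrt_nonneg _

theorem le_rho {R : ℝ} (_hR : 0 < R) (z : ℂ) : R ≤ rho R z :=
  Real.le_sqrt_of_sq_le (by nlinarith [sq_nonneg ‖z - 1‖])

theorem norm_le_rho {R : ℝ} (z : ℂ) : ‖z - 1‖ ≤ rho R z :=
  Real.le_sqrt_of_sq_le (by nlinarith [sq_nonneg R])

theorem eta_eq {R : ℝ} (_hR : 0 < R) (z : ℂ) : eta R z = R ^ 2 / rho R z ^ 2 := by
  rw [wt_rho_sq]
  rfl

theorem eta_pos {R : ℝ} (hR : 0 < R) (z : ℂ) : 0 < eta R z := by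
  unfold eta
  positivity

theorem eta_le_one {R : ℝ} (hR : 0 < R) (z : ℂ) : eta R z ≤ 1 := by
  unfold eta
  rw [div_le_one (by positivity)]
  nlinarith [sq_nonneg ‖z - 1‖]

theorem half_le_eta {R : ℝ} (hR : 0 < R) {z : ℂ} (hz : ‖z - 1‖ ≤ R) : 1 / 2 ≤ eta R z := by
  unfold eta
  rw [div_le_div_iff₀ (by norm_num) (by positivity)]
  have : ‖z - 1‖ ^ 2 ≤ R ^ 2 := pow_le_pow_left₀ (norm_nonneg _) hz 2
  linarith

theorem continuous_eta {R : ℝ} (hR : 0 < R) : Continuous (eta R) := by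
  unfold eta
  refine continuous_const.div (by fun_prop) fun z => ?_
  positivity

theorem continuous_deta {R : ℝ} (hR : 0 < R) : Continuous (deta R) := by
  unfold deta
  refine Continuous.div (by fun_prop) ?_ fun z => ?_
  · exact (Complex.continuous_ofReal.comp (by fun_prop)).pow 2
  · have : (0 : ℝ) < R ^ 2 + ‖z - 1‖ ^ 2 := by positivity
    exact pow_ne_zero 2 (by exact_mod_cast this.ne')

theorem continuous_rho (R : ℝ) : Continuous (rho R) := by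
  unfold rho
  exact Real.continuous_sqrt.comp (by fun_prop)

theorem rho_lipschitz {R : ℝ} (z w : ℂ) : rho R w ≤ rho R z + ‖z - w‖ := by
  have h1 : ‖w - 1‖ ≤ ‖z - 1‖ + ‖z - w‖ := by
    have : w - 1 = (z - 1) - (z - w) := by ring
    rw [this]
    exact norm_sub_le _ _
  have h2 := wt_rho_sq R z
  have h3 := wt_rho_nonneg R z
  have h4 := norm_le_rho (R := R) z
  refine Real.sqrt_le_iff.2 ⟨by positivity, ?_⟩
  have h5 : ‖w - 1‖ ^ 2 ≤ (‖z - 1‖ + ‖z - w‖) ^ 2 := pow_le_pow_left₀ (norm_nonneg _) h1 2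
  nlinarith [norm_nonneg (z - w), mul_le_mul_of_nonneg_right h4 (norm_nonneg (z - w))]

/-- W1 -/
theorem eta_comparable {R : ℝ} (hR : 0 < R) {z w : ℂ} (h : ‖z - w‖ ≤ R) :
    eta R w ≤ 4 * eta R z := by
  have h1 := rho_lipschitz (R := R) w z
  rw [norm_sub_rev] at h1
  have h2 := le_rho hR w
  have h3 : rho R z ≤ 2 * rho R w := by linarith
  have h4 : rho R z ^ 2 ≤ (2 * rho R w) ^ 2 := pow_le_pow_left₀ (wt_rho_nonneg _ _) h3 2
  have h5 := rho_pos hR z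
  have h6 := rho_pos hR w
  rw [eta_eq hR, eta_eq hR, ← mul_div_assoc, div_le_div_iff₀ (by positivity) (by positivity)]
  nlinarith [sq_nonneg R]

/-- W2 -/
theorem eta_shrink {R t : ℝ} (hR : 0 < R) (ht : t ≤ R) {z w : ℂ} (h : ‖z - w‖ ≤ t) :
    eta R w ≤ (1 + 3 * (t / R)) * eta R z := by
  have ht0 : 0 ≤ t := (norm_nonneg _).trans h
  have h1 := rho_lipschitz (R := R) w z
  rw [norm_sub_rev] at h1
  have h2 := le_rho hR w
  have h5 := rho_pos hR z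
  have h6 := rho_pos hR w
  have hx0 : 0 ≤ t / R := by positivity
  have hx1 : t / R ≤ 1 := (div_le_one hR).2 ht
  have h3 : rho R z ≤ rho R w * (1 + t / R) := by
    have : t ≤ rho R w * (t / R) := by
      calc t = R * (t / R) := by field_simp
        _ ≤ rho R w * (t / R) := mul_le_mul_of_nonneg_right h2 hx0
    linarith
  have h4 : rho R z ^ 2 ≤ rho R w ^ 2 * (1 + 3 * (t / R)) := by
    calc rho R z ^ 2 ≤ (rho R w * (1 + t / R)) ^ 2 := pow_le_pow_left₀ h5.le h3 2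
      _ = rho R w ^ 2 * (1 + t / R) ^ 2 := by ring
      _ ≤ rho R w ^ 2 * (1 + 3 * (t / R)) := by
          refine mul_le_mul_of_nonneg_left ?_ (by positivity)
          nlinarith
  rw [eta_eq hR, eta_eq hR, ← mul_div_assoc, div_le_div_iff₀ (by positivity) (by positivity)]
  nlinarith [mul_le_mul_of_nonneg_left h4 (sq_nonneg R)]

theorem wt_deta_eq (R : ℝ) (z : ℂ) :
    deta R z = -((R : ℂ) ^ 2 * ((z - 1) / ((rho R z ^ 4 : ℝ) : ℂ))) := by
  have : ((rho R z ^ 4 : ℝ) : ℂ) = ((R ^ 2 + ‖z - 1‖ ^ 2 : ℝ) : ℂ) ^ 2 := by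
    rw [← wt_rho_sq]
    push_cast
    ring
  rw [this]
  unfold deta
  rw [neg_div, mul_div_assoc]

/-- W3 -/
theorem norm_deta_le {R : ℝ} (hR : 0 < R) (z : ℂ) : ‖deta R z‖ ≤ eta R z / rho R z := by
  have h5 := rho_pos hR z
  rw [wt_deta_eq, norm_neg, norm_mul, norm_div, norm_pow, Complex.norm_real, Complex.norm_real,
    Real.norm_of_nonneg hR.le, Real.norm_of_nonneg (by positivity), eta_eq hR]
  have h1 : ‖z - 1‖ / rho R z ^ 4 ≤ rho R z / rho R z ^ 4 :=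
    div_le_div_of_nonneg_right (norm_le_rho z) (by positivity)
  calc R ^ 2 * (‖z - 1‖ / rho R z ^ 4) ≤ R ^ 2 * (rho R z / rho R z ^ 4) :=
        mul_le_mul_of_nonneg_left h1 (by positivity)
    _ = _ := by field_simp

/-- W4 -/
theorem deta_diff_le : ∃ C : ℝ, 0 < C ∧ ∀ R : ℝ, 0 < R → ∀ z w : ℂ, ‖z - w‖ ≤ R →
    ‖deta R w - deta R z‖ ≤ C * ‖z - w‖ * eta R z / rho R z ^ 2 := by
  refine ⟨256, by norm_num, fun R hR z w h => ?_⟩
  have ha := rho_pos hR z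
  have hb := rho_pos hR w
  have h1 := rho_lipschitz (R := R) w z
  rw [norm_sub_rev w z] at h1
  have h2 := rho_lipschitz (R := R) z w
  have h3 := le_rho hR w
  have h4 := le_rho hR z
  have h5 : rho R z ≤ 2 * rho R w := by linarith
  have h6 : rho R w ≤ 2 * rho R z := by linarith
  have h7 := norm_le_rho (R := R) z
  rw [wt_deta_eq, wt_deta_eq, eta_eq hR]
  set a := rho R z with ha'
  set b := rho R w with hb'
  set δ := ‖z - w‖ with hδ
  have hδ0 : 0 ≤ δ := norm_nonneg _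
  have haC : (a : ℂ) ≠ 0 := by exact_mod_cast ha.ne'
  have hbC : (b : ℂ) ≠ 0 := by exact_mod_cast hb.ne'
  have e1 : -((R : ℂ) ^ 2 * ((w - 1) / ((b ^ 4 : ℝ) : ℂ))) -
      -((R : ℂ) ^ 2 * ((z - 1) / ((a ^ 4 : ℝ) : ℂ))) =
      (R : ℂ) ^ 2 * ((z - w) / ((b ^ 4 : ℝ) : ℂ) +
        (z - 1) * (((b ^ 4 - a ^ 4) / (a ^ 4 * b ^ 4) : ℝ) : ℂ)) := by
    push_cast
    field_simp
    ring
  rw [e1, norm_mul, norm_pow, Complex.norm_real, Real.norm_of_nonneg hR.le]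
  have hb16 : 1 / b ^ 4 ≤ 16 / a ^ 4 := by
    rw [div_le_div_iff₀ (by positivity) (by positivity)]
    have : a ^ 4 ≤ (2 * b) ^ 4 := pow_le_pow_left₀ ha.le h5 4
    nlinarith
  have n1 : ‖(z - w) / ((b ^ 4 : ℝ) : ℂ)‖ ≤ 16 * δ / a ^ 4 := by
    rw [norm_div, Complex.norm_real, Real.norm_of_nonneg (by positivity), ← hδ]
    calc δ / b ^ 4 = δ * (1 / b ^ 4) := by ring
      _ ≤ δ * (16 / a ^ 4) := mul_le_mul_of_nonneg_left hb16 hδ0
      _ = _ := by ring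
  have n3 : |b ^ 4 - a ^ 4| ≤ 15 * a ^ 3 * δ := by
    have e2 : b ^ 4 - a ^ 4 = (b - a) * ((b + a) * (b ^ 2 + a ^ 2)) := by ring
    rw [e2, abs_mul, abs_of_nonneg (by positivity : 0 ≤ (b + a) * (b ^ 2 + a ^ 2))]
    have q1 : |b - a| ≤ δ := by rw [abs_le]; constructor <;> linarith
    have q2 : (b + a) * (b ^ 2 + a ^ 2) ≤ (3 * a) * (5 * a ^ 2) := by
      refine mul_le_mul (by linarith) ?_ (by positivity) (by positivity)
      have : b ^ 2 ≤ (2 * a) ^ 2 := pow_le_pow_left₀ hb.le h6 2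
      linarith
    calc |b - a| * ((b + a) * (b ^ 2 + a ^ 2)) ≤ δ * ((3 * a) * (5 * a ^ 2)) :=
          mul_le_mul q1 q2 (by positivity) hδ0
      _ = _ := by ring
  have n2 : ‖(z - 1) * (((b ^ 4 - a ^ 4) / (a ^ 4 * b ^ 4) : ℝ) : ℂ)‖ ≤ 240 * δ / a ^ 4 := by
    rw [norm_mul, Complex.norm_real, Real.norm_eq_abs, abs_div,
      abs_of_nonneg (by positivity : 0 ≤ a ^ 4 * b ^ 4)]
    calc ‖z - 1‖ * (|b ^ 4 - a ^ 4| / (a ^ 4 * b ^ 4)) ≤
          a * ((15 * a ^ 3 * δ) / (a ^ 4 * b ^ 4)) := by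
          refine mul_le_mul h7 ?_ (by positivity) ha.le
          exact div_le_div_of_nonneg_right n3 (by positivity)
      _ = 15 * δ * (1 / b ^ 4) := by field_simp
      _ ≤ 15 * δ * (16 / a ^ 4) := mul_le_mul_of_nonneg_left hb16 (by positivity)
      _ = _ := by ring
  calc R ^ 2 * ‖(z - w) / ((b ^ 4 : ℝ) : ℂ) +
        (z - 1) * (((b ^ 4 - a ^ 4) / (a ^ 4 * b ^ 4) : ℝ) : ℂ)‖ ≤
        R ^ 2 * (16 * δ / a ^ 4 + 240 * δ / a ^ 4) :=
        mul_le_mul_of_nonneg_left ((norm_add_le _ _).trans (add_le_add n1 n2)) (by positivity)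
    _ = 256 * δ * (R ^ 2 / a ^ 2) / a ^ 2 := by
        field_simp
        ring

theorem contDiff_eta {R : ℝ} (hR : 0 < R) :
    ContDiff ℝ 1 (fun z : ℂ => ((eta R z : ℝ) : ℂ)) := by
  have h1 : ContDiff ℝ 1 (fun z : ℂ => R ^ 2 + ‖z - 1‖ ^ 2) :=
    contDiff_const.add ((contDiff_id.sub contDiff_const).norm_sq ℝ)
  have h2 : ContDiff ℝ 1 (fun z : ℂ => eta R z) := by
    unfold eta
    refine contDiff_const.div h1 fun z => ?_
    positivity
  exact Complex.ofRealCLM.contDiff.comp h2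

theorem dbar_eta {R : ℝ} (hR : 0 < R) (z : ℂ) :
    dbar (fun z : ℂ => ((eta R z : ℝ) : ℂ)) z = deta R z := by
  have hdiff : DifferentiableAt ℝ (fun z : ℂ => ((eta R z : ℝ) : ℂ)) z :=
    (contDiff_eta hR).differentiable (by norm_num) z
  have hline : ∀ v : ℂ, fderiv ℝ (fun z : ℂ => ((eta R z : ℝ) : ℂ)) z v =
      deriv (fun t : ℝ => ((eta R (z + t • v) : ℝ) : ℂ)) 0 := by
    intro v
    rw [← hdiff.lineDeriv_eq_fderiv]
    rfl
  have hnorm : ∀ w : ℂ, ‖w - 1‖ ^ 2 = (w.re - 1) ^ 2 + w.im ^ 2 := by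
    intro w
    rw [← Complex.normSq_eq_norm_sq, Complex.normSq_apply]
    simp
    ring
  have hD : (0 : ℝ) < R ^ 2 + ‖z - 1‖ ^ 2 := by positivity
  have hD' : (0 : ℝ) < R ^ 2 + ((z.re - 1) ^ 2 + z.im ^ 2) := by positivity
  have d1 : HasDerivAt (fun t : ℝ => ((eta R (z + t • (1 : ℂ)) : ℝ) : ℂ))
      ((-(2 * R ^ 2 * (z.re - 1)) / (R ^ 2 + ‖z - 1‖ ^ 2) ^ 2 : ℝ) : ℂ) 0 := by
    have e : (fun t : ℝ => eta R (z + t • (1 : ℂ))) =
        fun t : ℝ => R ^ 2 / (R ^ 2 + ((z.re - 1 + t) ^ 2 + z.im ^ 2)) := by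
      funext t
      unfold eta
      rw [hnorm]
      simp
      ring
    have h0 : HasDerivAt (fun t : ℝ => R ^ 2 + ((z.re - 1 + t) ^ 2 + z.im ^ 2))
        (2 * (z.re - 1)) 0 := by
      have := ((((hasDerivAt_id (0 : ℝ)).const_add (z.re - 1)).pow 2).add_const
        (z.im ^ 2)).const_add (R ^ 2)
      refine this.congr_deriv ?_
      simp
    have h1 : HasDerivAt (fun t : ℝ => R ^ 2 / (R ^ 2 + ((z.re - 1 + t) ^ 2 + z.im ^ 2)))
        (-(2 * R ^ 2 * (z.re - 1)) / (R ^ 2 + ‖z - 1‖ ^ 2) ^ 2) 0 := by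
      refine ((hasDerivAt_const (0 : ℝ) (R ^ 2)).div h0 ?_).congr_deriv ?_
      · rw [add_zero]; exact hD'.ne'
      · rw [hnorm, add_zero]
        ring
    rw [← e] at h1
    exact h1.ofReal_comp
  have d2 : HasDerivAt (fun t : ℝ => ((eta R (z + t • I) : ℝ) : ℂ))
      ((-(2 * R ^ 2 * z.im) / (R ^ 2 + ‖z - 1‖ ^ 2) ^ 2 : ℝ) : ℂ) 0 := by
    have e : (fun t : ℝ => eta R (z + t • I)) =
        fun t : ℝ => R ^ 2 / (R ^ 2 + ((z.re - 1) ^ 2 + (z.im + t) ^ 2)) := by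
      funext t
      unfold eta
      rw [hnorm]
      simp
    have h0 : HasDerivAt (fun t : ℝ => R ^ 2 + ((z.re - 1) ^ 2 + (z.im + t) ^ 2))
        (2 * z.im) 0 := by
      have := ((((hasDerivAt_id (0 : ℝ)).const_add z.im).pow 2).const_add
        ((z.re - 1) ^ 2)).const_add (R ^ 2)
      refine this.congr_deriv ?_
      simp
    have h1 : HasDerivAt (fun t : ℝ => R ^ 2 / (R ^ 2 + ((z.re - 1) ^ 2 + (z.im + t) ^ 2)))
        (-(2 * R ^ 2 * z.im) / (R ^ 2 + ‖z - 1‖ ^ 2) ^ 2) 0 := by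
      refine ((hasDerivAt_const (0 : ℝ) (R ^ 2)).div h0 ?_).congr_deriv ?_
      · rw [add_zero]; exact hD'.ne'
      · rw [hnorm, add_zero]
        ring
    rw [← e] at h1
    exact h1.ofReal_comp
  unfold dbar
  rw [hline, hline, d1.deriv, d2.deriv]
  unfold deta
  have hz : z - 1 = ((z.re - 1 : ℝ) : ℂ) + ((z.im : ℝ) : ℂ) * I := by
    apply Complex.ext <;> simp
  have hDC : ((R ^ 2 + ‖z - 1‖ ^ 2 : ℝ) : ℂ) ≠ 0 := by exact_mod_cast hD.ne'
  generalize (R ^ 2 + ‖z - 1‖ ^ 2 : ℝ) = D at *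
  rw [hz]
  push_cast
  field_simp
  ring

theorem eta_mono {R S : ℝ} (hR : 0 < R) (hRS : R ≤ S) (z : ℂ) : eta R z ≤ eta S z := by
  unfold eta
  have hS : 0 < S := hR.trans_le hRS
  have h : R ^ 2 ≤ S ^ 2 := pow_le_pow_left₀ hR.le hRS 2
  rw [div_le_div_iff₀ (by positivity) (by positivity)]
  nlinarith [sq_nonneg ‖z - 1‖]

end

end BergmanReg
end

section

section

/-!
# Pointwise inequalities (job BR-01)
-/

namespace BergmanReg

open MeasureTheory Metric Set Filter Topology Complex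
open scoped ENNReal NNReal ComplexConjugate

noncomputable section

theorem norm_psi {p : ℝ} (hp : 1 < p) (a : ℂ) : ‖psi p a‖ = ‖a‖ ^ (p - 1) := by
  unfold psi
  rw [norm_mul, Complex.norm_real, Real.norm_of_nonneg (by positivity)]
  rcases eq_or_ne a 0 with rfl | ha
  · rw [norm_zero, mul_zero, Real.zero_rpow (by linarith)]
  · have h : 0 < ‖a‖ := norm_pos_iff.2 ha
    nth_rewrite 2 [← Real.rpow_one ‖a‖]
    rw [← Real.rpow_add h]
    congr 1; ring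

theorem norm_vv {p : ℝ} (hp : 1 < p) (a : ℂ) : ‖vv p a‖ = ‖a‖ ^ (p / 2) := by
  unfold vv
  rw [norm_mul, Complex.norm_real, Real.norm_of_nonneg (by positivity)]
  rcases eq_or_ne a 0 with rfl | ha
  · rw [norm_zero, mul_zero, Real.zero_rpow (by linarith)]
  · have h : 0 < ‖a‖ := norm_pos_iff.2 ha
    nth_rewrite 2 [← Real.rpow_one ‖a‖]
    rw [← Real.rpow_add h]
    congr 1; ring

theorem mul_conj_psi {p : ℝ} (hp : 1 < p) (a : ℂ) :
    a * conj (psi p a) = ((‖a‖ ^ p : ℝ) : ℂ) := by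
  unfold psi
  rw [map_mul, Complex.conj_ofReal]
  rcases eq_or_ne a 0 with rfl | ha
  · rw [norm_zero, Real.zero_rpow (by linarith : p ≠ 0)]; simp
  · have h : 0 < ‖a‖ := norm_pos_iff.2 ha
    have h1 : a * conj a = ((‖a‖ ^ (2 : ℝ) : ℝ) : ℂ) := by
      rw [Complex.mul_conj, Complex.normSq_eq_norm_sq]
      norm_num
    rw [mul_left_comm, h1, ← Complex.ofReal_mul, ← Real.rpow_add h]
    congr 2; ring

/-- `a` in terms of `vv p a` -/
lemma pt_a_eq {p : ℝ} (hp : 1 < p) (a : ℂ) :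
    a = ((‖vv p a‖ ^ (2 / p - 1) : ℝ) : ℂ) * vv p a := by
  rcases eq_or_ne a 0 with rfl | ha
  · simp [vv]
  · have h : 0 < ‖a‖ := norm_pos_iff.2 ha
    rw [norm_vv hp, ← Real.rpow_mul h.le]
    unfold vv
    rw [← mul_assoc, ← Complex.ofReal_mul, ← Real.rpow_add h]
    have : p / 2 * (2 / p - 1) + (p / 2 - 1) = 0 := by
      have : p ≠ 0 := by linarith
      field_simp
      ring
    rw [this, Real.rpow_zero, Complex.ofReal_one, one_mul]

/-- `psi p a` in terms of `vv p a` -/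
lemma pt_psi_eq {p : ℝ} (hp : 1 < p) (a : ℂ) :
    psi p a = ((‖vv p a‖ ^ (-(2 / p - 1)) : ℝ) : ℂ) * vv p a := by
  rcases eq_or_ne a 0 with rfl | ha
  · simp [vv, psi]
  · have h : 0 < ‖a‖ := norm_pos_iff.2 ha
    rw [norm_vv hp, ← Real.rpow_mul h.le]
    unfold vv psi
    rw [← mul_assoc, ← Complex.ofReal_mul, ← Real.rpow_add h]
    congr 3
    have : p ≠ 0 := by linarith
    field_simp
    ring

/-- the real inequality behind monotonicity -/
lemma pt_key {m s t u : ℝ} (hm : |m| ≤ 1) (hs : 0 < s) (ht : 0 < t) (hu : |u| ≤ s * t) :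
    (1 - |m|) * (s ^ 2 + t ^ 2 - 2 * u) ≤
      s ^ 2 + t ^ 2 - u * ((s / t) ^ m + (s / t) ^ (-m)) := by
  have hlam : 0 < s / t := div_pos hs ht
  have hlam' : 0 < t / s := div_pos ht hs
  have hswap : (s / t) ^ m + (s / t) ^ (-m) = (s / t) ^ |m| + (s / t) ^ (-|m|) := by
    rcases abs_cases m with ⟨h, _⟩ | ⟨h, _⟩
    · rw [h]
    · rw [h, neg_neg, add_comm]
  rw [hswap]
  set μ := |m| with hμ
  have hμ0 : 0 ≤ μ := abs_nonneg m
  have hinv : (s / t) ^ (-μ) = (t / s) ^ μ := by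
    rw [Real.rpow_neg hlam.le, ← Real.inv_rpow hlam.le, inv_div]
  rw [hinv]
  have amgm : ∀ x : ℝ, 0 < x → x ^ μ ≤ (1 - μ) + μ * x := by
    intro x hx
    have h := Real.geom_mean_le_arith_mean2_weighted (by linarith : 0 ≤ 1 - μ) hμ0
      (zero_le_one : (0 : ℝ) ≤ 1) hx.le (by ring)
    rw [Real.one_rpow, one_mul, mul_one] at h
    exact h
  have h1 := amgm _ hlam
  have h2 := amgm _ hlam'
  have h3 : 2 ≤ (s / t) ^ μ + (t / s) ^ μ := by
    have hp : (s / t) ^ μ * (t / s) ^ μ = 1 := by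
      rw [← Real.mul_rpow hlam.le hlam'.le]
      rw [show s / t * (t / s) = 1 by field_simp, Real.one_rpow]
    have hp1 : 0 < (s / t) ^ μ := Real.rpow_pos_of_pos hlam _
    have hp2 : 0 < (t / s) ^ μ := Real.rpow_pos_of_pos hlam' _
    nlinarith [sq_nonneg ((s / t) ^ μ - (t / s) ^ μ)]
  have h4 : s * t * (s / t + t / s) = s ^ 2 + t ^ 2 := by field_simp
  have h4' : 0 < s / t + t / s := by positivity
  rcases le_total 0 u with hu0 | hu0
  · have hu' : u ≤ s * t := (le_abs_self u).trans hu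
    have h5 : u * (s / t + t / s) ≤ s ^ 2 + t ^ 2 := by rw [← h4]; gcongr
    have h6 : u * ((s / t) ^ μ + (t / s) ^ μ) ≤ u * (2 * (1 - μ) + μ * (s / t + t / s)) :=
      mul_le_mul_of_nonneg_left (by linarith) hu0
    nlinarith
  · have h5 : u * ((s / t) ^ μ + (t / s) ^ μ) ≤ u * 2 :=
      mul_le_mul_of_nonpos_left h3 hu0
    have h6 : 0 ≤ s ^ 2 + t ^ 2 - 2 * u := by nlinarith [sq_nonneg s, sq_nonneg t]
    nlinarith

/-- P1 -/
theorem mono_psi {p : ℝ} (hp : 1 < p) (a b : ℂ) :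
    (1 - |2 / p - 1|) * ‖vv p a - vv p b‖ ^ 2 ≤ ((a - b) * conj (psi p a - psi p b)).re := by
  have hm : |2 / p - 1| ≤ 1 := by
    rw [abs_le]
    have h1 : 2 / p < 2 := by rw [div_lt_iff₀ (by linarith)]; linarith
    have h2 : 0 < 2 / p := by positivity
    constructor <;> linarith
  have hvv : ∀ c : ℂ, ‖vv p c‖ ^ 2 = ‖c‖ ^ p := by
    intro c
    rw [norm_vv hp, ← Real.rpow_natCast, ← Real.rpow_mul (norm_nonneg _)]
    congr 1; push_cast; ring
  rcases eq_or_ne a 0 with rfl | ha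
  · have h0 : vv p 0 = 0 := by simp [vv]
    have h0' : psi p 0 = 0 := by simp [psi]
    rw [h0, h0', zero_sub, zero_sub, zero_sub, norm_neg, map_neg, neg_mul_neg, mul_conj_psi hp,
      Complex.ofReal_re, hvv]
    have : 0 ≤ ‖b‖ ^ p := by positivity
    nlinarith [abs_nonneg (2 / p - 1)]
  rcases eq_or_ne b 0 with rfl | hb
  · have h0 : vv p 0 = 0 := by simp [vv]
    have h0' : psi p 0 = 0 := by simp [psi]
    rw [h0, h0', sub_zero, sub_zero, sub_zero, mul_conj_psi hp,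
      Complex.ofReal_re, hvv]
    have : 0 ≤ ‖a‖ ^ p := by positivity
    nlinarith [abs_nonneg (2 / p - 1)]
  have hna : 0 < ‖vv p a‖ := by
    rw [norm_vv hp]; exact Real.rpow_pos_of_pos (norm_pos_iff.2 ha) _
  have hnb : 0 < ‖vv p b‖ := by
    rw [norm_vv hp]; exact Real.rpow_pos_of_pos (norm_pos_iff.2 hb) _
  set x := vv p a with hx
  set y := vv p b with hy
  set m := 2 / p - 1 with hmdef
  have ea : a = ((‖x‖ ^ m : ℝ) : ℂ) * x := pt_a_eq hp a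
  have eb : b = ((‖y‖ ^ m : ℝ) : ℂ) * y := pt_a_eq hp b
  have epa : psi p a = ((‖x‖ ^ (-m) : ℝ) : ℂ) * x := pt_psi_eq hp a
  have epb : psi p b = ((‖y‖ ^ (-m) : ℝ) : ℂ) * y := pt_psi_eq hp b
  have hu : |(x * conj y).re| ≤ ‖x‖ * ‖y‖ := by
    refine (Complex.abs_re_le_norm _).trans ?_
    rw [norm_mul, Complex.norm_conj]
  have key := pt_key hm hna hnb hu
  have lhs : ‖x - y‖ ^ 2 = ‖x‖ ^ 2 + ‖y‖ ^ 2 - 2 * (x * conj y).re := by
    rw [← Complex.normSq_eq_norm_sq, ← Complex.normSq_eq_norm_sq, ← Complex.normSq_eq_norm_sq,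
      Complex.normSq_sub]
  have rhs : ((a - b) * conj (psi p a - psi p b)).re =
      ‖x‖ ^ 2 + ‖y‖ ^ 2 - (x * conj y).re * ((‖x‖ / ‖y‖) ^ m + (‖x‖ / ‖y‖) ^ (-m)) := by
    have q1 : ‖x‖ ^ m * ‖x‖ ^ (-m) = 1 := by
      rw [← Real.rpow_add hna, add_neg_cancel, Real.rpow_zero]
    have q2 : ‖y‖ ^ m * ‖y‖ ^ (-m) = 1 := by
      rw [← Real.rpow_add hnb, add_neg_cancel, Real.rpow_zero]
    have q3 : (‖x‖ / ‖y‖) ^ m = ‖x‖ ^ m * ‖y‖ ^ (-m) := by
      rw [Real.div_rpow hna.le hnb.le, Real.rpow_neg hnb.le, div_eq_mul_inv]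
    have q4 : (‖x‖ / ‖y‖) ^ (-m) = ‖x‖ ^ (-m) * ‖y‖ ^ m := by
      rw [Real.div_rpow hna.le hnb.le, Real.rpow_neg hnb.le, div_inv_eq_mul]
    have nx : ‖x‖ ^ 2 = x.re * x.re + x.im * x.im := by
      rw [← Complex.normSq_eq_norm_sq, Complex.normSq_apply]
    have ny : ‖y‖ ^ 2 = y.re * y.re + y.im * y.im := by
      rw [← Complex.normSq_eq_norm_sq, Complex.normSq_apply]
    rw [epa, epb, q3, q4, nx, ny]
    nth_rewrite 1 [ea, eb]
    simp only [map_sub, map_mul, Complex.conj_ofReal, Complex.mul_re, Complex.sub_re,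
      Complex.sub_im, Complex.mul_im, Complex.ofReal_re, Complex.ofReal_im, Complex.conj_re,
      Complex.conj_im]
    set X := ‖x‖ ^ m
    set X' := ‖x‖ ^ (-m)
    set Y := ‖y‖ ^ m
    set Y' := ‖y‖ ^ (-m)
    linear_combination (x.re * x.re + x.im * x.im) * q1 + (y.re * y.re + y.im * y.im) * q2
  rw [lhs, rhs]
  exact key

lemma pt_pow_aux {μ s t : ℝ} (h1 : μ ≤ 1) (hs : 0 ≤ s) (hst : s ≤ t) :
    (t ^ μ - s ^ μ) * s ≤ (t - s) * t ^ μ := by
  rcases eq_or_lt_of_le (hs.trans hst) with ht | ht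
  · have : s = 0 := le_antisymm (by linarith) hs
    rw [← ht, this]; simp
  rcases eq_or_lt_of_le hs with hs0 | hs0
  · rw [← hs0, mul_zero, sub_zero]; positivity
  set c := s / t with hc
  have hc0 : 0 < c := by positivity
  have hc1 : c ≤ 1 := by rw [hc, div_le_one ht]; exact hst
  have hsc : s = c * t := by rw [hc]; field_simp
  have hsm : s ^ μ = c ^ μ * t ^ μ := by rw [hsc, Real.mul_rpow hc0.le ht.le]
  have htm : 0 < t ^ μ := Real.rpow_pos_of_pos ht _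
  have hcc : c ≤ c ^ μ := by
    calc c = c ^ (1 : ℝ) := (Real.rpow_one c).symm
      _ ≤ c ^ μ := Real.rpow_le_rpow_of_exponent_ge hc0 hc1 h1
  have key : (1 - c ^ μ) * c ≤ 1 - c := by nlinarith [sq_nonneg (1 - c)]
  rw [hsm, hsc]
  calc (t ^ μ - c ^ μ * t ^ μ) * (c * t) = ((1 - c ^ μ) * c) * (t * t ^ μ) := by ring
    _ ≤ (1 - c) * (t * t ^ μ) := by gcongr
    _ = (t - c * t) * t ^ μ := by ring

lemma pt_diff_aux {μ : ℝ} (h0 : 0 ≤ μ) (h1 : μ ≤ 1) (x y : ℂ) (hxy : ‖y‖ ≤ ‖x‖) :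
    ‖((‖x‖ ^ μ : ℝ) : ℂ) * x - ((‖y‖ ^ μ : ℝ) : ℂ) * y‖ ≤
      2 * ‖x - y‖ * (‖x‖ + ‖y‖) ^ μ := by
  have e : ((‖x‖ ^ μ : ℝ) : ℂ) * x - ((‖y‖ ^ μ : ℝ) : ℂ) * y =
      ((‖x‖ ^ μ : ℝ) : ℂ) * (x - y) + ((‖x‖ ^ μ - ‖y‖ ^ μ : ℝ) : ℂ) * y := by
    push_cast; ring
  have hmono : ‖y‖ ^ μ ≤ ‖x‖ ^ μ := Real.rpow_le_rpow (norm_nonneg _) hxy h0
  have haux := pt_pow_aux h1 (norm_nonneg y) hxy
  have hdist : ‖x‖ - ‖y‖ ≤ ‖x - y‖ := norm_sub_norm_le x y
  have hx : ‖x‖ ^ μ ≤ (‖x‖ + ‖y‖) ^ μ :=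
    Real.rpow_le_rpow (norm_nonneg _) (by linarith [norm_nonneg y]) h0
  have hx0 : 0 ≤ ‖x‖ ^ μ := by positivity
  rw [e]
  calc ‖((‖x‖ ^ μ : ℝ) : ℂ) * (x - y) + ((‖x‖ ^ μ - ‖y‖ ^ μ : ℝ) : ℂ) * y‖
      ≤ ‖((‖x‖ ^ μ : ℝ) : ℂ) * (x - y)‖ + ‖((‖x‖ ^ μ - ‖y‖ ^ μ : ℝ) : ℂ) * y‖ := norm_add_le _ _
    _ = ‖x‖ ^ μ * ‖x - y‖ + (‖x‖ ^ μ - ‖y‖ ^ μ) * ‖y‖ := by
        rw [norm_mul, norm_mul, Complex.norm_real, Complex.norm_real,
          Real.norm_of_nonneg hx0, Real.norm_of_nonneg (by linarith)]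
    _ ≤ ‖x‖ ^ μ * ‖x - y‖ + ‖x - y‖ * ‖x‖ ^ μ := by
        have h2 : (‖x‖ - ‖y‖) * ‖x‖ ^ μ ≤ ‖x - y‖ * ‖x‖ ^ μ :=
          mul_le_mul_of_nonneg_right hdist hx0
        linarith
    _ = 2 * ‖x - y‖ * ‖x‖ ^ μ := by ring
    _ ≤ 2 * ‖x - y‖ * (‖x‖ + ‖y‖) ^ μ := by gcongr

lemma pt_diff {μ : ℝ} (h0 : 0 ≤ μ) (h1 : μ ≤ 1) (x y : ℂ) :
    ‖((‖x‖ ^ μ : ℝ) : ℂ) * x - ((‖y‖ ^ μ : ℝ) : ℂ) * y‖ ≤
      2 * ‖x - y‖ * (‖x‖ + ‖y‖) ^ μ := by
  rcases le_total ‖y‖ ‖x‖ with h | h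
  · exact pt_diff_aux h0 h1 x y h
  · have := pt_diff_aux h0 h1 y x h
    rw [norm_sub_rev, norm_sub_rev x y, add_comm ‖x‖]
    exact this

/-- P2 -/
theorem diff_le_vv {p : ℝ} (hp : 1 < p) (hp2 : p ≤ 2) (a b : ℂ) :
    ‖a - b‖ ≤ 2 * ‖vv p a - vv p b‖ * (‖vv p a‖ + ‖vv p b‖) ^ (2 / p - 1) := by
  have h0 : 0 ≤ 2 / p - 1 := by
    have : 1 ≤ 2 / p := by rw [le_div_iff₀ (by linarith)]; linarith
    linarith
  have h1 : 2 / p - 1 ≤ 1 := by
    have : 2 / p ≤ 2 := by rw [div_le_iff₀ (by linarith)]; linarith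
    linarith
  have h := pt_diff h0 h1 (vv p a) (vv p b)
  rwa [← pt_a_eq hp a, ← pt_a_eq hp b] at h

/-- P3 -/
theorem psi_diff_le_vv {p : ℝ} (hp : 2 ≤ p) (a b : ℂ) :
    ‖psi p a - psi p b‖ ≤ 2 * ‖vv p a - vv p b‖ * (‖vv p a‖ + ‖vv p b‖) ^ (1 - 2 / p) := by
  have h0 : 0 ≤ 1 - 2 / p := by
    have : 2 / p ≤ 1 := by rw [div_le_iff₀ (by linarith)]; linarith
    linarith
  have h1 : 1 - 2 / p ≤ 1 := by
    have : 0 < 2 / p := by positivity
    linarith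
  have h := pt_diff h0 h1 (vv p a) (vv p b)
  have hp1 : 1 < p := by linarith
  rw [pt_psi_eq hp1 a, pt_psi_eq hp1 b, neg_sub]
  exact h

theorem measurable_psi (p : ℝ) : Measurable (psi p) := by
  unfold psi
  exact (Complex.measurable_ofReal.comp (measurable_norm.pow_const _)).mul measurable_id

theorem measurable_vv (p : ℝ) : Measurable (vv p) := by
  unfold vv
  exact (Complex.measurable_ofReal.comp (measurable_norm.pow_const _)).mul measurable_id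

theorem continuous_psi {p : ℝ} (hp : 1 < p) : Continuous (psi p) := by
  rw [continuous_iff_continuousAt]
  intro a
  rcases eq_or_ne a 0 with rfl | ha
  · have h0 : psi p 0 = 0 := by simp [psi]
    rw [ContinuousAt, h0, tendsto_zero_iff_norm_tendsto_zero]
    have h1 : Tendsto (fun z : ℂ => ‖z‖ ^ (p - 1)) (𝓝 0) (𝓝 (‖(0 : ℂ)‖ ^ (p - 1))) :=
      ((continuous_norm.continuousAt (x := (0 : ℂ))).rpow_const (Or.inr (by linarith))).tendsto
    rw [norm_zero, Real.zero_rpow (by linarith)] at h1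
    refine h1.congr ?_
    intro z
    rw [norm_psi hp]
  · unfold psi
    apply ContinuousAt.mul _ continuousAt_id
    apply Complex.continuous_ofReal.continuousAt.comp
    exact (continuous_norm.continuousAt).rpow_const (Or.inl (norm_ne_zero_iff.2 ha))

end

end BergmanReg
end

section

/-!
Change of variables and stability of the classes.
-/

namespace BergmanReg

open MeasureTheory Metric Set Filter Topology Complex
open scoped ENNReal NNReal ComplexConjugate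

noncomputable section

theorem sc_map {c : ℂ} (hc : c ≠ 0) :
    Measure.map (fun z : ℂ => c * z) volume = ENNReal.ofReal ((‖c‖ ^ 2)⁻¹) • volume := by
  have hpos : 0 < ‖c‖ ^ 2 := by
    have := norm_pos_iff.2 hc
    positivity
  have h1 : LinearMap.det (Algebra.lmul ℝ ℂ c) = ‖c‖ ^ 2 := by
    rw [← Algebra.norm_apply, Algebra.norm_complex_apply, Complex.normSq_eq_norm_sq]
  have h2 := Measure.map_linearMap_addHaar_eq_smul_addHaar (volume : Measure ℂ)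
    (f := Algebra.lmul ℝ ℂ c) (by rw [h1]; exact hpos.ne')
  rw [h1, abs_of_pos (inv_pos.2 hpos)] at h2
  exact h2

theorem sc_emb {c : ℂ} (hc : c ≠ 0) : MeasurableEmbedding (fun z : ℂ => c * z) :=
  measurableEmbedding_mulLeft₀ hc

theorem lintegral_comp_mul {c : ℂ} (hc : c ≠ 0) (f : ℂ → ℝ≥0∞) :
    ∫⁻ z, f (c * z) = ENNReal.ofReal ((‖c‖ ^ 2)⁻¹) * ∫⁻ z, f z := by
  rw [← (sc_emb hc).lintegral_map, sc_map hc, lintegral_smul_measure, smul_eq_mul]

theorem integral_comp_mul {c : ℂ} (hc : c ≠ 0) {E : Type*} [NormedAddCommGroup E]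
    [NormedSpace ℝ E] (f : ℂ → E) :
    ∫ z, f (c * z) = ((‖c‖ ^ 2)⁻¹ : ℝ) • ∫ z, f z := by
  rw [← (sc_emb hc).integral_map f, sc_map hc, integral_smul_measure,
    ENNReal.toReal_ofReal (by positivity)]

theorem integrable_comp_mul {c : ℂ} (hc : c ≠ 0) {E : Type*} [NormedAddCommGroup E]
    {f : ℂ → E} (hf : Integrable f) : Integrable (fun z => f (c * z)) := by
  have h1 : Integrable f (Measure.map (fun z : ℂ => c * z) volume) := by
    rw [sc_map hc]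
    exact hf.smul_measure ENNReal.ofReal_ne_top
  exact (sc_emb hc).integrable_map_iff.1 h1

theorem ae_comp_mul {c : ℂ} (hc : c ≠ 0) {P : ℂ → Prop} (h : ∀ᵐ z, P z) :
    ∀ᵐ z, P (c * z) := by
  refine ae_of_ae_map (sc_emb hc).measurable.aemeasurable ?_
  rw [sc_map hc]
  exact Measure.ae_smul_measure h _

theorem sc_mem_ball {u z : ℂ} (hu : ‖u‖ = 1) : u * z ∈ ball (0 : ℂ) 1 ↔ z ∈ ball (0 : ℂ) 1 := by
  rw [mem_ball_zero_iff, mem_ball_zero_iff, norm_mul, hu, one_mul]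

theorem sc_not_mem_ball {c z : ℂ} (hc : 1 ≤ ‖c‖) (hz : z ∉ ball (0 : ℂ) 1) :
    c * z ∉ ball (0 : ℂ) 1 := by
  rw [mem_ball_zero_iff, not_lt] at hz ⊢
  rw [norm_mul]
  nlinarith [norm_nonneg z]

theorem inAp_comp_mul {p : ℝ} {f : ℂ → ℂ} (hp : 1 < p) (hf : InAp p f) {u : ℂ} (hu : ‖u‖ = 1) :
    InAp p (fun z => f (u * z)) := by
  have hu0 : u ≠ 0 := by
    rintro rfl
    simp at hu
  refine ⟨?_, ?_, integrable_comp_mul hu0 hf.int⟩
  · refine hf.diff.comp (by fun_prop) ?_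
    intro z hz
    exact (sc_mem_ball hu).2 hz
  · intro z hz
    exact hf.zero _ (fun h => hz ((sc_mem_ball hu).1 h))

theorem inLq_comp_mul {q : ℝ} {g : ℂ → ℂ} (hq : 1 < q) (hg : InLq q g) {c : ℂ} (hc : 1 ≤ ‖c‖) :
    InLq q (fun z => g (c * z)) := by
  have hc0 : c ≠ 0 := by
    rintro rfl
    simp at hc
    linarith
  refine ⟨hg.meas.comp (sc_emb hc0).measurable, ?_, integrable_comp_mul hc0 hg.int⟩
  intro z hz
  exact hg.zero _ (sc_not_mem_ball hc hz)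

theorem orth_comp_mul {p : ℝ} {g : ℂ → ℂ} (hp : 1 < p) (hg : Orth p g)
    (hz : ∀ z, z ∉ ball (0 : ℂ) 1 → g z = 0) {c : ℂ} (hc : 1 ≤ ‖c‖) :
    Orth p (fun z => g (c * z)) := by
  have hc0 : c ≠ 0 := by
    rintro rfl
    simp at hc
    linarith
  intro f hf
  have hmaps : ∀ w ∈ ball (0 : ℂ) 1, c⁻¹ * w ∈ ball (0 : ℂ) 1 := by
    intro w hw
    rw [mem_ball_zero_iff] at hw ⊢
    rw [norm_mul, norm_inv]
    have h1 : ‖c‖⁻¹ ≤ 1 := inv_le_one_of_one_le₀ hc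
    nlinarith [norm_nonneg w]
  have hf1 : InAp p ((ball (0 : ℂ) 1).indicator fun w => f (c⁻¹ * w)) := by
    refine ⟨?_, ?_, ?_⟩
    · have h1 : DifferentiableOn ℂ (fun w => f (c⁻¹ * w)) (ball 0 1) :=
        hf.diff.comp (by fun_prop) hmaps
      refine h1.congr ?_
      intro w hw
      rw [indicator_of_mem hw]
    · intro z hz
      rw [indicator_of_notMem hz]
    · have h1 : Integrable ((ball (0 : ℂ) 1).indicator fun w => ‖f (c⁻¹ * w)‖ ^ p) :=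
        (integrable_comp_mul (inv_ne_zero hc0) hf.int).indicator measurableSet_ball
      refine h1.congr (ae_of_all _ fun w => ?_)
      by_cases hw : w ∈ ball (0 : ℂ) 1
      · simp only [indicator_of_mem hw]
      · simp only [indicator_of_notMem hw, norm_zero]
        rw [Real.zero_rpow (by linarith)]
  have h2 := hg _ hf1
  have h3 : ∀ z, f z * g (c * z) = (fun w => f (c⁻¹ * w) * g w) (c * z) := by
    intro z
    simp only
    rw [inv_mul_cancel_left₀ hc0]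
  have h4 : ∀ w, (ball (0 : ℂ) 1).indicator (fun w => f (c⁻¹ * w)) w * g w =
      f (c⁻¹ * w) * g w := by
    intro w
    by_cases hw : w ∈ ball (0 : ℂ) 1
    · rw [indicator_of_mem hw]
    · rw [hz w hw, mul_zero, mul_zero]
  rw [integral_congr_ae (ae_of_all _ h4)] at h2
  have h5 := integral_comp_mul hc0 (fun w => f (c⁻¹ * w) * g w)
  rw [h2, smul_zero] at h5
  rw [integral_congr_ae (ae_of_all _ h3)]
  exact h5

theorem ct_comp_mul (g : ℂ → ℂ) {c : ℂ} (hc : c ≠ 0) (z : ℂ) :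
    ct (fun w => g (c * w)) z = (conj c)⁻¹ * ct g (c * z) := by
  unfold ct
  have h1 : ∀ w, g (c * w) / (z - w) = (fun w' => c * (g w' / (c * z - w'))) (c * w) := by
    intro w
    simp only
    rw [← mul_sub, ← mul_div_assoc, mul_div_mul_left _ _ hc]
  have h5 : ∫ w, g (c * w) / (z - w) =
      ((‖c‖ ^ 2)⁻¹ : ℝ) • ∫ w', c * (g w' / (c * z - w')) :=
    (integral_congr_ae (ae_of_all _ h1)).trans
      (integral_comp_mul hc (fun w' => c * (g w' / (c * z - w'))))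
  rw [h5, integral_const_mul]
  have hc' : conj c ≠ 0 := by
    rwa [Ne, map_eq_zero]
  have h2 : ((‖c‖ ^ 2)⁻¹ : ℝ) • (c * ∫ w, g w / (c * z - w)) =
      (conj c)⁻¹ * ∫ w, g w / (c * z - w) := by
    rw [Complex.real_smul]
    push_cast
    rw [← Complex.mul_conj']
    field_simp
  rw [h2]
  ring

theorem inAp_measurable {p : ℝ} {f : ℂ → ℂ} (hf : InAp p f) : Measurable f := by
  classical
  have h1 : Measurable ((ball (0 : ℂ) 1).piecewise f 0) :=
    ContinuousOn.measurable_piecewise hf.diff.continuousOn continuousOn_const measurableSet_ball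
  have h2 : (ball (0 : ℂ) 1).piecewise f 0 = f := by
    funext z
    by_cases hz : z ∈ ball (0 : ℂ) 1
    · rw [piecewise_eq_of_mem _ _ _ hz]
    · rw [piecewise_eq_of_notMem _ _ _ hz, hf.zero z hz]
      rfl
  rwa [h2] at h1

theorem sc_gg_zero {p q : ℝ} {F k : ℂ → ℂ} (hF : InAp p F) (hk : InLq q k) (z : ℂ)
    (hz : z ∉ ball (0 : ℂ) 1) : gg p F k z = 0 := by
  unfold gg psi
  rw [hF.zero z hz, hk.zero z hz]
  simp

theorem pair_rot {p q : ℝ} (hpq : p.HolderConjugate q) {F k : ℂ → ℂ} (h : Pair p q F k) {u : ℂ}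
    (hu : ‖u‖ = 1) : Pair p q (fun z => F (u * z)) (fun z => k (u * z)) := by
  refine ⟨inAp_comp_mul hpq.lt h.hF hu, inLq_comp_mul hpq.symm.lt h.hk hu.ge, ?_⟩
  exact orth_comp_mul hpq.lt h.orth (sc_gg_zero h.hF h.hk) hu.ge

theorem pair_inLq {p q : ℝ} (hpq : p.HolderConjugate q) {F k : ℂ → ℂ} (h : Pair p q F k) :
    InLq q (gg p F k) := by
  have hq : 1 < q := hpq.symm.lt
  have hp : 1 < p := hpq.lt
  have hFm := inAp_measurable h.hF
  have hm : Measurable (gg p F k) := by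
    unfold gg
    exact Complex.continuous_conj.measurable.comp
      (((measurable_psi p).comp hFm).sub h.hk.meas)
  refine ⟨hm, sc_gg_zero h.hF h.hk, ?_⟩
  have hint : Integrable (fun z => (2 : ℝ) ^ q * (‖F z‖ ^ p + ‖k z‖ ^ q)) :=
    (h.hF.int.add h.hk.int).const_mul _
  refine hint.mono' ?_ (ae_of_all _ fun z => ?_)
  · exact (hm.norm.pow_const q).aestronglyMeasurable
  · rw [Real.norm_of_nonneg (Real.rpow_nonneg (norm_nonneg _) _)]
    have e1 : ‖F z‖ ^ p = ‖psi p (F z)‖ ^ q := by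
      rw [norm_psi hp, ← Real.rpow_mul (norm_nonneg _), hpq.sub_one_mul_conj]
    have e2 : ‖gg p F k z‖ ≤ 2 * max ‖psi p (F z)‖ ‖k z‖ := by
      unfold gg
      rw [RCLike.norm_conj]
      have := norm_sub_le (psi p (F z)) (k z)
      have a1 := le_max_left ‖psi p (F z)‖ ‖k z‖
      have a2 := le_max_right ‖psi p (F z)‖ ‖k z‖
      linarith
    have e3 : ‖gg p F k z‖ ^ q ≤ (2 * max ‖psi p (F z)‖ ‖k z‖) ^ q :=
      Real.rpow_le_rpow (norm_nonneg _) e2 (by linarith)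
    refine e3.trans ?_
    have hmx : 0 ≤ max ‖psi p (F z)‖ ‖k z‖ := le_trans (norm_nonneg _) (le_max_left _ _)
    rw [Real.mul_rpow (by norm_num) hmx, e1]
    refine mul_le_mul_of_nonneg_left ?_ (by positivity)
    rcases max_choice ‖psi p (F z)‖ ‖k z‖ with h1 | h1
    · rw [h1]
      have := Real.rpow_nonneg (norm_nonneg (k z)) q
      linarith
    · rw [h1]
      have := Real.rpow_nonneg (norm_nonneg (psi p (F z))) q
      linarith

end

end BergmanReg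
end
end
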