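import Pool.Agent.Lib.MP_efd5b3_an.Defs
import Pool.Agent.Lib.MP_efd5b3_an.Sc

/-!
Radial integrals and the Schur test.
-/

namespace BergmanReg

open MeasureTheory Metric Set Filter Topology Complex
open scoped ENNReal NNReal ComplexConjugate

noncomputable section

theorem ra_measurable_hh (ε r : ℝ) : Measurable (hh ε r) := by
  unfold hh
  fun_prop

theorem ra_hh_nonneg {ε r t : ℝ} (ht : 0 ≤ t) : 0 ≤ hh ε r t := by
  unfold hh
  exact mul_nonneg (Real.rpow_nonneg ht _) (Real.rpow_nonneg (le_trans ht (le_max_left _ _)) _)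

theorem ra_hh_scale {ε r s : ℝ} (hr : 0 < r) (hs : 0 ≤ s) :
    hh ε r (r * s) = r ^ (-2 - ε) * hh ε 1 s := by
  unfold hh
  have h1 : max (r * s) r = r * max s 1 := by
    rw [mul_max_of_nonneg _ _ hr.le, mul_one]
  have hm : 0 ≤ max s 1 := le_trans hs (le_max_left _ _)
  rw [h1, Real.mul_rpow hr.le hs, Real.mul_rpow hr.le hm]
  have h2 : r ^ (-2 - ε) = r ^ (-2 + ε) * r ^ (-(2 * ε)) := by
    rw [← Real.rpow_add hr]
    congr 1
    ring
  rw [h2]
  ring

theorem ra_integrable_hh_one {ε : ℝ} (hε : 0 < ε) :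
    Integrable (fun z : ℂ => hh ε 1 ‖z‖) := by
  rw [integrable_fun_norm_addHaar volume (f := hh ε 1), Complex.finrank_real_complex]
  have h0 : (2 - 1 : ℕ) = 1 := rfl
  rw [h0]
  have h1 : IntegrableOn (fun y : ℝ => y ^ 1 • hh ε 1 y) (Ioc 0 1) := by
    have h2 : IntegrableOn (fun y : ℝ => y ^ (-1 + ε)) (Ioc 0 1) := by
      have := intervalIntegral.intervalIntegrable_rpow' (a := 0) (b := 1) (r := -1 + ε)
        (by linarith)
      rwa [intervalIntegrable_iff_integrableOn_Ioc_of_le (by norm_num)] at this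
    refine h2.congr_fun ?_ measurableSet_Ioc
    intro y hy
    simp only [smul_eq_mul, pow_one]
    unfold hh
    rw [max_eq_right hy.2, Real.one_rpow, mul_one]
    have : y * y ^ (-2 + ε) = y ^ (1 + (-2 + ε)) := by
      rw [Real.rpow_add hy.1 1 (-2 + ε), Real.rpow_one]
    rw [this]
    congr 1
    ring
  have h3 : IntegrableOn (fun y : ℝ => y ^ 1 • hh ε 1 y) (Ioi 1) := by
    have h2 : IntegrableOn (fun y : ℝ => y ^ (-1 - ε)) (Ioi 1) :=
      integrableOn_Ioi_rpow_of_lt (by linarith) one_pos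
    refine h2.congr_fun ?_ measurableSet_Ioi
    intro y hy
    have hy' : (1 : ℝ) < y := hy
    have hy0 : 0 < y := by linarith
    simp only [smul_eq_mul, pow_one]
    unfold hh
    rw [max_eq_left hy'.le]
    have : y * (y ^ (-2 + ε) * y ^ (-(2 * ε))) = y ^ (1 + ((-2 + ε) + (-(2 * ε)))) := by
      rw [Real.rpow_add hy0 1 ((-2 + ε) + (-(2 * ε))), Real.rpow_one,
        Real.rpow_add hy0 (-2 + ε) (-(2 * ε))]
    rw [this]
    congr 1
    ring
  have h4 : Ioi (0 : ℝ) = Ioc 0 1 ∪ Ioi 1 := (Ioc_union_Ioi_eq_Ioi zero_le_one).symm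
  rw [h4]
  exact h1.union h3

theorem ra_lintegral_comp_smul {r : ℝ} (hr : 0 < r) {f : ℂ → ℝ≥0∞} (hf : Measurable f) :
    ∫⁻ z, f (r⁻¹ • z) = ENNReal.ofReal (r ^ 2) * ∫⁻ z, f z := by
  have h1 := Measure.map_addHaar_smul (volume : Measure ℂ) (r := r⁻¹) (by positivity)
  have h2 := lintegral_map (μ := (volume : Measure ℂ)) hf (measurable_const_smul (r⁻¹ : ℝ))
  rw [h1, lintegral_smul_measure, Complex.finrank_real_complex] at h2
  rw [← h2, smul_eq_mul]
  congr 2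
  rw [inv_pow, inv_inv, abs_of_nonneg (by positivity)]

theorem lintegral_hh {ε : ℝ} (hε : 0 < ε) (hε1 : ε < 1) :
    ∃ C : ℝ, 0 < C ∧ ∀ r : ℝ, 0 < r → ∀ a : ℂ,
      ∫⁻ z : ℂ, ENNReal.ofReal (hh ε r ‖z - a‖) ≤ ENNReal.ofReal (C * r ^ (-ε)) := by
  have hint := ra_integrable_hh_one hε
  set H : ℝ≥0∞ := ∫⁻ z : ℂ, ENNReal.ofReal (hh ε 1 ‖z‖) with hH
  have hHt : H < ⊤ := by
    have := hint.lintegral_lt_top
    exact this
  refine ⟨H.toReal + 1, by positivity, ?_⟩
  intro r hr a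
  have h1 : ∫⁻ z : ℂ, ENNReal.ofReal (hh ε r ‖z - a‖) = ∫⁻ z : ℂ, ENNReal.ofReal (hh ε r ‖z‖) :=
    lintegral_sub_right_eq_self (μ := (volume : Measure ℂ))
      (fun z => ENNReal.ofReal (hh ε r ‖z‖)) a
  have h2 : ∀ z : ℂ, ENNReal.ofReal (hh ε r ‖z‖) =
      ENNReal.ofReal (r ^ (-2 - ε)) * ENNReal.ofReal (hh ε 1 ‖r⁻¹ • z‖) := by
    intro z
    rw [← ENNReal.ofReal_mul (Real.rpow_nonneg hr.le _), ← ra_hh_scale hr (norm_nonneg _),
      norm_smul, Real.norm_of_nonneg (by positivity)]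
    congr 2
    field_simp
  have hm : Measurable fun z : ℂ => ENNReal.ofReal (hh ε 1 ‖z‖) :=
    ((ra_measurable_hh ε 1).comp measurable_norm).ennreal_ofReal
  have hm' : Measurable fun z : ℂ => ENNReal.ofReal (hh ε 1 ‖r⁻¹ • z‖) :=
    hm.comp (measurable_const_smul (r⁻¹ : ℝ))
  rw [h1, lintegral_congr h2, lintegral_const_mul _ hm', ra_lintegral_comp_smul hr hm, ← hH,
    ← mul_assoc, ← ENNReal.ofReal_mul (Real.rpow_nonneg hr.le _)]
  have h3 : r ^ (-2 - ε) * r ^ 2 = r ^ (-ε) := by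
    rw [← Real.rpow_natCast r 2, ← Real.rpow_add hr]
    congr 1
    push_cast
    ring
  rw [h3, ← ENNReal.ofReal_toReal hHt.ne, ← ENNReal.ofReal_mul (Real.rpow_nonneg hr.le _)]
  apply ENNReal.ofReal_le_ofReal
  rw [ENNReal.toReal_ofReal ENNReal.toReal_nonneg]
  have : 0 ≤ r ^ (-ε) := Real.rpow_nonneg hr.le _
  nlinarith

theorem lintegral_inv_norm (T : ℝ) :
    ∃ C : ℝ, 0 < C ∧ ∀ w : ℂ,
      ∫⁻ z in ball (0 : ℂ) T, ENNReal.ofReal (‖z - w‖⁻¹) ≤ ENNReal.ofReal C := by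
  have h1 : IntegrableOn (fun z : ℂ => (fun y : ℝ => y⁻¹) ‖z‖) (ball (0 : ℂ) 1) := by
    rw [integrableOn_fun_norm_addHaar volume (f := fun y : ℝ => y⁻¹) (r := 1),
      Complex.finrank_real_complex]
    have h2 : IntegrableOn (fun _ : ℝ => (1 : ℝ)) (Ioo 0 1) := by
      simp
    refine h2.congr_fun ?_ measurableSet_Ioo
    intro y hy
    have : y ≠ 0 := hy.1.ne'
    simp [this]
  set H : ℝ≥0∞ := ∫⁻ z in ball (0 : ℂ) 1, ENNReal.ofReal (‖z‖⁻¹) with hH
  have hHt : H < ⊤ := h1.lintegral_lt_top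
  have hV : volume (ball (0 : ℂ) T) < ⊤ := measure_ball_lt_top
  have hsum : H + volume (ball (0 : ℂ) T) < ⊤ := ENNReal.add_lt_top.2 ⟨hHt, hV⟩
  refine ⟨(H + volume (ball (0 : ℂ) T)).toReal + 1, by positivity, ?_⟩
  intro w
  have h3 : ∀ z : ℂ, ENNReal.ofReal (‖z - w‖⁻¹) ≤
      (ball (0 : ℂ) 1).indicator (fun z => ENNReal.ofReal (‖z‖⁻¹)) (z - w) + 1 := by
    intro z
    by_cases hz : z - w ∈ ball (0 : ℂ) 1
    · rw [indicator_of_mem hz]
      exact le_self_add
    · rw [indicator_of_notMem hz, zero_add]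
      rw [mem_ball_zero_iff, not_lt] at hz
      rw [ENNReal.ofReal_le_one]
      exact inv_le_one_of_one_le₀ hz
  have hm : Measurable fun z : ℂ => ENNReal.ofReal (‖z‖⁻¹) := by fun_prop
  have hm2 : Measurable fun z : ℂ =>
      (ball (0 : ℂ) 1).indicator (fun z => ENNReal.ofReal (‖z‖⁻¹)) (z - w) :=
    (hm.indicator measurableSet_ball).comp (measurable_id.sub_const w)
  calc ∫⁻ z in ball (0 : ℂ) T, ENNReal.ofReal (‖z - w‖⁻¹)
      ≤ ∫⁻ z in ball (0 : ℂ) T,
        ((ball (0 : ℂ) 1).indicator (fun z => ENNReal.ofReal (‖z‖⁻¹)) (z - w) + 1) :=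
        lintegral_mono fun z => h3 z
    _ = (∫⁻ z in ball (0 : ℂ) T,
        (ball (0 : ℂ) 1).indicator (fun z => ENNReal.ofReal (‖z‖⁻¹)) (z - w)) +
        volume (ball (0 : ℂ) T) := by
        rw [lintegral_add_left hm2, setLIntegral_one]
    _ ≤ (∫⁻ z : ℂ,
        (ball (0 : ℂ) 1).indicator (fun z => ENNReal.ofReal (‖z‖⁻¹)) (z - w)) +
        volume (ball (0 : ℂ) T) := by
        gcongr
        exact Measure.restrict_le_self
    _ = H + volume (ball (0 : ℂ) T) := by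
        rw [lintegral_sub_right_eq_self (μ := (volume : Measure ℂ))
          ((ball (0 : ℂ) 1).indicator (fun z => ENNReal.ofReal (‖z‖⁻¹))) w,
          lintegral_indicator measurableSet_ball]
    _ ≤ ENNReal.ofReal ((H + volume (ball (0 : ℂ) T)).toReal + 1) := by
        conv_lhs => rw [← ENNReal.ofReal_toReal hsum.ne]
        apply ENNReal.ofReal_le_ofReal
        linarith

/-! ## Schur -/

theorem ra_holder {Y : Type*} [MeasurableSpace Y] {ν : Measure Y} {q : ℝ} (hq : 1 < q)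
    {k g : Y → ℝ≥0∞} (hk : Measurable k) (hg : Measurable g) :
    (∫⁻ y, k y * g y ∂ν) ^ q ≤ (∫⁻ y, k y ∂ν) ^ (q - 1) * ∫⁻ y, k y * g y ^ q ∂ν := by
  have hq0 : 0 < q := by linarith
  have hq1 : 0 < q - 1 := by linarith
  have hpq : (q / (q - 1)).HolderConjugate q := by
    rw [Real.holderConjugate_iff]
    constructor
    · rw [lt_div_iff₀ hq1]; linarith
    · field_simp
      ring
  have h1 := ENNReal.lintegral_mul_le_Lp_mul_Lq ν hpq
    (f := fun y => k y ^ ((q - 1) / q)) (g := fun y => k y ^ (1 / q) * g y)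
    (hk.pow_const _).aemeasurable ((hk.pow_const _).mul hg).aemeasurable
  have e1 : ∀ y, ((fun y => k y ^ ((q - 1) / q)) * (fun y => k y ^ (1 / q) * g y)) y =
      k y * g y := by
    intro y
    simp only [Pi.mul_apply]
    rw [← mul_assoc, ← ENNReal.rpow_add_of_nonneg _ _ (by positivity) (by positivity)]
    have : (q - 1) / q + 1 / q = 1 := by field_simp; ring
    rw [this, ENNReal.rpow_one]
  have e2 : ∀ y, (k y ^ ((q - 1) / q)) ^ (q / (q - 1)) = k y := by
    intro y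
    rw [← ENNReal.rpow_mul]
    have : (q - 1) / q * (q / (q - 1)) = 1 := by field_simp
    rw [this, ENNReal.rpow_one]
  have e3 : ∀ y, (k y ^ (1 / q) * g y) ^ q = k y * g y ^ q := by
    intro y
    rw [ENNReal.mul_rpow_of_nonneg _ _ hq0.le, ← ENNReal.rpow_mul]
    have : 1 / q * q = 1 := by field_simp
    rw [this, ENNReal.rpow_one]
  rw [lintegral_congr e1, lintegral_congr e2, lintegral_congr e3] at h1
  calc (∫⁻ y, k y * g y ∂ν) ^ q
      ≤ ((∫⁻ y, k y ∂ν) ^ (1 / (q / (q - 1))) * (∫⁻ y, k y * g y ^ q ∂ν) ^ (1 / q)) ^ q :=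
        ENNReal.rpow_le_rpow h1 hq0.le
    _ = _ := by
        rw [ENNReal.mul_rpow_of_nonneg _ _ hq0.le, ← ENNReal.rpow_mul, ← ENNReal.rpow_mul]
        have a1 : 1 / q * q = 1 := by field_simp
        have a2 : 1 / (q / (q - 1)) * q = q - 1 := by field_simp
        rw [a1, a2, ENNReal.rpow_one]

theorem schur {X Y : Type*} [MeasurableSpace X] [MeasurableSpace Y] {μ : Measure X}
    {ν : Measure Y} [SFinite μ] [SFinite ν] {q : ℝ} (hq : 1 < q) {k : X → Y → ℝ≥0∞}
    (hk : Measurable (Function.uncurry k)) {g : Y → ℝ≥0∞} (hg : Measurable g)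
    {W A : X → ℝ≥0∞} (hW : Measurable W) (hA : Measurable A) {B : Y → ℝ≥0∞}
    (h1 : ∀ᵐ x ∂μ, ∫⁻ y, k x y ∂ν ≤ A x)
    (h2 : ∀ᵐ y ∂ν, ∫⁻ x, W x * A x ^ (q - 1) * k x y ∂μ ≤ B y) :
    ∫⁻ x, W x * (∫⁻ y, k x y * g y ∂ν) ^ q ∂μ ≤ ∫⁻ y, B y * g y ^ q ∂ν := by
  have hq0 : 0 < q := by linarith
  have hq1 : 0 < q - 1 := by linarith
  have hkx : ∀ x, Measurable (k x) := fun x => hk.of_uncurry_left
  have hgq : Measurable fun y => g y ^ q := hg.pow_const q
  have step1 : ∫⁻ x, W x * (∫⁻ y, k x y * g y ∂ν) ^ q ∂μ ≤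
      ∫⁻ x, ∫⁻ y, W x * A x ^ (q - 1) * k x y * g y ^ q ∂ν ∂μ := by
    refine lintegral_mono_ae ?_
    filter_upwards [h1] with x hx
    have e1 : ∫⁻ y, W x * A x ^ (q - 1) * k x y * g y ^ q ∂ν =
        W x * A x ^ (q - 1) * ∫⁻ y, k x y * g y ^ q ∂ν := by
      have hm : Measurable fun y => k x y * g y ^ q := (hkx x).mul hgq
      rw [← lintegral_const_mul _ hm]
      refine lintegral_congr fun y => ?_
      rw [mul_assoc]
    rw [e1, mul_assoc]
    gcongr
    refine (ra_holder hq (hkx x) hg).trans ?_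
    gcongr
  have hmeas : Measurable (Function.uncurry fun x y => W x * A x ^ (q - 1) * k x y * g y ^ q) := by
    have a1 : Measurable fun p : X × Y => W p.1 := hW.comp measurable_fst
    have a2 : Measurable fun p : X × Y => A p.1 ^ (q - 1) :=
      (hA.comp measurable_fst).pow_const _
    have a3 : Measurable fun p : X × Y => g p.2 ^ q := (hg.comp measurable_snd).pow_const _
    exact ((a1.mul a2).mul hk).mul a3
  refine step1.trans ?_
  rw [lintegral_lintegral_swap hmeas.aemeasurable]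
  refine lintegral_mono_ae ?_
  filter_upwards [h2] with y hy
  have hm : Measurable fun x => W x * A x ^ (q - 1) * k x y :=
    (hW.mul (hA.pow_const _)).mul hk.of_uncurry_right
  rw [lintegral_mul_const _ hm]
  gcongr

end

end BergmanReg
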