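import Pool.Agent.Lib.MP_efd5b3_an.Defs
import Pool.Agent.Lib.MP_efd5b3_an.Ra
import Pool.Agent.Lib.MP_efd5b3_an.Sc

section

section

/-!
# The Cauchy-Pompeiu formula for compactly supported functions on the plane
-/

namespace BergmanReg

open MeasureTheory Metric Set Filter Topology Complex
open scoped ENNReal NNReal ComplexConjugate

noncomputable section

/-- the unit vector with angle `θ` -/
def cpE (θ : ℝ) : ℂ := (Real.cos θ : ℂ) + (Real.sin θ : ℂ) * I

theorem cp_E_cont : Continuous cpE := by unfold cpE; fun_prop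

theorem cp_E_norm (θ : ℝ) : ‖cpE θ‖ = 1 := by
  have : cpE θ = Complex.exp (θ * I) := by
    rw [cpE, Complex.exp_mul_I, Complex.ofReal_cos, Complex.ofReal_sin]
  rw [this, Complex.norm_exp_ofReal_mul_I]

theorem cp_E_ne (θ : ℝ) : cpE θ ≠ 0 := by
  intro h
  have := cp_E_norm θ
  rw [h, norm_zero] at this
  exact zero_ne_one this

theorem cp_E_deriv (θ : ℝ) : HasDerivAt cpE (I * cpE θ) θ := by
  have h1 : HasDerivAt (fun θ : ℝ => ((Real.cos θ : ℝ) : ℂ)) ((-Real.sin θ : ℝ) : ℂ) θ :=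
    (Real.hasDerivAt_cos θ).ofReal_comp
  have h2 : HasDerivAt (fun θ : ℝ => ((Real.sin θ : ℝ) : ℂ)) ((Real.cos θ : ℝ) : ℂ) θ :=
    (Real.hasDerivAt_sin θ).ofReal_comp
  refine (h1.add (h2.mul_const I)).congr_deriv ?_
  have : I * I = -1 := Complex.I_mul_I
  unfold cpE
  push_cast
  linear_combination (-Complex.sin (θ : ℂ)) * this

theorem cp_dbar_div {L : ℂ →L[ℝ] ℂ} (θ : ℝ) :
    (L 1 + I * L I) / cpE θ = L (cpE θ) + I * L (I * cpE θ) := by
  rw [div_eq_iff (cp_E_ne θ)]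
  have e1 : L (cpE θ) = (Real.cos θ : ℂ) * L 1 + (Real.sin θ : ℂ) * L I := by
    have : cpE θ = Real.cos θ • (1 : ℂ) + Real.sin θ • I := by
      simp [cpE]
    rw [this, map_add, map_smul, map_smul]
    simp
  have e2 : L (I * cpE θ) = -(Real.sin θ : ℂ) * L 1 + (Real.cos θ : ℂ) * L I := by
    have : I * cpE θ = (-Real.sin θ) • (1 : ℂ) + Real.cos θ • I := by
      have hI : I * I = -1 := Complex.I_mul_I
      simp only [cpE, real_smul]
      push_cast
      linear_combination (Complex.sin (θ : ℂ)) * hI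
    rw [this, map_add, map_smul, map_smul]
    simp
  rw [e1, e2, cpE]
  have hI : I * I = -1 := Complex.I_mul_I
  have hs : (Real.cos θ : ℂ) ^ 2 + (Real.sin θ : ℂ) ^ 2 = 1 := by
    have := Real.cos_sq_add_sin_sq θ
    exact_mod_cast this
  linear_combination (-(L 1) - I * L I) * hs + (Real.sin θ : ℂ) * (Real.sin θ : ℂ) * L 1 * hI -
    (Real.sin θ : ℂ) * (Real.cos θ : ℂ) * L I * hI

theorem cp_support {φ : ℂ → ℂ} (hc : HasCompactSupport φ) :
    ∃ T : ℝ, 0 < T ∧ ∀ z, T ≤ ‖z‖ → φ z = 0 ∧ fderiv ℝ φ z = 0 := by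
  obtain ⟨R, hR⟩ := hc.isCompact.isBounded.subset_closedBall 0
  refine ⟨max R 0 + 1, by positivity, fun z hz => ?_⟩
  have hz' : z ∉ tsupport φ := fun h => by
    have h1 := hR h
    rw [mem_closedBall_zero_iff] at h1
    have h2 := le_max_left R 0
    linarith
  exact ⟨image_eq_zero_of_notMem_tsupport hz',
    image_eq_zero_of_notMem_tsupport (fun h => hz' (tsupport_fderiv_subset ℝ h))⟩

theorem cp_radial {φ : ℂ → ℂ} (hφ : ContDiff ℝ 1 φ) {T : ℝ} (hT0 : 0 < T)
    (hT : ∀ z, T ≤ ‖z‖ → φ z = 0 ∧ fderiv ℝ φ z = 0) (θ : ℝ) :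
    ∫ r in Ioc 0 T, fderiv ℝ φ (r * cpE θ) (cpE θ) = -φ 0 := by
  have hd : ∀ r : ℝ, HasDerivAt (fun r : ℝ => φ (r * cpE θ)) (fderiv ℝ φ (r * cpE θ) (cpE θ)) r := by
    intro r
    have h1 : HasDerivAt (fun r : ℝ => (r : ℂ) * cpE θ) (cpE θ) r := by
      simpa using (Complex.ofRealCLM.hasDerivAt (x := r)).mul_const (cpE θ)
    exact ((hφ.differentiable one_ne_zero) _).hasFDerivAt.comp_hasDerivAt r h1
  have hcont : Continuous (fun r : ℝ => fderiv ℝ φ (r * cpE θ) (cpE θ)) := by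
    have := hφ.continuous_fderiv one_ne_zero
    exact (this.comp (by fun_prop)).clm_apply continuous_const
  rw [← intervalIntegral.integral_of_le hT0.le,
    intervalIntegral.integral_eq_sub_of_hasDerivAt (fun r _ => hd r) (hcont.intervalIntegrable _ _)]
  have h2 : φ ((T : ℂ) * cpE θ) = 0 := (hT _ (by
    rw [norm_mul, cp_E_norm, Complex.norm_real, Real.norm_eq_abs, abs_of_pos hT0, mul_one])).1
  rw [h2]
  simp

theorem cp_angular {φ : ℂ → ℂ} (hφ : ContDiff ℝ 1 φ) {r : ℝ} (hr : 0 < r) :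
    ∫ θ in Ioo (-Real.pi) Real.pi, fderiv ℝ φ (r * cpE θ) (I * cpE θ) = 0 := by
  have hd : ∀ θ : ℝ, HasDerivAt (fun θ : ℝ => (r⁻¹ : ℝ) • φ (r * cpE θ))
      (fderiv ℝ φ (r * cpE θ) (I * cpE θ)) θ := by
    intro θ
    have h1 : HasDerivAt (fun θ : ℝ => (r : ℂ) * cpE θ) ((r : ℝ) • (I * cpE θ)) θ := by
      simpa using (cp_E_deriv θ).const_mul (r : ℂ)
    have h2 := (((hφ.differentiable one_ne_zero) (r * cpE θ)).hasFDerivAt.comp_hasDerivAt θ h1).const_smul
      (r⁻¹ : ℝ)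
    refine h2.congr_deriv ?_
    rw [map_smul, smul_smul, inv_mul_cancel₀ hr.ne', one_smul]
  have hcont : Continuous (fun θ : ℝ => fderiv ℝ φ (r * cpE θ) (I * cpE θ)) := by
    have h1 := hφ.continuous_fderiv one_ne_zero
    have h2 := cp_E_cont
    exact (h1.comp (by fun_prop)).clm_apply (by fun_prop)
  have hpi := Real.pi_pos
  rw [← integral_Ioc_eq_integral_Ioo, ← intervalIntegral.integral_of_le (by linarith),
    intervalIntegral.integral_eq_sub_of_hasDerivAt (fun r _ => hd r) (hcont.intervalIntegrable _ _)]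
  have : cpE Real.pi = cpE (-Real.pi) := by simp [cpE]
  rw [this, sub_self]

theorem cp_zero {φ : ℂ → ℂ} (hφ : ContDiff ℝ 1 φ) (hc : HasCompactSupport φ) :
    ∫ z, dbar φ z / z = -(Real.pi : ℂ) * φ 0 := by
  obtain ⟨T, hT0, hT⟩ := cp_support hc
  have hpi := Real.pi_pos
  have h1 := hφ.continuous_fderiv one_ne_zero
  have h2 := cp_E_cont
  set G1 : ℝ × ℝ → ℂ := fun p => fderiv ℝ φ (p.1 * cpE p.2) (cpE p.2) with hG1
  set G2 : ℝ × ℝ → ℂ := fun p => fderiv ℝ φ (p.1 * cpE p.2) (I * cpE p.2) with hG2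
  have c1 : Continuous G1 := (h1.comp (by fun_prop)).clm_apply (by fun_prop)
  have c2 : Continuous G2 := (h1.comp (by fun_prop)).clm_apply (by fun_prop)
  have hI : ∀ G : ℝ × ℝ → ℂ, Continuous G →
      IntegrableOn G (Ioc 0 T ×ˢ Ioo (-Real.pi) Real.pi) := by
    intro G cG
    refine (cG.continuousOn.integrableOn_compact (isCompact_Icc.prod isCompact_Icc)).mono_set
      (t := Icc 0 T ×ˢ Icc (-Real.pi) Real.pi) ?_
    exact prod_mono Ioc_subset_Icc_self Ioo_subset_Icc_self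
  rw [← Complex.integral_comp_polarCoord_symm]
  have e1 : ∫ p in polarCoord.target, p.1 • (dbar φ (Complex.polarCoord.symm p) /
      Complex.polarCoord.symm p) = ∫ p in Ioi (0:ℝ) ×ˢ Ioo (-Real.pi) Real.pi,
        (1 / 2 : ℂ) * (G1 p + I * G2 p) := by
    refine setIntegral_congr_fun (measurableSet_Ioi.prod measurableSet_Ioo) fun p hp => ?_
    have hp1 : (0:ℝ) < p.1 := hp.1
    have e2 : Complex.polarCoord.symm p = p.1 * cpE p.2 := by
      rw [Complex.polarCoord_symm_apply, cpE]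
    have e3 := cp_dbar_div (L := fderiv ℝ φ (p.1 * cpE p.2)) p.2
    simp only [e2, dbar, hG1, hG2, real_smul]
    rw [← e3]
    have hp2 : (p.1 : ℂ) ≠ 0 := by exact_mod_cast hp1.ne'
    have hp3 := cp_E_ne p.2
    field_simp
  rw [e1]
  have e4 : ∫ p in Ioi (0:ℝ) ×ˢ Ioo (-Real.pi) Real.pi, (1 / 2 : ℂ) * (G1 p + I * G2 p) =
      ∫ p in Ioc 0 T ×ˢ Ioo (-Real.pi) Real.pi, (1 / 2 : ℂ) * (G1 p + I * G2 p) := by
    refine setIntegral_eq_of_subset_of_forall_sdiff_eq_zero (measurableSet_Ioi.prod measurableSet_Ioo)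
      (prod_mono Ioc_subset_Ioi_self subset_rfl) ?_
    intro p hp
    have hp1 : (0:ℝ) < p.1 := hp.1.1
    have hp2 : T ≤ p.1 := by
      by_contra hcon
      exact hp.2 ⟨⟨hp1, (not_le.1 hcon).le⟩, hp.1.2⟩
    have e5 : fderiv ℝ φ (p.1 * cpE p.2) = 0 := (hT _ (by
      rw [norm_mul, cp_E_norm, Complex.norm_real, Real.norm_eq_abs, abs_of_pos hp1, mul_one]
      exact hp2)).2
    simp [hG1, hG2, e5]
  have e6 : ∫ p in Ioc 0 T ×ˢ Ioo (-Real.pi) Real.pi, G1 p = -(2 * Real.pi : ℂ) * φ 0 := by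
    rw [Measure.volume_eq_prod, ← Measure.prod_restrict, integral_prod_symm]
    · have : ∀ θ : ℝ, ∫ r in Ioc 0 T, G1 (r, θ) = -φ 0 := fun θ => cp_radial hφ hT0 hT θ
      simp_rw [this]
      rw [setIntegral_const, real_smul, Measure.real, Real.volume_Ioo,
        ENNReal.toReal_ofReal (by linarith)]
      push_cast
      ring
    · rw [Measure.prod_restrict]
      exact hI G1 c1
  have e7 : ∫ p in Ioc 0 T ×ˢ Ioo (-Real.pi) Real.pi, G2 p = 0 := by
    rw [Measure.volume_eq_prod, setIntegral_prod _ (hI G2 c2)]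
    refine (setIntegral_congr_fun measurableSet_Ioc fun r hr => ?_).trans (integral_zero _ _)
    exact cp_angular hφ hr.1
  rw [e4, integral_const_mul, integral_add (hI G1 c1) ((hI G2 c2).const_mul I), e6,
    integral_const_mul, e7]
  ring

theorem cauchy_pompeiu {φ : ℂ → ℂ} (hφ : ContDiff ℝ 1 φ) (hc : HasCompactSupport φ) (w : ℂ) :
    ∫ z, dbar φ z / (z - w) = -(Real.pi : ℂ) * φ w := by
  have h := cp_zero (φ := fun z => φ (z + w)) (hφ.comp (contDiff_id.add contDiff_const))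
    (hc.comp_homeomorph (Homeomorph.addRight w))
  rw [zero_add] at h
  rw [← h, ← integral_add_right_eq_self _ w]
  refine integral_congr_ae (ae_of_all _ fun z => ?_)
  simp only [dbar, add_sub_cancel_right]
  rw [fderiv_comp_add_right]

end

end BergmanReg
end

section

/-!
# Basic facts on the Cauchy transform
-/

namespace BergmanReg

open MeasureTheory Metric Set Filter Topology Complex
open scoped ENNReal NNReal ComplexConjugate

noncomputable section

theorem inLq_integrable {q : ℝ} (hq : 1 < q) {g : ℂ → ℂ} (hg : InLq q g) : Integrable g := by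
  have h2 : Integrable ((ball (0:ℂ) 1).indicator (fun _ : ℂ => (1:ℝ))) := by
    rw [integrable_indicator_iff measurableSet_ball, integrableOn_const_iff]
    right
    exact measure_ball_lt_top
  refine (h2.add hg.int).mono' hg.meas.aestronglyMeasurable (ae_of_all _ fun z => ?_)
  by_cases hz : z ∈ ball (0:ℂ) 1
  · simp only [Pi.add_apply, indicator_of_mem hz]
    rcases le_total ‖g z‖ 1 with h | h
    · have := Real.rpow_nonneg (norm_nonneg (g z)) q
      linarith
    · have := Real.self_le_rpow_of_one_le h hq.le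
      linarith
  · rw [hg.zero z hz, norm_zero]
    simp only [Pi.add_apply, indicator_of_notMem hz, zero_add]
    positivity

/-- the kernel -/
def ct_k (z w : ℂ) : ℝ≥0∞ := ENNReal.ofReal (‖z - w‖⁻¹)

theorem ct_k_meas : Measurable (Function.uncurry ct_k) := by
  unfold ct_k Function.uncurry
  exact ENNReal.measurable_ofReal.comp ((measurable_fst.sub measurable_snd).norm.inv)

theorem ct_k_meas_left (w : ℂ) : Measurable (fun z => ct_k z w) :=
  ct_k_meas.comp (measurable_id.prodMk measurable_const)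

theorem ct_k_meas_right (z : ℂ) : Measurable (fun w => ct_k z w) :=
  ct_k_meas.comp (measurable_const.prodMk measurable_id)

theorem ct_k_symm (z w : ℂ) : ct_k z w = ct_k w z := by rw [ct_k, ct_k, norm_sub_rev]

theorem ct_enorm_div (a z w : ℂ) : ‖a / (z - w)‖ₑ = ‖a‖ₑ * ct_k z w := by
  rw [ct_k, ← ofReal_norm, ← ofReal_norm, norm_div, div_eq_mul_inv,
    ENNReal.ofReal_mul (norm_nonneg _)]

theorem ct_tonelli {g : ℂ → ℂ} (hm : Measurable g) (hg : Integrable g) (T : ℝ) :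
    ∫⁻ z in ball (0:ℂ) T, ∫⁻ w, ‖g w‖ₑ * ct_k z w < ⊤ := by
  obtain ⟨C, -, hC⟩ := lintegral_inv_norm T
  rw [lintegral_lintegral_swap]
  · calc ∫⁻ w, ∫⁻ z in ball (0:ℂ) T, ‖g w‖ₑ * ct_k z w
        = ∫⁻ w, ‖g w‖ₑ * ∫⁻ z in ball (0:ℂ) T, ct_k z w := by
          refine lintegral_congr fun w => ?_
          rw [lintegral_const_mul]
          exact ct_k_meas.comp (measurable_id.prodMk measurable_const)
      _ ≤ ∫⁻ w, ‖g w‖ₑ * ENNReal.ofReal C := by
          refine lintegral_mono fun w => ?_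
          gcongr
          exact hC w
      _ = (∫⁻ w, ‖g w‖ₑ) * ENNReal.ofReal C := lintegral_mul_const _ hm.enorm
      _ < ⊤ := ENNReal.mul_lt_top hg.2 ENNReal.ofReal_lt_top
  · exact ((hm.enorm.comp measurable_snd).mul ct_k_meas).aemeasurable

theorem ct_ae_meas {g : ℂ → ℂ} (hm : Measurable g) (hg : Integrable g) :
    ∀ᵐ z, Integrable (fun w => g w / (z - w)) := by
  have h1 : ∀ N : ℕ, ∀ᵐ z : ℂ, z ∈ ball (0:ℂ) N → ∫⁻ w, ‖g w‖ₑ * ct_k z w < ⊤ := by
    intro N
    have h2 := ae_lt_top (μ := volume.restrict (ball (0:ℂ) N))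
      (f := fun z => ∫⁻ w, ‖g w‖ₑ * ct_k z w) ?_ (ct_tonelli hm hg N).ne
    · exact (ae_restrict_iff' measurableSet_ball).1 h2
    · exact ((hm.enorm.comp measurable_snd).mul ct_k_meas).lintegral_prod_right'
  filter_upwards [ae_all_iff.2 h1] with z hz
  obtain ⟨N, hN⟩ := exists_nat_gt ‖z‖
  have h3 := hz N (by rwa [mem_ball_zero_iff])
  refine ⟨?_, ?_⟩
  · exact (hm.div (measurable_const.sub measurable_id)).aestronglyMeasurable
  · rw [HasFiniteIntegral]
    simp_rw [ct_enorm_div]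
    exact h3

theorem ae_integrable_cauchy {g : ℂ → ℂ} (hg : Integrable g) :
    ∀ᵐ z, Integrable (fun w => g w / (z - w)) := by
  have h1 := hg.1.stronglyMeasurable_mk.measurable
  have h2 := hg.1.ae_eq_mk
  have h3 := ct_ae_meas h1 (hg.congr h2)
  filter_upwards [h3] with z hz
  refine hz.congr ?_
  filter_upwards [h2] with w hw
  rw [hw]

theorem ct_kernel_meas {g : ℂ → ℂ} (hg : Measurable g) :
    Measurable (Function.uncurry fun z w : ℂ => g w / (z - w)) :=
  (hg.comp measurable_snd).div (measurable_fst.sub measurable_snd)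

theorem stronglyMeasurable_ct {g : ℂ → ℂ} (hg : Measurable g) : StronglyMeasurable (ct g) := by
  have h := (ct_kernel_meas hg).stronglyMeasurable.integral_prod_right (ν := (volume : Measure ℂ))
  exact h.const_mul _

theorem ct_dbar_cont {φ : ℂ → ℂ} (hφ : ContDiff ℝ 1 φ) : Continuous (dbar φ) := by
  have h1 := hφ.continuous_fderiv one_ne_zero
  have h2 : Continuous fun z => fderiv ℝ φ z 1 := h1.clm_apply continuous_const
  have h3 : Continuous fun z => fderiv ℝ φ z I := h1.clm_apply continuous_const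
  unfold dbar
  fun_prop

theorem ct_dbar_supp {φ : ℂ → ℂ} (hφ : ContDiff ℝ 1 φ) (hc : HasCompactSupport φ) :
    ∃ B T : ℝ, 0 ≤ B ∧ ∀ z, ‖dbar φ z‖ₑ ≤ (ball (0:ℂ) T).indicator (fun _ => ENNReal.ofReal B) z := by
  obtain ⟨R, hR⟩ := hc.isCompact.isBounded.subset_closedBall 0
  have h0 : ∀ z, z ∉ ball (0:ℂ) (R + 1) → dbar φ z = 0 := by
    intro z hz
    have hz' : z ∉ tsupport φ := fun h => by
      have h1 := hR h
      rw [mem_closedBall_zero_iff] at h1
      rw [mem_ball_zero_iff] at hz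
      linarith
    have : fderiv ℝ φ z = 0 :=
      image_eq_zero_of_notMem_tsupport (fun h => hz' (tsupport_fderiv_subset ℝ h))
    simp [dbar, this]
  obtain ⟨B, hB⟩ := (isCompact_closedBall (0:ℂ) (R + 1)).exists_bound_of_continuousOn
    (ct_dbar_cont hφ).continuousOn
  refine ⟨max B 0, R + 1, le_max_right _ _, fun z => ?_⟩
  by_cases hz : z ∈ ball (0:ℂ) (R + 1)
  · rw [indicator_of_mem hz, ← ofReal_norm]
    exact ENNReal.ofReal_le_ofReal ((hB z (ball_subset_closedBall hz)).trans (le_max_left _ _))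
  · rw [h0 z hz]
    simp

theorem weak_dbar {g : ℂ → ℂ} (hg : Integrable g) (hm : Measurable g) {φ : ℂ → ℂ}
    (hφ : ContDiff ℝ 1 φ) (hc : HasCompactSupport φ) :
    ∫ z, dbar φ z * ct g z = -∫ z, φ z * g z := by
  obtain ⟨B, T, hB0, hB⟩ := ct_dbar_supp hφ hc
  have mφ := (ct_dbar_cont hφ).measurable
  have hm2 : Measurable (Function.uncurry fun z w : ℂ => dbar φ z * (g w / (z - w))) :=
    (mφ.comp measurable_fst).mul (ct_kernel_meas hm)
  have hint : Integrable (Function.uncurry fun z w : ℂ => dbar φ z * (g w / (z - w)))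
      ((volume : Measure ℂ).prod volume) := by
    refine ⟨hm2.aestronglyMeasurable, ?_⟩
    rw [HasFiniteIntegral, lintegral_prod _ hm2.enorm.aemeasurable]
    calc ∫⁻ z, ∫⁻ w, ‖Function.uncurry (fun z w : ℂ => dbar φ z * (g w / (z - w))) (z, w)‖ₑ
        ≤ ∫⁻ z, (ball (0:ℂ) T).indicator (fun z => ENNReal.ofReal B * ∫⁻ w, ‖g w‖ₑ * ct_k z w) z := by
          refine lintegral_mono fun z => ?_
          have e1 : ∀ w, ‖Function.uncurry (fun z w : ℂ => dbar φ z * (g w / (z - w))) (z, w)‖ₑ =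
              ‖dbar φ z‖ₑ * (‖g w‖ₑ * ct_k z w) := by
            intro w
            show ‖dbar φ z * (g w / (z - w))‖ₑ = _
            rw [enorm_mul, ct_enorm_div]
          simp_rw [e1]
          have m5 : Measurable (fun w => ‖g w‖ₑ * ct_k z w) := hm.enorm.mul (ct_k_meas_right z)
          rw [lintegral_const_mul _ m5]
          by_cases hz : z ∈ ball (0:ℂ) T
          · rw [indicator_of_mem hz]
            gcongr
            have := hB z
            rwa [indicator_of_mem hz] at this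
          · have := hB z
            rw [indicator_of_notMem hz] at this
            rw [indicator_of_notMem hz, le_zero_iff.1 this, zero_mul]
      _ = ∫⁻ z in ball (0:ℂ) T, ENNReal.ofReal B * ∫⁻ w, ‖g w‖ₑ * ct_k z w :=
          lintegral_indicator measurableSet_ball _
      _ = ENNReal.ofReal B * ∫⁻ z in ball (0:ℂ) T, ∫⁻ w, ‖g w‖ₑ * ct_k z w :=
          lintegral_const_mul _ ((hm.enorm.comp measurable_snd).mul ct_k_meas).lintegral_prod_right'
      _ < ⊤ := ENNReal.mul_lt_top ENNReal.ofReal_lt_top (ct_tonelli hm hg T)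
  have hpi : ((Real.pi : ℝ) : ℂ) ≠ 0 := by exact_mod_cast Real.pi_ne_zero
  calc ∫ z, dbar φ z * ct g z = ((Real.pi : ℝ) : ℂ)⁻¹ * ∫ z, ∫ w, dbar φ z * (g w / (z - w)) := by
        rw [← integral_const_mul]
        refine integral_congr_ae (ae_of_all _ fun z => ?_)
        simp only [ct]
        rw [integral_const_mul]
        ring
    _ = ((Real.pi : ℝ) : ℂ)⁻¹ * ∫ w, ∫ z, dbar φ z * (g w / (z - w)) := by
        rw [integral_integral_swap hint]
    _ = ((Real.pi : ℝ) : ℂ)⁻¹ * ∫ w, (-(Real.pi : ℂ)) * (φ w * g w) := by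
        congr 1
        refine integral_congr_ae (ae_of_all _ fun w => ?_)
        show ∫ z, dbar φ z * (g w / (z - w)) = _
        have e2 : ∀ z, dbar φ z * (g w / (z - w)) = g w * (dbar φ z / (z - w)) := by
          intro z; ring
        simp_rw [e2]
        rw [integral_const_mul, cauchy_pompeiu hφ hc w]
        ring
    _ = -∫ z, φ z * g z := by
        rw [integral_const_mul, ← mul_assoc, mul_neg, inv_mul_cancel₀ hpi, neg_one_mul]

theorem ct_eq_zero {p q : ℝ} (hpq : p.HolderConjugate q) {g : ℂ → ℂ} (hg : InLq q g)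
    (ho : Orth p g) {z : ℂ} (hz : 1 < ‖z‖) : ct g z = 0 := by
  have hp0 : 0 < p := hpq.pos
  have hne : ∀ w ∈ ball (0:ℂ) 1, ‖z‖ - 1 ≤ ‖z - w‖ := by
    intro w hw
    rw [mem_ball_zero_iff] at hw
    have := norm_sub_norm_le z w
    linarith
  set f : ℂ → ℂ := (ball (0:ℂ) 1).indicator (fun w => 1 / (z - w)) with hf
  have hfin : InAp p f := by
    refine ⟨?_, fun w hw => by rw [hf, indicator_of_notMem hw], ?_⟩
    · have h1 : DifferentiableOn ℂ (fun w : ℂ => 1 / (z - w)) (ball 0 1) := by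
        intro w hw
        have h2 : z - w ≠ 0 := by
          intro h
          have := hne w hw
          rw [h, norm_zero] at this
          linarith
        exact ((differentiableAt_const (1:ℂ)).div (differentiableAt_id.const_sub z)
          h2).differentiableWithinAt
      exact h1.congr fun w hw => by rw [hf, indicator_of_mem hw]
    · have h2 : Integrable ((ball (0:ℂ) 1).indicator (fun _ : ℂ => ((‖z‖ - 1)⁻¹) ^ p)) := by
        rw [integrable_indicator_iff measurableSet_ball, integrableOn_const_iff]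
        right
        exact measure_ball_lt_top
      refine h2.mono' ?_ (ae_of_all _ fun w => ?_)
      · have hm : Measurable f := by
          refine Measurable.indicator ?_ measurableSet_ball
          exact measurable_const.div (measurable_const.sub measurable_id)
        exact (hm.norm.pow_const p).aestronglyMeasurable
      · rw [Real.norm_eq_abs, abs_of_nonneg (by positivity)]
        by_cases hw : w ∈ ball (0:ℂ) 1
        · rw [hf, indicator_of_mem hw, indicator_of_mem hw]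
          refine Real.rpow_le_rpow (norm_nonneg _) ?_ hp0.le
          rw [norm_div, norm_one, one_div]
          have h3 := hne w hw
          exact inv_anti₀ (by linarith) h3
        · rw [hf, indicator_of_notMem hw, indicator_of_notMem hw, norm_zero, Real.zero_rpow hp0.ne']
  have h := ho f hfin
  have e : ∀ w, g w / (z - w) = f w * g w := by
    intro w
    by_cases hw : w ∈ ball (0:ℂ) 1
    · rw [hf, indicator_of_mem hw]; ring
    · rw [hg.zero w hw]; simp
  rw [ct]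
  simp_rw [e]
  rw [h, mul_zero]

theorem ct_inLq {q : ℝ} (hq : 1 < q) {g : ℂ → ℂ} (hg : InLq q g) :
    IntegrableOn (fun z => ‖ct g z‖ ^ q) (ball (0 : ℂ) 1) := by
  have hq0 : 0 < q := by linarith
  obtain ⟨C, -, hC⟩ := lintegral_inv_norm 1
  have mct := (stronglyMeasurable_ct hg.meas).measurable
  refine ⟨(mct.norm.pow_const q).aestronglyMeasurable, ?_⟩
  have hs := schur (μ := volume.restrict (ball (0:ℂ) 1)) (ν := volume.restrict (ball (0:ℂ) 1))
    hq (k := ct_k) ct_k_meas (g := fun w => ‖g w‖ₑ) hg.meas.enorm (W := fun _ => 1)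
    (A := fun _ => ENNReal.ofReal C) measurable_const measurable_const
    (B := fun _ => ENNReal.ofReal C ^ (q - 1) * ENNReal.ofReal C)
    (ae_of_all _ fun z => by
      simp_rw [ct_k_symm z]
      exact hC z)
    (ae_of_all _ fun w => by
      rw [lintegral_const_mul _ (ct_k_meas_left w), one_mul]
      gcongr
      exact hC w)
  have hfin : ∫⁻ w in ball (0:ℂ) 1, ENNReal.ofReal C ^ (q - 1) * ENNReal.ofReal C * ‖g w‖ₑ ^ q < ⊤ := by
    rw [lintegral_const_mul _ (hg.meas.enorm.pow_const q)]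
    refine ENNReal.mul_lt_top (ENNReal.mul_lt_top ?_ ENNReal.ofReal_lt_top) ?_
    · exact ENNReal.rpow_lt_top_of_nonneg (by linarith) ENNReal.ofReal_ne_top
    · refine lt_of_le_of_lt ?_ hg.int.2
      refine (setLIntegral_le_lintegral _ _).trans (lintegral_mono fun w => ?_)
      rw [← ofReal_norm, ← ofReal_norm, Real.norm_eq_abs, abs_of_nonneg (by positivity),
        ENNReal.ofReal_rpow_of_nonneg (norm_nonneg _) hq0.le]
  rw [HasFiniteIntegral]
  calc ∫⁻ z in ball (0:ℂ) 1, ‖‖ct g z‖ ^ q‖ₑ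
      ≤ ∫⁻ z in ball (0:ℂ) 1, ‖((Real.pi : ℝ) : ℂ)⁻¹‖ₑ ^ q *
          (1 * (∫⁻ w in ball (0:ℂ) 1, ct_k z w * ‖g w‖ₑ) ^ q) := by
        refine lintegral_mono fun z => ?_
        rw [← ofReal_norm, Real.norm_eq_abs, abs_of_nonneg (by positivity),
          ← ENNReal.ofReal_rpow_of_nonneg (norm_nonneg _) hq0.le, ofReal_norm, one_mul,
          ← ENNReal.mul_rpow_of_nonneg _ _ hq0.le]
        refine ENNReal.rpow_le_rpow ?_ hq0.le
        rw [ct, enorm_mul]
        refine mul_le_mul_right ((enorm_integral_le_lintegral_enorm _).trans ?_) _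
        rw [← lintegral_indicator measurableSet_ball]
        refine lintegral_mono fun w => ?_
        rw [ct_enorm_div]
        by_cases hw : w ∈ ball (0:ℂ) 1
        · rw [indicator_of_mem hw, mul_comm]
        · rw [hg.zero w hw]; simp
    _ = ‖((Real.pi : ℝ) : ℂ)⁻¹‖ₑ ^ q * ∫⁻ z in ball (0:ℂ) 1,
          1 * (∫⁻ w in ball (0:ℂ) 1, ct_k z w * ‖g w‖ₑ) ^ q := by
        rw [lintegral_const_mul']
        exact (ENNReal.rpow_lt_top_of_nonneg hq0.le enorm_ne_top).ne
    _ < ⊤ := by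
        refine ENNReal.mul_lt_top (ENNReal.rpow_lt_top_of_nonneg hq0.le enorm_ne_top) ?_
        exact lt_of_le_of_lt hs hfin

end

end BergmanReg
end
end

section

section

/-!
# One-dimensional absorption lemma (job BR-14)
-/

namespace BergmanReg

open MeasureTheory Metric Set Filter Topology Complex
open scoped ENNReal NNReal ComplexConjugate

noncomputable section

lemma ab_add3 {r : ℝ} (hr : 0 ≤ r) (x y z : ℝ≥0∞) :
    (x + y + z) ^ r ≤ 3 ^ r * (x ^ r + y ^ r + z ^ r) := by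
  have h1 : x + y + z ≤ 3 * max x (max y z) := by
    have hx : x ≤ max x (max y z) := le_max_left _ _
    have hy : y ≤ max x (max y z) := le_trans (le_max_left _ _) (le_max_right _ _)
    have hz : z ≤ max x (max y z) := le_trans (le_max_right _ _) (le_max_right _ _)
    calc x + y + z ≤ max x (max y z) + max x (max y z) + max x (max y z) := by gcongr
      _ = 3 * max x (max y z) := by ring
  have h2 : (max x (max y z)) ^ r ≤ x ^ r + y ^ r + z ^ r := by
    rcases max_choice x (max y z) with h | h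
    · rw [h]; exact le_trans le_self_add le_self_add
    · rw [h]
      rcases max_choice y z with h' | h'
      · rw [h']; exact le_trans le_add_self le_self_add
      · rw [h']; exact le_add_self
  calc (x + y + z) ^ r ≤ (3 * max x (max y z)) ^ r := ENNReal.rpow_le_rpow h1 hr
    _ = 3 ^ r * (max x (max y z)) ^ r := ENNReal.mul_rpow_of_nonneg _ _ hr
    _ ≤ 3 ^ r * (x ^ r + y ^ r + z ^ r) := by gcongr

lemma ab_tsum {r : ℝ} (hr : 1 < r) : ∃ K : ℝ≥0∞, K ≠ ⊤ ∧ ∀ a : ℕ → ℝ≥0∞,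
    (∑' j, a j) ^ r ≤ K * ∑' j : ℕ, ((2 : ℝ≥0∞) ^ (1 / 2 : ℝ)) ^ j * a j ^ r := by
  have hr0 : 0 < r := by linarith
  set t : ℝ≥0∞ := (2 : ℝ≥0∞) ^ (1 / (2 * r) : ℝ) with ht
  have ht1 : 1 < t := ENNReal.one_lt_rpow (by norm_num) (by positivity)
  have httop : t ≠ ⊤ := ENNReal.rpow_ne_top_of_nonneg (by positivity) (by norm_num)
  have ht0 : t ≠ 0 := (lt_trans zero_lt_one ht1).ne'
  have hinv : t⁻¹ < 1 := ENNReal.inv_lt_one.2 ht1
  refine ⟨((1 - t⁻¹)⁻¹) ^ r, ?_, fun a => ?_⟩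
  · apply ENNReal.rpow_ne_top_of_nonneg hr0.le
    rw [ENNReal.inv_ne_top]
    exact (tsub_pos_of_lt hinv).ne'
  · set S : ℝ≥0∞ := ∑' j : ℕ, (t ^ j * a j) ^ r with hS
    have hSeq : S = ∑' j : ℕ, ((2 : ℝ≥0∞) ^ (1 / 2 : ℝ)) ^ j * a j ^ r := by
      rw [hS]
      congr 1
      ext j
      rw [ENNReal.mul_rpow_of_nonneg _ _ hr0.le]
      congr 1
      rw [← ENNReal.rpow_natCast, ← ENNReal.rpow_natCast, ht, ← ENNReal.rpow_mul,
        ← ENNReal.rpow_mul, ← ENNReal.rpow_mul]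
      congr 1
      field_simp
    have hb : ∀ j, t ^ j * a j ≤ S ^ (1 / r) := by
      intro j
      have : (t ^ j * a j) ^ r ≤ S := ENNReal.le_tsum j
      calc t ^ j * a j = ((t ^ j * a j) ^ r) ^ (1 / r) := by
            rw [← ENNReal.rpow_mul, mul_one_div_cancel hr0.ne', ENNReal.rpow_one]
        _ ≤ S ^ (1 / r) := ENNReal.rpow_le_rpow this (by positivity)
    have hsum : ∑' j, a j ≤ (1 - t⁻¹)⁻¹ * S ^ (1 / r) := by
      rw [← ENNReal.tsum_geometric, ← ENNReal.tsum_mul_right]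
      apply ENNReal.tsum_le_tsum
      intro j
      calc a j = t⁻¹ ^ j * (t ^ j * a j) := by
            rw [← mul_assoc, ← mul_pow, ENNReal.inv_mul_cancel ht0 httop, one_pow, one_mul]
        _ ≤ t⁻¹ ^ j * S ^ (1 / r) := by gcongr; exact hb j
    calc (∑' j, a j) ^ r ≤ ((1 - t⁻¹)⁻¹ * S ^ (1 / r)) ^ r := ENNReal.rpow_le_rpow hsum hr0.le
      _ = ((1 - t⁻¹)⁻¹) ^ r * S := by
          rw [ENNReal.mul_rpow_of_nonneg _ _ hr0.le, ← ENNReal.rpow_mul,
            one_div_mul_cancel hr0.ne', ENNReal.rpow_one]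
      _ = _ := by rw [hSeq]

lemma ab_scale {a : ℝ} (ha : 0 < a) {g : ℝ → ℝ≥0∞} (hg : Measurable g) :
    ∫⁻ x, g (a * x) = ENNReal.ofReal a⁻¹ * ∫⁻ x, g x := by
  have h := Real.map_volume_mul_left ha.ne'
  have h2 : ∫⁻ x, g x ∂(Measure.map (a * ·) volume) = ∫⁻ x, g (a * x) :=
    lintegral_map hg (measurable_const_mul a)
  rw [← h2, h, lintegral_smul_measure, abs_of_pos (inv_pos.2 ha), smul_eq_mul]

/-- step (3) -/
lemma ab_step3 {r : ℝ} (hr : 1 < r) : ∃ K : ℝ≥0∞, K ≠ ⊤ ∧ ∀ (A : ℝ → ℝ≥0∞), Measurable A →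
    ∀ δ θ lam : ℝ, 0 < δ → 0 < θ → θ ≤ lam →
    ∫⁻ R in Ioi (δ / θ), (∑' j : ℕ, A (2 ^ j * (lam * R))) ^ r ≤
      K * ENNReal.ofReal lam⁻¹ * ∫⁻ h in Ioi δ, A h ^ r := by
  obtain ⟨K1, hK1, hK⟩ := ab_tsum hr
  set q : ℝ≥0∞ := (2 : ℝ≥0∞) ^ (1 / 2 : ℝ) with hq
  have hq2 : q / 2 < 1 := by
    rw [ENNReal.div_lt_iff (by norm_num) (by norm_num), one_mul, hq]
    calc (2 : ℝ≥0∞) ^ (1 / 2 : ℝ) < 2 ^ (1 : ℝ) :=
          ENNReal.rpow_lt_rpow_of_exponent_lt (by norm_num) (by norm_num) (by norm_num)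
      _ = 2 := ENNReal.rpow_one 2
  refine ⟨K1 * (1 - q / 2)⁻¹, ENNReal.mul_ne_top hK1 ?_, ?_⟩
  · rw [ENNReal.inv_ne_top]
    exact (tsub_pos_of_lt hq2).ne'
  intro A hA δ θ lam hδ hθ hlam
  have hlam0 : 0 < lam := lt_of_lt_of_le hθ hlam
  set G : ℝ → ℝ≥0∞ := (Ioi δ).indicator (fun h => A h ^ r) with hG
  have hGm : Measurable G := (hA.pow_const r).indicator measurableSet_Ioi
  have hGI : ∫⁻ h, G h = ∫⁻ h in Ioi δ, A h ^ r := lintegral_indicator measurableSet_Ioi _
  rw [← hGI]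
  calc ∫⁻ R in Ioi (δ / θ), (∑' j : ℕ, A (2 ^ j * (lam * R))) ^ r
      ≤ ∫⁻ R in Ioi (δ / θ), K1 * ∑' j : ℕ, q ^ j * G (2 ^ j * lam * R) := by
        apply setLIntegral_mono' measurableSet_Ioi
        intro R hR
        have hR' : δ / θ < R := hR
        refine (hK _).trans ?_
        gcongr with j
        have h1 : δ < 2 ^ j * lam * R := by
          have h2 : δ < θ * R := by
            rw [div_lt_iff₀ hθ] at hR'
            linarith
          have hR0 : 0 < R := lt_of_le_of_lt (by positivity) hR'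
          have h3 : (1 : ℝ) ≤ 2 ^ j := one_le_pow₀ (by norm_num)
          calc δ < θ * R := h2
            _ ≤ lam * R := by gcongr
            _ = 1 * (lam * R) := by ring
            _ ≤ 2 ^ j * (lam * R) := by gcongr
            _ = 2 ^ j * lam * R := by ring
        rw [hG, indicator_of_mem (show (2 ^ j * lam * R) ∈ Ioi δ from h1), mul_assoc]
    _ ≤ ∫⁻ R, K1 * ∑' j : ℕ, q ^ j * G (2 ^ j * lam * R) := setLIntegral_le_lintegral _ _
    _ = K1 * ∑' j : ℕ, q ^ j * ∫⁻ R, G (2 ^ j * lam * R) := by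
        have hm : ∀ j : ℕ, Measurable fun R : ℝ => q ^ j * G (2 ^ j * lam * R) := fun j =>
          (hGm.comp (measurable_const_mul _)).const_mul _
        rw [lintegral_const_mul _ (Measurable.tsum hm), lintegral_tsum
          (fun j => (hm j).aemeasurable)]
        congr 1
        apply tsum_congr
        intro j
        exact lintegral_const_mul _ (hGm.comp (measurable_const_mul _))
    _ = K1 * ∑' j : ℕ, (q / 2) ^ j * (ENNReal.ofReal lam⁻¹ * ∫⁻ R, G R) := by
        congr 1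
        apply tsum_congr
        intro j
        rw [ab_scale (by positivity) hGm, mul_inv, ENNReal.ofReal_mul (by positivity),
          ENNReal.ofReal_inv_of_pos (by positivity), ENNReal.ofReal_pow (by norm_num),
          ENNReal.ofReal_ofNat, div_eq_mul_inv, mul_pow, ENNReal.inv_pow]
        ring
    _ = K1 * (1 - q / 2)⁻¹ * ENNReal.ofReal lam⁻¹ * ∫⁻ h, G h := by
        rw [ENNReal.tsum_mul_right, ENNReal.tsum_geometric]
        ring

lemma ab_tend {s c : ℝ} (hs : 0 < s) :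
    Tendsto (fun x : ℝ => c * x ^ s) (𝓝[>] 0) (𝓝 0) := by
  have h1 : Tendsto (fun x : ℝ => x ^ s) (𝓝 0) (𝓝 ((0 : ℝ) ^ s)) :=
    (Real.continuousAt_rpow_const 0 s (Or.inr hs.le)).tendsto
  rw [Real.zero_rpow hs.ne'] at h1
  have h2 := (h1.const_mul c).mono_left (nhdsWithin_le_nhds (s := Ioi (0 : ℝ)))
  rwa [mul_zero] at h2

/-- step (5): the choice of the parameters -/
lemma ab_choose {r C ε k : ℝ} (hr : 1 < r) (hC : 0 < C) (hε : ε = 1 / (8 * r)) :
    ∃ θ σ : ℝ, 0 < θ ∧ θ ≤ 1 ∧ 8 * θ ≤ σ ∧ σ ≤ 1 / 4 ∧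
      θ * 3 ^ r * ((16 * C * (σ / θ) ^ ε) ^ r * k * (2 * σ)⁻¹ +
        (4 * C * σ ^ (2 - 2 * ε) * (θ ^ 2)⁻¹) ^ r * k) ≤ 1 / 2 := by
  have hr0 : 0 < r := by linarith
  have hε0 : 0 < ε := by rw [hε]; positivity
  have hεr : ε * r = 1 / 8 := by rw [hε]; field_simp
  have hε1 : ε < 1 := by
    have : ε * 1 < ε * r := by gcongr
    linarith
  set s1 : ℝ := ε - ε * (ε * r) with hs1
  set s2 : ℝ := 1 - 4 * (ε * r) + 2 * (ε * r) * ε with hs2
  have hs1p : 0 < s1 := by rw [hs1, hεr]; linarith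
  have hs2p : 0 < s2 := by rw [hs2, hεr]; linarith
  set c1 : ℝ := 3 ^ r * (16 * C) ^ r * k / 2 with hc1
  set c2 : ℝ := 3 ^ r * (4 * C) ^ r * k with hc2
  have e1 : ∀ᶠ x in 𝓝[>] (0 : ℝ), c1 * x ^ s1 < 1 / 4 :=
    (ab_tend hs1p).eventually (gt_mem_nhds (by norm_num))
  have e2 : ∀ᶠ x in 𝓝[>] (0 : ℝ), c2 * x ^ s2 < 1 / 4 :=
    (ab_tend hs2p).eventually (gt_mem_nhds (by norm_num))
  have e3 : ∀ᶠ x in 𝓝[>] (0 : ℝ), 8 * x ^ ε < 1 :=
    (ab_tend hε0).eventually (gt_mem_nhds (by norm_num))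
  have e4 : ∀ᶠ x in 𝓝[>] (0 : ℝ), 1 * x ^ (1 - ε) < 1 / 4 :=
    (ab_tend (by linarith)).eventually (gt_mem_nhds (by norm_num))
  have e5 : ∀ᶠ x in 𝓝[>] (0 : ℝ), x < 1 :=
    mem_of_superset (Ioo_mem_nhdsGT (by norm_num : (0 : ℝ) < 1)) (fun x hx => hx.2)
  have e6 : ∀ᶠ x in 𝓝[>] (0 : ℝ), 0 < x := eventually_mem_nhdsWithin
  obtain ⟨x, h1, h2, h3, h4, h5, h6⟩ :=
    (e1.and (e2.and (e3.and (e4.and (e5.and e6))))).exists
  refine ⟨x, x ^ (1 - ε), h6, h5.le, ?_, by linarith, ?_⟩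
  · have : x ^ (1 - ε) * x ^ ε = x := by
      rw [← Real.rpow_add h6, sub_add_cancel, Real.rpow_one]
    have hp : 0 < x ^ (1 - ε) := Real.rpow_pos_of_pos h6 _
    calc 8 * x = 8 * (x ^ (1 - ε) * x ^ ε) := by rw [this]
      _ = x ^ (1 - ε) * (8 * x ^ ε) := by ring
      _ ≤ x ^ (1 - ε) * 1 := by gcongr
      _ = x ^ (1 - ε) := mul_one _
  · have hx1 : x ^ (1 - ε) / x = x ^ (-ε) := by
      rw [← Real.rpow_sub_one h6.ne']; congr 1; ring
    have hA : (16 * C * (x ^ (1 - ε) / x) ^ ε) ^ r = (16 * C) ^ r * x ^ (-(ε * (ε * r))) := by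
      rw [hx1, ← Real.rpow_mul h6.le, Real.mul_rpow (by positivity) (by positivity),
        ← Real.rpow_mul h6.le]
      congr 2; ring
    have hB : (2 * x ^ (1 - ε))⁻¹ = 1 / 2 * x ^ (-(1 - ε)) := by
      rw [mul_inv, Real.rpow_neg h6.le]; norm_num
    have hD : (4 * C * (x ^ (1 - ε)) ^ (2 - 2 * ε) * (x ^ 2)⁻¹) ^ r =
        (4 * C) ^ r * x ^ (((1 - ε) * (2 - 2 * ε) - 2) * r) := by
      have : (x ^ 2)⁻¹ = x ^ (-2 : ℝ) := by
        rw [Real.rpow_neg h6.le]; norm_num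
      rw [this, ← Real.rpow_mul h6.le, mul_assoc, ← Real.rpow_add h6,
        Real.mul_rpow (by positivity) (by positivity), ← Real.rpow_mul h6.le]
      congr 2
    rw [hA, hB, hD]
    have hx : x = x ^ (1 : ℝ) := (Real.rpow_one x).symm
    have t1 : x * (x ^ (-(ε * (ε * r))) * x ^ (-(1 - ε))) = x ^ s1 := by
      nth_rewrite 1 [hx]
      rw [← Real.rpow_add h6, ← Real.rpow_add h6]
      congr 1; rw [hs1]; ring
    have t2 : x * x ^ (((1 - ε) * (2 - 2 * ε) - 2) * r) = x ^ s2 := by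
      nth_rewrite 1 [hx]
      rw [← Real.rpow_add h6]
      congr 1; rw [hs2]; ring
    calc x * 3 ^ r * ((16 * C) ^ r * x ^ (-(ε * (ε * r))) * k * (1 / 2 * x ^ (-(1 - ε))) +
          (4 * C) ^ r * x ^ (((1 - ε) * (2 - 2 * ε) - 2) * r) * k)
        = c1 * (x * (x ^ (-(ε * (ε * r))) * x ^ (-(1 - ε)))) +
          c2 * (x * x ^ (((1 - ε) * (2 - 2 * ε) - 2) * r)) := by rw [hc1, hc2]; ring
      _ = c1 * x ^ s1 + c2 * x ^ s2 := by rw [t1, t2]
      _ ≤ 1 / 2 := by linarith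

lemma ab_cfin {r c : ℝ} (hr : 1 < r) (hc : 0 < c) :
    ∫⁻ h in Ioi c, (ENNReal.ofReal (h ^ 2)⁻¹) ^ r ≠ ⊤ := by
  have h1 : IntegrableOn (fun t : ℝ => t ^ (-2 * r)) (Ioi c) :=
    integrableOn_Ioi_rpow_of_lt (by linarith) hc
  have h2 := Integrable.lintegral_lt_top h1
  refine ne_top_of_le_ne_top h2.ne ?_
  apply le_of_eq
  apply setLIntegral_congr_fun measurableSet_Ioi
  intro h hh
  have h0 : 0 < h := lt_trans hc hh
  simp only
  rw [ENNReal.ofReal_rpow_of_pos (by positivity), ← Real.rpow_natCast, ← Real.rpow_neg h0.le,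
    ← Real.rpow_mul h0.le]
  norm_num

lemma ab_tailbound {r c : ℝ} (hr : 1 < r) {E : ℝ → ℝ≥0∞} {m : ℝ≥0∞}
    (hm : ∀ h, E h ≤ m) :
    ∫⁻ h in Ioi c, (ENNReal.ofReal (h ^ 2)⁻¹ * E h) ^ r ≤
      (∫⁻ h in Ioi c, (ENNReal.ofReal (h ^ 2)⁻¹) ^ r) * m ^ r := by
  rw [← lintegral_mul_const]
  · apply setLIntegral_mono' measurableSet_Ioi
    intro h _
    rw [ENNReal.mul_rpow_of_nonneg _ _ (by linarith)]
    gcongr
    exact hm h
  · exact ((measurable_id.pow_const 2).inv.ennreal_ofReal).pow_const r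

/-- the pointwise inequality -/
lemma ab_point {C C' ε θ σ : ℝ} (hC : 0 < C) (hθ : 0 < θ) (hσ : 0 < σ)
    {E e b : ℝ → ℝ≥0∞}
    (he : ∀ R, 0 < R → e R ≤ 4 * ∑' j : ℕ, ((4 : ℝ≥0∞)⁻¹) ^ j * E (2 ^ j * R))
    (hE : ∀ R, 0 < R → R ≤ 1 / 2 → E (θ * R) ≤
        ENNReal.ofReal (C * (θ / σ) ^ (2 - ε)) * e (2 * σ * R) +
        ENNReal.ofReal (C * σ ^ (2 - 2 * ε)) * e R + ENNReal.ofReal C' * b R)
    {A : ℝ → ℝ≥0∞} (hA : A = fun h => ENNReal.ofReal (h ^ 2)⁻¹ * E h) {R : ℝ} (hR : 0 < R)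
    (hR2 : R ≤ 1 / 2) :
    A (θ * R) ≤ ENNReal.ofReal (16 * C * (σ / θ) ^ ε) * (∑' j : ℕ, A (2 ^ j * (2 * σ * R))) +
      ENNReal.ofReal (4 * C * σ ^ (2 - 2 * ε) * (θ ^ 2)⁻¹) * (∑' j : ℕ, A (2 ^ j * (1 * R))) +
      ENNReal.ofReal (C' * (θ ^ 2)⁻¹) * (ENNReal.ofReal (R ^ 2)⁻¹ * b R) := by
  have key : ∀ x : ℝ, 0 < x → ENNReal.ofReal (x ^ 2)⁻¹ * e x ≤ 4 * ∑' j : ℕ, A (2 ^ j * x) := by
    intro x hx
    calc ENNReal.ofReal (x ^ 2)⁻¹ * e x
        ≤ ENNReal.ofReal (x ^ 2)⁻¹ * (4 * ∑' j : ℕ, ((4 : ℝ≥0∞)⁻¹) ^ j * E (2 ^ j * x)) := by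
          gcongr; exact he x hx
      _ = 4 * (ENNReal.ofReal (x ^ 2)⁻¹ * ∑' j : ℕ, ((4 : ℝ≥0∞)⁻¹) ^ j * E (2 ^ j * x)) := by
          ring
      _ = 4 * ∑' j : ℕ, A (2 ^ j * x) := by
          rw [← ENNReal.tsum_mul_left]
          congr 1
          apply tsum_congr
          intro j
          rw [hA]
          simp only
          have : ENNReal.ofReal ((2 ^ j * x) ^ 2)⁻¹ =
              ENNReal.ofReal (x ^ 2)⁻¹ * ((4 : ℝ≥0∞)⁻¹) ^ j := by
            have h4 : ((2 ^ j * x) ^ 2)⁻¹ = (x ^ 2)⁻¹ * (4⁻¹) ^ j := by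
              rw [mul_pow, mul_inv, mul_comm, ← pow_mul, mul_comm j 2, pow_mul, inv_pow]
              norm_num
            have h5 : ENNReal.ofReal (4⁻¹ : ℝ) = (4 : ℝ≥0∞)⁻¹ := by
              rw [ENNReal.ofReal_inv_of_pos (by norm_num), ENNReal.ofReal_ofNat]
            rw [h4, ENNReal.ofReal_mul (by positivity), ENNReal.ofReal_pow (by norm_num), h5]
          rw [this, mul_assoc]
  have hk1 := key (2 * σ * R) (by positivity)
  have hk2 := key R hR
  have hs : (θ / σ) ^ (2 - ε) = (σ / θ) ^ ε * (θ ^ 2 * (σ ^ 2)⁻¹) := by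
    rw [Real.rpow_sub (by positivity), div_eq_mul_inv, mul_comm]
    congr 1
    · rw [← Real.inv_rpow (by positivity), inv_div]
    · rw [show (2 : ℝ) = ((2 : ℕ) : ℝ) by norm_num, Real.rpow_natCast, div_pow, div_eq_mul_inv]
  calc A (θ * R) = ENNReal.ofReal (θ ^ 2)⁻¹ * (ENNReal.ofReal (R ^ 2)⁻¹ * E (θ * R)) := by
        rw [hA]
        simp only
        rw [← mul_assoc, ← ENNReal.ofReal_mul (by positivity), mul_pow, mul_inv]
    _ ≤ ENNReal.ofReal (θ ^ 2)⁻¹ * (ENNReal.ofReal (R ^ 2)⁻¹ *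
        (ENNReal.ofReal (C * (θ / σ) ^ (2 - ε)) * e (2 * σ * R) +
        ENNReal.ofReal (C * σ ^ (2 - 2 * ε)) * e R + ENNReal.ofReal C' * b R)) := by
        gcongr; exact hE R hR hR2
    _ = ENNReal.ofReal (4 * C * (σ / θ) ^ ε) * (ENNReal.ofReal ((2 * σ * R) ^ 2)⁻¹ *
          e (2 * σ * R)) +
        ENNReal.ofReal (C * σ ^ (2 - 2 * ε) * (θ ^ 2)⁻¹) * (ENNReal.ofReal (R ^ 2)⁻¹ * e R) +
        ENNReal.ofReal (C' * (θ ^ 2)⁻¹) * (ENNReal.ofReal (R ^ 2)⁻¹ * b R) := by
        have q1 : ENNReal.ofReal (4 * C * (σ / θ) ^ ε) * ENNReal.ofReal ((2 * σ * R) ^ 2)⁻¹ =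
            ENNReal.ofReal (θ ^ 2)⁻¹ * ENNReal.ofReal (R ^ 2)⁻¹ *
              ENNReal.ofReal (C * (θ / σ) ^ (2 - ε)) := by
          rw [← ENNReal.ofReal_mul (by positivity), ← ENNReal.ofReal_mul (by positivity),
            ← ENNReal.ofReal_mul (by positivity), hs]
          congr 1
          field_simp
          try ring
        have q2 : ENNReal.ofReal (C * σ ^ (2 - 2 * ε) * (θ ^ 2)⁻¹) =
            ENNReal.ofReal (θ ^ 2)⁻¹ * ENNReal.ofReal (C * σ ^ (2 - 2 * ε)) := by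
          rw [← ENNReal.ofReal_mul (by positivity)]
          congr 1
          ring
        have q3 : ENNReal.ofReal (C' * (θ ^ 2)⁻¹) =
            ENNReal.ofReal (θ ^ 2)⁻¹ * ENNReal.ofReal C' := by
          rw [← ENNReal.ofReal_mul (by positivity)]
          congr 1
          ring
        rw [← mul_assoc (ENNReal.ofReal (4 * C * (σ / θ) ^ ε)), q1, q2, q3]
        ring
    _ ≤ ENNReal.ofReal (4 * C * (σ / θ) ^ ε) * (4 * ∑' j : ℕ, A (2 ^ j * (2 * σ * R))) +
        ENNReal.ofReal (C * σ ^ (2 - 2 * ε) * (θ ^ 2)⁻¹) * (4 * ∑' j : ℕ, A (2 ^ j * R)) +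
        ENNReal.ofReal (C' * (θ ^ 2)⁻¹) * (ENNReal.ofReal (R ^ 2)⁻¹ * b R) := by
        gcongr
    _ = _ := by
        have q1 : ENNReal.ofReal (16 * C * (σ / θ) ^ ε) =
            ENNReal.ofReal (4 * C * (σ / θ) ^ ε) * 4 := by
          rw [show (4 : ℝ≥0∞) = ENNReal.ofReal 4 by norm_num, ← ENNReal.ofReal_mul (by positivity)]
          congr 1; ring
        have q2 : ENNReal.ofReal (4 * C * σ ^ (2 - 2 * ε) * (θ ^ 2)⁻¹) =
            ENNReal.ofReal (C * σ ^ (2 - 2 * ε) * (θ ^ 2)⁻¹) * 4 := by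
          rw [show (4 : ℝ≥0∞) = ENNReal.ofReal 4 by norm_num, ← ENNReal.ofReal_mul (by positivity)]
          congr 1; ring
        rw [q1, q2]
        simp only [one_mul, mul_assoc]

theorem absorb {r C ε : ℝ} (hr : 1 < r) (hC : 0 < C) (hε : ε = 1 / (8 * r)) :
    ∃ θ σ : ℝ, 0 < θ ∧ 8 * θ ≤ σ ∧ σ ≤ 1 / 4 ∧ ∀ C' : ℝ, 0 < C' → ∃ C'' : ℝ, 0 < C'' ∧
      ∀ (E e b : ℝ → ℝ≥0∞) (m : ℝ≥0∞), Monotone E → (∀ h, E h ≤ m) → m ≠ ⊤ → Measurable b →
      (∀ R, 0 < R → e R ≤ 4 * ∑' j : ℕ, ((4 : ℝ≥0∞)⁻¹) ^ j * E (2 ^ j * R)) →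
      (∀ R, 0 < R → R ≤ 1 / 2 → E (θ * R) ≤
        ENNReal.ofReal (C * (θ / σ) ^ (2 - ε)) * e (2 * σ * R) +
        ENNReal.ofReal (C * σ ^ (2 - 2 * ε)) * e R + ENNReal.ofReal C' * b R) →
      ∫⁻ h in Ioi (0 : ℝ), (ENNReal.ofReal (h ^ 2)⁻¹ * E h) ^ r ≤
        ENNReal.ofReal C'' * (m ^ r +
          ∫⁻ R in Ioc (0 : ℝ) (1 / 2), (ENNReal.ofReal (R ^ 2)⁻¹ * b R) ^ r) := by
  have hr0 : 0 < r := by linarith
  obtain ⟨K, hK, h3⟩ := ab_step3 hr
  obtain ⟨θ, σ, hθ, hθ1, h8, hσ4, hco⟩ := ab_choose (k := K.toReal) hr hC hε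
  have hσ : 0 < σ := by linarith
  refine ⟨θ, σ, hθ, h8, hσ4, fun C' hC' => ?_⟩
  set cθ : ℝ≥0∞ := ∫⁻ h in Ioi (θ / 2), (ENNReal.ofReal (h ^ 2)⁻¹) ^ r with hcθ
  have hcθf : cθ ≠ ⊤ := ab_cfin hr (by positivity)
  set D1 : ℝ≥0∞ := ENNReal.ofReal (16 * C * (σ / θ) ^ ε) with hD1
  set D2 : ℝ≥0∞ := ENNReal.ofReal (4 * C * σ ^ (2 - 2 * ε) * (θ ^ 2)⁻¹) with hD2
  set D3 : ℝ≥0∞ := ENNReal.ofReal (C' * (θ ^ 2)⁻¹) with hD3
  set F : ℝ≥0∞ := ENNReal.ofReal θ * (3 ^ r * D3 ^ r) with hF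
  have hFf : F ≠ ⊤ := by
    rw [hF]
    apply ENNReal.mul_ne_top ENNReal.ofReal_ne_top
    apply ENNReal.mul_ne_top
    · exact ENNReal.rpow_ne_top_of_nonneg hr0.le (by norm_num)
    · exact ENNReal.rpow_ne_top_of_nonneg hr0.le ENNReal.ofReal_ne_top
  -- the absorbed coefficient
  have hcoef : ENNReal.ofReal θ * (3 ^ r * (D1 ^ r * (K * ENNReal.ofReal (2 * σ)⁻¹) +
      D2 ^ r * (K * ENNReal.ofReal (1 : ℝ)⁻¹))) ≤ 1 / 2 := by
    have hKr : K = ENNReal.ofReal K.toReal := (ENNReal.ofReal_toReal hK).symm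
    have h3r : (3 : ℝ≥0∞) ^ r = ENNReal.ofReal ((3 : ℝ) ^ r) := by
      rw [← ENNReal.ofReal_rpow_of_pos (by norm_num)]; norm_num
    have hk0 : 0 ≤ K.toReal := ENNReal.toReal_nonneg
    rw [hKr, h3r, hD1, hD2, ENNReal.ofReal_rpow_of_nonneg (by positivity) hr0.le,
      ENNReal.ofReal_rpow_of_nonneg (by positivity) hr0.le, ← ENNReal.ofReal_mul (by positivity),
      ← ENNReal.ofReal_mul (by positivity), ← ENNReal.ofReal_mul (by positivity),
      ← ENNReal.ofReal_mul (by positivity), ← ENNReal.ofReal_add (by positivity) (by positivity),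
      ← ENNReal.ofReal_mul (by positivity), ← ENNReal.ofReal_mul (by positivity)]
    rw [show (1 : ℝ≥0∞) / 2 = ENNReal.ofReal (1 / 2) by
      rw [ENNReal.ofReal_div_of_pos (by norm_num)]; norm_num]
    apply ENNReal.ofReal_le_ofReal
    refine le_trans (le_of_eq ?_) hco
    rw [inv_one]
    ring
  refine ⟨(2 * (cθ + F)).toReal + 1, by positivity, ?_⟩
  intro E e b m hmono hEm hm hb he hE
  have hC'' : 2 * (cθ + F) ≤ ENNReal.ofReal ((2 * (cθ + F)).toReal + 1) := by
    rw [ENNReal.ofReal_add ENNReal.toReal_nonneg (by norm_num), ENNReal.ofReal_toReal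
      (ENNReal.mul_ne_top (by norm_num) (ENNReal.add_ne_top.2 ⟨hcθf, hFf⟩))]
    exact le_self_add
  set A : ℝ → ℝ≥0∞ := fun h => ENNReal.ofReal (h ^ 2)⁻¹ * E h with hA
  have hAm : Measurable A :=
    ((measurable_id.pow_const 2).inv.ennreal_ofReal).mul hmono.measurable
  set B : ℝ → ℝ≥0∞ := fun R => ENNReal.ofReal (R ^ 2)⁻¹ * b R with hB
  have hBm : Measurable B := ((measurable_id.pow_const 2).inv.ennreal_ofReal).mul hb
  set J : ℝ≥0∞ := ∫⁻ R in Ioc (0 : ℝ) (1 / 2), B R ^ r with hJ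
  have hmain : ∀ δ : ℝ, 0 < δ → ∫⁻ h in Ioi δ, A h ^ r ≤ 2 * (cθ + F) * (m ^ r + J) := by
    intro δ hδ
    set I : ℝ≥0∞ := ∫⁻ h in Ioi δ, A h ^ r with hI
    have hIf : I ≠ ⊤ := by
      refine ne_top_of_le_ne_top ?_ (ab_tailbound hr hEm)
      exact ENNReal.mul_ne_top (ab_cfin hr hδ) (ENNReal.rpow_ne_top_of_nonneg hr0.le hm)
    have hsplit : I ≤ (∫⁻ h in Ioc δ (θ / 2), A h ^ r) + ∫⁻ h in Ioi (θ / 2), A h ^ r := by
      refine le_trans (lintegral_mono_set ?_) (lintegral_union_le _ _ _)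
      intro x hx
      by_cases h : x ≤ θ / 2
      · exact Or.inl ⟨hx, h⟩
      · exact Or.inr (not_le.1 h)
    have htail : ∫⁻ h in Ioi (θ / 2), A h ^ r ≤ cθ * m ^ r :=
      ab_tailbound hr hEm
    have hfirst : ∫⁻ h in Ioc δ (θ / 2), A h ^ r ≤ ENNReal.ofReal θ *
        ∫⁻ R in Ioc (δ / θ) (1 / 2), A (θ * R) ^ r := by
      set g : ℝ → ℝ≥0∞ := (Ioc δ (θ / 2)).indicator (fun h => A h ^ r) with hg
      have hgm : Measurable g := (hAm.pow_const r).indicator measurableSet_Ioc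
      have hs := ab_scale hθ hgm
      have h1 : ∫⁻ h in Ioc δ (θ / 2), A h ^ r = ENNReal.ofReal θ * ∫⁻ x, g (θ * x) := by
        rw [hs, ← mul_assoc, ← ENNReal.ofReal_mul hθ.le, mul_inv_cancel₀ hθ.ne',
          ENNReal.ofReal_one, one_mul, hg, lintegral_indicator measurableSet_Ioc]
      rw [h1]
      refine mul_le_mul_right ?_ _
      rw [← lintegral_indicator measurableSet_Ioc]
      apply lintegral_mono
      intro x
      simp only [hg]
      by_cases hx : θ * x ∈ Ioc δ (θ / 2)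
      · have hx' : x ∈ Ioc (δ / θ) (1 / 2) := by
          constructor
          · rw [div_lt_iff₀ hθ]; linarith [hx.1]
          · have := hx.2
            have h2 : θ * x ≤ θ * (1 / 2) := by linarith
            exact le_of_mul_le_mul_left h2 hθ
        rw [indicator_of_mem hx, indicator_of_mem hx']
      · rw [indicator_of_notMem hx]
        exact zero_le
    have hpt : ∫⁻ R in Ioc (δ / θ) (1 / 2), A (θ * R) ^ r ≤
        3 ^ r * (D1 ^ r * (K * ENNReal.ofReal (2 * σ)⁻¹ * I) +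
          D2 ^ r * (K * ENNReal.ofReal (1 : ℝ)⁻¹ * I) + D3 ^ r * J) := by
      set T : ℝ → ℝ → ℝ≥0∞ := fun lam R => ∑' j : ℕ, A (2 ^ j * (lam * R)) with hT
      have hTm : ∀ lam, Measurable (T lam) := fun lam =>
        Measurable.tsum fun j => hAm.comp ((measurable_const_mul _).comp (measurable_const_mul _))
      calc ∫⁻ R in Ioc (δ / θ) (1 / 2), A (θ * R) ^ r
          ≤ ∫⁻ R in Ioc (δ / θ) (1 / 2), 3 ^ r * ((D1 ^ r * T (2 * σ) R ^ r +
            D2 ^ r * T 1 R ^ r) + D3 ^ r * B R ^ r) := by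
            apply setLIntegral_mono' measurableSet_Ioc
            intro R hR
            have hR0 : 0 < R := lt_trans (by positivity) hR.1
            have hp := ab_point (ε := ε) hC hθ hσ he hE hA hR0 hR.2
            refine (ENNReal.rpow_le_rpow hp hr0.le).trans ?_
            refine (ab_add3 hr0.le _ _ _).trans (le_of_eq ?_)
            rw [ENNReal.mul_rpow_of_nonneg _ _ hr0.le, ENNReal.mul_rpow_of_nonneg _ _ hr0.le,
              ENNReal.mul_rpow_of_nonneg D3 _ hr0.le]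
        _ = 3 ^ r * ((D1 ^ r * (∫⁻ R in Ioc (δ / θ) (1 / 2), T (2 * σ) R ^ r) +
            D2 ^ r * (∫⁻ R in Ioc (δ / θ) (1 / 2), T 1 R ^ r)) +
            D3 ^ r * ∫⁻ R in Ioc (δ / θ) (1 / 2), B R ^ r) := by
            have m1 : Measurable fun R => D1 ^ r * T (2 * σ) R ^ r :=
              ((hTm _).pow_const r).const_mul _
            have m2 : Measurable fun R => D2 ^ r * T 1 R ^ r :=
              ((hTm _).pow_const r).const_mul _
            have m3 : Measurable fun R => D3 ^ r * B R ^ r := (hBm.pow_const r).const_mul _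
            have m12 : Measurable fun R => D1 ^ r * T (2 * σ) R ^ r + D2 ^ r * T 1 R ^ r :=
              m1.add m2
            have m123 : Measurable fun R => D1 ^ r * T (2 * σ) R ^ r + D2 ^ r * T 1 R ^ r +
              D3 ^ r * B R ^ r := m12.add m3
            rw [lintegral_const_mul _ m123, lintegral_add_left m12,
              lintegral_add_left m1, lintegral_const_mul _ ((hTm _).pow_const r),
              lintegral_const_mul _ ((hTm _).pow_const r), lintegral_const_mul _ (hBm.pow_const r)]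
        _ ≤ _ := by
            gcongr
            · refine le_trans (lintegral_mono_set ?_) (h3 A hAm δ θ (2 * σ) hδ hθ (by linarith))
              intro x hx; exact hx.1
            · refine le_trans (lintegral_mono_set ?_) (h3 A hAm δ θ 1 hδ hθ hθ1)
              intro x hx; exact hx.1
            · rw [hJ]
              apply lintegral_mono_set
              intro x hx
              exact ⟨lt_trans (by positivity) hx.1, hx.2⟩
    have hall : I ≤ (cθ * m ^ r + F * J) + 1 / 2 * I := by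
      calc I ≤ ENNReal.ofReal θ * (3 ^ r * (D1 ^ r * (K * ENNReal.ofReal (2 * σ)⁻¹ * I) +
          D2 ^ r * (K * ENNReal.ofReal (1 : ℝ)⁻¹ * I) + D3 ^ r * J)) + cθ * m ^ r := by
            refine hsplit.trans (add_le_add (hfirst.trans ?_) htail)
            gcongr
        _ = (cθ * m ^ r + F * J) + ENNReal.ofReal θ * (3 ^ r * (D1 ^ r *
            (K * ENNReal.ofReal (2 * σ)⁻¹) + D2 ^ r * (K * ENNReal.ofReal (1 : ℝ)⁻¹))) * I := by
            rw [hF]; ring
        _ ≤ (cθ * m ^ r + F * J) + 1 / 2 * I := by gcongr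
    have hhalf : I / 2 ≤ cθ * m ^ r + F * J := by
      have h2 : I / 2 + I / 2 ≤ (cθ * m ^ r + F * J) + I / 2 := by
        rw [ENNReal.add_halves]
        refine hall.trans (le_of_eq ?_)
        rw [one_div, mul_comm (2 : ℝ≥0∞)⁻¹ I, div_eq_mul_inv]
      exact (ENNReal.add_le_add_iff_right (ENNReal.div_ne_top hIf (by norm_num))).1 h2
    calc I = I / 2 + I / 2 := (ENNReal.add_halves I).symm
      _ ≤ (cθ * m ^ r + F * J) + (cθ * m ^ r + F * J) := add_le_add hhalf hhalf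
      _ ≤ ((cθ + F) * (m ^ r + J)) + ((cθ + F) * (m ^ r + J)) := by
          have : cθ * m ^ r + F * J ≤ (cθ + F) * (m ^ r + J) := by
            calc cθ * m ^ r + F * J ≤ cθ * m ^ r + F * J + (cθ * J + F * m ^ r) := le_self_add
              _ = (cθ + F) * (m ^ r + J) := by ring
          gcongr
      _ = 2 * (cθ + F) * (m ^ r + J) := by ring
  have hlim : ∫⁻ h in Ioi (0 : ℝ), A h ^ r ≤ 2 * (cθ + F) * (m ^ r + J) := by
    have hU : Ioi (0 : ℝ) = ⋃ n : ℕ, Ioi (1 / ((n : ℝ) + 1)) := by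
      ext x
      simp only [mem_Ioi, mem_iUnion]
      constructor
      · intro hx
        exact exists_nat_one_div_lt hx
      · rintro ⟨n, hn⟩
        exact lt_trans (by positivity) hn
    rw [hU, setLIntegral_iUnion_of_directed]
    · apply iSup_le
      intro n
      exact hmain _ (by positivity)
    · apply directed_of_isDirected_le
      intro i j hij
      apply Ioi_subset_Ioi
      apply one_div_le_one_div_of_le (by positivity)
      have : (i : ℝ) ≤ j := by exact_mod_cast hij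
      linarith
  exact hlim.trans (by gcongr)

end

end BergmanReg
end

section

/-!
Forelli-Rudin type bound for the kernel `1/|1 - conj z w|^2`.
-/

namespace BergmanReg

open MeasureTheory Metric Set Filter Topology Complex
open scoped ENNReal NNReal ComplexConjugate

noncomputable section

/-- the angular integral -/
theorem fr_angular_real {w : ℂ} (hw : ‖w‖ < 1) :
    ∫ θ in (-Real.pi)..Real.pi, (‖Complex.exp (θ * I) - w‖ ^ 2)⁻¹ =
      2 * Real.pi / (1 - ‖w‖ ^ 2) := by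
  have hw' : w ∈ ball (0 : ℂ) 1 := by simpa using hw
  have hpos : 0 < 1 - ‖w‖ ^ 2 := by nlinarith [norm_nonneg w]
  have h1 := DiffContOnCl.circleAverage_poissonKernel_smul' (f := fun _ : ℂ => (1 : ℂ)) (c := 0)
    (R := 1) (w := w) diffContOnCl_const hw'
  rw [Real.circleAverage_def] at h1
  have h2 : ∀ θ : ℝ, ((‖circleMap 0 1 θ - 0‖ ^ 2 - ‖w - 0‖ ^ 2) /
      ‖(circleMap 0 1 θ - 0) - (w - 0)‖ ^ 2) • (1 : ℂ) =
      (((1 - ‖w‖ ^ 2) * (‖Complex.exp (θ * I) - w‖ ^ 2)⁻¹ : ℝ) : ℂ) := by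
    intro θ
    have h3 : circleMap 0 1 θ = Complex.exp (θ * I) := by simp [circleMap]
    rw [sub_zero, sub_zero, h3, Complex.norm_exp_ofReal_mul_I, one_pow, div_eq_mul_inv,
      Complex.real_smul, mul_one]
  simp only [h2] at h1
  rw [intervalIntegral.integral_ofReal, intervalIntegral.integral_const_mul,
    Complex.real_smul, ← Complex.ofReal_mul] at h1
  have h4 : (2 * Real.pi)⁻¹ * ((1 - ‖w‖ ^ 2) *
      ∫ θ in (0 : ℝ)..2 * Real.pi, (‖Complex.exp (θ * I) - w‖ ^ 2)⁻¹) = 1 := by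
    exact_mod_cast h1
  have hper : Function.Periodic (fun θ : ℝ => (‖Complex.exp (θ * I) - w‖ ^ 2)⁻¹)
      (2 * Real.pi) := by
    intro θ
    show (‖Complex.exp (((θ + 2 * Real.pi : ℝ) : ℂ) * I) - w‖ ^ 2)⁻¹ = _
    have : Complex.exp (((θ + 2 * Real.pi : ℝ) : ℂ) * I) = Complex.exp (θ * I) := by
      push_cast
      rw [add_mul, Complex.exp_periodic]
    rw [this]
  have h5 := hper.intervalIntegral_add_eq (-Real.pi) 0
  rw [zero_add] at h5
  have h6 : -Real.pi + 2 * Real.pi = Real.pi := by ring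
  rw [h6] at h5
  rw [h5]
  have hpi := Real.pi_pos
  generalize (∫ θ in (0 : ℝ)..2 * Real.pi, (‖Complex.exp (θ * I) - w‖ ^ 2)⁻¹) = J at h4 ⊢
  have hne : (1 - ‖w‖ ^ 2) ≠ 0 := hpos.ne'
  field_simp at h4 ⊢
  linarith

theorem fr_continuous_angular {w : ℂ} (hw : ‖w‖ < 1) :
    Continuous fun θ : ℝ => (‖Complex.exp (θ * I) - w‖ ^ 2)⁻¹ := by
  refine Continuous.inv₀ (by fun_prop) fun θ h0 => ?_
  have h1 : Complex.exp (θ * I) - w = 0 := by simpa using h0
  have h2 : ‖w‖ = 1 := by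
    rw [← sub_eq_zero.mp h1, Complex.norm_exp_ofReal_mul_I]
  linarith

theorem fr_angular {w : ℂ} (hw : ‖w‖ < 1) :
    ∫⁻ θ in Ioo (-Real.pi) Real.pi, ENNReal.ofReal ((‖Complex.exp (θ * I) - w‖ ^ 2)⁻¹) =
      ENNReal.ofReal (2 * Real.pi / (1 - ‖w‖ ^ 2)) := by
  have hpi := Real.pi_pos
  rw [← fr_angular_real hw, intervalIntegral.integral_of_le (by linarith),
    integral_Ioc_eq_integral_Ioo, ofReal_integral_eq_lintegral_ofReal]
  · exact ((fr_continuous_angular hw).integrableOn_Icc (a := -Real.pi)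
      (b := Real.pi)).mono_set Ioo_subset_Icc_self
  · exact Filter.Eventually.of_forall fun θ => by positivity

/-- the kernel in polar coordinates -/
theorem fr_norm_kernel' (z : ℂ) (ρ φ : ℝ) :
    ‖1 - conj z * (ρ * (Real.cos φ + Real.sin φ * I))‖ =
      ‖Complex.exp (φ * I) - ρ * z‖ := by
  have h1 : (Real.cos φ + Real.sin φ * I : ℂ) = Complex.exp (φ * I) := by
    rw [Complex.exp_mul_I, Complex.ofReal_cos, Complex.ofReal_sin]
  rw [h1]
  have h3 : conj (Complex.exp (φ * I)) * Complex.exp (φ * I) = 1 := by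
    rw [Complex.conj_mul', Complex.norm_exp_ofReal_mul_I]
    simp
  have h2 : 1 - conj z * (ρ * Complex.exp (φ * I)) =
      conj (Complex.exp (φ * I) - ρ * z) * Complex.exp (φ * I) := by
    rw [map_sub, map_mul, Complex.conj_ofReal]
    linear_combination -h3
  rw [h2, norm_mul, Complex.norm_exp_ofReal_mul_I, mul_one, Complex.norm_conj]

/-- the radial integral -/
theorem fr_radial {b : ℝ} (hb0 : 0 < b) (hb1 : b < 1) {Y : ℝ} (hY : 0 < Y) :
    ∫⁻ x in Ioo (0 : ℝ) 1, ENNReal.ofReal (x ^ (-b) * (max x Y)⁻¹) ≤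
      ENNReal.ofReal ((1 / (1 - b) + 1 / b) * Y ^ (-b)) := by
  have hsub : Ioo (0 : ℝ) 1 ⊆ Ioc 0 Y ∪ Ioi Y := by
    intro x hx
    rcases le_or_gt x Y with h | h
    · exact Or.inl ⟨hx.1, h⟩
    · exact Or.inr h
  have hb' : 0 < 1 - b := by linarith
  calc ∫⁻ x in Ioo (0 : ℝ) 1, ENNReal.ofReal (x ^ (-b) * (max x Y)⁻¹)
      ≤ ∫⁻ x in Ioc 0 Y ∪ Ioi Y, ENNReal.ofReal (x ^ (-b) * (max x Y)⁻¹) :=
        lintegral_mono_set hsub
    _ ≤ (∫⁻ x in Ioc 0 Y, ENNReal.ofReal (x ^ (-b) * (max x Y)⁻¹)) +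
        ∫⁻ x in Ioi Y, ENNReal.ofReal (x ^ (-b) * (max x Y)⁻¹) := lintegral_union_le _ _ _
    _ ≤ ENNReal.ofReal (1 / (1 - b) * Y ^ (-b)) + ENNReal.ofReal (1 / b * Y ^ (-b)) := by
        refine add_le_add ?_ ?_
        · have h1 : ∫⁻ x in Ioc 0 Y, ENNReal.ofReal (x ^ (-b) * (max x Y)⁻¹) =
              ∫⁻ x in Ioc 0 Y, ENNReal.ofReal (x ^ (-b) * Y⁻¹) := by
            refine setLIntegral_congr_fun measurableSet_Ioc fun x hx => ?_
            rw [max_eq_right hx.2]
          rw [h1]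
          have hint : IntegrableOn (fun x : ℝ => x ^ (-b) * Y⁻¹) (Ioc 0 Y) := by
            refine Integrable.mul_const ?_ _
            have := intervalIntegral.intervalIntegrable_rpow' (a := 0) (b := Y) (r := -b)
              (by linarith)
            rwa [intervalIntegrable_iff_integrableOn_Ioc_of_le hY.le] at this
          rw [← ofReal_integral_eq_lintegral_ofReal hint]
          · refine ENNReal.ofReal_le_ofReal (le_of_eq ?_)
            rw [integral_mul_const, ← intervalIntegral.integral_of_le hY.le,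
              integral_rpow (Or.inl (by linarith)), Real.zero_rpow (by linarith), sub_zero,
              Real.rpow_add hY, Real.rpow_one]
            have : -b + 1 = 1 - b := by ring
            rw [this]
            field_simp
          · refine (ae_restrict_iff' measurableSet_Ioc).mpr (Filter.Eventually.of_forall ?_)
            intro x hx
            have := hx.1
            show (0 : ℝ) ≤ _
            positivity
        · have h1 : ∫⁻ x in Ioi Y, ENNReal.ofReal (x ^ (-b) * (max x Y)⁻¹) =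
              ∫⁻ x in Ioi Y, ENNReal.ofReal (x ^ (-b - 1)) := by
            refine setLIntegral_congr_fun measurableSet_Ioi fun x hx => ?_
            have hx0 : 0 < x := hY.trans hx
            rw [max_eq_left (le_of_lt hx), Real.rpow_sub_one hx0.ne', div_eq_mul_inv]
          rw [h1]
          rw [← ofReal_integral_eq_lintegral_ofReal
            (integrableOn_Ioi_rpow_of_lt (by linarith) hY)]
          · refine ENNReal.ofReal_le_ofReal (le_of_eq ?_)
            rw [integral_Ioi_rpow_of_lt (by linarith) hY]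
            have : -b - 1 + 1 = -b := by ring
            rw [this]
            field_simp
          · refine (ae_restrict_iff' measurableSet_Ioi).mpr (Filter.Eventually.of_forall ?_)
            intro x hx
            have : 0 < x := hY.trans hx
            show (0 : ℝ) ≤ _
            positivity
    _ = ENNReal.ofReal ((1 / (1 - b) + 1 / b) * Y ^ (-b)) := by
        rw [← ENNReal.ofReal_add (by positivity) (by positivity)]
        congr 1
        ring

theorem fr_one {b : ℝ} (hb0 : 0 < b) (hb1 : b < 1) {z : ℂ} (hz : ‖z‖ < 1) :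
    ∫⁻ w in ball (0 : ℂ) 1, ENNReal.ofReal ((‖1 - conj z * w‖ ^ 2)⁻¹) *
      ENNReal.ofReal ((1 - ‖w‖) ^ (-b)) ≤
      ENNReal.ofReal (2 * Real.pi * (1 / (1 - b) + 1 / b)) *
        ENNReal.ofReal ((1 - ‖z‖) ^ (-b)) := by
  have hpi := Real.pi_pos
  have hb' : 0 < 1 - b := by linarith
  have hz' : 0 < 1 - ‖z‖ := by linarith
  have hz0 := norm_nonneg z
  set G : ℂ → ℝ≥0∞ := fun w => ENNReal.ofReal ((‖1 - conj z * w‖ ^ 2)⁻¹) *
      ENNReal.ofReal ((1 - ‖w‖) ^ (-b)) with hG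
  have hGm : Measurable G := by
    rw [hG]; fun_prop
  rw [← lintegral_indicator measurableSet_ball, ← Complex.lintegral_comp_polarCoord_symm]
  have htarget : (Complex.polarCoord.target : Set (ℝ × ℝ)) = Ioi 0 ×ˢ Ioo (-Real.pi) Real.pi := rfl
  have htarget' : (polarCoord.target : Set (ℝ × ℝ)) = Ioi 0 ×ˢ Ioo (-Real.pi) Real.pi := rfl
  rw [htarget', Measure.volume_eq_prod, ← Measure.prod_restrict]
  have hmeas : Measurable fun p : ℝ × ℝ => ENNReal.ofReal p.1 •
      (ball (0 : ℂ) 1).indicator G (Complex.polarCoord.symm p) := by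
    have h1 : Measurable fun p : ℝ × ℝ => Complex.polarCoord.symm p := by
      simp only [Complex.polarCoord_symm_apply]
      fun_prop
    refine (by fun_prop : Measurable fun p : ℝ × ℝ => ENNReal.ofReal p.1).smul ?_
    exact (hGm.indicator measurableSet_ball).comp h1
  rw [lintegral_prod _ hmeas.aemeasurable]
  -- the inner integral
  have hinner : ∀ ρ ∈ Ioi (0 : ℝ), ∫⁻ φ in Ioo (-Real.pi) Real.pi, ENNReal.ofReal ρ •
      (ball (0 : ℂ) 1).indicator G (Complex.polarCoord.symm (ρ, φ)) ≤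
      (Ioo (0 : ℝ) 1).indicator (fun ρ => ENNReal.ofReal (2 * Real.pi) *
        ENNReal.ofReal ((1 - ρ) ^ (-b) * (max (1 - ρ) (1 - ‖z‖))⁻¹)) ρ := by
    intro ρ hρ
    have hρ0 : 0 < ρ := hρ
    rcases lt_or_ge ρ 1 with hρ1 | hρ1
    · rw [indicator_of_mem (show ρ ∈ Ioo (0 : ℝ) 1 from ⟨hρ0, hρ1⟩)]
      have hnorm : ∀ φ : ℝ, ‖(ρ * (Real.cos φ + Real.sin φ * I) : ℂ)‖ = ρ := by
        intro φ
        have h1 : (Real.cos φ + Real.sin φ * I : ℂ) = Complex.exp (φ * I) := by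
          rw [Complex.exp_mul_I, Complex.ofReal_cos, Complex.ofReal_sin]
        rw [h1, norm_mul, Complex.norm_exp_ofReal_mul_I, mul_one, Complex.norm_real,
          Real.norm_of_nonneg hρ0.le]
      have h1 : ∀ φ : ℝ, ENNReal.ofReal ρ •
          (ball (0 : ℂ) 1).indicator G (Complex.polarCoord.symm (ρ, φ)) =
          ENNReal.ofReal (ρ * (1 - ρ) ^ (-b)) *
            ENNReal.ofReal ((‖Complex.exp (φ * I) - ρ * z‖ ^ 2)⁻¹) := by
        intro φ
        rw [Complex.polarCoord_symm_apply, indicator_of_mem]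
        · simp only [hG]
          rw [hnorm φ, fr_norm_kernel', smul_eq_mul, ENNReal.ofReal_mul hρ0.le]
          ring
        · rw [mem_ball_zero_iff, hnorm φ]
          exact hρ1
      simp only [h1]
      have hw : ‖(ρ : ℂ) * z‖ < 1 := by
        rw [norm_mul, Complex.norm_real, Real.norm_of_nonneg hρ0.le]
        nlinarith
      rw [lintegral_const_mul _ (by fun_prop), fr_angular hw, norm_mul, Complex.norm_real,
        Real.norm_of_nonneg hρ0.le, ← ENNReal.ofReal_mul (by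
          have : 0 < 1 - ρ := by linarith
          positivity), ← ENNReal.ofReal_mul (by positivity)]
      refine ENNReal.ofReal_le_ofReal ?_
      have hρ' : 0 < 1 - ρ := by linarith
      have hmax : 0 < max (1 - ρ) (1 - ‖z‖) := lt_max_of_lt_left hρ'
      have hle : max (1 - ρ) (1 - ‖z‖) ≤ 1 - (ρ * ‖z‖) ^ 2 := by
        have h2 : ρ * ‖z‖ ≤ 1 := by nlinarith
        have h3 : 0 ≤ ρ * ‖z‖ := by positivity
        refine max_le ?_ ?_
        · nlinarith
        · nlinarith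
      have h2 : 0 < 1 - (ρ * ‖z‖) ^ 2 := hmax.trans_le hle
      have h3 : (1 - (ρ * ‖z‖) ^ 2)⁻¹ ≤ (max (1 - ρ) (1 - ‖z‖))⁻¹ := inv_anti₀ hmax hle
      calc ρ * (1 - ρ) ^ (-b) * (2 * Real.pi / (1 - (ρ * ‖z‖) ^ 2))
          = ρ * ((1 - ρ) ^ (-b) * (2 * Real.pi) * (1 - (ρ * ‖z‖) ^ 2)⁻¹) := by ring
        _ ≤ 1 * ((1 - ρ) ^ (-b) * (2 * Real.pi) * (1 - (ρ * ‖z‖) ^ 2)⁻¹) := by
            gcongr
        _ ≤ 1 * ((1 - ρ) ^ (-b) * (2 * Real.pi) * (max (1 - ρ) (1 - ‖z‖))⁻¹) := by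
            gcongr
        _ = 2 * Real.pi * ((1 - ρ) ^ (-b) * (max (1 - ρ) (1 - ‖z‖))⁻¹) := by ring
    · have h1 : ∀ φ : ℝ, ENNReal.ofReal ρ •
          (ball (0 : ℂ) 1).indicator G (Complex.polarCoord.symm (ρ, φ)) = 0 := by
        intro φ
        rw [indicator_of_notMem, smul_zero]
        rw [mem_ball_zero_iff, Complex.norm_polarCoord_symm, abs_of_pos hρ0]
        simpa using hρ1
      simp only [h1]
      simp
  refine (setLIntegral_mono' measurableSet_Ioi hinner).trans ?_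
  rw [setLIntegral_indicator measurableSet_Ioo]
  have hset : Ioo (0 : ℝ) 1 ∩ Ioi 0 = Ioo 0 1 := by
    ext x
    simp only [mem_inter_iff, mem_Ioo, mem_Ioi]
    tauto
  rw [hset, lintegral_const_mul _ (by fun_prop)]
  -- change of variables
  have hcv : ∫⁻ ρ in Ioo (0 : ℝ) 1, ENNReal.ofReal ((1 - ρ) ^ (-b) *
      (max (1 - ρ) (1 - ‖z‖))⁻¹) =
      ∫⁻ x in Ioo (0 : ℝ) 1, ENNReal.ofReal (x ^ (-b) * (max x (1 - ‖z‖))⁻¹) := by
    have h1 := (Measure.measurePreserving_sub_left (volume : Measure ℝ) 1).setLIntegral_comp_preimage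
      (s := Ioo (0 : ℝ) 1) measurableSet_Ioo
      (f := fun x => ENNReal.ofReal (x ^ (-b) * (max x (1 - ‖z‖))⁻¹)) (by fun_prop)
    have h2 : (fun x : ℝ => 1 - x) ⁻¹' Ioo 0 1 = Ioo 0 1 := by
      ext x
      simp only [mem_preimage, mem_Ioo]
      constructor <;> rintro ⟨h3, h4⟩ <;> constructor <;> linarith
    rw [h2] at h1
    exact h1
  rw [hcv]
  calc ENNReal.ofReal (2 * Real.pi) *
        ∫⁻ x in Ioo (0 : ℝ) 1, ENNReal.ofReal (x ^ (-b) * (max x (1 - ‖z‖))⁻¹)
      ≤ ENNReal.ofReal (2 * Real.pi) *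
        ENNReal.ofReal ((1 / (1 - b) + 1 / b) * (1 - ‖z‖) ^ (-b)) := by
        gcongr
        exact fr_radial hb0 hb1 hz'
    _ = _ := by
        rw [← ENNReal.ofReal_mul (by positivity), ← ENNReal.ofReal_mul (by positivity)]
        congr 1
        ring

theorem forelli_rudin {r : ℝ} (hr : 1 < r) :
    ∃ C : ℝ, 0 < C ∧ ∀ f : ℂ → ℝ≥0∞, Measurable f →
      ∫⁻ z in ball (0 : ℂ) 1, (∫⁻ w in ball (0 : ℂ) 1,
        ENNReal.ofReal ((‖1 - conj z * w‖ ^ 2)⁻¹) * f w) ^ r ≤
      ENNReal.ofReal C * ∫⁻ w in ball (0 : ℂ) 1, f w ^ r := by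
  have hpi := Real.pi_pos
  set b : ℝ := 1 / (2 * r) with hb
  have hb0 : 0 < b := by positivity
  have hbr : b * r = 1 / 2 := by rw [hb]; field_simp
  have hb1 : b < 1 := by nlinarith
  set b' : ℝ := b * (r - 1) with hb'
  have hb'0 : 0 < b' := by
    have : 0 < r - 1 := by linarith
    positivity
  have hb'1 : b' < 1 := by
    have : b' = 1 / 2 - b := by rw [hb', mul_sub, hbr, mul_one]
    rw [this]; linarith
  set C1 : ℝ := 2 * Real.pi * (1 / (1 - b) + 1 / b) with hC1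
  set C2 : ℝ := 2 * Real.pi * (1 / (1 - b') + 1 / b') with hC2
  have h1b : 0 < 1 - b := by linarith
  have h1b' : 0 < 1 - b' := by linarith
  have hC1pos : 0 < C1 := by positivity
  have hC2pos : 0 < C2 := by positivity
  refine ⟨C1 ^ (r - 1) * C2, by positivity, fun f hf => ?_⟩
  set P : ℂ → ℂ → ℝ≥0∞ := fun z w => ENNReal.ofReal ((‖1 - conj z * w‖ ^ 2)⁻¹) with hP
  set h : ℂ → ℝ≥0∞ := fun w => ENNReal.ofReal ((1 - ‖w‖) ^ (-b)) with hh
  have hhm : Measurable h := by rw [hh]; fun_prop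
  have hPm : Measurable (Function.uncurry P) := by
    rw [hP]; unfold Function.uncurry; fun_prop
  have hh0 : ∀ w ∈ ball (0 : ℂ) 1, h w ≠ 0 := by
    intro w hw
    rw [mem_ball_zero_iff] at hw
    have : 0 < 1 - ‖w‖ := by linarith
    simp only [hh]
    rw [Ne, ENNReal.ofReal_eq_zero, not_le]
    positivity
  have hhtop : ∀ w, h w ≠ ⊤ := fun w => ENNReal.ofReal_ne_top
  have hhpow : ∀ w ∈ ball (0 : ℂ) 1, h w ^ (r - 1) = ENNReal.ofReal ((1 - ‖w‖) ^ (-b')) := by
    intro w hw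
    rw [mem_ball_zero_iff] at hw
    have : 0 < 1 - ‖w‖ := by linarith
    simp only [hh]
    rw [ENNReal.ofReal_rpow_of_nonneg (by positivity) (by linarith), ← Real.rpow_mul this.le]
    congr 2
    rw [hb']; ring
  have hsymm : ∀ z w, P z w = P w z := by
    intro z w
    simp only [hP]
    congr 3
    rw [← Complex.norm_conj]
    congr 1
    simp only [map_sub, map_one, map_mul, Complex.conj_conj]
    ring
  have key := schur (μ := volume.restrict (ball (0 : ℂ) 1))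
    (ν := volume.restrict (ball (0 : ℂ) 1)) hr (k := fun z w => P z w * h w)
    (g := fun w => f w / h w) (W := fun _ => 1)
    (A := fun z => ENNReal.ofReal C1 * h z)
    (B := fun w => ENNReal.ofReal (C1 ^ (r - 1) * C2) * h w ^ r)
    (by
      have : (Function.uncurry fun z w => P z w * h w) =
          fun p : ℂ × ℂ => Function.uncurry P p * h p.2 := by
        funext p; rfl
      rw [this]
      exact hPm.mul (hhm.comp measurable_snd))
    (hf.div hhm) measurable_const (hhm.const_mul _)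
    (by
      refine (ae_restrict_iff' measurableSet_ball).mpr (Filter.Eventually.of_forall ?_)
      intro z hz
      rw [mem_ball_zero_iff] at hz
      exact fr_one hb0 hb1 hz)
    (by
      refine (ae_restrict_iff' measurableSet_ball).mpr (Filter.Eventually.of_forall ?_)
      intro w hw
      have hw' : ‖w‖ < 1 := by rwa [mem_ball_zero_iff] at hw
      have h1 : ∫⁻ z in ball (0 : ℂ) 1, 1 * (ENNReal.ofReal C1 * h z) ^ (r - 1) *
          (P z w * h w) =
          ENNReal.ofReal (C1 ^ (r - 1)) * h w * ∫⁻ z in ball (0 : ℂ) 1,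
            P w z * ENNReal.ofReal ((1 - ‖z‖) ^ (-b')) := by
        rw [← lintegral_const_mul _ (by rw [hP]; fun_prop)]
        refine setLIntegral_congr_fun measurableSet_ball fun z hz => ?_
        show 1 * (ENNReal.ofReal C1 * h z) ^ (r - 1) * (P z w * h w) = _
        rw [ENNReal.mul_rpow_of_nonneg _ _ (by linarith), hhpow z hz,
          ENNReal.ofReal_rpow_of_pos hC1pos, hsymm z w]
        ring
      rw [h1]
      calc ENNReal.ofReal (C1 ^ (r - 1)) * h w * ∫⁻ z in ball (0 : ℂ) 1,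
            P w z * ENNReal.ofReal ((1 - ‖z‖) ^ (-b'))
          ≤ ENNReal.ofReal (C1 ^ (r - 1)) * h w *
            (ENNReal.ofReal C2 * ENNReal.ofReal ((1 - ‖w‖) ^ (-b'))) := by
            gcongr
            exact fr_one hb'0 hb'1 hw'
        _ = ENNReal.ofReal (C1 ^ (r - 1)) * ENNReal.ofReal C2 * (h w * h w ^ (r - 1)) := by
            rw [hhpow w hw]
            ring
        _ = ENNReal.ofReal (C1 ^ (r - 1) * C2) * h w ^ r := by
            have h2 : h w ^ r = h w * h w ^ (r - 1) := by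
              have h3 := ENNReal.rpow_add 1 (r - 1) (hh0 w hw) (hhtop w)
              rw [ENNReal.rpow_one] at h3
              rw [← h3]
              congr 1
              ring
            rw [h2, ← ENNReal.ofReal_mul (by positivity)])
  have hL : ∫⁻ z in ball (0 : ℂ) 1, 1 * (∫⁻ w in ball (0 : ℂ) 1,
      P z w * h w * (f w / h w)) ^ r =
      ∫⁻ z in ball (0 : ℂ) 1, (∫⁻ w in ball (0 : ℂ) 1, P z w * f w) ^ r := by
    refine lintegral_congr fun z => ?_
    rw [one_mul]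
    congr 1
    refine setLIntegral_congr_fun measurableSet_ball fun w hw => ?_
    show P z w * h w * (f w / h w) = P z w * f w
    rw [mul_assoc, ENNReal.mul_div_cancel (hh0 w hw) (hhtop w)]
  have hR : ∫⁻ w in ball (0 : ℂ) 1, ENNReal.ofReal (C1 ^ (r - 1) * C2) * h w ^ r *
      (f w / h w) ^ r = ENNReal.ofReal (C1 ^ (r - 1) * C2) * ∫⁻ w in ball (0 : ℂ) 1, f w ^ r := by
    rw [← lintegral_const_mul _ (hf.pow_const r)]
    refine setLIntegral_congr_fun measurableSet_ball fun w hw => ?_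
    show ENNReal.ofReal (C1 ^ (r - 1) * C2) * h w ^ r * (f w / h w) ^ r = _
    rw [mul_assoc, ← ENNReal.mul_rpow_of_nonneg _ _ (by linarith),
      ENNReal.mul_div_cancel (hh0 w hw) (hhtop w)]
  rw [hL, hR] at key
  exact key

end

end BergmanReg
end

section

namespace BergmanReg

open MeasureTheory Metric Set Filter Topology Complex
open scoped ENNReal NNReal ComplexConjugate

noncomputable section

/-! ## Dyadic bound, mean value, comparison kernel -/

theorem dy_pos (R : ℝ) (hR : 0 < R) (z : ℂ) : 0 < R ^ 2 + ‖z - 1‖ ^ 2 := by positivity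

theorem dy_eta_cont {R : ℝ} (hR : 0 < R) : Continuous (eta R) := by
  unfold eta
  refine Continuous.div (by fun_prop) (by fun_prop) fun z => (dy_pos R hR z).ne'

theorem dy_eta_nonneg {R : ℝ} (hR : 0 < R) (z : ℂ) : 0 ≤ eta R z := by
  unfold eta; positivity

theorem dy_eta_le_one {R : ℝ} (hR : 0 < R) (z : ℂ) : eta R z ≤ 1 := by
  unfold eta
  rw [div_le_one (dy_pos R hR z)]
  nlinarith [sq_nonneg ‖z - 1‖]

theorem dy_int {R : ℝ} (hR : 0 < R) {g : ℂ → ℝ} (hg : Integrable g) (u : ℂ) :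
    Integrable (fun z => eta R (u * z) * g z) := by
  refine hg.bdd_mul (c := 1) ?_ ?_
  · exact ((dy_eta_cont hR).comp (continuous_const.mul continuous_id)).aestronglyMeasurable
  · refine Eventually.of_forall fun z => ?_
    rw [Real.norm_eq_abs, abs_of_nonneg (dy_eta_nonneg hR _)]
    exact dy_eta_le_one hR _

theorem dy_int' {R : ℝ} (hR : 0 < R) {g : ℂ → ℝ} (hg : Integrable g) :
    Integrable (fun z => eta R z * g z) := by
  simpa using dy_int hR hg 1

theorem dy_point {R : ℝ} (hR : 0 < R) (z : ℂ) :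
    ∃ j : ℕ, z ∈ ball (1 : ℂ) (2 ^ j * R) ∧ eta R z ≤ 4 * (4 : ℝ)⁻¹ ^ j := by
  have hex : ∃ j : ℕ, ‖z - 1‖ < 2 ^ j * R := by
    obtain ⟨j, hj⟩ := pow_unbounded_of_one_lt (‖z - 1‖ / R) (one_lt_two)
    exact ⟨j, by rwa [div_lt_iff₀ hR] at hj⟩
  classical
  let j := Nat.find hex
  have hj : ‖z - 1‖ < 2 ^ j * R := Nat.find_spec hex
  refine ⟨j, by rwa [mem_ball, dist_eq_norm], ?_⟩
  rcases Nat.eq_zero_or_pos j with h0 | hpos
  · rw [h0]
    have := dy_eta_le_one hR z
    norm_num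
    linarith
  · obtain ⟨i, hi⟩ : ∃ i, j = i + 1 := ⟨j - 1, by omega⟩
    have hlt : ¬ (‖z - 1‖ < 2 ^ i * R) := Nat.find_min hex (by change i < j; omega)
    push Not at hlt
    rw [hi, pow_succ]
    have h1 : (2 ^ i * R) ^ 2 ≤ ‖z - 1‖ ^ 2 := by
      have : 0 ≤ 2 ^ i * R := by positivity
      nlinarith
    have h2 : (2 ^ i * R) ^ 2 = 4 ^ i * R ^ 2 := by
      rw [mul_pow, ← pow_mul, mul_comm i 2, pow_mul]; norm_num
    unfold eta
    rw [div_le_iff₀ (dy_pos R hR z)]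
    have h3 : (4 : ℝ)⁻¹ ^ i * 4 ^ i = 1 := by
      rw [← mul_pow]; norm_num
    have h4 : (0 : ℝ) < 4⁻¹ ^ i := by positivity
    have h5 : (4 : ℝ)⁻¹ ^ i * (4 ^ i * R ^ 2) = R ^ 2 := by
      rw [← mul_assoc, h3, one_mul]
    have h6 : (4 : ℝ)⁻¹ ^ i * (4 ^ i * R ^ 2) ≤ 4⁻¹ ^ i * ‖z - 1‖ ^ 2 :=
      mul_le_mul_of_nonneg_left (by rw [← h2]; exact h1) h4.le
    have h7 : 0 ≤ (4 : ℝ)⁻¹ ^ i * R ^ 2 := by positivity
    nlinarith

theorem ee_dyadic {p : ℝ} {F : ℂ → ℂ} (hF : Integrable (fun z => ‖F z‖ ^ p)) {R : ℝ}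
    (hR : 0 < R) :
    ENNReal.ofReal (ee p R F) ≤ 4 * ∑' j : ℕ, ((4 : ℝ≥0∞)⁻¹) ^ j *
      ENNReal.ofReal (∫ z in ball (1 : ℂ) (2 ^ j * R), ‖F z‖ ^ p) := by
  have hnn : ∀ z, 0 ≤ ‖F z‖ ^ p := fun z => by positivity
  have hint := dy_int' hR hF
  unfold ee
  rw [ofReal_integral_eq_lintegral_ofReal hint
    (Eventually.of_forall fun z => mul_nonneg (dy_eta_nonneg hR z) (hnn z))]
  have hj : ∀ j : ℕ, ENNReal.ofReal (∫ z in ball (1 : ℂ) (2 ^ j * R), ‖F z‖ ^ p) =
      ∫⁻ z, (ball (1 : ℂ) (2 ^ j * R)).indicator (fun z => ENNReal.ofReal (‖F z‖ ^ p)) z := by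
    intro j
    rw [ofReal_integral_eq_lintegral_ofReal hF.integrableOn (Eventually.of_forall hnn),
      lintegral_indicator measurableSet_ball]
  simp_rw [hj]
  have hmeas : ∀ j : ℕ, AEMeasurable (fun z => ((4 : ℝ≥0∞)⁻¹) ^ j *
      (ball (1 : ℂ) (2 ^ j * R)).indicator (fun z => ENNReal.ofReal (‖F z‖ ^ p)) z) := by
    intro j
    refine AEMeasurable.const_mul ?_ _
    exact (hF.aemeasurable.ennreal_ofReal).indicator measurableSet_ball
  have hc : ∀ j : ℕ, ((4 : ℝ≥0∞)⁻¹) ^ j ≠ ⊤ := fun j =>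
    ENNReal.pow_ne_top (by simp)
  calc ∫⁻ z, ENNReal.ofReal (eta R z * ‖F z‖ ^ p)
      ≤ ∫⁻ z, 4 * ∑' j : ℕ, ((4 : ℝ≥0∞)⁻¹) ^ j *
          (ball (1 : ℂ) (2 ^ j * R)).indicator (fun z => ENNReal.ofReal (‖F z‖ ^ p)) z := by
        refine lintegral_mono fun z => ?_
        obtain ⟨j, hj1, hj2⟩ := dy_point hR z
        refine le_trans ?_ (mul_le_mul_right (ENNReal.le_tsum j) 4)
        rw [indicator_of_mem hj1, ENNReal.ofReal_mul (dy_eta_nonneg hR z), ← mul_assoc]
        refine mul_le_mul_left ?_ _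
        refine le_trans (ENNReal.ofReal_le_ofReal hj2) ?_
        rw [ENNReal.ofReal_mul (by norm_num), ENNReal.ofReal_pow (by norm_num),
          ENNReal.ofReal_inv_of_pos (by norm_num)]
        simp
    _ = 4 * ∑' j : ℕ, ((4 : ℝ≥0∞)⁻¹) ^ j *
          ∫⁻ z, (ball (1 : ℂ) (2 ^ j * R)).indicator (fun z => ENNReal.ofReal (‖F z‖ ^ p)) z := by
        rw [lintegral_const_mul' _ _ (by norm_num), lintegral_tsum hmeas]
        congr 1
        refine tsum_congr fun j => ?_
        rw [lintegral_const_mul' _ _ (hc j)]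

/-! ## mean value -/

/-- Jensen's inequality on circles -/
theorem dy_circle {p : ℝ} (hp : 1 < p) {F : ℂ → ℂ} (hF : DifferentiableOn ℂ F (ball 0 1)) {ρ : ℝ}
    (h0 : 0 ≤ ρ) {r : ℝ} (hr : 0 < r) (hr1 : r < 1 - ρ) :
    2 * Real.pi * ‖F ρ‖ ^ p ≤ ∫ θ in Ioo (-Real.pi) Real.pi, ‖F (ρ + r * Complex.exp (θ * I))‖ ^ p := by
  have hsub : closedBall (ρ : ℂ) r ⊆ ball (0 : ℂ) 1 := by
    intro z hz
    rw [mem_closedBall, dist_eq_norm] at hz
    rw [mem_ball_zero_iff]
    have : ‖z‖ ≤ ‖z - ρ‖ + ‖(ρ : ℂ)‖ := by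
      simpa using norm_add_le (z - ρ) (ρ : ℂ)
    rw [Complex.norm_real, Real.norm_eq_abs, abs_of_nonneg h0] at this
    linarith
  have hcirc : ∀ θ : ℝ, (ρ : ℂ) + r * Complex.exp (θ * I) ∈ closedBall (ρ : ℂ) r := by
    intro θ
    rw [mem_closedBall, dist_eq_norm, add_sub_cancel_left, norm_mul, Complex.norm_exp_ofReal_mul_I,
      mul_one, Complex.norm_real, Real.norm_eq_abs, abs_of_pos hr]
  have hcont : Continuous (fun θ : ℝ => F (ρ + r * Complex.exp (θ * I))) := by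
    refine hF.continuousOn.comp_continuous (by fun_prop) fun θ => hsub (hcirc θ)
  have hdc : DiffContOnCl ℂ F (ball (ρ : ℂ) |r|) := by
    rw [abs_of_pos hr]
    exact hF.diffContOnCl_ball hsub
  have hav := DiffContOnCl.circleAverage hdc
  rw [Real.circleAverage_def] at hav
  have hper : (∫ θ in (0 : ℝ)..(2 * Real.pi), F (circleMap (ρ : ℂ) r θ)) =
      ∫ θ in Ioo (-Real.pi) Real.pi, F (ρ + r * Complex.exp (θ * I)) := by
    have hp1 : Function.Periodic (fun θ : ℝ => F (circleMap (ρ : ℂ) r θ)) (2 * Real.pi) := by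
      intro θ
      simp only
      rw [periodic_circleMap]
    have := hp1.intervalIntegral_add_eq 0 (-Real.pi)
    rw [zero_add, show -Real.pi + 2 * Real.pi = Real.pi by ring] at this
    rw [this, intervalIntegral.integral_of_le (by linarith [Real.pi_pos]),
      MeasureTheory.integral_Ioc_eq_integral_Ioo]
    rfl
  rw [hper] at hav
  set μ := (volume : Measure ℝ).restrict (Ioo (-Real.pi) Real.pi) with hμ
  have hvol : (volume : Measure ℝ) (Ioo (-Real.pi) Real.pi) = ENNReal.ofReal (2 * Real.pi) := by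
    rw [Real.volume_Ioo]; congr 1; ring
  have hpi := Real.pi_pos
  have h2pi : 0 < 2 * Real.pi := by positivity
  have hfi : IntegrableOn (fun θ : ℝ => F (ρ + r * Complex.exp (θ * I)))
      (Ioo (-Real.pi) Real.pi) :=
    (hcont.continuousOn.integrableOn_compact (isCompact_Icc)).mono_set Ioo_subset_Icc_self
  have hcontp : Continuous (fun θ : ℝ => ‖F (ρ + r * Complex.exp (θ * I))‖ ^ p) :=
    hcont.norm.rpow_const (fun _ => Or.inr (by linarith))
  have hgi : IntegrableOn (fun θ : ℝ => ‖F (ρ + r * Complex.exp (θ * I))‖ ^ p)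
      (Ioo (-Real.pi) Real.pi) :=
    (hcontp.continuousOn.integrableOn_compact (isCompact_Icc)).mono_set Ioo_subset_Icc_self
  have hnorm : ‖F ρ‖ ≤ (2 * Real.pi)⁻¹ * ∫ θ in Ioo (-Real.pi) Real.pi,
      ‖F (ρ + r * Complex.exp (θ * I))‖ := by
    rw [← hav, norm_smul, Real.norm_eq_abs, abs_of_pos (inv_pos.mpr h2pi)]
    exact mul_le_mul_of_nonneg_left (norm_integral_le_integral_norm _) (inv_pos.mpr h2pi).le
  have hJ := (convexOn_rpow hp.le).map_set_average_le (μ := volume)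
    (t := Ioo (-Real.pi) Real.pi) (f := fun θ : ℝ => ‖F (ρ + r * Complex.exp (θ * I))‖)
    (Real.continuous_rpow_const (by linarith)).continuousOn isClosed_Ici
    (by rw [hvol]; simp [hpi]) (by rw [hvol]; exact ENNReal.ofReal_ne_top)
    (Eventually.of_forall fun θ => norm_nonneg _) hfi.norm hgi
  rw [setAverage_eq, setAverage_eq, Measure.real, hvol, ENNReal.toReal_ofReal h2pi.le,
    smul_eq_mul, smul_eq_mul] at hJ
  have h3 : ‖F ρ‖ ^ p ≤ (2 * Real.pi)⁻¹ * ∫ θ in Ioo (-Real.pi) Real.pi,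
      ‖F (ρ + r * Complex.exp (θ * I))‖ ^ p :=
    le_trans (Real.rpow_le_rpow (norm_nonneg _) hnorm (by linarith)) hJ
  have h4 := mul_le_mul_of_nonneg_left h3 h2pi.le
  rwa [← mul_assoc, mul_inv_cancel₀ h2pi.ne', one_mul] at h4

theorem dy_ofReal_integral_le {X : Type*} [MeasurableSpace X] {μ : Measure X} {f : X → ℝ}
    (hf : ∀ x, 0 ≤ f x) : ENNReal.ofReal (∫ x, f x ∂μ) ≤ ∫⁻ x, ENNReal.ofReal (f x) ∂μ := by
  by_cases h : Integrable f μ
  · exact (ofReal_integral_eq_lintegral_ofReal h (Eventually.of_forall hf)).le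
  · rw [integral_undef h]; simp

/-- area mean value inequality -/
theorem dy_area {p : ℝ} (hp : 1 < p) {F : ℂ → ℂ} (hF : DifferentiableOn ℂ F (ball 0 1))
    (hm : Measurable F) {ρ : ℝ} (h0 : 0 ≤ ρ) (h1 : ρ < 1) :
    ENNReal.ofReal (Real.pi * (1 - ρ) ^ 2 * ‖F ρ‖ ^ p) ≤
      ∫⁻ z in ball (ρ : ℂ) (1 - ρ), ENNReal.ofReal (‖F z‖ ^ p) := by
  set y : ℝ := 1 - ρ with hy
  have hy0 : 0 < y := by linarith
  set f : ℂ → ℝ≥0∞ := fun z =>
    (ball (0 : ℂ) y).indicator (fun z => ENNReal.ofReal (‖F (ρ + z)‖ ^ p)) z with hf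
  have hfm : Measurable f := by
    refine Measurable.indicator ?_ measurableSet_ball
    exact ((hm.comp (measurable_const.add measurable_id)).norm.pow_const p).ennreal_ofReal
  have hshift : ∫⁻ z in ball (ρ : ℂ) y, ENNReal.ofReal (‖F z‖ ^ p) = ∫⁻ z, f z := by
    rw [← lintegral_indicator measurableSet_ball,
      ← lintegral_add_left_eq_self _ (ρ : ℂ)]
    refine lintegral_congr fun z => ?_
    rw [hf]
    beta_reduce
    by_cases hz : z ∈ ball (0 : ℂ) y
    · rw [indicator_of_mem, indicator_of_mem hz]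
      rw [mem_ball, dist_eq_norm, add_sub_cancel_left]
      simpa using hz
    · rw [indicator_of_notMem, indicator_of_notMem hz]
      rw [mem_ball, dist_eq_norm, add_sub_cancel_left]
      simpa using hz
  rw [hshift, ← Complex.lintegral_comp_polarCoord_symm, polarCoord_target,
    Measure.volume_eq_prod, ← Measure.prod_restrict]
  have hmeas : Measurable (fun q : ℝ × ℝ => ENNReal.ofReal q.1 • f (Complex.polarCoord.symm q)) := by
    refine Measurable.smul measurable_fst.ennreal_ofReal (hfm.comp ?_)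
    have : (fun q : ℝ × ℝ => Complex.polarCoord.symm q) =
        fun q : ℝ × ℝ => (q.1 : ℂ) * (Real.cos q.2 + Real.sin q.2 * I) := by
      funext q; rw [Complex.polarCoord_symm_apply]
    change Measurable (fun q : ℝ × ℝ => Complex.polarCoord.symm q)
    rw [this]
    fun_prop
  rw [lintegral_prod _ hmeas.aemeasurable]
  have hcirc : ∀ r ∈ Ioo (0 : ℝ) y, ENNReal.ofReal (r * (2 * Real.pi * ‖F ρ‖ ^ p)) ≤
      ∫⁻ θ in Ioo (-Real.pi) Real.pi, ENNReal.ofReal r • f (Complex.polarCoord.symm (r, θ)) := by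
    intro r hr
    have hJ := dy_circle hp hF h0 hr.1 (by rw [← hy]; exact hr.2)
    have heq : ∀ θ : ℝ, f (Complex.polarCoord.symm (r, θ)) =
        ENNReal.ofReal (‖F (ρ + r * Complex.exp (θ * I))‖ ^ p) := by
      intro θ
      rw [Complex.polarCoord_symm_apply, hf]
      simp only
      have he : ((r : ℂ) * (Real.cos θ + Real.sin θ * I)) = r * Complex.exp (θ * I) := by
        rw [Complex.exp_mul_I]; push_cast; ring
      rw [he, indicator_of_mem]
      rw [mem_ball_zero_iff, norm_mul, Complex.norm_exp_ofReal_mul_I, mul_one, Complex.norm_real,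
        Real.norm_eq_abs, abs_of_pos hr.1]
      exact hr.2
    simp_rw [heq, smul_eq_mul]
    rw [lintegral_const_mul' _ _ ENNReal.ofReal_ne_top, ENNReal.ofReal_mul hr.1.le]
    refine mul_le_mul_right ?_ _
    refine le_trans (ENNReal.ofReal_le_ofReal hJ) ?_
    exact dy_ofReal_integral_le (fun θ => by positivity)
  calc ENNReal.ofReal (Real.pi * y ^ 2 * ‖F ρ‖ ^ p)
      = ∫⁻ r in Ioo (0 : ℝ) y, ENNReal.ofReal (r * (2 * Real.pi * ‖F ρ‖ ^ p)) := by
        have hint : IntegrableOn (fun r : ℝ => r * (2 * Real.pi * ‖F ρ‖ ^ p)) (Ioo 0 y) :=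
          ((by fun_prop : Continuous (fun r : ℝ => r * (2 * Real.pi * ‖F ρ‖ ^ p))
            ).continuousOn.integrableOn_compact isCompact_Icc).mono_set Ioo_subset_Icc_self
        rw [← ofReal_integral_eq_lintegral_ofReal hint]
        · congr 1
          rw [← MeasureTheory.integral_Ioc_eq_integral_Ioo,
            ← intervalIntegral.integral_of_le hy0.le, intervalIntegral.integral_mul_const,
            integral_id]
          ring
        · rw [Filter.EventuallyLE, ae_restrict_iff' measurableSet_Ioo]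
          refine Eventually.of_forall fun r hr => ?_
          have := hr.1.le
          simp only [Pi.zero_apply]
          positivity
    _ ≤ ∫⁻ r in Ioo (0 : ℝ) y, ∫⁻ θ in Ioo (-Real.pi) Real.pi,
          ENNReal.ofReal r • f (Complex.polarCoord.symm (r, θ)) :=
        setLIntegral_mono' measurableSet_Ioo hcirc
    _ ≤ _ := lintegral_mono_set Ioo_subset_Ioi_self

theorem mean_val {p : ℝ} (hp : 1 < p) {F : ℂ → ℂ} (hF : InAp p F) {ρ : ℝ} (h0 : 0 ≤ ρ)
    (h1 : ρ < 1) :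
    ‖F ρ‖ ^ p ≤ 4 * ((2 * (1 - ρ)) ^ 2)⁻¹ * ∫ z in ball (1 : ℂ) (2 * (1 - ρ)), ‖F z‖ ^ p := by
  have hA := dy_area hp hF.diff (inAp_measurable hF) h0 h1
  set y : ℝ := 1 - ρ with hy
  have hy0 : 0 < y := by linarith
  have hsub : ball (ρ : ℂ) y ⊆ ball (1 : ℂ) (2 * y) := by
    intro z hz
    rw [mem_ball, dist_eq_norm] at hz ⊢
    have h2 : ‖z - 1‖ ≤ ‖z - ρ‖ + ‖(ρ : ℂ) - 1‖ := by
      simpa using norm_add_le (z - ρ) ((ρ : ℂ) - 1)
    have h3 : ‖(ρ : ℂ) - 1‖ = y := by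
      rw [show (ρ : ℂ) - 1 = ((ρ - 1 : ℝ) : ℂ) by push_cast; ring, Complex.norm_real,
        Real.norm_eq_abs, abs_of_neg (by linarith)]
      linarith
    linarith
  have hB : ENNReal.ofReal (Real.pi * y ^ 2 * ‖F ρ‖ ^ p) ≤
      ENNReal.ofReal (∫ z in ball (1 : ℂ) (2 * y), ‖F z‖ ^ p) := by
    rw [ofReal_integral_eq_lintegral_ofReal hF.int.integrableOn
      (Eventually.of_forall fun z => by positivity)]
    exact hA.trans (lintegral_mono_set hsub)
  have hI : 0 ≤ ∫ z in ball (1 : ℂ) (2 * y), ‖F z‖ ^ p :=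
    integral_nonneg fun z => by positivity
  rw [ENNReal.ofReal_le_ofReal_iff hI] at hB
  have hpi : 1 ≤ Real.pi := by linarith [Real.pi_gt_three]
  have hFn : 0 ≤ ‖F ρ‖ ^ p := by positivity
  have h5 : y ^ 2 * ‖F ρ‖ ^ p ≤ ∫ z in ball (1 : ℂ) (2 * y), ‖F z‖ ^ p := by
    refine le_trans ?_ hB
    have : 0 ≤ y ^ 2 * ‖F ρ‖ ^ p := by positivity
    nlinarith
  have h6 : 4 * ((2 * y) ^ 2)⁻¹ = (y ^ 2)⁻¹ := by
    field_simp; norm_num
  rw [h6, ← div_eq_inv_mul, le_div_iff₀ (by positivity)]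
  linarith

/-! ## comparison kernel -/

theorem kappa_le {q : ℝ} (hq : 1 < q) {k : ℂ → ℂ} (hk : InLq q k) {u : ℂ} (hu : ‖u‖ = 1) {R : ℝ}
    (hR : 0 < R) (hR1 : R ≤ 1) :
    ENNReal.ofReal ((R ^ 2)⁻¹ * ee q R (fun z => k (u * z))) ≤
      2 * ∫⁻ w in ball (0 : ℂ) 1,
        ENNReal.ofReal ((‖1 - conj (((1 - R : ℝ) : ℂ) * u) * w‖ ^ 2)⁻¹) * ‖k w‖ₑ ^ q := by
  have hu0 : u ≠ 0 := by
    intro h; rw [h, norm_zero] at hu; norm_num at hu
  have hchange : ee q R (fun z => k (u * z)) = ∫ w, eta R (u⁻¹ * w) * ‖k w‖ ^ q := by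
    have h := integral_comp_mul hu0 (fun w => eta R (u⁻¹ * w) * ‖k w‖ ^ q)
    rw [hu] at h
    simp only [inv_mul_cancel_left₀ hu0] at h
    unfold ee
    rw [h]; simp
  have hint : Integrable (fun w => eta R (u⁻¹ * w) * ‖k w‖ ^ q) := dy_int hR hk.int u⁻¹
  rw [hchange, ← MeasureTheory.integral_const_mul, ofReal_integral_eq_lintegral_ofReal
    (hint.const_mul _) (Eventually.of_forall fun w => ?_),
    ← lintegral_const_mul' _ _ (by norm_num), ← lintegral_indicator measurableSet_ball]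
  · refine lintegral_mono fun w => ?_
    by_cases hw : w ∈ ball (0 : ℂ) 1
    · rw [indicator_of_mem hw, ← mul_assoc (2 : ℝ≥0∞)]
      have hen : ‖k w‖ₑ ^ q = ENNReal.ofReal (‖k w‖ ^ q) := by
        rw [← ofReal_norm, ENNReal.ofReal_rpow_of_nonneg (norm_nonneg _) (by linarith)]
      rw [hen, ← mul_assoc, ENNReal.ofReal_mul' (by positivity)]
      refine mul_le_mul_left ?_ _
      rw [show (2 : ℝ≥0∞) = ENNReal.ofReal 2 by simp, ← ENNReal.ofReal_mul (by norm_num)]
      refine ENNReal.ofReal_le_ofReal ?_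
      have hw1 : ‖w‖ < 1 := by simpa using hw
      set D : ℂ := 1 - conj (((1 - R : ℝ) : ℂ) * u) * w with hD
      have hDpos : 0 < ‖D‖ := by
        have h1 : ‖conj (((1 - R : ℝ) : ℂ) * u) * w‖ < 1 := by
          rw [norm_mul, RCLike.norm_conj, norm_mul, hu, mul_one, Complex.norm_real,
            Real.norm_eq_abs, abs_of_nonneg (by linarith)]
          nlinarith [norm_nonneg w]
        have h2 : 1 - ‖conj (((1 - R : ℝ) : ℂ) * u) * w‖ ≤ ‖D‖ := by
          have := norm_sub_norm_le (1 : ℂ) (conj (((1 - R : ℝ) : ℂ) * u) * w)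
          rwa [norm_one] at this
        linarith
      have hcu : conj u * u = 1 := by
        rw [mul_comm, Complex.mul_conj, Complex.normSq_eq_norm_sq, hu]; norm_num
      have hnu : ‖u⁻¹ * w - 1‖ = ‖w - u‖ := by
        have : w - u = u * (u⁻¹ * w - 1) := by
          rw [mul_sub, mul_inv_cancel_left₀ hu0, mul_one]
        rw [this, norm_mul, hu, one_mul]
      have hDle : ‖D‖ ≤ ‖w - u‖ + R := by
        have h3 : D = conj u * (u - w) + conj u * ((R : ℂ) * w) := by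
          rw [hD, map_mul, Complex.conj_ofReal, mul_sub, hcu]
          push_cast; ring
        rw [h3]
        refine le_trans (norm_add_le _ _) ?_
        rw [norm_mul, norm_mul, RCLike.norm_conj, hu, one_mul, one_mul, norm_mul,
          Complex.norm_real, Real.norm_eq_abs, abs_of_pos hR, norm_sub_rev]
        nlinarith [norm_nonneg w]
      have hDsq : ‖D‖ ^ 2 ≤ 2 * (R ^ 2 + ‖w - u‖ ^ 2) := by
        have h4 : ‖D‖ ^ 2 ≤ (‖w - u‖ + R) ^ 2 := by
          have := norm_nonneg D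
          nlinarith
        nlinarith [sq_nonneg (‖w - u‖ - R)]
      unfold eta
      rw [hnu]
      have h5 : (R ^ 2)⁻¹ * (R ^ 2 / (R ^ 2 + ‖w - u‖ ^ 2)) = (R ^ 2 + ‖w - u‖ ^ 2)⁻¹ := by
        field_simp
      rw [h5, ← div_eq_mul_inv, inv_le_comm₀ (by positivity) (by positivity), inv_div,
        div_le_iff₀ (by norm_num)]
      linarith
    · rw [indicator_of_notMem hw, hk.zero w hw, norm_zero, Real.zero_rpow (by linarith)]
      simp
  · have := dy_eta_nonneg hR (u⁻¹ * w)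
    simp only [Pi.zero_apply]
    positivity

end

end BergmanReg
end
end
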