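import Pool.Agent.Lib.MP_efd5b3_an.Defs
import Pool.Agent.Lib.MP_efd5b3_an.Sc
import Pool.Agent.Lib.MP_efd5b3_an.Dyad
import Pool.Agent.Lib.MP_efd5b3_an.Ra

section

/-!
Difference estimate for the third order kernel.
-/

set_option autoImplicit false

namespace BergmanReg

open MeasureTheory Metric Set Filter Topology Complex
open scoped ENNReal NNReal ComplexConjugate

noncomputable section

/-- interpolation `d ≤ s^(1-ε) m^ε` -/
theorem ker_interp {ε d s m : ℝ} (hε : 0 < ε) (hε1 : ε < 1) (hd : 0 ≤ d) (hds : d ≤ s)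
    (hdm : d ≤ m) : d ≤ s ^ (1 - ε) * m ^ ε := by
  rcases hd.eq_or_lt with h0 | h0
  · rw [← h0]
    have hs : 0 ≤ s := hd.trans hds
    have hm : 0 ≤ m := hd.trans hdm
    positivity
  · have h1 : d = d ^ (1 - ε) * d ^ ε := by
      rw [← Real.rpow_add h0, sub_add_cancel, Real.rpow_one]
    calc d = d ^ (1 - ε) * d ^ ε := h1
      _ ≤ s ^ (1 - ε) * m ^ ε := by
        have h2 : d ^ (1 - ε) ≤ s ^ (1 - ε) := Real.rpow_le_rpow hd hds (by linarith)
        have h3 : d ^ ε ≤ m ^ ε := Real.rpow_le_rpow hd hdm hε.le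
        have h4 : 0 ≤ s := hd.trans hds
        exact mul_le_mul h2 h3 (by positivity) (by positivity)

/-- (3a) -/
theorem ker_a {ε d s μ m : ℝ} (hε : 0 < ε) (hε1 : ε < 1) (hd : 0 ≤ d) (hds : d ≤ s)
    (hdm : d ≤ 2 * m) (hμ : 0 < μ) (hμm : μ ≤ m) :
    d / (m * μ) ≤ 2 * s ^ (1 - ε) * μ ^ (-2 + ε) := by
  have hm : 0 < m := hμ.trans_le hμm
  have hs : 0 ≤ s := hd.trans hds
  have h1 := ker_interp hε hε1 hd hds hdm
  have h2 : (2 * m) ^ ε ≤ 2 * m ^ ε := by
    rw [Real.mul_rpow (by norm_num) hm.le]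
    have h3 : (2:ℝ) ^ ε ≤ 2 ^ (1:ℝ) := Real.rpow_le_rpow_of_exponent_le (by norm_num) hε1.le
    rw [Real.rpow_one] at h3
    gcongr
  have h3 : m ^ (ε - 1) ≤ μ ^ (ε - 1) := Real.rpow_le_rpow_of_nonpos hμ hμm (by linarith)
  have h4 : m ^ ε = m ^ (ε - 1) * m := by
    rw [← Real.rpow_add_one hm.ne', sub_add_cancel]
  have h5 : μ ^ (-2 + ε) * μ = μ ^ (ε - 1) := by
    rw [← Real.rpow_add_one hμ.ne']
    congr 1
    ring
  have hs1 : 0 ≤ s ^ (1 - ε) := by positivity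
  rw [div_le_iff₀ (by positivity)]
  calc d ≤ s ^ (1 - ε) * (2 * m) ^ ε := h1
    _ ≤ s ^ (1 - ε) * (2 * m ^ ε) := by gcongr
    _ = s ^ (1 - ε) * (2 * (m ^ (ε - 1) * m)) := by rw [h4]
    _ ≤ s ^ (1 - ε) * (2 * (μ ^ (ε - 1) * m)) := by gcongr
    _ = 2 * s ^ (1 - ε) * μ ^ (-2 + ε) * (m * μ) := by rw [← h5]; ring

/-- (3b) -/
theorem ker_b {ε d s t M : ℝ} (hε : 0 < ε) (hε1 : ε < 1) (hd : 0 ≤ d) (hds : d ≤ s)
    (hdM : d ≤ M) (ht : 0 < t) (htM : t ≤ M) :
    d / (t * M) ≤ s ^ (1 - ε) * t ^ (-2 + ε) := by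
  have hM : 0 < M := ht.trans_le htM
  have hs : 0 ≤ s := hd.trans hds
  have h1 := ker_interp hε hε1 hd hds hdM
  have h3 : M ^ (ε - 1) ≤ t ^ (ε - 1) := Real.rpow_le_rpow_of_nonpos ht htM (by linarith)
  have h4 : M ^ ε = M ^ (ε - 1) * M := by
    rw [← Real.rpow_add_one hM.ne', sub_add_cancel]
  have h5 : t ^ (-2 + ε) * t = t ^ (ε - 1) := by
    rw [← Real.rpow_add_one ht.ne']
    congr 1
    ring
  have hs1 : 0 ≤ s ^ (1 - ε) := by positivity
  rw [div_le_iff₀ (by positivity)]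
  calc d ≤ s ^ (1 - ε) * M ^ ε := h1
    _ = s ^ (1 - ε) * (M ^ (ε - 1) * M) := by rw [h4]
    _ ≤ s ^ (1 - ε) * (t ^ (ε - 1) * M) := by gcongr
    _ = s ^ (1 - ε) * t ^ (-2 + ε) * (t * M) := by rw [← h5]; ring

/-- (4) -/
theorem ker_c {ε s t : ℝ} (hε : 0 < ε) (hε1 : ε < 1) (hs : 0 ≤ s) (hs1 : s ≤ 1) (ht : 0 < t)
    (ht3 : t ≤ 3) : s / t ≤ 3 * s ^ (1 - ε) * t ^ (-2 + ε) := by
  have h1 : s ≤ s ^ (1 - ε) := by
    have := ker_interp hε hε1 hs le_rfl hs1
    rwa [Real.one_rpow, mul_one] at this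
  have h2 : t ^ (1 - ε) ≤ 3 := by
    calc t ^ (1 - ε) ≤ 3 ^ (1 - ε) := Real.rpow_le_rpow ht.le ht3 (by linarith)
      _ ≤ 3 ^ (1:ℝ) := Real.rpow_le_rpow_of_exponent_le (by norm_num) (by linarith)
      _ = 3 := Real.rpow_one 3
  have h3 : t ^ (-2 + ε) * t * t ^ (1 - ε) = 1 := by
    rw [← Real.rpow_add_one ht.ne', ← Real.rpow_add ht]
    have : -2 + ε + 1 + (1 - ε) = 0 := by ring
    rw [this, Real.rpow_zero]
  have h4 : 0 < t ^ (-2 + ε) * t := by positivity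
  have h5 : 1 ≤ t ^ (-2 + ε) * t * 3 := by
    calc (1:ℝ) = t ^ (-2 + ε) * t * t ^ (1 - ε) := h3.symm
      _ ≤ t ^ (-2 + ε) * t * 3 := by gcongr
  rw [div_le_iff₀ ht]
  have h6 : 0 ≤ s ^ (1 - ε) := by positivity
  calc s ≤ s ^ (1 - ε) * 1 := by rw [mul_one]; exact h1
    _ ≤ s ^ (1 - ε) * (t ^ (-2 + ε) * t * 3) := by gcongr
    _ = 3 * s ^ (1 - ε) * t ^ (-2 + ε) * t := by ring

/-- closed form of the kernel -/
theorem ker_kk {D : ℝ} {x : ℂ} (h0 : x ≠ 0) (h1 : x + (D : ℂ) ≠ 0) (h2 : x + 2 * (D : ℂ) ≠ 0) :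
    kk D x = 2 * (D : ℂ) ^ 2 * (1 / (x * (x + (D : ℂ)) * (x + 2 * (D : ℂ)))) := by
  unfold kk
  field_simp
  ring

/-- difference of the products -/
theorem ker_diff {a0 a1 a2 b0 b1 b2 δ : ℂ} (h0 : a0 ≠ 0) (h1 : a1 ≠ 0) (h2 : a2 ≠ 0)
    (k0 : b0 ≠ 0) (k1 : b1 ≠ 0) (k2 : b2 ≠ 0) (e0 : a0 - b0 = δ) (e1 : a1 - b1 = δ)
    (e2 : a2 - b2 = δ) :
    1 / (b0 * b1 * b2) - 1 / (a0 * a1 * a2) =
      δ * (1 / (a0 * b0 * b1 * b2) + 1 / (a0 * a1 * b1 * b2) + 1 / (a0 * a1 * a2 * b2)) := by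
  have f0 : a0 = b0 + δ := by rw [← e0]; ring
  have f1 : a1 = b1 + δ := by rw [← e1]; ring
  have f2 : a2 = b2 + δ := by rw [← e2]; ring
  field_simp
  rw [f0, f1, f2]
  ring

theorem ker_inv_le {M y : ℝ} (hM : 0 < M) (h : M ≤ 4 * y) : 1 / y ≤ 4 / M := by
  have hy : 0 < y := by linarith
  rw [div_le_div_iff₀ hy hM]
  linarith

/-- the main estimate in terms of the distances -/
theorem ker_main {ε ρ t t' d s : ℝ} (hε : 0 < ε) (hε1 : ε < 1) (hρ : 0 < ρ) (ht : 0 < t)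
    (ht' : 0 < t') (hd : 0 ≤ d) (hds : d ≤ s) (hdt : d ≤ t + t') (hsρ : s ≤ ρ) (hs1 : s ≤ 1)
    (htt : t' ≤ t + d) (ht3 : t' ≤ 3) {X : ℝ}
    (hX : X ≤ 32 * ρ ^ 2 * (16 * d / (t * t' * (ρ + t) ^ 2) + 128 * d / (t * (ρ + t) ^ 3)) +
      s * (512 * ρ ^ 2 / (t' * (ρ + t) ^ 2))) :
    X ≤ 5120 * s ^ (1 - ε) * (ρ ^ (2 * ε) * (hh ε ρ t + hh ε ρ t')) := by
  set M := ρ + t with hMdef
  have hM : 0 < M := by positivity
  have hs : 0 ≤ s := hd.trans hds
  set A := t ^ (-2 + ε) with hA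
  set A' := t' ^ (-2 + ε) with hA'
  have hA0 : 0 < A := by positivity
  have hA0' : 0 < A' := by positivity
  have hS0 : 0 ≤ s ^ (1 - ε) := by positivity
  have h1 : d / (t * t') ≤ 2 * s ^ (1 - ε) * (A + A') := by
    rcases le_total t t' with h | h
    · have := ker_a hε hε1 hd hds (m := t') (μ := t) (by linarith) ht h
      rw [mul_comm t' t] at this
      nlinarith
    · have := ker_a hε hε1 hd hds (m := t) (μ := t') (by linarith) ht' h
      nlinarith
  have h2 : d / (t * M) ≤ s ^ (1 - ε) * A :=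
    ker_b hε hε1 hd hds (by linarith) ht (by linarith)
  have h3 : s / t' ≤ 3 * s ^ (1 - ε) * A' := ker_c hε hε1 hs hs1 ht' ht3
  have e1 : 32 * ρ ^ 2 * (16 * d / (t * t' * M ^ 2) + 128 * d / (t * M ^ 3)) +
      s * (512 * ρ ^ 2 / (t' * M ^ 2)) =
      (ρ / M) ^ 2 * (512 * (d / (t * t')) + 4096 * (d / (t * M)) + 512 * (s / t')) := by
    field_simp
    ring
  rw [e1] at hX
  have h4 : 512 * (d / (t * t')) + 4096 * (d / (t * M)) + 512 * (s / t') ≤
      5120 * s ^ (1 - ε) * (A + A') := by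
    have h5 : 0 ≤ s ^ (1 - ε) * A' := by positivity
    nlinarith
  have hq1 : ρ / M ≤ 1 := by rw [div_le_one hM]; linarith
  have hq0 : 0 < ρ / M := by positivity
  have h5 : (ρ / M) ^ 2 ≤ ρ ^ (2 * ε) * M ^ (-(2 * ε)) := by
    have h6 : (ρ / M) ^ (2:ℝ) ≤ (ρ / M) ^ (2 * ε) :=
      Real.rpow_le_rpow_of_exponent_ge hq0 hq1 (by linarith)
    rw [Real.rpow_two] at h6
    refine h6.trans (le_of_eq ?_)
    rw [Real.div_rpow hρ.le hM.le, Real.rpow_neg hM.le, div_eq_mul_inv]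
  have h6 : M ^ (-(2 * ε)) ≤ (max t ρ) ^ (-(2 * ε)) :=
    Real.rpow_le_rpow_of_nonpos (lt_max_of_lt_left ht) (max_le (by linarith) (by linarith))
      (by linarith)
  have h7 : M ^ (-(2 * ε)) ≤ (max t' ρ) ^ (-(2 * ε)) :=
    Real.rpow_le_rpow_of_nonpos (lt_max_of_lt_left ht') (max_le (by linarith) (by linarith))
      (by linarith)
  have h8 : 0 ≤ 5120 * s ^ (1 - ε) * (A + A') := by positivity
  calc X ≤ (ρ / M) ^ 2 * (512 * (d / (t * t')) + 4096 * (d / (t * M)) + 512 * (s / t')) := hX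
    _ ≤ (ρ / M) ^ 2 * (5120 * s ^ (1 - ε) * (A + A')) := by gcongr
    _ ≤ (ρ ^ (2 * ε) * M ^ (-(2 * ε))) * (5120 * s ^ (1 - ε) * (A + A')) := by gcongr
    _ = 5120 * s ^ (1 - ε) * (ρ ^ (2 * ε) * (A * M ^ (-(2 * ε)) + A' * M ^ (-(2 * ε)))) := by ring
    _ ≤ 5120 * s ^ (1 - ε) * (ρ ^ (2 * ε) * (hh ε ρ t + hh ε ρ t')) := by
      unfold hh
      gcongr

set_option maxHeartbeats 4000000 in
theorem kernel_bound {ε : ℝ} (hε : 0 < ε) (hε1 : ε < 1) :
    ∃ C : ℝ, 0 < C ∧ ∀ (R : ℝ) (c z w : ℂ), 0 < R → R ≤ 1 → 1 ≤ ‖c‖ → ‖c - 1‖ ≤ R →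
      z ∈ ball (0 : ℂ) 1 → w ∈ ball (0 : ℂ) 1 → z ≠ w → c * z ≠ w →
      ‖(conj c)⁻¹ * kk (4 * rho R z) (c * z - w) - kk (4 * rho R z) (z - w)‖ ≤
        C * ‖c - 1‖ ^ (1 - ε) * (rho R z ^ (2 * ε) *
          (hh ε (rho R z) ‖z - w‖ + hh ε (rho R z) ‖c * z - w‖)) := by
  refine ⟨5120, by norm_num, ?_⟩
  intro R c z w hR hR1 hc hcR hz hw hzw hczw
  rw [mem_ball_zero_iff] at hz hw
  have hρR : R ≤ rho R z := Real.le_sqrt_of_sq_le (by nlinarith [sq_nonneg ‖z - 1‖])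
  have hzρ : ‖z - 1‖ ≤ rho R z := Real.le_sqrt_of_sq_le (by nlinarith [sq_nonneg R])
  set ρ := rho R z with hρdef
  have hρ : 0 < ρ := hR.trans_le hρR
  set s := ‖c - 1‖ with hsdef
  have hsρ : s ≤ ρ := hcR.trans hρR
  have hs1 : s ≤ 1 := hcR.trans hR1
  have hs0 : 0 ≤ s := norm_nonneg _
  set x := z - w with hx
  set x' := c * z - w with hx'
  have hx0 : x ≠ 0 := sub_ne_zero.2 hzw
  have hx0' : x' ≠ 0 := sub_ne_zero.2 hczw
  have hd : ‖x - x'‖ ≤ s := by
    have e : x - x' = -((c - 1) * z) := by rw [hx, hx']; ring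
    rw [e, norm_neg, norm_mul]
    have := norm_nonneg z
    nlinarith
  set d := ‖x - x'‖ with hddef
  have hd0 : 0 ≤ d := norm_nonneg _
  -- real parts
  have hre1 : 1 - ρ ≤ z.re := by
    have h1 := abs_re_le_norm (z - 1)
    rw [sub_re, one_re] at h1
    have h2 := (abs_le.1 (h1.trans hzρ)).1
    linarith
  have hre2 : w.re ≤ 1 := by
    have h1 := abs_re_le_norm w
    have h2 := (abs_le.1 (h1.trans hw.le)).2
    linarith
  have hre3 : x.re ≥ -ρ := by rw [hx, sub_re]; linarith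
  have hre4 : x'.re ≥ -(2 * ρ) := by
    have h1 := abs_re_le_norm (x - x')
    rw [sub_re] at h1
    have h2 := (abs_le.1 (h1.trans hd)).2
    linarith
  have hreD : ∀ y : ℂ, (y + ((4 * ρ : ℝ) : ℂ)).re = y.re + 4 * ρ := fun y => by
    rw [add_re, ofReal_re]
  have hreD2 : ∀ y : ℂ, (y + 2 * ((4 * ρ : ℝ) : ℂ)).re = y.re + 8 * ρ := fun y => by
    have : (2 : ℂ) * ((4 * ρ : ℝ) : ℂ) = ((8 * ρ : ℝ) : ℂ) := by push_cast; ring
    rw [this, add_re, ofReal_re]
  set D : ℝ := 4 * ρ with hD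
  have hDn : ‖(D : ℂ)‖ = 4 * ρ := by
    rw [norm_real, Real.norm_eq_abs, abs_of_pos (by positivity)]
  have hDn2 : ‖2 * (D : ℂ)‖ = 8 * ρ := by
    rw [norm_mul, hDn]
    norm_num
    ring
  have b1 : 3 * ρ ≤ ‖x + (D : ℂ)‖ := by
    have h1 := re_le_norm (x + (D : ℂ))
    rw [hreD] at h1
    linarith
  have b2 : 7 * ρ ≤ ‖x + 2 * (D : ℂ)‖ := by
    have h1 := re_le_norm (x + 2 * (D : ℂ))
    rw [hreD2] at h1
    linarith
  have b3 : 2 * ρ ≤ ‖x' + (D : ℂ)‖ := by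
    have h1 := re_le_norm (x' + (D : ℂ))
    rw [hreD] at h1
    linarith
  have b4 : 6 * ρ ≤ ‖x' + 2 * (D : ℂ)‖ := by
    have h1 := re_le_norm (x' + 2 * (D : ℂ))
    rw [hreD2] at h1
    linarith
  have c1 : ‖x‖ ≤ ‖x + (D : ℂ)‖ + 4 * ρ := by
    have h1 := norm_sub_le (x + (D : ℂ)) (D : ℂ)
    rwa [add_sub_cancel_right, hDn] at h1
  have c2 : ‖x‖ ≤ ‖x + 2 * (D : ℂ)‖ + 8 * ρ := by
    have h1 := norm_sub_le (x + 2 * (D : ℂ)) (2 * (D : ℂ))
    rwa [add_sub_cancel_right, hDn2] at h1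
  have c0 : ‖x‖ ≤ ‖x'‖ + d := by
    have h1 := norm_add_le x' (x - x')
    rwa [add_sub_cancel] at h1
  have c0' : ‖x'‖ ≤ ‖x‖ + d := by
    have h1 := norm_sub_le x (x - x')
    rwa [sub_sub_cancel] at h1
  have c3 : ‖x'‖ ≤ ‖x' + (D : ℂ)‖ + 4 * ρ := by
    have h1 := norm_sub_le (x' + (D : ℂ)) (D : ℂ)
    rwa [add_sub_cancel_right, hDn] at h1
  have c4 : ‖x'‖ ≤ ‖x' + 2 * (D : ℂ)‖ + 8 * ρ := by
    have h1 := norm_sub_le (x' + 2 * (D : ℂ)) (2 * (D : ℂ))
    rwa [add_sub_cancel_right, hDn2] at h1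
  set t := ‖x‖ with ht
  set t' := ‖x'‖ with ht'
  have htp : 0 < t := norm_pos_iff.2 hx0
  have htp' : 0 < t' := norm_pos_iff.2 hx0'
  have hM : 0 < ρ + t := by positivity
  have m1 : ρ + t ≤ 4 * ‖x + (D : ℂ)‖ := by linarith
  have m2 : ρ + t ≤ 4 * ‖x + 2 * (D : ℂ)‖ := by linarith
  have m3 : ρ + t ≤ 4 * ‖x' + (D : ℂ)‖ := by linarith
  have m4 : ρ + t ≤ 4 * ‖x' + 2 * (D : ℂ)‖ := by linarith
  have n1 : x + (D : ℂ) ≠ 0 := norm_pos_iff.1 (by linarith)
  have n2 : x + 2 * (D : ℂ) ≠ 0 := norm_pos_iff.1 (by linarith)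
  have n3 : x' + (D : ℂ) ≠ 0 := norm_pos_iff.1 (by linarith)
  have n4 : x' + 2 * (D : ℂ) ≠ 0 := norm_pos_iff.1 (by linarith)
  have i1 := ker_inv_le hM m1
  have i2 := ker_inv_le hM m2
  have i3 := ker_inv_le hM m3
  have i4 := ker_inv_le hM m4
  have hD2 : ‖2 * (D : ℂ) ^ 2‖ = 32 * ρ ^ 2 := by
    rw [norm_mul, norm_pow, hDn]
    norm_num
    ring
  have hk : ‖kk D x' - kk D x‖ ≤ 32 * ρ ^ 2 *
      (16 * d / (t * t' * (ρ + t) ^ 2) + 128 * d / (t * (ρ + t) ^ 3)) := by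
    rw [ker_kk hx0' n3 n4, ker_kk hx0 n1 n2, ← mul_sub,
      ker_diff hx0 n1 n2 hx0' n3 n4 (δ := x - x') rfl (by ring) (by ring), norm_mul, hD2]
    refine mul_le_mul_of_nonneg_left ?_ (by positivity)
    rw [norm_mul, ← hddef]
    have j1 : ‖1 / (x * x' * (x' + (D : ℂ)) * (x' + 2 * (D : ℂ)))‖ ≤
        1 / (t * t') * (4 / (ρ + t)) * (4 / (ρ + t)) := by
      rw [norm_div, norm_one, norm_mul, norm_mul, norm_mul, ← ht, ← ht', ← one_div_mul_one_div,
        ← one_div_mul_one_div]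
      gcongr
    have j2 : ‖1 / (x * (x + (D : ℂ)) * (x' + (D : ℂ)) * (x' + 2 * (D : ℂ)))‖ ≤
        1 / t * (4 / (ρ + t)) * (4 / (ρ + t)) * (4 / (ρ + t)) := by
      rw [norm_div, norm_one, norm_mul, norm_mul, norm_mul, ← ht, ← one_div_mul_one_div,
        ← one_div_mul_one_div, ← one_div_mul_one_div]
      gcongr
    have j3 : ‖1 / (x * (x + (D : ℂ)) * (x + 2 * (D : ℂ)) * (x' + 2 * (D : ℂ)))‖ ≤
        1 / t * (4 / (ρ + t)) * (4 / (ρ + t)) * (4 / (ρ + t)) := by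
      rw [norm_div, norm_one, norm_mul, norm_mul, norm_mul, ← ht, ← one_div_mul_one_div,
        ← one_div_mul_one_div, ← one_div_mul_one_div]
      gcongr
    calc d * ‖1 / (x * x' * (x' + (D : ℂ)) * (x' + 2 * (D : ℂ))) +
          1 / (x * (x + (D : ℂ)) * (x' + (D : ℂ)) * (x' + 2 * (D : ℂ))) +
          1 / (x * (x + (D : ℂ)) * (x + 2 * (D : ℂ)) * (x' + 2 * (D : ℂ)))‖
        ≤ d * (1 / (t * t') * (4 / (ρ + t)) * (4 / (ρ + t)) +
          1 / t * (4 / (ρ + t)) * (4 / (ρ + t)) * (4 / (ρ + t)) +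
          1 / t * (4 / (ρ + t)) * (4 / (ρ + t)) * (4 / (ρ + t))) :=
          mul_le_mul_of_nonneg_left ((norm_add_le _ _).trans (add_le_add ((norm_add_le _ _).trans
            (add_le_add j1 j2)) j3)) hd0
      _ = 16 * d / (t * t' * (ρ + t) ^ 2) + 128 * d / (t * (ρ + t) ^ 3) := by
        field_simp
        ring
  have hk' : ‖kk D x'‖ ≤ 512 * ρ ^ 2 / (t' * (ρ + t) ^ 2) := by
    rw [ker_kk hx0' n3 n4, norm_mul, hD2]
    have j1 : ‖1 / (x' * (x' + (D : ℂ)) * (x' + 2 * (D : ℂ)))‖ ≤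
        1 / t' * (4 / (ρ + t)) * (4 / (ρ + t)) := by
      rw [norm_div, norm_one, norm_mul, norm_mul, ← ht', ← one_div_mul_one_div,
        ← one_div_mul_one_div]
      gcongr
    calc 32 * ρ ^ 2 * ‖1 / (x' * (x' + (D : ℂ)) * (x' + 2 * (D : ℂ)))‖
        ≤ 32 * ρ ^ 2 * (1 / t' * (4 / (ρ + t)) * (4 / (ρ + t))) := by gcongr
      _ = 512 * ρ ^ 2 / (t' * (ρ + t) ^ 2) := by
        field_simp
        ring
  have hc0 : c ≠ 0 := norm_pos_iff.1 (by linarith)
  have hcc : ‖(conj c)⁻¹ - 1‖ ≤ s := by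
    have hc0' : conj c ≠ 0 := (map_ne_zero _).2 hc0
    have e : (conj c)⁻¹ - 1 = -(conj (c - 1) * (conj c)⁻¹) := by
      rw [map_sub, map_one]
      field_simp
      ring
    rw [e, norm_neg, norm_mul, norm_inv, norm_conj, norm_conj, ← hsdef]
    exact mul_le_of_le_one_right hs0 (inv_le_one_of_one_le₀ hc)
  have hfin : ‖(conj c)⁻¹ * kk D x' - kk D x‖ ≤ 32 * ρ ^ 2 *
      (16 * d / (t * t' * (ρ + t) ^ 2) + 128 * d / (t * (ρ + t) ^ 3)) +
      s * (512 * ρ ^ 2 / (t' * (ρ + t) ^ 2)) := by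
    have e : (conj c)⁻¹ * kk D x' - kk D x = (kk D x' - kk D x) + ((conj c)⁻¹ - 1) * kk D x' := by
      ring
    rw [e]
    refine (norm_add_le _ _).trans (add_le_add hk ?_)
    rw [norm_mul]
    exact mul_le_mul hcc hk' (norm_nonneg _) hs0
  have ht3 : t' ≤ 3 := by
    have h1 : ‖c‖ ≤ 2 := by
      have := norm_add_le (c - 1) 1
      rw [sub_add_cancel, norm_one] at this
      linarith
    have h2 : t' ≤ ‖c‖ * ‖z‖ + ‖w‖ := by
      rw [ht', hx', ← norm_mul]
      exact norm_sub_le _ _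
    have h3 : ‖c‖ * ‖z‖ ≤ 2 * 1 := mul_le_mul h1 hz.le (norm_nonneg _) (by norm_num)
    linarith
  exact ker_main hε hε1 hρ htp htp' hd0 hd (by
    have := norm_sub_le x x'
    exact this) hsρ hs1 c0' ht3 hfin

end

end BergmanReg
end

section

/-!
# Weighted Hoelder inequalities and elementary facts on the weighted energies
-/

namespace BergmanReg

open MeasureTheory Metric Set Filter Topology Complex
open scoped ENNReal NNReal ComplexConjugate

noncomputable section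

theorem tg_eta_nonneg (R : ℝ) (z : ℂ) : 0 ≤ eta R z := by
  unfold eta
  positivity

theorem tg_ee_nonneg (p R : ℝ) (F : ℂ → ℂ) : 0 ≤ ee p R F :=
  integral_nonneg fun z => mul_nonneg (tg_eta_nonneg R z) (by positivity)

theorem tg_int_eta {R : ℝ} (hR : 0 < R) {f : ℂ → ℝ} (hf : Integrable f) :
    Integrable (fun z => eta R z * f z) := by
  refine hf.bdd_mul (c := 1) (continuous_eta hR).aestronglyMeasurable ?_
  refine ae_of_all _ fun z => ?_
  rw [Real.norm_eq_abs, abs_of_nonneg (tg_eta_nonneg R z)]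
  exact eta_le_one hR z

theorem tg_logconvex {f g : ℂ → ℝ} (hf : Integrable f) (hg : Integrable g) (f0 : ∀ z, 0 ≤ f z)
    (g0 : ∀ z, 0 ≤ g z) {a b : ℝ} (ha : 0 ≤ a) (hb : 0 ≤ b) (hab : a + b = 1) :
    Integrable (fun z => f z ^ a * g z ^ b) ∧
      ∫ z, f z ^ a * g z ^ b ≤ (∫ z, f z) ^ a * (∫ z, g z) ^ b := by
  have hIf : 0 ≤ ∫ z, f z := integral_nonneg f0
  have hIg : 0 ≤ ∫ z, g z := integral_nonneg g0
  have hm : AEStronglyMeasurable (fun z => f z ^ a * g z ^ b) volume :=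
    ((hf.aestronglyMeasurable.aemeasurable.pow_const a).mul
      (hg.aestronglyMeasurable.aemeasurable.pow_const b)).aestronglyMeasurable
  have h0 : ∀ z, 0 ≤ f z ^ a * g z ^ b := fun z =>
    mul_nonneg (Real.rpow_nonneg (f0 z) _) (Real.rpow_nonneg (g0 z) _)
  have h1 : ∫⁻ z, ENNReal.ofReal (f z ^ a * g z ^ b) ≤
      ENNReal.ofReal ((∫ z, f z) ^ a * (∫ z, g z) ^ b) := by
    calc ∫⁻ z, ENNReal.ofReal (f z ^ a * g z ^ b)
        = ∫⁻ z, ENNReal.ofReal (f z) ^ a * ENNReal.ofReal (g z) ^ b := by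
          refine lintegral_congr fun z => ?_
          rw [ENNReal.ofReal_mul (Real.rpow_nonneg (f0 z) _),
            ENNReal.ofReal_rpow_of_nonneg (f0 z) ha, ENNReal.ofReal_rpow_of_nonneg (g0 z) hb]
      _ ≤ (∫⁻ z, ENNReal.ofReal (f z)) ^ a * (∫⁻ z, ENNReal.ofReal (g z)) ^ b :=
          ENNReal.lintegral_mul_norm_pow_le hf.aestronglyMeasurable.aemeasurable.ennreal_ofReal
            hg.aestronglyMeasurable.aemeasurable.ennreal_ofReal ha hb hab
      _ = _ := by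
          rw [← ofReal_integral_eq_lintegral_ofReal hf (ae_of_all _ f0),
            ← ofReal_integral_eq_lintegral_ofReal hg (ae_of_all _ g0),
            ENNReal.ofReal_rpow_of_nonneg hIf ha, ENNReal.ofReal_rpow_of_nonneg hIg hb,
            ENNReal.ofReal_mul (Real.rpow_nonneg hIf _)]
  have h2 : Integrable (fun z => f z ^ a * g z ^ b) := by
    refine ⟨hm, ?_⟩
    rw [hasFiniteIntegral_iff_ofReal (ae_of_all _ h0)]
    exact h1.trans_lt ENNReal.ofReal_lt_top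
  refine ⟨h2, ?_⟩
  rw [← ofReal_integral_eq_lintegral_ofReal h2 (ae_of_all _ h0)] at h1
  rwa [ENNReal.ofReal_le_ofReal_iff (mul_nonneg (Real.rpow_nonneg hIf _)
    (Real.rpow_nonneg hIg _))] at h1

/-- weighted Hoelder inequality -/
theorem tg_holder {p q : ℝ} (hpq : p.HolderConjugate q) {R : ℝ} (hR : 0 < R) {f h : ℂ → ℂ}
    (hf : Integrable (fun z => ‖f z‖ ^ p)) (hh : Integrable (fun z => ‖h z‖ ^ q)) :
    Integrable (fun z => eta R z * (‖f z‖ * ‖h z‖)) ∧
      ∫ z, eta R z * (‖f z‖ * ‖h z‖) ≤ (ee p R f) ^ (1 / p) * (ee q R h) ^ (1 / q) := by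
  have hp : 0 < p := hpq.pos
  have hq : 0 < q := hpq.symm.pos
  have hsum : 1 / p + 1 / q = 1 := by
    rw [one_div, one_div]
    exact hpq.inv_add_inv_eq_one
  have h1 := tg_logconvex (tg_int_eta hR hf) (tg_int_eta hR hh)
    (fun z => mul_nonneg (tg_eta_nonneg R z) (by positivity))
    (fun z => mul_nonneg (tg_eta_nonneg R z) (by positivity))
    (a := 1 / p) (b := 1 / q) (by positivity) (by positivity) hsum
  have h2 : ∀ z, (eta R z * ‖f z‖ ^ p) ^ (1 / p) * (eta R z * ‖h z‖ ^ q) ^ (1 / q) =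
      eta R z * (‖f z‖ * ‖h z‖) := by
    intro z
    have he := tg_eta_nonneg R z
    rw [Real.mul_rpow he (by positivity), Real.mul_rpow he (by positivity),
      ← Real.rpow_mul (norm_nonneg _), ← Real.rpow_mul (norm_nonneg _),
      mul_one_div_cancel hp.ne', mul_one_div_cancel hq.ne', Real.rpow_one, Real.rpow_one]
    have h3 : eta R z ^ (1 / p) * eta R z ^ (1 / q) = eta R z := by
      rw [← Real.rpow_add_of_nonneg he (by positivity) (by positivity), hsum, Real.rpow_one]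
    calc _ = (eta R z ^ (1 / p) * eta R z ^ (1 / q)) * (‖f z‖ * ‖h z‖) := by ring
      _ = _ := by rw [h3]
  simp_rw [h2] at h1
  exact h1

theorem tg_add_rpow {a b p : ℝ} (ha : 0 ≤ a) (hb : 0 ≤ b) (hp : 0 ≤ p) :
    (a + b) ^ p ≤ 2 ^ p * (a ^ p + b ^ p) := by
  have key : ∀ x y : ℝ, 0 ≤ x → 0 ≤ y → x ≤ y → (x + y) ^ p ≤ 2 ^ p * (x ^ p + y ^ p) := by
    intro x y hx hy hxy
    calc (x + y) ^ p ≤ (2 * y) ^ p := Real.rpow_le_rpow (by positivity) (by linarith) hp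
      _ = 2 ^ p * y ^ p := Real.mul_rpow (by norm_num) hy
      _ ≤ _ := by
        have := Real.rpow_nonneg hx p
        gcongr
        linarith
  rcases le_total a b with h | h
  · exact key a b ha hb h
  · rw [add_comm a b, add_comm (a ^ p)]
    exact key b a hb ha h

theorem tg_norm_sub_rpow (a b : ℂ) {p : ℝ} (hp : 0 ≤ p) :
    ‖a - b‖ ^ p ≤ 2 ^ p * (‖a‖ ^ p + ‖b‖ ^ p) :=
  (Real.rpow_le_rpow (norm_nonneg _) (norm_sub_le a b) hp).trans
    (tg_add_rpow (norm_nonneg _) (norm_nonneg _) hp)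

theorem tg_int_sub {p : ℝ} (hp : 0 ≤ p) {f g : ℂ → ℂ} (hfm : AEStronglyMeasurable f volume)
    (hgm : AEStronglyMeasurable g volume)
    (hf : Integrable (fun z => ‖f z‖ ^ p)) (hg : Integrable (fun z => ‖g z‖ ^ p)) :
    Integrable (fun z => ‖f z - g z‖ ^ p) := by
  refine ((hf.add hg).const_mul (2 ^ p)).mono' ?_ ?_
  · exact ((hfm.sub hgm).norm.aemeasurable.pow_const p).aestronglyMeasurable
  · refine ae_of_all _ fun z => ?_
    rw [Real.norm_eq_abs, abs_of_nonneg (by positivity)]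
    exact tg_norm_sub_rpow _ _ hp

theorem tg_ee_sub {p R : ℝ} (hR : 0 < R) (hp : 0 ≤ p) {f g : ℂ → ℂ}
    (hfm : AEStronglyMeasurable f volume) (hgm : AEStronglyMeasurable g volume)
    (hf : Integrable (fun z => ‖f z‖ ^ p)) (hg : Integrable (fun z => ‖g z‖ ^ p)) :
    ee p R (fun z => f z - g z) ≤ 2 ^ p * (ee p R f + ee p R g) := by
  unfold ee
  rw [← integral_add (tg_int_eta hR hf) (tg_int_eta hR hg), ← integral_const_mul]
  refine integral_mono (tg_int_eta hR (tg_int_sub hp hfm hgm hf hg))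
    (((tg_int_eta hR hf).add (tg_int_eta hR hg)).const_mul _) fun z => ?_
  have h1 := tg_norm_sub_rpow (f z) (g z) hp
  have h2 := tg_eta_nonneg R z
  calc eta R z * ‖f z - g z‖ ^ p ≤ eta R z * (2 ^ p * (‖f z‖ ^ p + ‖g z‖ ^ p)) := by gcongr
    _ = _ := by ring

/-- a rotation or dilation by `c` close to `1` changes the weighted energy by at most a factor 4 -/
theorem tg_rot {p R : ℝ} (hR : 0 < R) (hp : 0 < p) {c : ℂ} (hc : 1 ≤ ‖c‖)
    (hcR : ‖c - 1‖ ≤ R) {f : ℂ → ℂ} (f0 : ∀ z, z ∉ ball (0 : ℂ) 1 → f z = 0)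
    (hf : Integrable (fun z => ‖f z‖ ^ p)) :
    ee p R (fun z => f (c * z)) ≤ 4 * ee p R f := by
  have hc0 : c ≠ 0 := by
    intro h
    rw [h, norm_zero] at hc
    norm_num at hc
  have h1 : Integrable (fun z => eta R z * ‖f z‖ ^ p) := tg_int_eta hR hf
  have h2 : Integrable (fun z => eta R (c * z) * ‖f (c * z)‖ ^ p) :=
    integrable_comp_mul hc0 h1
  have h3 : Integrable (fun z => ‖f (c * z)‖ ^ p) := integrable_comp_mul hc0 hf
  calc ee p R (fun z => f (c * z)) ≤ ∫ z, 4 * (eta R (c * z) * ‖f (c * z)‖ ^ p) := by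
        unfold ee
        refine integral_mono (tg_int_eta hR h3) (h2.const_mul 4) fun z => ?_
        simp only
        by_cases hz : c * z ∈ ball (0 : ℂ) 1
        · have hz1 : ‖z‖ ≤ 1 := by
            rw [mem_ball_zero_iff, norm_mul] at hz
            by_contra hcon
            have : 1 * 1 ≤ ‖c‖ * ‖z‖ := by
              have := (not_le.mp hcon).le
              gcongr
            linarith
          have h4 : eta R z ≤ 4 * eta R (c * z) := by
            apply eta_comparable hR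
            calc ‖c * z - z‖ = ‖c - 1‖ * ‖z‖ := by rw [← norm_mul]; congr 1; ring
              _ ≤ R * 1 := by gcongr
              _ = R := mul_one R
          have h5 : 0 ≤ ‖f (c * z)‖ ^ p := by positivity
          calc eta R z * ‖f (c * z)‖ ^ p ≤ (4 * eta R (c * z)) * ‖f (c * z)‖ ^ p := by gcongr
            _ = _ := by ring
        · rw [f0 _ hz, norm_zero, Real.zero_rpow hp.ne']
          simp
    _ = 4 * ((‖c‖ ^ 2)⁻¹ * ee p R f) := by
        rw [integral_const_mul, integral_comp_mul hc0 (fun z => eta R z * ‖f z‖ ^ p),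
          smul_eq_mul]
        rfl
    _ ≤ 4 * (1 * ee p R f) := by
        have h5 := tg_ee_nonneg p R f
        have h6 : (‖c‖ ^ 2)⁻¹ ≤ 1 := by
          apply inv_le_one_of_one_le₀
          nlinarith
        gcongr
    _ = _ := by ring

end

end BergmanReg
end

section

/-!
# Kernel representation of the twisted difference
-/

namespace BergmanReg

open MeasureTheory Metric Set Filter Topology Complex
open scoped ENNReal NNReal ComplexConjugate

noncomputable section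

theorem dr_integrable_shift {g : ℂ → ℂ} (hg : Integrable g)
    (h0 : ∀ w, w ∉ ball (0 : ℂ) 1 → g w = 0) {a : ℂ} (ha : 1 < a.re) :
    Integrable (fun w => g w / (a - w)) := by
  have hδ : 0 < a.re - 1 := by linarith
  refine Integrable.mono' (hg.norm.mul_const (a.re - 1)⁻¹) ?_ ?_
  · have h1 : AEStronglyMeasurable (fun w : ℂ => (a - w)⁻¹) volume := by
      apply Measurable.aestronglyMeasurable
      fun_prop
    simp only [div_eq_mul_inv]
    exact hg.1.mul h1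
  · refine Filter.Eventually.of_forall fun w => ?_
    by_cases hw : w ∈ ball (0 : ℂ) 1
    · have h1 : ‖w‖ < 1 := by simpa using hw
      have h2 : w.re ≤ ‖w‖ := re_le_norm w
      have h3 : (a - w).re ≤ ‖a - w‖ := re_le_norm _
      rw [sub_re] at h3
      have h4 : a.re - 1 ≤ ‖a - w‖ := by linarith
      rw [norm_div, div_eq_mul_inv]
      exact mul_le_mul_of_nonneg_left (inv_anti₀ hδ h4) (norm_nonneg _)
    · rw [h0 w hw, zero_div, norm_zero, zero_mul]

theorem dr_expand {g : ℂ → ℂ} {z : ℂ} {D : ℝ}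
    (h0 : Integrable (fun w => g w / (z - w)))
    (h1 : Integrable (fun w => g w / (z + (D : ℂ) - w)))
    (h2 : Integrable (fun w => g w / (z + 2 * (D : ℂ) - w)))
    (e1 : ∫ w, g w / (z + (D : ℂ) - w) = 0)
    (e2 : ∫ w, g w / (z + 2 * (D : ℂ) - w) = 0) :
    Integrable (fun w => g w * kk D (z - w)) ∧
      ∫ w, g w * kk D (z - w) = ∫ w, g w / (z - w) := by
  have h3 : (fun w => g w * kk D (z - w)) = fun w =>
      g w / (z - w) - 2 * (g w / (z + (D : ℂ) - w)) + g w / (z + 2 * (D : ℂ) - w) := by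
    funext w
    have ha : z - w + (D : ℂ) = z + (D : ℂ) - w := by ring
    have hb : z - w + 2 * (D : ℂ) = z + 2 * (D : ℂ) - w := by ring
    rw [kk, ha, hb]
    ring
  have h4 : Integrable (fun w => g w / (z - w) - 2 * (g w / (z + (D : ℂ) - w))) :=
    h0.sub (h1.const_mul 2)
  rw [h3]
  refine ⟨h4.add h2, ?_⟩
  rw [integral_add h4 h2, integral_sub h0 (h1.const_mul 2), integral_const_mul, e1, e2]
  ring

theorem dr_integral_zero {p q : ℝ} (hpq : p.HolderConjugate q) {g : ℂ → ℂ} (hg : InLq q g)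
    (ho : Orth p g) {a : ℂ} (ha : 1 < a.re) : ∫ w, g w / (a - w) = 0 := by
  have h1 : 1 < ‖a‖ := lt_of_lt_of_le ha (re_le_norm a)
  have h2 := ct_eq_zero hpq hg ho h1
  rw [ct] at h2
  rcases mul_eq_zero.1 h2 with h3 | h3
  · exfalso
    have : ((Real.pi : ℝ) : ℂ) ≠ 0 := by
      exact_mod_cast Real.pi_ne_zero
    exact (inv_ne_zero this) h3
  · exact h3

theorem dc_repr {p q : ℝ} (hpq : p.HolderConjugate q) {g : ℂ → ℂ} (hg : InLq q g)
    (ho : Orth p g) {R : ℝ} (hR : 0 < R) (hR1 : R ≤ 1) {c : ℂ} (hc : 1 ≤ ‖c‖)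
    (hcR : ‖c - 1‖ ≤ R) :
    ∀ᵐ z, z ∈ ball (0 : ℂ) 1 → dc c g z = ((Real.pi : ℝ) : ℂ)⁻¹ *
      ∫ w, g w * ((conj c)⁻¹ * kk (4 * rho R z) (c * z - w) - kk (4 * rho R z) (z - w)) := by
  have hq : 1 < q := hpq.symm.lt
  have hgi : Integrable g := inLq_integrable hq hg
  have hc0 : c ≠ 0 := by
    rintro rfl
    rw [norm_zero] at hc
    linarith
  have hA := ae_integrable_cauchy hgi
  have hB := ae_comp_mul hc0 hA
  filter_upwards [hA, hB] with z hz hcz hzb
  have hz1 : ‖z‖ < 1 := by simpa using hzb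
  have hρ : 0 < rho R z := rho_pos hR z
  have hRρ : R ≤ rho R z := le_rho hR z
  have hnρ : ‖z - 1‖ ≤ rho R z := norm_le_rho z
  have hre : 1 - rho R z ≤ z.re := by
    have h1 := abs_le.1 (abs_re_le_norm (z - 1))
    rw [sub_re, one_re] at h1
    linarith [h1.1]
  have hrec : 1 - 2 * rho R z ≤ (c * z).re := by
    have h1 : ‖c * z - z‖ ≤ rho R z := by
      have h2 : c * z - z = (c - 1) * z := by ring
      rw [h2, norm_mul]
      calc ‖c - 1‖ * ‖z‖ ≤ R * 1 := mul_le_mul hcR hz1.le (norm_nonneg _) hR.le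
        _ ≤ rho R z := by rw [mul_one]; exact hRρ
    have h3 := abs_le.1 (abs_re_le_norm (c * z - z))
    rw [sub_re] at h3
    linarith [h3.1]
  have key : ∀ a : ℂ, 1 - 2 * rho R z ≤ a.re → Integrable (fun w => g w / (a - w)) →
      Integrable (fun w => g w * kk (4 * rho R z) (a - w)) ∧
      ∫ w, g w * kk (4 * rho R z) (a - w) = ∫ w, g w / (a - w) := by
    intro a ha hai
    have h1 : 1 < (a + ((4 * rho R z : ℝ) : ℂ)).re := by
      rw [add_re, ofReal_re]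
      linarith
    have h2 : 1 < (a + 2 * ((4 * rho R z : ℝ) : ℂ)).re := by
      have : (a + 2 * ((4 * rho R z : ℝ) : ℂ)).re = a.re + 2 * (4 * rho R z) := by
        simp
      rw [this]
      linarith
    exact dr_expand hai (dr_integrable_shift hgi hg.zero h1) (dr_integrable_shift hgi hg.zero h2)
      (dr_integral_zero hpq hg ho h1) (dr_integral_zero hpq hg ho h2)
  obtain ⟨i1, e1⟩ := key z (by linarith) hz
  obtain ⟨i2, e2⟩ := key (c * z) hrec hcz
  have h5 : (fun w => g w * ((conj c)⁻¹ * kk (4 * rho R z) (c * z - w) -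
      kk (4 * rho R z) (z - w))) = fun w => (conj c)⁻¹ * (g w * kk (4 * rho R z) (c * z - w)) -
        g w * kk (4 * rho R z) (z - w) := by
    funext w
    ring
  rw [h5, integral_sub (i2.const_mul _) i1, integral_const_mul, e1, e2, dc, ct, ct]
  ring

theorem dr_hh_nonneg (ε : ℝ) (r : ℝ) (x : ℂ) : 0 ≤ hh ε r ‖x‖ :=
  mul_nonneg (Real.rpow_nonneg (norm_nonneg _) _)
    (Real.rpow_nonneg (le_max_of_le_left (norm_nonneg _)) _)

theorem dr_measurable_hh (ε r : ℝ) (a : ℂ) : Measurable (fun w : ℂ => hh ε r ‖a - w‖) := by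
  unfold hh
  fun_prop

theorem dc_pointwise {ε : ℝ} (hε : 0 < ε) (hε1 : ε < 1) :
    ∃ C : ℝ, 0 < C ∧ ∀ {p q : ℝ}, p.HolderConjugate q → ∀ (g : ℂ → ℂ), InLq q g →
      Orth p g → ∀ (R : ℝ) (c : ℂ), 0 < R → R ≤ 1 → 1 ≤ ‖c‖ → ‖c - 1‖ ≤ R →
      ∀ᵐ z, z ∈ ball (0 : ℂ) 1 → ‖dc c g z‖ₑ ≤ ENNReal.ofReal (C * ‖c - 1‖ ^ (1 - ε)) *
        ((∫⁻ w, ENNReal.ofReal (rho R z ^ (2 * ε) * hh ε (rho R z) ‖z - w‖) * ‖g w‖ₑ) +
         (∫⁻ w, ENNReal.ofReal (rho R z ^ (2 * ε) * hh ε (rho R z) ‖c * z - w‖) * ‖g w‖ₑ)) := by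
  obtain ⟨C, hC, hK⟩ := kernel_bound hε hε1
  refine ⟨C, hC, ?_⟩
  intro p q hpq g hg ho R c hR hR1 hc hcR
  filter_upwards [dc_repr hpq hg ho hR hR1 hc hcR] with z hz hzb
  rw [hz hzb, enorm_mul]
  have hρ : 0 < rho R z := rho_pos hR z
  have hρ2 : 0 ≤ rho R z ^ (2 * ε) := Real.rpow_nonneg hρ.le _
  have hπ : ‖((Real.pi : ℝ) : ℂ)⁻¹‖ₑ ≤ 1 := by
    rw [← ofReal_norm, norm_inv, norm_real, Real.norm_of_nonneg Real.pi_pos.le]
    apply ENNReal.ofReal_le_one.2
    exact inv_le_one_of_one_le₀ (by linarith [Real.pi_gt_three])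
  have hCc : 0 ≤ C * ‖c - 1‖ ^ (1 - ε) := mul_nonneg hC.le (Real.rpow_nonneg (norm_nonneg _) _)
  refine (mul_le_mul' hπ (enorm_integral_le_lintegral_enorm _)).trans ?_
  rw [one_mul]
  have hm1 : Measurable (fun w => ENNReal.ofReal (rho R z ^ (2 * ε) *
      hh ε (rho R z) ‖z - w‖) * ‖g w‖ₑ) :=
    (((dr_measurable_hh ε (rho R z) z).const_mul _).ennreal_ofReal).mul hg.meas.enorm
  have hm2 : Measurable (fun w => ENNReal.ofReal (rho R z ^ (2 * ε) *
      hh ε (rho R z) ‖c * z - w‖) * ‖g w‖ₑ) :=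
    (((dr_measurable_hh ε (rho R z) (c * z)).const_mul _).ennreal_ofReal).mul hg.meas.enorm
  rw [← lintegral_add_left hm1]
  refine le_trans ?_ (le_of_eq (lintegral_const_mul _ (hm1.add hm2)))
  have hne : ∀ᵐ w : ℂ, w ≠ z ∧ w ≠ c * z := by
    have h1 : ∀ᵐ w : ℂ, w ≠ z := by
      simp [ae_iff]
    have h2 : ∀ᵐ w : ℂ, w ≠ c * z := by
      simp [ae_iff]
    exact h1.and h2
  refine lintegral_mono_ae ?_
  filter_upwards [hne] with w hw
  by_cases hwb : w ∈ ball (0 : ℂ) 1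
  · have h1 := hK R c z w hR hR1 hc hcR hzb hwb hw.1.symm hw.2.symm
    rw [enorm_mul]
    have h2 : ‖(conj c)⁻¹ * kk (4 * rho R z) (c * z - w) - kk (4 * rho R z) (z - w)‖ₑ ≤
        ENNReal.ofReal (C * ‖c - 1‖ ^ (1 - ε)) *
          (ENNReal.ofReal (rho R z ^ (2 * ε) * hh ε (rho R z) ‖z - w‖) +
            ENNReal.ofReal (rho R z ^ (2 * ε) * hh ε (rho R z) ‖c * z - w‖)) := by
      rw [← ENNReal.ofReal_add (mul_nonneg hρ2 (dr_hh_nonneg _ _ _))
        (mul_nonneg hρ2 (dr_hh_nonneg _ _ _)), ← ENNReal.ofReal_mul hCc, ← ofReal_norm]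
      apply ENNReal.ofReal_le_ofReal
      refine h1.trans (le_of_eq ?_)
      ring
    calc ‖g w‖ₑ * ‖(conj c)⁻¹ * kk (4 * rho R z) (c * z - w) - kk (4 * rho R z) (z - w)‖ₑ
        ≤ ‖g w‖ₑ * _ := mul_le_mul' le_rfl h2
      _ = _ := by
        ring
  · rw [hg.zero w hwb, zero_mul, enorm_zero]
    exact zero_le

end

end BergmanReg
end

section

/-!
# Weighted estimates of the twisted difference
-/

namespace BergmanReg

open MeasureTheory Metric Set Filter Topology Complex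
open scoped ENNReal NNReal ComplexConjugate

noncomputable section

/-- monotonicity in the second variable -/
theorem de_hh_anti {ε r s t : ℝ} (hε : 0 < ε) (hε1 : ε < 1) (hr : 0 < r) (hs : 0 < s) (hst : s ≤ t) :
    hh ε r t ≤ hh ε r s := by
  unfold hh
  have h1 : t ^ (-2 + ε) ≤ s ^ (-2 + ε) := Real.rpow_le_rpow_of_nonpos hs hst (by linarith)
  have h2 : (max t r) ^ (-(2 * ε)) ≤ (max s r) ^ (-(2 * ε)) :=
    Real.rpow_le_rpow_of_nonpos (lt_max_of_lt_right hr) (max_le_max_right r hst) (by linarith)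
  have h3 : 0 ≤ (max t r) ^ (-(2 * ε)) := Real.rpow_nonneg (le_max_of_le_right hr.le) _
  have h4 : 0 ≤ s ^ (-2 + ε) := Real.rpow_nonneg hs.le _
  exact mul_le_mul h1 h2 h3 h4

theorem de_hh_nonneg {ε r s : ℝ} (hr : 0 < r) (hs : 0 ≤ s) : 0 ≤ hh ε r s :=
  mul_nonneg (Real.rpow_nonneg hs _) (Real.rpow_nonneg (le_max_of_le_right hr.le) _)

/-- the key pointwise inequality -/
theorem de_key {ε ρ r a b : ℝ} (hε : 0 < ε) (hε1 : ε < 1) (hρ : 0 < ρ) (hr : 0 < r) (ha : 0 ≤ a)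
    (hb : 0 < b) (hbρ : b ≤ ρ) (h : 4 * r ≤ 2 * ρ + a) :
    ρ ^ (-2 + ε) * hh ε ρ a ≤ r ^ (-2 + ε) * (hh ε r b + hh ε r a) := by
  have hb0 : 0 ≤ hh ε r b := de_hh_nonneg hr hb.le
  have ha0 : 0 ≤ hh ε r a := de_hh_nonneg hr ha
  have hr0 : 0 ≤ r ^ (-2 + ε) := Real.rpow_nonneg hr.le _
  rcases le_or_gt r a with h1 | h1
  · have e1 : a ^ (-2 + ε) ≤ r ^ (-2 + ε) := Real.rpow_le_rpow_of_nonpos hr h1 (by linarith)
    have e2 : (max a ρ) ^ (-(2 * ε)) ≤ (max ρ r) ^ (-(2 * ε)) := by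
      refine Real.rpow_le_rpow_of_nonpos (lt_max_of_lt_left hρ) ?_ (by linarith)
      rw [max_comm a ρ]
      exact max_le_max_left ρ h1
    have e3 : hh ε r ρ ≤ hh ε r b := de_hh_anti hε hε1 hr hb hbρ
    have e4 : hh ε ρ a ≤ r ^ (-2 + ε) * (max ρ r) ^ (-(2 * ε)) :=
      mul_le_mul e1 e2 (Real.rpow_nonneg (le_max_of_le_right hρ.le) _) hr0
    calc ρ ^ (-2 + ε) * hh ε ρ a ≤ ρ ^ (-2 + ε) * (r ^ (-2 + ε) * (max ρ r) ^ (-(2 * ε))) :=
          mul_le_mul_of_nonneg_left e4 (Real.rpow_nonneg hρ.le _)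
      _ = r ^ (-2 + ε) * hh ε r ρ := by unfold hh; ring
      _ ≤ r ^ (-2 + ε) * (hh ε r b + hh ε r a) := by
          refine mul_le_mul_of_nonneg_left ?_ hr0
          linarith
  · have h2 : r ≤ ρ := by linarith
    have e1 : ρ ^ (-2 + ε) ≤ r ^ (-2 + ε) := Real.rpow_le_rpow_of_nonpos hr h2 (by linarith)
    have e2 : hh ε ρ a ≤ hh ε r a := by
      unfold hh
      refine mul_le_mul_of_nonneg_left ?_ (Real.rpow_nonneg ha _)
      exact Real.rpow_le_rpow_of_nonpos (lt_max_of_lt_right hr) (max_le_max_left a h2) (by linarith)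
    calc ρ ^ (-2 + ε) * hh ε ρ a ≤ r ^ (-2 + ε) * hh ε r a :=
          mul_le_mul e1 e2 (de_hh_nonneg hρ ha) hr0
      _ ≤ r ^ (-2 + ε) * (hh ε r b + hh ε r a) := by
          refine mul_le_mul_of_nonneg_left ?_ hr0
          linarith

/-- the kernel -/
def de_k (ε R : ℝ) (c z w : ℂ) : ℝ≥0∞ :=
  ENNReal.ofReal (rho R z ^ (2 * ε) * hh ε (rho R z) ‖c * z - w‖)

theorem de_k_meas (ε R : ℝ) (c : ℂ) : Measurable (Function.uncurry (de_k ε R c)) := by
  have h1 : Measurable (fun p : ℂ × ℂ => rho R p.1) := (continuous_rho R).measurable.comp measurable_fst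
  have h2 : Measurable (fun p : ℂ × ℂ => ‖c * p.1 - p.2‖) := by fun_prop
  unfold de_k Function.uncurry hh
  exact ENNReal.measurable_ofReal.comp ((h1.pow_const _).mul
    ((h2.pow_const _).mul ((h2.max h1).pow_const _)))

theorem de_hh_meas (ε r : ℝ) (c w : ℂ) : Measurable (fun z : ℂ => ENNReal.ofReal (hh ε r ‖c * z - w‖)) := by
  have h2 : Measurable (fun z : ℂ => ‖c * z - w‖) := by fun_prop
  unfold hh
  exact ENNReal.measurable_ofReal.comp ((h2.pow_const _).mul ((h2.max measurable_const).pow_const _))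

/-- real form of the bound of the integrand -/
theorem de_real {q ε C1 R ρ r a b : ℝ} (hq : 1 < q) (hε : 0 < ε) (hε1 : ε < 1) (hC1 : 0 < C1)
    (hR : 0 < R) (hρR : R ≤ ρ) (hr : 0 < r) (ha : 0 ≤ a) (hb : 0 < b) (hbρ : b ≤ ρ)
    (h : 4 * r ≤ 2 * ρ + a) :
    R ^ 2 / ρ ^ 2 * ρ ^ (-q) * (C1 * ρ ^ ε) ^ (q - 1) * (ρ ^ (2 * ε) * hh ε ρ a) ≤
      C1 ^ (q - 1) * R ^ 2 * R ^ (-((1 - ε) * q)) * r ^ (-2 + ε) * (hh ε r b + hh ε r a) := by
  have hρ : 0 < ρ := lt_of_lt_of_le hR hρR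
  have e1 : R ^ 2 / ρ ^ 2 * ρ ^ (-q) * (C1 * ρ ^ ε) ^ (q - 1) * (ρ ^ (2 * ε) * hh ε ρ a) =
      C1 ^ (q - 1) * R ^ 2 * ρ ^ (-((1 - ε) * q)) * (ρ ^ (-2 + ε) * hh ε ρ a) := by
    have e2 : ρ ^ (-((1 - ε) * q)) * ρ ^ (-2 + ε) =
        (ρ ^ 2)⁻¹ * ρ ^ (-q) * ρ ^ (ε * (q - 1)) * ρ ^ (2 * ε) := by
      have e3 : (ρ ^ 2)⁻¹ = ρ ^ (-2 : ℝ) := by
        rw [Real.rpow_neg hρ.le, Real.rpow_two]
      rw [e3, ← Real.rpow_add hρ, ← Real.rpow_add hρ, ← Real.rpow_add hρ, ← Real.rpow_add hρ]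
      congr 1
      ring
    rw [Real.mul_rpow hC1.le (Real.rpow_nonneg hρ.le _), ← Real.rpow_mul hρ.le, div_eq_mul_inv]
    linear_combination (-(C1 ^ (q - 1) * R ^ 2 * hh ε ρ a)) * e2
  rw [e1]
  have e4 : ρ ^ (-((1 - ε) * q)) ≤ R ^ (-((1 - ε) * q)) := by
    refine Real.rpow_le_rpow_of_nonpos hR hρR ?_
    have : 0 < (1 - ε) * q := mul_pos (by linarith) (by linarith)
    linarith
  have e5 := de_key hε hε1 hρ hr ha hb hbρ h
  calc C1 ^ (q - 1) * R ^ 2 * ρ ^ (-((1 - ε) * q)) * (ρ ^ (-2 + ε) * hh ε ρ a)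
      ≤ C1 ^ (q - 1) * R ^ 2 * R ^ (-((1 - ε) * q)) * (r ^ (-2 + ε) * (hh ε r b + hh ε r a)) := by
        refine mul_le_mul ?_ e5 (mul_nonneg (Real.rpow_nonneg hρ.le _) (de_hh_nonneg hρ ha)) (by positivity)
        exact mul_le_mul_of_nonneg_left e4 (by positivity)
    _ = _ := by ring

theorem schur_dc {q ε : ℝ} (hq : 1 < q) (hε : 0 < ε) (hε1 : ε < 1) :
    ∃ C : ℝ, 0 < C ∧ ∀ (g : ℂ → ℂ), Measurable g → ∀ (R : ℝ) (c : ℂ), 0 < R → R ≤ 1 →
      1 ≤ ‖c‖ → ‖c - 1‖ ≤ R →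
      ∫⁻ z in ball (0 : ℂ) 1, ENNReal.ofReal (eta R z * rho R z ^ (-q)) *
        (∫⁻ w, ENNReal.ofReal (rho R z ^ (2 * ε) * hh ε (rho R z) ‖c * z - w‖) * ‖g w‖ₑ) ^ q ≤
      ENNReal.ofReal (C * R ^ (-((1 - ε) * q))) * ∫⁻ w, ENNReal.ofReal (eta R w) * ‖g w‖ₑ ^ q := by
  obtain ⟨C1, hC1, hC⟩ := lintegral_hh hε hε1
  refine ⟨32 * C1 ^ q, by positivity, fun g mg R c hR hR1 hc hcR => ?_⟩
  have hc0 : c ≠ 0 := by
    intro h
    rw [h, norm_zero] at hc
    norm_num at hc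
  have mρ : Measurable (rho R) := (continuous_rho R).measurable
  have mη : Measurable (eta R) := (continuous_eta hR).measurable
  have hs := schur (μ := volume.restrict (ball (0:ℂ) 1)) (ν := (volume : Measure ℂ)) hq
    (k := de_k ε R c) (de_k_meas ε R c) (g := fun w => ‖g w‖ₑ) mg.enorm
    (W := fun z => ENNReal.ofReal (eta R z * rho R z ^ (-q)))
    (A := fun z => ENNReal.ofReal (C1 * rho R z ^ ε))
    (ENNReal.measurable_ofReal.comp (mη.mul (mρ.pow_const _)))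
    (ENNReal.measurable_ofReal.comp (measurable_const.mul (mρ.pow_const _)))
    (B := fun w => ENNReal.ofReal (32 * C1 ^ q * R ^ (-((1 - ε) * q))) * ENNReal.ofReal (eta R w))
    (ae_of_all _ fun z => ?_) (ae_of_all _ fun w => ?_)
  · refine hs.trans (le_of_eq ?_)
    have m6 : Measurable (fun w => ENNReal.ofReal (eta R w) * ‖g w‖ₑ ^ q) :=
      (ENNReal.measurable_ofReal.comp mη).mul (mg.enorm.pow_const q)
    rw [← lintegral_const_mul _ m6]
    refine lintegral_congr fun w => ?_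
    ring
  · -- first Schur condition
    have hρ := rho_pos hR z
    have h1 : ∀ w, de_k ε R c z w = ENNReal.ofReal (rho R z ^ (2 * ε)) *
        ENNReal.ofReal (hh ε (rho R z) ‖1 * w - c * z‖) := by
      intro w
      rw [de_k, ENNReal.ofReal_mul (by positivity), norm_sub_rev, one_mul]
    simp_rw [h1]
    rw [lintegral_const_mul _ (de_hh_meas ε _ 1 _)]
    have h2 := hC (rho R z) hρ (c * z)
    simp_rw [one_mul]
    refine (mul_le_mul_right h2 _).trans (le_of_eq ?_)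
    rw [← ENNReal.ofReal_mul (by positivity)]
    congr 1
    have : rho R z ^ ε = rho R z ^ (2 * ε) * rho R z ^ (-ε) := by
      rw [← Real.rpow_add hρ]; congr 1; ring
    rw [this]; ring
  · -- second Schur condition
    have hρw := rho_pos hR w
    set r : ℝ := rho R w / 4 with hr
    have hr0 : 0 < r := by positivity
    set D : ℝ := C1 ^ (q - 1) * R ^ 2 * R ^ (-((1 - ε) * q)) * r ^ (-2 + ε) with hD
    have hD0 : 0 ≤ D := by positivity
    calc ∫⁻ z in ball (0:ℂ) 1, ENNReal.ofReal (eta R z * rho R z ^ (-q)) *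
          ENNReal.ofReal (C1 * rho R z ^ ε) ^ (q - 1) * de_k ε R c z w
        ≤ ∫⁻ z in ball (0:ℂ) 1, ENNReal.ofReal D * (ENNReal.ofReal (hh ε r ‖1 * z - 1‖) +
            ENNReal.ofReal (hh ε r ‖c * z - w‖)) := by
          refine setLIntegral_mono' measurableSet_ball fun z hz => ?_
          have hρ := rho_pos hR z
          have hρR := le_rho hR z
          rw [mem_ball_zero_iff] at hz
          have hz1 : 0 < ‖z - 1‖ := by
            rw [norm_pos_iff, sub_ne_zero]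
            intro h
            rw [h, norm_one] at hz
            exact lt_irrefl _ hz
          have hb : ‖z - 1‖ ≤ rho R z := norm_le_rho z
          have h4 : 4 * r ≤ 2 * rho R z + ‖c * z - w‖ := by
            have h5 := rho_lipschitz (R := R) z w
            have h6 : ‖z - w‖ ≤ ‖c * z - w‖ + ‖c - 1‖ * ‖z‖ := by
              have : z - w = (c * z - w) - (c - 1) * z := by ring
              rw [this, ← norm_mul]
              exact norm_sub_le _ _
            have h7 : ‖c - 1‖ * ‖z‖ ≤ R * 1 := by gcongr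
            rw [hr]
            linarith
          have h8 := de_real hq hε hε1 hC1 hR hρR hr0 (norm_nonneg (c * z - w)) hz1 hb h4
          rw [de_k, ENNReal.ofReal_rpow_of_nonneg (by positivity) (by linarith),
            ← ENNReal.ofReal_mul (mul_nonneg (eta_pos hR z).le (by positivity)),
            ← ENNReal.ofReal_mul (mul_nonneg (mul_nonneg (eta_pos hR z).le (by positivity))
              (by positivity)),
            ← ENNReal.ofReal_add (de_hh_nonneg hr0 (norm_nonneg _)) (de_hh_nonneg hr0 (norm_nonneg _)),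
            ← ENNReal.ofReal_mul hD0, one_mul]
          refine ENNReal.ofReal_le_ofReal ?_
          rw [eta_eq hR]
          exact h8
      _ ≤ ∫⁻ z, ENNReal.ofReal D * (ENNReal.ofReal (hh ε r ‖1 * z - 1‖) +
            ENNReal.ofReal (hh ε r ‖c * z - w‖)) := setLIntegral_le_lintegral _ _
      _ = ENNReal.ofReal D * ((∫⁻ z : ℂ, ENNReal.ofReal (hh ε r ‖1 * z - 1‖)) +
            ∫⁻ z, ENNReal.ofReal (hh ε r ‖c * z - w‖)) := by
          have m7 : Measurable (fun z : ℂ => ENNReal.ofReal (hh ε r ‖1 * z - 1‖) +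
            ENNReal.ofReal (hh ε r ‖c * z - w‖)) := (de_hh_meas ε r 1 1).add (de_hh_meas ε r c w)
          rw [lintegral_const_mul _ m7, lintegral_add_left (de_hh_meas ε r 1 1)]
      _ ≤ ENNReal.ofReal D * (ENNReal.ofReal (C1 * r ^ (-ε)) + ENNReal.ofReal (C1 * r ^ (-ε))) := by
          refine mul_le_mul_right (add_le_add ?_ ?_) _
          · simp_rw [one_mul]
            exact hC r hr0 1
          · have h9 := lintegral_comp_mul hc0 (fun z => ENNReal.ofReal (hh ε r ‖z - w‖))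
            rw [h9]
            have h10 : ENNReal.ofReal ((‖c‖ ^ 2)⁻¹) ≤ 1 := by
              rw [ENNReal.ofReal_le_one]
              exact inv_le_one_of_one_le₀ (by nlinarith)
            calc ENNReal.ofReal ((‖c‖ ^ 2)⁻¹) * ∫⁻ z, ENNReal.ofReal (hh ε r ‖z - w‖)
                ≤ 1 * ENNReal.ofReal (C1 * r ^ (-ε)) := mul_le_mul' h10 (hC r hr0 w)
              _ = _ := one_mul _
      _ = ENNReal.ofReal (32 * C1 ^ q * R ^ (-((1 - ε) * q))) * ENNReal.ofReal (eta R w) := by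
          rw [← ENNReal.ofReal_add (by positivity) (by positivity), ← ENNReal.ofReal_mul hD0,
            ← ENNReal.ofReal_mul (by positivity), eta_eq hR]
          congr 1
          have e1 : C1 ^ q = C1 ^ (q - 1) * C1 := by
            rw [← Real.rpow_add_one hC1.ne']; congr 1; ring
          have e2 : r ^ (-2 + ε) * r ^ (-ε) = (r ^ 2)⁻¹ := by
            rw [← Real.rpow_add hr0]
            have : -2 + ε + -ε = -2 := by ring
            rw [this, Real.rpow_neg hr0.le, Real.rpow_two]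
          have e3 : (r ^ 2)⁻¹ = 16 / rho R w ^ 2 := by
            rw [hr]; field_simp; norm_num
          rw [e3] at e2
          rw [hD, e1]
          linear_combination (2 * C1 ^ (q - 1) * C1 * R ^ 2 * R ^ (-((1 - ε) * q))) * e2

theorem diff_est {p q ε : ℝ} (hpq : p.HolderConjugate q) (hε : 0 < ε) (hε1 : ε < 1) :
    ∃ C : ℝ, 0 < C ∧ ∀ (g : ℂ → ℂ), InLq q g → Orth p g → ∀ (R : ℝ) (c : ℂ), 0 < R → R ≤ 1 →
      1 ≤ ‖c‖ → ‖c - 1‖ ≤ R →
      IntegrableOn (fun z => eta R z * rho R z ^ (-q) * ‖dc c g z‖ ^ q) (ball (0 : ℂ) 1) ∧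
      ∫ z in ball (0 : ℂ) 1, eta R z * rho R z ^ (-q) * ‖dc c g z‖ ^ q ≤
        (C * (‖c - 1‖ / R) ^ (1 - ε)) ^ q * ee q R g := by
  have hq := hpq.symm.lt
  have hq0 : 0 < q := by linarith
  obtain ⟨C1, hC1, h1⟩ := dc_pointwise hε hε1
  obtain ⟨C2, hC2, h2⟩ := schur_dc hq hε hε1
  refine ⟨C1 * 2 * C2 ^ (1 / q), by positivity, fun g hg ho R c hR hR1 hc hcR => ?_⟩
  have mρ : Measurable (rho R) := (continuous_rho R).measurable
  have mη : Measurable (eta R) := (continuous_eta hR).measurable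
  have mct := (stronglyMeasurable_ct hg.meas).measurable
  have mdc : Measurable (dc c g) := by
    unfold dc
    exact (measurable_const.mul (mct.comp (measurable_const_mul c))).sub mct
  have hp := h1 hpq g hg ho R c hR hR1 hc hcR
  have hJ2 := h2 g hg.meas R c hR hR1 hc hcR
  have hJ1 := h2 g hg.meas R 1 hR hR1 (by simp) (by simp [hR.le])
  simp only [one_mul] at hJ1
  set s : ℝ := ‖c - 1‖ with hs
  have hs0 : 0 ≤ s := norm_nonneg _
  set W : ℂ → ℝ≥0∞ := fun z => ENNReal.ofReal (eta R z * rho R z ^ (-q)) with hW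
  have mW : Measurable W := ENNReal.measurable_ofReal.comp (mη.mul (mρ.pow_const _))
  set I1 : ℂ → ℝ≥0∞ := fun z => ∫⁻ w, ENNReal.ofReal (rho R z ^ (2 * ε) * hh ε (rho R z) ‖z - w‖) *
    ‖g w‖ₑ with hI1
  set I2 : ℂ → ℝ≥0∞ := fun z => ∫⁻ w, ENNReal.ofReal (rho R z ^ (2 * ε) *
    hh ε (rho R z) ‖c * z - w‖) * ‖g w‖ₑ with hI2
  have mI2 : Measurable I2 :=
    ((de_k_meas ε R c).mul (hg.meas.enorm.comp measurable_snd)).lintegral_prod_right'
  have mI1 : Measurable I1 := by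
    have h3 := ((de_k_meas ε R 1).mul (hg.meas.enorm.comp measurable_snd)).lintegral_prod_right'
      (ν := (volume : Measure ℂ))
    have h4 : I1 = fun z => ∫⁻ w, de_k ε R 1 z w * ‖g w‖ₑ := by
      ext z
      refine lintegral_congr fun w => ?_
      simp [de_k]
    rw [h4]
    exact h3
  -- finiteness and value of the energy
  have hEint : Integrable (fun w => eta R w * ‖g w‖ ^ q) := tg_int_eta hR hg.int
  have hE : ∫⁻ w, ENNReal.ofReal (eta R w) * ‖g w‖ₑ ^ q = ENNReal.ofReal (ee q R g) := by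
    rw [ee, ofReal_integral_eq_lintegral_ofReal hEint (ae_of_all _ fun w =>
      mul_nonneg (tg_eta_nonneg R w) (by positivity))]
    refine lintegral_congr fun w => ?_
    rw [ENNReal.ofReal_mul (tg_eta_nonneg R w), ← ENNReal.ofReal_rpow_of_nonneg (norm_nonneg _) hq0.le,
      ofReal_norm]
  rw [hE] at hJ1 hJ2
  have hmain : ∫⁻ z in ball (0:ℂ) 1, W z * ‖dc c g z‖ₑ ^ q ≤
      ENNReal.ofReal ((C1 * 2 * C2 ^ (1 / q) * (s / R) ^ (1 - ε)) ^ q * ee q R g) := by
    calc ∫⁻ z in ball (0:ℂ) 1, W z * ‖dc c g z‖ₑ ^ q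
        ≤ ∫⁻ z in ball (0:ℂ) 1, (ENNReal.ofReal (C1 * s ^ (1 - ε)) ^ q * 2 ^ (q - 1)) *
            (W z * I1 z ^ q + W z * I2 z ^ q) := by
          refine lintegral_mono_ae ?_
          refine (ae_restrict_iff' measurableSet_ball).2 ?_
          filter_upwards [hp] with z hz hzb
          have h3 := hz hzb
          calc W z * ‖dc c g z‖ₑ ^ q ≤ W z * (ENNReal.ofReal (C1 * s ^ (1 - ε)) * (I1 z + I2 z)) ^ q := by
                gcongr
            _ = W z * (ENNReal.ofReal (C1 * s ^ (1 - ε)) ^ q * (I1 z + I2 z) ^ q) := by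
                rw [ENNReal.mul_rpow_of_nonneg _ _ hq0.le]
            _ ≤ W z * (ENNReal.ofReal (C1 * s ^ (1 - ε)) ^ q *
                  (2 ^ (q - 1) * (I1 z ^ q + I2 z ^ q))) := by
                gcongr
                exact ENNReal.rpow_add_le_mul_rpow_add_rpow _ _ hq.le
            _ = _ := by ring
      _ = (ENNReal.ofReal (C1 * s ^ (1 - ε)) ^ q * 2 ^ (q - 1)) *
            ((∫⁻ z in ball (0:ℂ) 1, W z * I1 z ^ q) + ∫⁻ z in ball (0:ℂ) 1, W z * I2 z ^ q) := by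
          have m1 : Measurable (fun z => W z * I1 z ^ q) := mW.mul (mI1.pow_const q)
          have m2 : Measurable (fun z => W z * I2 z ^ q) := mW.mul (mI2.pow_const q)
          have m3 : Measurable (fun z => W z * I1 z ^ q + W z * I2 z ^ q) := m1.add m2
          rw [lintegral_const_mul _ m3, lintegral_add_left m1]
      _ ≤ (ENNReal.ofReal (C1 * s ^ (1 - ε)) ^ q * 2 ^ (q - 1)) *
            (ENNReal.ofReal (C2 * R ^ (-((1 - ε) * q))) * ENNReal.ofReal (ee q R g) +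
              ENNReal.ofReal (C2 * R ^ (-((1 - ε) * q))) * ENNReal.ofReal (ee q R g)) := by
          gcongr
      _ = ENNReal.ofReal ((C1 * 2 * C2 ^ (1 / q) * (s / R) ^ (1 - ε)) ^ q * ee q R g) := by
          have hee : 0 ≤ ee q R g := tg_ee_nonneg _ _ _
          have e0 : (2:ℝ≥0∞) ^ (q - 1) = ENNReal.ofReal (2 ^ (q - 1)) := by
            rw [← ENNReal.ofReal_rpow_of_nonneg (by norm_num) (by linarith)]
            norm_num
          rw [e0, ENNReal.ofReal_rpow_of_nonneg (by positivity) hq0.le,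
            ← ENNReal.ofReal_mul (by positivity), ← ENNReal.ofReal_mul (by positivity),
            ← ENNReal.ofReal_add (by positivity) (by positivity), ← ENNReal.ofReal_mul (by positivity)]
          congr 1
          have e1 : (C2 ^ (1 / q)) ^ q = C2 := by
            rw [← Real.rpow_mul hC2.le, one_div_mul_cancel hq0.ne', Real.rpow_one]
          have e2 : ((s / R) ^ (1 - ε)) ^ q = (s ^ (1 - ε)) ^ q * R ^ (-((1 - ε) * q)) := by
            rw [Real.div_rpow hs0 hR.le, Real.div_rpow (by positivity) (by positivity),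
              ← Real.rpow_mul hR.le, Real.rpow_neg hR.le, div_eq_mul_inv]
          have e3 : (2:ℝ) ^ q = 2 ^ (q - 1) * 2 := by
            rw [← Real.rpow_add_one (by norm_num)]; congr 1; ring
          rw [Real.mul_rpow (by positivity) (by positivity), Real.mul_rpow (by positivity) (by positivity),
            Real.mul_rpow (by positivity) (by positivity), Real.mul_rpow (by positivity) (by positivity),
            e1, e2, e3]
          ring
  have h0 : ∀ z, 0 ≤ eta R z * rho R z ^ (-q) * ‖dc c g z‖ ^ q := fun z => by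
    have := tg_eta_nonneg R z
    have := rho_pos hR z
    positivity
  have hconv : ∀ z, ENNReal.ofReal (eta R z * rho R z ^ (-q) * ‖dc c g z‖ ^ q) =
      W z * ‖dc c g z‖ₑ ^ q := by
    intro z
    have h3 := tg_eta_nonneg R z
    have h4 := rho_pos hR z
    rw [ENNReal.ofReal_mul (by positivity), ← ENNReal.ofReal_rpow_of_nonneg (norm_nonneg _) hq0.le,
      ofReal_norm]
  have hint : IntegrableOn (fun z => eta R z * rho R z ^ (-q) * ‖dc c g z‖ ^ q) (ball (0 : ℂ) 1) := by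
    refine ⟨((mη.mul (mρ.pow_const _)).mul (mdc.norm.pow_const q)).aestronglyMeasurable, ?_⟩
    rw [hasFiniteIntegral_iff_ofReal (ae_of_all _ h0)]
    simp_rw [hconv]
    exact hmain.trans_lt ENNReal.ofReal_lt_top
  refine ⟨hint, ?_⟩
  rw [← ENNReal.ofReal_le_ofReal_iff (mul_nonneg (by positivity) (tg_ee_nonneg _ _ _)),
    ofReal_integral_eq_lintegral_ofReal hint (ae_of_all _ h0)]
  simp_rw [hconv]
  exact hmain

/-- weighted Hoelder form used below -/
theorem pairing_le {p q : ℝ} (hpq : p.HolderConjugate q) {R : ℝ} (hR : 0 < R) {F : ℂ → ℂ}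
    (hFm : Measurable F) (hF0 : ∀ z, z ∉ ball (0 : ℂ) 1 → F z = 0)
    (hF : Integrable (fun z => ‖F z‖ ^ p)) {Y : ℂ → ℂ}
    (hYm : Measurable Y)
    (hY : IntegrableOn (fun z => eta R z * rho R z ^ (-q) * ‖Y z‖ ^ q) (ball (0 : ℂ) 1)) :
    Integrable (fun z => ‖F z‖ * (eta R z / rho R z) * ‖Y z‖) ∧
    ∫ z, ‖F z‖ * (eta R z / rho R z) * ‖Y z‖ ≤
      (ee p R F) ^ (1 / p) *
        (∫ z in ball (0 : ℂ) 1, eta R z * rho R z ^ (-q) * ‖Y z‖ ^ q) ^ (1 / q) := by
  have hp : 0 < p := hpq.pos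
  have hq : 0 < q := hpq.symm.pos
  have hsum : 1 / p + 1 / q = 1 := by
    rw [one_div, one_div]
    exact hpq.inv_add_inv_eq_one
  have h1 := tg_logconvex (tg_int_eta hR hF) (hY.integrable_indicator measurableSet_ball)
    (fun z => mul_nonneg (tg_eta_nonneg R z) (by positivity))
    (fun z => indicator_nonneg (fun z _ => by
      have := tg_eta_nonneg R z
      have := rho_pos hR z
      positivity) z)
    (a := 1 / p) (b := 1 / q) (by positivity) (by positivity) hsum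
  rw [integral_indicator measurableSet_ball] at h1
  have h2 : ∀ z, (eta R z * ‖F z‖ ^ p) ^ (1 / p) * ((ball (0:ℂ) 1).indicator
      (fun z => eta R z * rho R z ^ (-q) * ‖Y z‖ ^ q) z) ^ (1 / q) =
      ‖F z‖ * (eta R z / rho R z) * ‖Y z‖ := by
    intro z
    by_cases hz : z ∈ ball (0:ℂ) 1
    · have he := tg_eta_nonneg R z
      have hρ := rho_pos hR z
      rw [indicator_of_mem hz, Real.mul_rpow he (by positivity), Real.mul_rpow (by positivity)
        (by positivity), Real.mul_rpow he (by positivity), ← Real.rpow_mul (norm_nonneg _),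
        ← Real.rpow_mul (norm_nonneg _), ← Real.rpow_mul hρ.le,
        mul_one_div_cancel hp.ne', mul_one_div_cancel hq.ne', Real.rpow_one, Real.rpow_one]
      have h3 : eta R z ^ (1 / p) * eta R z ^ (1 / q) = eta R z := by
        rw [← Real.rpow_add_of_nonneg he (by positivity) (by positivity), hsum, Real.rpow_one]
      have h4 : rho R z ^ (-q * (1 / q)) = (rho R z)⁻¹ := by
        have : -q * (1 / q) = -1 := by field_simp
        rw [this, Real.rpow_neg_one]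
      rw [h4]
      calc _ = ‖F z‖ * ((eta R z ^ (1 / p) * eta R z ^ (1 / q)) * (rho R z)⁻¹) * ‖Y z‖ := by ring
        _ = _ := by rw [h3, div_eq_mul_inv]
    · rw [hF0 z hz, norm_zero, Real.zero_rpow hp.ne', mul_zero, Real.zero_rpow (by positivity)]
      simp
  simp_rw [h2] at h1
  exact h1

end

end BergmanReg
end

section

/-!
# Pairings of Bergman functions with twisted differences of Cauchy transforms
-/

namespace BergmanReg

open MeasureTheory Metric Set Filter Topology Complex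
open scoped ENNReal NNReal ComplexConjugate

noncomputable section

theorem ta_memLp {p : ℝ} (hp : 0 < p) {f : ℂ → ℂ} (hm : AEStronglyMeasurable f volume)
    (hf : Integrable (fun z => ‖f z‖ ^ p)) : MemLp f (ENNReal.ofReal p) volume := by
  rw [← integrable_norm_rpow_iff hm (by simpa using hp) ENNReal.ofReal_ne_top]
  rwa [ENNReal.toReal_ofReal hp.le]

theorem ta_int_mul {p q : ℝ} (hpq : p.HolderConjugate q) {f g : ℂ → ℂ}
    (hfm : AEStronglyMeasurable f volume) (hgm : AEStronglyMeasurable g volume)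
    (hf : Integrable (fun z => ‖f z‖ ^ p)) (hg : Integrable (fun z => ‖g z‖ ^ q)) :
    Integrable (fun z => f z * g z) := by
  have : ENNReal.HolderConjugate (ENNReal.ofReal p) (ENNReal.ofReal q) :=
    hpq.ennrealOfReal
  exact (ta_memLp hpq.pos hfm hf).integrable_mul (ta_memLp hpq.symm.pos hgm hg)

theorem ta_sub_inAp {p : ℝ} (hp : 1 < p) {f g : ℂ → ℂ} (hf : InAp p f) (hg : InAp p g) :
    InAp p (fun z => f z - g z) := by
  refine ⟨hf.diff.sub hg.diff, fun z hz => by rw [hf.zero z hz, hg.zero z hz, sub_zero], ?_⟩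
  exact tg_int_sub (by linarith) (inAp_measurable hf).aestronglyMeasurable
    (inAp_measurable hg).aestronglyMeasurable hf.int hg.int

theorem ta_sub_inLq {q : ℝ} (hq : 1 < q) {f g : ℂ → ℂ} (hf : InLq q f) (hg : InLq q g) :
    InLq q (fun z => f z - g z) := by
  refine ⟨hf.meas.sub hg.meas, fun z hz => by rw [hf.zero z hz, hg.zero z hz, sub_zero], ?_⟩
  exact tg_int_sub (by linarith) hf.meas.aestronglyMeasurable
    hg.meas.aestronglyMeasurable hf.int hg.int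

theorem ta_sub_orth {p q : ℝ} (hpq : p.HolderConjugate q) {f g : ℂ → ℂ} (hf : InLq q f)
    (hg : InLq q g) (of : Orth p f) (og : Orth p g) : Orth p (fun z => f z - g z) := by
  intro φ hφ
  have h1 := ta_int_mul hpq (inAp_measurable hφ).aestronglyMeasurable
    hf.meas.aestronglyMeasurable hφ.int hf.int
  have h2 := ta_int_mul hpq (inAp_measurable hφ).aestronglyMeasurable
    hg.meas.aestronglyMeasurable hφ.int hg.int
  simp_rw [mul_sub]
  rw [integral_sub h1 h2, of φ hφ, og φ hφ, sub_zero]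

theorem ta_ct_sub {q : ℝ} (hq : 1 < q) {g : ℂ → ℂ} (hg : InLq q g) {c : ℂ} (hc : 1 ≤ ‖c‖) :
    ∀ᵐ z, ct (fun w => g (c * w) - g w) z = dc c g z := by
  have hc0 : c ≠ 0 := by
    intro h
    rw [h, norm_zero] at hc
    norm_num at hc
  have h1 := ae_integrable_cauchy (inLq_integrable hq hg)
  have h2 := ae_integrable_cauchy (inLq_integrable hq (inLq_comp_mul hq hg hc))
  filter_upwards [h1, h2] with z hz1 hz2
  unfold dc
  rw [← ct_comp_mul g hc0 z]
  unfold ct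
  rw [← mul_sub, ← integral_sub hz2 hz1]
  congr 1
  refine integral_congr_ae (ae_of_all _ fun w => ?_)
  simp only
  ring

theorem ta_measurable_dc {g : ℂ → ℂ} (hg : Measurable g) (c : ℂ) : Measurable (dc c g) := by
  have h1 := (stronglyMeasurable_ct hg).measurable
  unfold dc
  exact (measurable_const.mul (h1.comp (measurable_const.mul measurable_id))).sub h1

theorem ta_pair {p q ε : ℝ} (hpq : p.HolderConjugate q) (hε : 0 < ε) (hε1 : ε < 1) :
    ∃ C : ℝ, 0 < C ∧ ∀ (g F : ℂ → ℂ), InLq q g → Orth p g → InAp p F →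
      ∀ (R : ℝ) (c : ℂ), 0 < R → R ≤ 1 → 1 ≤ ‖c‖ → ‖c - 1‖ ≤ R →
      Integrable (fun z => ‖F z‖ * (eta R z / rho R z) * ‖dc c g z‖) ∧
      ∫ z, ‖F z‖ * (eta R z / rho R z) * ‖dc c g z‖ ≤
        C * (‖c - 1‖ / R) ^ (1 - ε) * ((ee p R F) ^ (1 / p) * (ee q R g) ^ (1 / q)) := by
  obtain ⟨C, hC, h1⟩ := diff_est hpq hε hε1
  refine ⟨C, hC, fun g F hg ho hF R c hR hR1 hc hcR => ?_⟩
  obtain ⟨h2, h3⟩ := h1 g hg ho R c hR hR1 hc hcR
  have h4 := pairing_le hpq hR (inAp_measurable hF) hF.zero hF.int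
    (ta_measurable_dc hg.meas c) h2
  refine ⟨h4.1, h4.2.trans ?_⟩
  have hq : 0 < q := hpq.symm.pos
  have e1 := tg_ee_nonneg p R F
  have e2 := tg_ee_nonneg q R g
  have e3 : 0 ≤ C * (‖c - 1‖ / R) ^ (1 - ε) := by positivity
  have e4 : 0 ≤ ∫ z in ball (0 : ℂ) 1, eta R z * rho R z ^ (-q) * ‖dc c g z‖ ^ q := by
    refine integral_nonneg fun z => ?_
    have := tg_eta_nonneg R z
    have := (rho_pos hR z).le
    positivity
  calc ee p R F ^ (1 / p) *
        (∫ z in ball (0 : ℂ) 1, eta R z * rho R z ^ (-q) * ‖dc c g z‖ ^ q) ^ (1 / q)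
      ≤ ee p R F ^ (1 / p) * ((C * (‖c - 1‖ / R) ^ (1 - ε)) ^ q * ee q R g) ^ (1 / q) := by
        gcongr
    _ = _ := by
        rw [Real.mul_rpow (by positivity) e2, ← Real.rpow_mul e3, mul_one_div_cancel hq.ne',
          Real.rpow_one]
        ring

/-- the energy of `gg` -/
theorem ta_ee_gg {p q : ℝ} (hpq : p.HolderConjugate q) {F k : ℂ → ℂ} (h : Pair p q F k) {R : ℝ}
    (hR : 0 < R) : ee q R (gg p F k) ≤ 2 ^ q * (ee p R F + ee q R k) := by
  have hp : 1 < p := hpq.lt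
  have hq : 0 < q := hpq.symm.pos
  have hFm := inAp_measurable h.hF
  have h1 : ∀ z, ‖psi p (F z)‖ ^ q = ‖F z‖ ^ p := by
    intro z
    rw [norm_psi hp, ← Real.rpow_mul (norm_nonneg _), hpq.sub_one_mul_conj]
  have h2 : Integrable (fun z => ‖psi p (F z)‖ ^ q) := by
    simp_rw [h1]
    exact h.hF.int
  have h3 := tg_ee_sub (R := R) hR hq.le
    (f := fun z => psi p (F z)) (g := k)
    ((measurable_psi p).comp hFm).aestronglyMeasurable
    h.hk.meas.aestronglyMeasurable h2 h.hk.int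
  have h4 : ee q R (gg p F k) = ee q R (fun z => psi p (F z) - k z) := by
    unfold ee gg
    simp_rw [RCLike.norm_conj]
  have h5 : ee q R (fun z => psi p (F z)) = ee p R F := by
    unfold ee
    simp_rw [h1]
  rw [h4, ← h5]
  exact h3

end

end BergmanReg
end
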