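import Pool.Agent.Lib.MP_efd5b3_an.Sc
import Pool.Agent.Lib.MP_efd5b3_an.Dyad
import Pool.Agent.Lib.MP_efd5b3_an.PairAux

section

/-!
# The test identity
-/

namespace BergmanReg

open MeasureTheory Metric Set Filter Topology Complex
open scoped ENNReal NNReal ComplexConjugate

noncomputable section

/-- scaled Young inequality -/
theorem ti_young {p q : ℝ} (hpq : p.HolderConjugate q) {a b s : ℝ} (ha : 0 ≤ a) (hb : 0 ≤ b)
    (hs : 0 < s) : a * b ≤ s ^ p * a ^ p + s ^ (-q) * b ^ q := by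
  have h := Real.young_inequality_of_nonneg (mul_nonneg hs.le ha) (div_nonneg hb hs.le) hpq
  have e1 : s * a * (b / s) = a * b := by field_simp
  rw [e1, Real.mul_rpow hs.le ha, Real.div_rpow hb hs.le] at h
  refine h.trans (add_le_add ?_ ?_)
  · exact div_le_self (by positivity) hpq.lt.le
  · rw [Real.rpow_neg hs.le, mul_comm, ← div_eq_mul_inv]
    exact div_le_self (by positivity) hpq.symm.lt.le

theorem ti_young1 {p q : ℝ} (hpq : p.HolderConjugate q) {a b : ℝ} (ha : 0 ≤ a) (hb : 0 ≤ b) :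
    a * b ≤ a ^ p + b ^ q := by
  simpa using ti_young hpq ha hb one_pos

theorem ti_deta_bound {R : ℝ} (hR : 0 < R) (z : ℂ) : ‖deta R z‖ ≤ R⁻¹ := by
  refine (norm_deta_le hR z).trans ?_
  rw [div_le_iff₀ (rho_pos hR z)]
  refine (eta_le_one hR z).trans ?_
  have := le_rho hR z
  rw [inv_mul_eq_div, le_div_iff₀ hR]
  linarith

/-- the test function restricted to the disc -/
def tiH (R : ℝ) (g : ℂ → ℂ) (z : ℂ) : ℂ :=
  (ball (0 : ℂ) 1).indicator (fun z => (eta R z : ℂ) * g z + deta R z * ct g z) z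

theorem ti_measH {R : ℝ} (hR : 0 < R) {g : ℂ → ℂ} (hg : Measurable g) : Measurable (tiH R g) := by
  refine Measurable.indicator ?_ measurableSet_ball
  have h1 := (continuous_eta hR).measurable
  have h2 := (continuous_deta hR).measurable
  have h3 := (stronglyMeasurable_ct hg).measurable
  fun_prop

theorem ti_intH {p q : ℝ} (hpq : p.HolderConjugate q) {g : ℂ → ℂ} (hg : InLq q g) {R : ℝ}
    (hR : 0 < R) : Integrable (fun z => ‖tiH R g z‖ ^ q) := by
  have hq := hpq.symm.lt
  have hq0 : 0 < q := by linarith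
  have h1 := hg.int.indicator (measurableSet_ball (x := (0:ℂ)) (ε := 1))
  have h2 := (ct_inLq hq hg).integrable_indicator measurableSet_ball
  have h3 : Integrable (fun z => (2:ℝ) ^ q * ((ball (0:ℂ) 1).indicator (fun z => ‖g z‖ ^ q) z +
      (R⁻¹) ^ q * (ball (0:ℂ) 1).indicator (fun z => ‖ct g z‖ ^ q) z)) :=
    (h1.add (h2.const_mul _)).const_mul _
  refine h3.mono' ?_ (ae_of_all _ fun z => ?_)
  · exact ((ti_measH hR hg.meas).norm.pow_const q).aestronglyMeasurable
  · rw [Real.norm_eq_abs, abs_of_nonneg (by positivity), tiH]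
    by_cases hz : z ∈ ball (0:ℂ) 1
    · simp only [indicator_of_mem hz]
      have b1 : ‖(eta R z : ℂ) * g z‖ ≤ ‖g z‖ := by
        rw [norm_mul, Complex.norm_real, Real.norm_eq_abs, abs_of_pos (eta_pos hR z)]
        exact mul_le_of_le_one_left (norm_nonneg _) (eta_le_one hR z)
      have b2 : ‖deta R z * ct g z‖ ≤ R⁻¹ * ‖ct g z‖ := by
        rw [norm_mul]
        exact mul_le_mul_of_nonneg_right (ti_deta_bound hR z) (norm_nonneg _)
      have hRi : 0 ≤ R⁻¹ := by positivity
      calc ‖(eta R z : ℂ) * g z + deta R z * ct g z‖ ^ q ≤ (2 * max ‖g z‖ (R⁻¹ * ‖ct g z‖)) ^ q := by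
            refine Real.rpow_le_rpow (norm_nonneg _) ?_ hq0.le
            refine (norm_add_le _ _).trans ?_
            have := le_max_left ‖g z‖ (R⁻¹ * ‖ct g z‖)
            have := le_max_right ‖g z‖ (R⁻¹ * ‖ct g z‖)
            linarith
        _ = (2:ℝ) ^ q * (max ‖g z‖ (R⁻¹ * ‖ct g z‖)) ^ q := by
            rw [Real.mul_rpow (by norm_num) (by positivity)]
        _ ≤ (2:ℝ) ^ q * (‖g z‖ ^ q + (R⁻¹) ^ q * ‖ct g z‖ ^ q) := by
            refine mul_le_mul_of_nonneg_left ?_ (by positivity)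
            rw [← Real.mul_rpow hRi (norm_nonneg _)]
            rcases max_cases ‖g z‖ (R⁻¹ * ‖ct g z‖) with h | h
            · rw [h.1]; linarith [Real.rpow_nonneg (mul_nonneg hRi (norm_nonneg (ct g z))) q]
            · rw [h.1]; linarith [Real.rpow_nonneg (norm_nonneg (g z)) q]
    · simp only [indicator_of_notMem hz]
      rw [norm_zero, Real.zero_rpow hq0.ne']
      positivity

theorem ti_int_mul {p q : ℝ} (hpq : p.HolderConjugate q) {F H : ℂ → ℂ} (mF : Measurable F)
    (mH : Measurable H) (iF : Integrable (fun z => ‖F z‖ ^ p)) (iH : Integrable (fun z => ‖H z‖ ^ q)) :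
    Integrable (fun z => F z * H z) := by
  refine (iF.add iH).mono' (mF.mul mH).aestronglyMeasurable (ae_of_all _ fun z => ?_)
  rw [norm_mul]
  exact ti_young1 hpq (norm_nonneg _) (norm_nonneg _)

theorem ti_dbar_mul {a b : ℂ → ℂ} {z : ℂ} (ha : DifferentiableAt ℝ a z)
    (hb : DifferentiableAt ℂ b z) : dbar (fun z => a z * b z) z = b z * dbar a z := by
  have hb' : fderiv ℝ b z = (fderiv ℂ b z).restrictScalars ℝ :=
    (hb.hasFDerivAt.restrictScalars ℝ).fderiv
  have h1 : fderiv ℝ (fun z => a z * b z) z = a z • fderiv ℝ b z + b z • fderiv ℝ a z :=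
    fderiv_fun_mul ha (hb.restrictScalars ℝ)
  have h2 : fderiv ℂ b z I = I * fderiv ℂ b z 1 := by
    have : (I : ℂ) = I • (1 : ℂ) := by simp
    rw [this, map_smul]
    simp
  unfold dbar
  rw [h1, hb']
  simp only [add_apply, smul_apply,
    ContinuousLinearMap.coe_restrictScalars', smul_eq_mul, h2]
  have hI : I * I = -1 := Complex.I_mul_I
  linear_combination (1 / 2 * a z * fderiv ℂ b z 1) * hI

/-- the identity for functions holomorphic on a larger disc -/
theorem ti_smooth {p q : ℝ} (hpq : p.HolderConjugate q) {g : ℂ → ℂ} (hg : InLq q g)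
    (ho : Orth p g) {R : ℝ} (hR : 0 < R) {F1 : ℂ → ℂ} {ρ1 : ℝ} (hρ : 1 < ρ1)
    (hF1 : DifferentiableOn ℂ F1 (ball 0 ρ1)) : ∫ z, F1 z * tiH R g z = 0 := by
  have hq := hpq.symm.lt
  have hgi := inLq_integrable hq hg
  let χ : ContDiffBump (0 : ℂ) := ⟨1 + (ρ1 - 1) / 3, 1 + 2 * (ρ1 - 1) / 3, by linarith, by linarith⟩
  have hcd : ContDiffOn ℂ 1 F1 (ball 0 ρ1) := hF1.contDiffOn isOpen_ball
  set φ : ℂ → ℂ := fun z => ((χ z : ℝ) : ℂ) * (((eta R z : ℝ) : ℂ) * F1 z) with hφd
  have hχ : ContDiff ℝ 1 (fun z : ℂ => ((χ z : ℝ) : ℂ)) :=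
    Complex.ofRealCLM.contDiff.comp χ.contDiff
  have hout : ∀ z, z ∉ closedBall (0:ℂ) (1 + 2 * (ρ1 - 1) / 3) → φ z = 0 := by
    intro z hz
    have : χ z = 0 := χ.zero_of_le_dist (by
      rw [mem_closedBall, not_le] at hz
      exact hz.le)
    simp [hφd, this]
  have hφ : ContDiff ℝ 1 φ := by
    rw [contDiff_iff_contDiffAt]
    intro z
    by_cases hz : z ∈ ball (0:ℂ) ρ1
    · have h1 : ContDiffAt ℝ 1 F1 z := (hcd.contDiffAt (isOpen_ball.mem_nhds hz)).restrict_scalars ℝ
      exact hχ.contDiffAt.mul ((contDiff_eta hR).contDiffAt.mul h1)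
    · have h1 : φ =ᶠ[𝓝 z] fun _ => 0 := by
        have h2 : (closedBall (0:ℂ) (1 + 2 * (ρ1 - 1) / 3))ᶜ ∈ 𝓝 z := by
          refine isClosed_closedBall.isOpen_compl.mem_nhds ?_
          rw [mem_ball, not_lt] at hz
          rw [mem_compl_iff, mem_closedBall, not_le]
          linarith
        filter_upwards [h2] with w hw using hout w hw
      exact contDiffAt_const.congr_of_eventuallyEq h1
  have hcs : HasCompactSupport φ := HasCompactSupport.intro (isCompact_closedBall _ _) hout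
  have hw := weak_dbar hgi hg.meas hφ hcs
  have hone : ∀ z ∈ ball (0:ℂ) 1, φ =ᶠ[𝓝 z] fun z => ((eta R z : ℝ) : ℂ) * F1 z := by
    intro z hz
    filter_upwards [isOpen_ball.mem_nhds hz] with w hw
    have : χ w = 1 := χ.one_of_mem_closedBall (by
      rw [mem_ball] at hw
      rw [mem_closedBall]
      show dist w 0 ≤ 1 + (ρ1 - 1) / 3
      linarith)
    simp [hφd, this]
  have e1 : (fun z => dbar φ z * ct g z) =ᵐ[volume]
      (ball (0:ℂ) 1).indicator (fun z => F1 z * (deta R z * ct g z)) := by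
    have hs : ∀ᵐ z : ℂ, z ∉ sphere (0:ℂ) 1 :=
      measure_eq_zero_iff_ae_notMem.1 (Measure.addHaar_sphere _ _ _)
    filter_upwards [hs] with z hz
    by_cases hz1 : z ∈ ball (0:ℂ) 1
    · rw [indicator_of_mem hz1]
      have h3 : dbar φ z = dbar (fun z => ((eta R z : ℝ) : ℂ) * F1 z) z := by
        unfold dbar
        rw [(hone z hz1).fderiv_eq]
      have hzb : z ∈ ball (0:ℂ) ρ1 := ball_subset_ball hρ.le hz1
      rw [h3, ti_dbar_mul (((contDiff_eta hR).differentiable one_ne_zero) z)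
        (hF1.differentiableAt (isOpen_ball.mem_nhds hzb)), dbar_eta hR]
      ring
    · rw [indicator_of_notMem hz1, ct_eq_zero hpq hg ho, mul_zero]
      rw [mem_ball_zero_iff, not_lt] at hz1
      rw [mem_sphere_zero_iff_norm] at hz
      exact lt_of_le_of_ne hz1 (Ne.symm hz)
  have e2 : (fun z => φ z * g z) =
      (ball (0:ℂ) 1).indicator (fun z => F1 z * (((eta R z : ℝ) : ℂ) * g z)) := by
    ext z
    by_cases hz1 : z ∈ ball (0:ℂ) 1
    · rw [indicator_of_mem hz1, (hone z hz1).self_of_nhds]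
      ring
    · rw [indicator_of_notMem hz1, hg.zero z hz1, mul_zero]
  -- integrability
  have hcF : ContinuousOn F1 (closedBall 0 1) := hF1.continuousOn.mono (fun z hz => by
    rw [mem_closedBall] at hz
    rw [mem_ball]
    linarith)
  obtain ⟨M, hM⟩ := (isCompact_closedBall (0:ℂ) 1).exists_bound_of_continuousOn hcF
  have i2 : Integrable (fun z => φ z * g z) := by
    have hb : ∃ C, ∀ z, ‖φ z‖ ≤ C := hφ.continuous.bounded_above_of_compact_support hcs
    obtain ⟨C, hC⟩ := hb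
    exact hgi.bdd_mul hφ.continuous.aestronglyMeasurable (ae_of_all _ hC)
  have i3 : Integrable ((ball (0:ℂ) 1).indicator (fun z => F1 z * (((eta R z : ℝ) : ℂ) * g z))) := by
    rw [← e2]; exact i2
  have hctb : IntegrableOn (ct g) (ball (0:ℂ) 1) := by
    have h1 := (ct_inLq hq hg)
    have h2 : IntegrableOn (fun _ : ℂ => (1:ℝ)) (ball (0:ℂ) 1) := by
      rw [integrableOn_const_iff]
      right
      exact measure_ball_lt_top
    refine (h1.add h2).mono' (stronglyMeasurable_ct hg.meas).aestronglyMeasurable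
      (ae_of_all _ fun z => ?_)
    have hz := norm_nonneg (ct g z)
    rcases le_total ‖ct g z‖ 1 with h | h
    · have := Real.rpow_nonneg hz q
      simp only [Pi.add_apply]
      linarith
    · have := Real.self_le_rpow_of_one_le h hq.le
      simp only [Pi.add_apply]
      linarith
  have i4 : IntegrableOn (fun z => F1 z * (deta R z * ct g z)) (ball (0:ℂ) 1) := by
    have h1 : IntegrableOn (fun z => (F1 z * deta R z) * ct g z) (ball (0:ℂ) 1) := by
      refine Integrable.bdd_mul (c := M * R⁻¹) hctb ?_ ?_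
      · refine (ContinuousOn.mul (hcF.mono ball_subset_closedBall)
          (continuous_deta hR).continuousOn).aestronglyMeasurable measurableSet_ball
      · refine (ae_restrict_iff' measurableSet_ball).2 (ae_of_all _ fun z hz => ?_)
        rw [norm_mul]
        exact mul_le_mul (hM z (ball_subset_closedBall hz)) (ti_deta_bound hR z) (norm_nonneg _)
          ((norm_nonneg _).trans (hM z (ball_subset_closedBall hz)))
    refine h1.congr (ae_of_all _ fun z => by ring)
  have i5 := i4.integrable_indicator measurableSet_ball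
  rw [integral_congr_ae e1, e2] at hw
  have e3 : (fun z => F1 z * tiH R g z) = fun z =>
      (ball (0:ℂ) 1).indicator (fun z => F1 z * (((eta R z : ℝ) : ℂ) * g z)) z +
      (ball (0:ℂ) 1).indicator (fun z => F1 z * (deta R z * ct g z)) z := by
    ext z
    unfold tiH
    by_cases hz1 : z ∈ ball (0:ℂ) 1
    · simp only [indicator_of_mem hz1]; ring
    · simp only [indicator_of_notMem hz1]; ring
  rw [e3, integral_add i3 i5, hw]
  ring

theorem ti_tail {p q : ℝ} (hpq : p.HolderConjugate q) {G H : ℂ → ℂ}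
    (iG : Integrable (fun z => ‖G z‖ ^ p)) (iH : Integrable (fun z => ‖H z‖ ^ q))
    {K : ℝ} (hK : ∫ z, ‖G z‖ ^ p ≤ K) {s : ℝ} (hs : 0 < s) {A : Set ℂ} :
    ‖∫ z in A, G z * H z‖ ≤ s ^ p * K + s ^ (-q) * ∫ z in A, ‖H z‖ ^ q := by
  have h1 : ∫ z in A, ‖G z‖ ^ p ≤ K :=
    (setIntegral_le_integral iG (ae_of_all _ fun z => by positivity)).trans hK
  calc ‖∫ z in A, G z * H z‖ ≤ ∫ z in A, (s ^ p * ‖G z‖ ^ p + s ^ (-q) * ‖H z‖ ^ q) := by
        refine norm_integral_le_of_norm_le
          ((iG.integrableOn.const_mul _).add (iH.integrableOn.const_mul _)) (ae_of_all _ fun z => ?_)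
        rw [norm_mul]
        exact ti_young hpq (norm_nonneg _) (norm_nonneg _) hs
    _ = s ^ p * (∫ z in A, ‖G z‖ ^ p) + s ^ (-q) * ∫ z in A, ‖H z‖ ^ q := by
        rw [integral_add (iG.integrableOn.const_mul _) (iH.integrableOn.const_mul _),
          integral_const_mul, integral_const_mul]
    _ ≤ s ^ p * K + s ^ (-q) * ∫ z in A, ‖H z‖ ^ q := by gcongr

theorem ti_limit {p q : ℝ} (hpq : p.HolderConjugate q) {F H : ℂ → ℂ} (hF : InAp p F)
    (mH : Measurable H) (iH : Integrable (fun z => ‖H z‖ ^ q))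
    (hH0 : ∀ z, z ∉ ball (0:ℂ) 1 → H z = 0)
    (h : ∀ ρ : ℝ, 0 < ρ → ρ < 1 → ∫ z, F (ρ * z) * H z = 0) : ∫ z, F z * H z = 0 := by
  have hp0 : 0 < p := hpq.pos
  have hq := hpq.symm.lt
  have mF := inAp_measurable hF
  set K : ℝ := 4 * ∫ z, ‖F z‖ ^ p with hKdef
  have hI0 : 0 ≤ ∫ z, ‖F z‖ ^ p := integral_nonneg fun z => by positivity
  have hK0 : 0 ≤ K := by positivity
  have hFK : ∫ z, ‖F z‖ ^ p ≤ K := by linarith
  -- dilations
  have iFρ : ∀ ρ : ℝ, 1 / 2 ≤ ρ → Measurable (fun z => F (ρ * z)) ∧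
      Integrable (fun z : ℂ => ‖F (ρ * z)‖ ^ p) ∧ ∫ z : ℂ, ‖F (ρ * z)‖ ^ p ≤ K := by
    intro ρ hρ
    have hρ0 : 0 < ρ := by linarith
    have hc : (ρ : ℂ) ≠ 0 := by exact_mod_cast hρ0.ne'
    refine ⟨mF.comp (measurable_const_mul _), integrable_comp_mul hc hF.int, ?_⟩
    rw [integral_comp_mul hc (fun z => ‖F z‖ ^ p), smul_eq_mul, Complex.norm_real,
      Real.norm_eq_abs, sq_abs, hKdef]
    refine mul_le_mul_of_nonneg_right ?_ hI0
    rw [inv_le_comm₀ (by positivity) (by norm_num)]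
    nlinarith
  -- tails of H
  have hN : Tendsto (fun n : ℕ => ∫ z in (closedBall (0:ℂ) (1 - 1 / ((n:ℝ) + 1)))ᶜ, ‖H z‖ ^ q) atTop
      (𝓝 0) := by
    have h0 : ∫ z in ⋂ n : ℕ, (closedBall (0:ℂ) (1 - 1 / ((n:ℝ) + 1)))ᶜ, ‖H z‖ ^ q = 0 := by
      refine setIntegral_eq_zero_of_forall_eq_zero fun z hz => ?_
      have hz1 : z ∉ ball (0:ℂ) 1 := by
        intro hz1
        rw [mem_ball_zero_iff] at hz1
        obtain ⟨n, hn⟩ := exists_nat_one_div_lt (sub_pos.2 hz1)
        have h3 := mem_iInter.1 hz n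
        rw [mem_compl_iff, mem_closedBall_zero_iff, not_le] at h3
        linarith
      rw [hH0 z hz1, norm_zero, Real.zero_rpow (by linarith)]
    rw [← h0]
    refine tendsto_setIntegral_of_antitone (fun n => isClosed_closedBall.measurableSet.compl) ?_
      ⟨0, iH.integrableOn⟩
    intro m n hmn
    refine compl_subset_compl.2 (closedBall_subset_closedBall ?_)
    have : (m:ℝ) ≤ n := by exact_mod_cast hmn
    have h3 : 1 / ((n:ℝ) + 1) ≤ 1 / ((m:ℝ) + 1) := by
      apply one_div_le_one_div_of_le (by positivity)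
      linarith
    linarith
  refine norm_le_zero_iff.1 (le_of_forall_pos_le_add fun ε hε => ?_)
  rw [zero_add]
  -- choice of s
  obtain ⟨s, hs, hsK⟩ : ∃ s : ℝ, 0 < s ∧ s ^ p * K ≤ ε / 4 := by
    refine ⟨(ε / (4 * (K + 1))) ^ (1 / p), by positivity, ?_⟩
    rw [← Real.rpow_mul (by positivity), one_div_mul_cancel hp0.ne', Real.rpow_one]
    rw [div_mul_eq_mul_div, div_le_div_iff₀ (by positivity) (by positivity)]
    nlinarith
  obtain ⟨n, hn⟩ : ∃ n : ℕ, s ^ (-q) * ∫ z in (closedBall (0:ℂ) (1 - 1 / ((n:ℝ) + 1)))ᶜ,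
      ‖H z‖ ^ q < ε / 4 := by
    have h4 := hN.const_mul (s ^ (-q))
    rw [mul_zero] at h4
    exact (h4.eventually_lt_const (by linarith)).exists
  set r : ℝ := 1 - 1 / ((n:ℝ) + 1) with hr
  have hr1 : r < 1 := by
    have : 0 < 1 / ((n:ℝ) + 1) := by positivity
    linarith
  set A : Set ℂ := closedBall (0:ℂ) r with hA
  have mA : MeasurableSet A := isClosed_closedBall.measurableSet
  have hAb : A ⊆ ball 0 1 := closedBall_subset_ball hr1
  obtain ⟨M, hM⟩ := (isCompact_closedBall (0:ℂ) r).exists_bound_of_continuousOn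
    (hF.diff.continuousOn.mono hAb)
  have iHA : IntegrableOn (fun z => ‖H z‖) A := by
    have h2 : IntegrableOn (fun _ : ℂ => (1:ℝ)) A := by
      rw [integrableOn_const_iff]
      right
      exact measure_closedBall_lt_top
    refine (iH.integrableOn.add h2).mono' mH.norm.aestronglyMeasurable (ae_of_all _ fun z => ?_)
    have hz := norm_nonneg (H z)
    rw [norm_norm]
    rcases le_total ‖H z‖ 1 with h | h
    · have := Real.rpow_nonneg hz q
      simp only [Pi.add_apply]
      linarith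
    · have := Real.self_le_rpow_of_one_le h hq.le
      simp only [Pi.add_apply]
      linarith
  -- dominated convergence on A
  set ρ : ℕ → ℝ := fun m => 1 - 1 / ((m:ℝ) + 2) with hρ
  have hρ1 : ∀ m, 1 / 2 ≤ ρ m ∧ ρ m < 1 := by
    intro m
    have h5 : 0 < 1 / ((m:ℝ) + 2) := by positivity
    have h6 : 1 / ((m:ℝ) + 2) ≤ 1 / 2 := by
      apply one_div_le_one_div_of_le (by norm_num)
      linarith [(Nat.cast_nonneg m : (0:ℝ) ≤ m)]
    constructor <;> simp only [hρ] <;> linarith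
  have hρt : Tendsto ρ atTop (𝓝 1) := by
    have h5 : Tendsto (fun m : ℕ => 1 / ((m:ℝ) + 2)) atTop (𝓝 0) := by
      have h6 : Tendsto (fun m : ℕ => (m:ℝ) + 2) atTop atTop :=
        tendsto_atTop_add_const_right _ _ tendsto_natCast_atTop_atTop
      have h7 := h6.inv_tendsto_atTop
      refine h7.congr fun m => ?_
      simp
    have h8 := h5.const_sub 1
    rw [sub_zero] at h8
    exact h8
  have hD : Tendsto (fun m => ∫ z in A, (F z - F (ρ m * z)) * H z) atTop (𝓝 0) := by
    have h7 : Tendsto (fun m => ∫ z in A, (F z - F (ρ m * z)) * H z) atTop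
        (𝓝 (∫ z in A, (0:ℂ))) := by
      refine tendsto_integral_of_dominated_convergence (fun z => (M + M) * ‖H z‖) ?_ ?_ ?_ ?_
      · intro m
        exact ((mF.sub (iFρ (ρ m) (hρ1 m).1).1).mul mH).aestronglyMeasurable
      · exact iHA.const_mul _
      · intro m
        refine (ae_restrict_iff' mA).2 (ae_of_all _ fun z hz => ?_)
        rw [norm_mul]
        refine mul_le_mul_of_nonneg_right ((norm_sub_le _ _).trans (add_le_add (hM z hz) (hM _ ?_)))
          (norm_nonneg _)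
        rw [mem_closedBall_zero_iff] at hz ⊢
        rw [norm_mul, Complex.norm_real, Real.norm_eq_abs, abs_of_pos (by linarith [(hρ1 m).1])]
        have := (hρ1 m).2
        have := norm_nonneg z
        nlinarith
      · refine (ae_restrict_iff' mA).2 (ae_of_all _ fun z hz => ?_)
        have hc : ContinuousAt F z :=
          (hF.diff.continuousOn).continuousAt (isOpen_ball.mem_nhds (hAb hz))
        have h8 : Tendsto (fun m => ((ρ m : ℝ) : ℂ) * z) atTop (𝓝 z) := by
          have h9 : Tendsto (fun m => ((ρ m : ℝ) : ℂ)) atTop (𝓝 ((1:ℝ) : ℂ)) :=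
            (Complex.continuous_ofReal.tendsto 1).comp hρt
          simpa using h9.mul_const z
        have h10 := ((hc.tendsto.comp h8).const_sub (F z)).mul_const (H z)
        simpa using h10
    simpa using h7
  -- conclusion
  have hbound : ∀ m, ‖∫ z, F z * H z‖ ≤ ‖∫ z in A, (F z - F (ρ m * z)) * H z‖ + ε := by
    intro m
    obtain ⟨mG, iG, hGK⟩ := iFρ (ρ m) (hρ1 m).1
    have i1 := ti_int_mul hpq mF mH hF.int iH
    have i2 := ti_int_mul hpq mG mH iG iH
    have h0 := h (ρ m) (by linarith [(hρ1 m).1]) (hρ1 m).2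
    have e1 : ∫ z, F z * H z = (∫ z in A, (F z - F (ρ m * z)) * H z) +
        ((∫ z in Aᶜ, F z * H z) - ∫ z in Aᶜ, F (ρ m * z) * H z) := by
      have e2 : ∫ z in A, (F z - F (ρ m * z)) * H z = (∫ z in A, F z * H z) -
          ∫ z in A, F (ρ m * z) * H z := by
        rw [← integral_sub i1.integrableOn i2.integrableOn]
        refine integral_congr_ae (ae_of_all _ fun z => ?_)
        simp only [sub_mul]
      have e3 := integral_add_compl mA i1
      have e4 := integral_add_compl mA i2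
      rw [h0] at e4
      rw [e2, ← e3]
      linear_combination e4
    rw [e1]
    have t1 := ti_tail hpq hF.int iH hFK hs (A := Aᶜ)
    have t2 := ti_tail hpq iG iH hGK hs (A := Aᶜ)
    have t3 := norm_add_le (∫ z in A, (F z - F (ρ m * z)) * H z)
      ((∫ z in Aᶜ, F z * H z) - ∫ z in Aᶜ, F (ρ m * z) * H z)
    have t4 := norm_sub_le (∫ z in Aᶜ, F z * H z) (∫ z in Aᶜ, F (ρ m * z) * H z)
    linarith
  have hlim := hD.norm.add_const ε
  rw [norm_zero, zero_add] at hlim
  exact ge_of_tendsto' hlim hbound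

theorem test_identity {p q : ℝ} (hpq : p.HolderConjugate q) {g : ℂ → ℂ} (hg : InLq q g)
    (ho : Orth p g) {F : ℂ → ℂ} (hF : InAp p F) {R : ℝ} (hR : 0 < R) :
    Integrable (fun z => F z * ((eta R z : ℂ) * g z)) ∧
    Integrable (fun z => F z * (deta R z * ct g z)) ∧
    (∫ z, F z * ((eta R z : ℂ) * g z)) + ∫ z, F z * (deta R z * ct g z) = 0 := by
  have mF := inAp_measurable hF
  have hq := hpq.symm.lt
  have mg := hg.meas
  have m1 := (continuous_eta hR).measurable
  have m2 := (continuous_deta hR).measurable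
  have m3 := (stronglyMeasurable_ct hg.meas).measurable
  have i1 : Integrable (fun z => F z * ((eta R z : ℂ) * g z)) := by
    refine (hF.int.add hg.int).mono' (by fun_prop) (ae_of_all _ fun z => ?_)
    rw [norm_mul]
    refine (ti_young1 hpq (norm_nonneg _) (norm_nonneg _)).trans ?_
    simp only [Pi.add_apply]
    refine add_le_add le_rfl (Real.rpow_le_rpow (norm_nonneg _) ?_ (by linarith))
    rw [norm_mul, Complex.norm_real, Real.norm_eq_abs, abs_of_pos (eta_pos hR z)]
    exact mul_le_of_le_one_left (norm_nonneg _) (eta_le_one hR z)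
  have i2 : Integrable (fun z => F z * (deta R z * ct g z)) := by
    have h1 := ((ct_inLq hq hg).integrable_indicator measurableSet_ball).const_mul (R⁻¹ ^ q)
    refine (hF.int.add h1).mono' (by fun_prop) (ae_of_all _ fun z => ?_)
    by_cases hz : z ∈ ball (0:ℂ) 1
    · rw [norm_mul]
      refine (ti_young1 hpq (norm_nonneg _) (norm_nonneg _)).trans ?_
      simp only [Pi.add_apply, indicator_of_mem hz]
      gcongr
      rw [← Real.mul_rpow (by positivity) (norm_nonneg _)]
      refine Real.rpow_le_rpow (norm_nonneg _) ?_ (by linarith)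
      rw [norm_mul]
      exact mul_le_mul_of_nonneg_right (ti_deta_bound hR z) (norm_nonneg _)
    · rw [hF.zero z hz, zero_mul, norm_zero]
      simp only [Pi.add_apply, indicator_of_notMem hz, mul_zero, add_zero]
      positivity
  refine ⟨i1, i2, ?_⟩
  have hlim := ti_limit hpq hF (ti_measH hR hg.meas) (ti_intH hpq hg hR)
    (fun z hz => by rw [tiH, indicator_of_notMem hz]) (fun ρ h0 h1 => by
      refine ti_smooth hpq hg ho hR (F1 := fun z => F (ρ * z)) (ρ1 := ρ⁻¹) ((one_lt_inv₀ h0).2 h1) ?_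
      refine hF.diff.comp (differentiable_id.const_mul _).differentiableOn ?_
      intro z hz
      rw [mem_ball_zero_iff] at hz ⊢
      simp only [norm_mul, Complex.norm_real, Real.norm_eq_abs, abs_of_pos h0]
      calc ρ * ‖z‖ < ρ * ρ⁻¹ := by gcongr
        _ = 1 := mul_inv_cancel₀ h0.ne')
  rw [← integral_add i1 i2, ← hlim]
  refine integral_congr_ae (ae_of_all _ fun z => ?_)
  by_cases hz : z ∈ ball (0:ℂ) 1
  · simp only [tiH, indicator_of_mem hz]; ring
  · simp only [tiH, indicator_of_notMem hz, hF.zero z hz, zero_mul, add_zero]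

end

end BergmanReg
end

section

/-!
# The tangential difference estimate
-/

namespace BergmanReg

open MeasureTheory Metric Set Filter Topology Complex
open scoped ENNReal NNReal ComplexConjugate

noncomputable section

theorem tn_power {x R : ℝ} (hR : 0 < R) (hx : 1 < x) (hx2 : x ≤ 2) {f : ℂ → ℂ} {A B : ℂ → ℝ}
    (hA0 : ∀ z, 0 ≤ A z) (hB0 : ∀ z, 0 ≤ B z) (hfi : Integrable (fun z => ‖f z‖ ^ x))
    (hA : Integrable (fun z => eta R z * A z ^ 2)) (hB : Integrable (fun z => eta R z * B z ^ 2))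
    (h : ∀ z, ‖f z‖ ≤ 2 * A z * (B z) ^ (2 / x - 1)) :
    (ee x R f) ^ (1 / x) ≤ 2 * ((∫ z, eta R z * A z ^ 2) ^ (1 / 2 : ℝ) *
      (∫ z, eta R z * B z ^ 2) ^ (1 / x - 1 / 2)) := by
  have hx0 : 0 < x := by linarith
  have hlc := tg_logconvex hA hB
    (fun z => mul_nonneg (tg_eta_nonneg R z) (by positivity))
    (fun z => mul_nonneg (tg_eta_nonneg R z) (by positivity))
    (a := x / 2) (b := 1 - x / 2) (by positivity) (by linarith) (by ring)
  have hN0 : 0 ≤ ∫ z, eta R z * A z ^ 2 :=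
    integral_nonneg fun z => mul_nonneg (tg_eta_nonneg R z) (by positivity)
  have hM0 : 0 ≤ ∫ z, eta R z * B z ^ 2 :=
    integral_nonneg fun z => mul_nonneg (tg_eta_nonneg R z) (by positivity)
  have hpt : ∀ z, eta R z * ‖f z‖ ^ x ≤
      2 ^ x * ((eta R z * A z ^ 2) ^ (x / 2) * (eta R z * B z ^ 2) ^ (1 - x / 2)) := by
    intro z
    have he := tg_eta_nonneg R z
    have h1 : ‖f z‖ ^ x ≤ 2 ^ x * (A z ^ x * B z ^ (2 - x)) := by
      calc ‖f z‖ ^ x ≤ (2 * A z * (B z) ^ (2 / x - 1)) ^ x :=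
            Real.rpow_le_rpow (norm_nonneg _) (h z) hx0.le
        _ = _ := by
            rw [Real.mul_rpow (mul_nonneg (by norm_num) (hA0 z)) (Real.rpow_nonneg (hB0 z) _),
              Real.mul_rpow (by norm_num) (hA0 z), ← Real.rpow_mul (hB0 z)]
            have : (2 / x - 1) * x = 2 - x := by field_simp
            rw [this]
            ring
    have h2 : (eta R z * A z ^ 2) ^ (x / 2) = eta R z ^ (x / 2) * A z ^ x := by
      rw [Real.mul_rpow he (by positivity), ← Real.rpow_natCast, ← Real.rpow_mul (hA0 z)]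
      congr 2
      push_cast
      ring
    have h3 : (eta R z * B z ^ 2) ^ (1 - x / 2) = eta R z ^ (1 - x / 2) * B z ^ (2 - x) := by
      rw [Real.mul_rpow he (by positivity), ← Real.rpow_natCast, ← Real.rpow_mul (hB0 z)]
      congr 2
      push_cast
      ring
    have h4 : eta R z ^ (x / 2) * eta R z ^ (1 - x / 2) = eta R z := by
      rw [← Real.rpow_add_of_nonneg he (by positivity) (by linarith)]
      rw [show x / 2 + (1 - x / 2) = 1 by ring, Real.rpow_one]
    calc eta R z * ‖f z‖ ^ x ≤ eta R z * (2 ^ x * (A z ^ x * B z ^ (2 - x))) := by gcongr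
      _ = 2 ^ x * ((eta R z ^ (x / 2) * eta R z ^ (1 - x / 2)) * (A z ^ x * B z ^ (2 - x))) := by
          rw [h4]
          ring
      _ = _ := by
          rw [h2, h3]
          ring
  have hee : ee x R f ≤ 2 ^ x * ((∫ z, eta R z * A z ^ 2) ^ (x / 2) *
      (∫ z, eta R z * B z ^ 2) ^ (1 - x / 2)) := by
    calc ee x R f ≤ ∫ z, 2 ^ x * ((eta R z * A z ^ 2) ^ (x / 2) *
          (eta R z * B z ^ 2) ^ (1 - x / 2)) :=
          integral_mono (tg_int_eta hR hfi) (hlc.1.const_mul _) hpt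
      _ = 2 ^ x * ∫ z, ((eta R z * A z ^ 2) ^ (x / 2) *
          (eta R z * B z ^ 2) ^ (1 - x / 2)) := integral_const_mul _ _
      _ ≤ _ := by
          gcongr
          exact hlc.2
  calc (ee x R f) ^ (1 / x) ≤ (2 ^ x * ((∫ z, eta R z * A z ^ 2) ^ (x / 2) *
      (∫ z, eta R z * B z ^ 2) ^ (1 - x / 2))) ^ (1 / x) :=
        Real.rpow_le_rpow (tg_ee_nonneg _ _ _) hee (by positivity)
    _ = _ := by
        rw [Real.mul_rpow (by positivity) (by positivity),
          Real.mul_rpow (by positivity) (by positivity), ← Real.rpow_mul (by norm_num),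
          ← Real.rpow_mul hN0, ← Real.rpow_mul hM0, mul_one_div_cancel hx0.ne', Real.rpow_one]
        congr 3
        · field_simp
        · field_simp

theorem tn_int_vv {p : ℝ} (hp : 1 < p) {F : ℂ → ℂ} (hF : InAp p F) {R : ℝ} (hR : 0 < R) {c : ℂ}
    (hc : ‖c‖ = 1) (hcR : ‖c - 1‖ ≤ R) :
    Integrable (fun z => eta R z * ‖vv p (F (c * z)) - vv p (F z)‖ ^ 2) ∧
    Integrable (fun z => eta R z * (‖vv p (F (c * z))‖ + ‖vv p (F z)‖) ^ 2) ∧
    ∫ z, eta R z * (‖vv p (F (c * z))‖ + ‖vv p (F z)‖) ^ 2 ≤ 10 * ee p R F := by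
  have hc0 : c ≠ 0 := by
    intro h
    rw [h, norm_zero] at hc
    norm_num at hc
  have hFc := inAp_comp_mul hp hF hc
  have hFm := inAp_measurable hF
  have hFcm := inAp_measurable hFc
  have hV : ∀ a : ℂ, ‖vv p a‖ ^ 2 = ‖a‖ ^ p := by
    intro a
    rw [norm_vv hp, ← Real.rpow_natCast, ← Real.rpow_mul (norm_nonneg _)]
    congr 1
    push_cast
    ring
  have hint : Integrable (fun z => 2 * (eta R z * ‖F (c * z)‖ ^ p + eta R z * ‖F z‖ ^ p)) :=
    ((tg_int_eta hR hFc.int).add (tg_int_eta hR hF.int)).const_mul 2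
  have hb : ∀ z, eta R z * (‖vv p (F (c * z))‖ + ‖vv p (F z)‖) ^ 2 ≤
      2 * (eta R z * ‖F (c * z)‖ ^ p + eta R z * ‖F z‖ ^ p) := by
    intro z
    have he := tg_eta_nonneg R z
    rw [← hV, ← hV]
    have : (‖vv p (F (c * z))‖ + ‖vv p (F z)‖) ^ 2 ≤
        2 * (‖vv p (F (c * z))‖ ^ 2 + ‖vv p (F z)‖ ^ 2) := by
      nlinarith [sq_nonneg (‖vv p (F (c * z))‖ - ‖vv p (F z)‖)]
    calc _ ≤ eta R z * (2 * (‖vv p (F (c * z))‖ ^ 2 + ‖vv p (F z)‖ ^ 2)) := by gcongr
      _ = _ := by ring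
  have hm1 : Measurable fun z => vv p (F (c * z)) := (measurable_vv p).comp hFcm
  have hm2 : Measurable fun z => vv p (F z) := (measurable_vv p).comp hFm
  have hI2 : Integrable (fun z => eta R z * (‖vv p (F (c * z))‖ + ‖vv p (F z)‖) ^ 2) := by
    refine hint.mono' ?_ ?_
    · exact ((continuous_eta hR).measurable.mul
        ((hm1.norm.add hm2.norm).pow_const 2)).aestronglyMeasurable
    · refine ae_of_all _ fun z => ?_
      rw [Real.norm_eq_abs, abs_of_nonneg (mul_nonneg (tg_eta_nonneg R z) (by positivity))]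
      exact hb z
  refine ⟨?_, hI2, ?_⟩
  · refine hI2.mono' ?_ ?_
    · exact ((continuous_eta hR).measurable.mul
        ((hm1.sub hm2).norm.pow_const 2)).aestronglyMeasurable
    · refine ae_of_all _ fun z => ?_
      have he := tg_eta_nonneg R z
      rw [Real.norm_eq_abs, abs_of_nonneg (mul_nonneg he (by positivity))]
      gcongr
      exact norm_sub_le _ _
  · have h4 := tg_rot hR (by linarith : 0 < p) hc.ge hcR hF.zero hF.int
    calc ∫ z, eta R z * (‖vv p (F (c * z))‖ + ‖vv p (F z)‖) ^ 2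
        ≤ ∫ z, 2 * (eta R z * ‖F (c * z)‖ ^ p + eta R z * ‖F z‖ ^ p) :=
          integral_mono hI2 hint hb
      _ = 2 * (ee p R (fun z => F (c * z)) + ee p R F) := by
          rw [integral_const_mul, integral_add (tg_int_eta hR hFc.int) (tg_int_eta hR hF.int)]
          rfl
      _ ≤ 10 * ee p R F := by linarith

theorem tn_nonneg (p R : ℝ) (c : ℂ) (F : ℂ → ℂ) : 0 ≤ nn p R c F :=
  integral_nonneg fun z => mul_nonneg (tg_eta_nonneg R z) (by positivity)

/-- the weighted power bound with the energy in place of the integral of `B^2` -/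
theorem tn_power2 {p x : ℝ} (hp : 1 < p) (hx : 1 < x) (hx2 : x ≤ 2) {F : ℂ → ℂ}
    (hF : InAp p F) {R : ℝ} (hR : 0 < R) {c : ℂ} (hc : ‖c‖ = 1) (hcR : ‖c - 1‖ ≤ R) {f : ℂ → ℂ}
    (hfi : Integrable (fun z => ‖f z‖ ^ x))
    (h : ∀ z, ‖f z‖ ≤ 2 * ‖vv p (F (c * z)) - vv p (F z)‖ *
      (‖vv p (F (c * z))‖ + ‖vv p (F z)‖) ^ (2 / x - 1)) :
    (ee x R f) ^ (1 / x) ≤ 20 * ((nn p R c F) ^ (1 / 2 : ℝ) *
      (ee p R F) ^ (1 / x - 1 / 2)) := by
  obtain ⟨h1, h2, h3⟩ := tn_int_vv hp hF hR hc hcR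
  have h4 := tn_power hR hx hx2 (fun z => norm_nonneg (vv p (F (c * z)) - vv p (F z)))
    (fun z => by positivity) hfi h1 h2 h
  refine h4.trans ?_
  have hx0 : 0 < x := by linarith
  have he : 0 ≤ 1 / x - 1 / 2 := by
    rw [sub_nonneg]
    exact one_div_le_one_div_of_le hx0 hx2
  have hE := tg_ee_nonneg p R F
  have hM0 : 0 ≤ ∫ z, eta R z * (‖vv p (F (c * z))‖ + ‖vv p (F z)‖) ^ 2 :=
    integral_nonneg fun z => mul_nonneg (tg_eta_nonneg R z) (by positivity)
  have h5 : (∫ z, eta R z * (‖vv p (F (c * z))‖ + ‖vv p (F z)‖) ^ 2) ^ (1 / x - 1 / 2) ≤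
      10 * (ee p R F) ^ (1 / x - 1 / 2) := by
    calc _ ≤ (10 * ee p R F) ^ (1 / x - 1 / 2) := Real.rpow_le_rpow hM0 h3 he
      _ = 10 ^ (1 / x - 1 / 2) * (ee p R F) ^ (1 / x - 1 / 2) :=
          Real.mul_rpow (by norm_num) hE
      _ ≤ 10 ^ (1 : ℝ) * (ee p R F) ^ (1 / x - 1 / 2) := by
          gcongr
          · norm_num
          · have : 1 / x ≤ 1 := by
              rw [div_le_one hx0]
              linarith
            linarith
      _ = _ := by rw [Real.rpow_one]
  have hN := tn_nonneg p R c F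
  calc 2 * ((∫ z, eta R z * ‖vv p (F (c * z)) - vv p (F z)‖ ^ 2) ^ (1 / 2 : ℝ) *
      (∫ z, eta R z * (‖vv p (F (c * z))‖ + ‖vv p (F z)‖) ^ 2) ^ (1 / x - 1 / 2))
      ≤ 2 * ((nn p R c F) ^ (1 / 2 : ℝ) * (10 * (ee p R F) ^ (1 / x - 1 / 2))) := by
        gcongr
        exact le_refl _
    _ = _ := by ring

theorem tn_norm_int {D Y : ℂ → ℂ} {R : ℝ} (hR : 0 < R)
    (hint : Integrable (fun z => ‖D z‖ * (eta R z / rho R z) * ‖Y z‖)) :
    ‖∫ z, D z * (deta R z * Y z)‖ ≤ ∫ z, ‖D z‖ * (eta R z / rho R z) * ‖Y z‖ := by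
  refine norm_integral_le_of_norm_le hint (ae_of_all _ fun z => ?_)
  rw [norm_mul, norm_mul, mul_assoc]
  gcongr
  exact norm_deta_le hR z

theorem tn_exp (s : ℝ) : ‖Complex.exp (s * I)‖ = 1 := Complex.norm_exp_ofReal_mul_I s

theorem tn_exp_sub {s : ℝ} (hs : 0 ≤ s) : ‖Complex.exp (s * I) - 1‖ ≤ s := by
  have := Real.norm_exp_I_mul_ofReal_sub_one_le (x := s)
  rw [mul_comm I, Real.norm_eq_abs, abs_of_nonneg hs] at this
  exact this

theorem tn_root_add {a b x : ℝ} (ha : 0 ≤ a) (hb : 0 ≤ b) (hx : 1 < x) :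
    (a + b) ^ (1 / x) ≤ 2 * (a ^ (1 / x) + b ^ (1 / x)) := by
  have hx0 : 0 < x := by linarith
  refine (tg_add_rpow ha hb (by positivity)).trans ?_
  have h1 : (2 : ℝ) ^ (1 / x) ≤ 2 ^ (1 : ℝ) := by
    apply Real.rpow_le_rpow_of_exponent_le (by norm_num)
    rw [div_le_one hx0]
    exact hx.le
  rw [Real.rpow_one] at h1
  gcongr

/-- `(2^x a)^(1/x) = 2 a^(1/x)` -/
theorem tn_two_root {a x : ℝ} (ha : 0 ≤ a) (hx : 0 < x) :
    (2 ^ x * a) ^ (1 / x) = 2 * a ^ (1 / x) := by
  rw [Real.mul_rpow (by positivity) ha, ← Real.rpow_mul (by norm_num),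
    mul_one_div_cancel hx.ne', Real.rpow_one]

theorem tn_five_root {a x : ℝ} (ha : 0 ≤ a) (hx : 1 < x) :
    (5 * a) ^ (1 / x) ≤ 5 * a ^ (1 / x) := by
  have hx0 : 0 < x := by linarith
  rw [Real.mul_rpow (by norm_num) ha]
  have h1 : (5 : ℝ) ^ (1 / x) ≤ 5 ^ (1 : ℝ) := by
    apply Real.rpow_le_rpow_of_exponent_le (by norm_num)
    rw [div_le_one hx0]
    exact hx.le
  rw [Real.rpow_one] at h1
  gcongr

/-- root of the energy of a difference under a rotation -/
theorem tn_root_diff {x R : ℝ} (hx : 1 < x) (hR : 0 < R) {c : ℂ} (hc : 1 ≤ ‖c‖)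
    (hcR : ‖c - 1‖ ≤ R) {f : ℂ → ℂ} (hf : InLq x f) :
    (ee x R (fun z => f (c * z) - f z)) ^ (1 / x) ≤ 10 * (ee x R f) ^ (1 / x) := by
  have hx0 : 0 < x := by linarith
  have hfc := inLq_comp_mul hx hf hc
  have h1 := tg_ee_sub (R := R) hR hx0.le hfc.meas.aestronglyMeasurable
    hf.meas.aestronglyMeasurable hfc.int hf.int
  have h2 := tg_rot hR hx0 hc hcR hf.zero hf.int
  have h0 := tg_ee_nonneg x R f
  calc (ee x R (fun z => f (c * z) - f z)) ^ (1 / x)
      ≤ (2 ^ x * (5 * ee x R f)) ^ (1 / x) := by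
        apply Real.rpow_le_rpow (tg_ee_nonneg _ _ _) _ (by positivity)
        refine h1.trans ?_
        gcongr
        linarith
    _ = 2 * (5 * ee x R f) ^ (1 / x) := tn_two_root (by positivity) hx0
    _ ≤ 2 * (5 * (ee x R f) ^ (1 / x)) := by
        gcongr
        exact tn_five_root h0 hx
    _ = _ := by ring

theorem tn_inLq_of_inAp {p : ℝ} {f : ℂ → ℂ} (hf : InAp p f) : InLq p f :=
  ⟨inAp_measurable hf, hf.zero, hf.int⟩

/-- exponents: `e^(1/p-1/2) S^(1/q) ≤ S^(1/2)` for `0 ≤ e ≤ S` -/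
theorem tn_exponents {p q : ℝ} (hpq : p.HolderConjugate q) (hp2 : p ≤ 2) {e S : ℝ} (he : 0 ≤ e)
    (hS : e ≤ S) : e ^ (1 / p - 1 / 2) * S ^ (1 / q) ≤ S ^ (1 / 2 : ℝ) := by
  have hp : 0 < p := hpq.pos
  have hq : 0 < q := hpq.symm.pos
  have h1 : 0 ≤ 1 / p - 1 / 2 := by
    rw [sub_nonneg]
    exact one_div_le_one_div_of_le hp hp2
  have hS0 : 0 ≤ S := he.trans hS
  have hsum : 1 / p + 1 / q = 1 := by
    rw [one_div, one_div]
    exact hpq.inv_add_inv_eq_one
  calc e ^ (1 / p - 1 / 2) * S ^ (1 / q) ≤ S ^ (1 / p - 1 / 2) * S ^ (1 / q) := by gcongr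
    _ = S ^ (1 / p - 1 / 2 + 1 / q) := (Real.rpow_add_of_nonneg hS0 h1 (by positivity)).symm
    _ = _ := by
        congr 1
        linarith

theorem tn_exponents2 {p q : ℝ} (hpq : p.HolderConjugate q) {e S : ℝ} (he : 0 ≤ e)
    (hS : e ≤ S) : e ^ (1 / p) * S ^ (1 / q) ≤ S := by
  have hp : 0 < p := hpq.pos
  have hq : 0 < q := hpq.symm.pos
  have hS0 : 0 ≤ S := he.trans hS
  have hsum : 1 / p + 1 / q = 1 := by
    rw [one_div, one_div]
    exact hpq.inv_add_inv_eq_one
  calc e ^ (1 / p) * S ^ (1 / q) ≤ S ^ (1 / p) * S ^ (1 / q) := by gcongr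
    _ = S ^ (1 / p + 1 / q) := (Real.rpow_add_of_nonneg hS0 (by positivity)
        (by positivity)).symm
    _ = S := by rw [hsum, Real.rpow_one]

/-- the cross term for `p ≤ 2` -/
theorem tn_caseA {p q ε : ℝ} (hpq : p.HolderConjugate q) (hε : 0 < ε) (hε1 : ε < 1)
    (hp2 : p ≤ 2) :
    ∃ C : ℝ, 0 < C ∧ ∀ (F k : ℂ → ℂ), Pair p q F k → ∀ (R s : ℝ), 0 ≤ s → s ≤ R → 0 < R →
      R ≤ 1 →
      ‖∫ z, (F (Complex.exp (s * I) * z) - F z) * (deta R z *
        ct (fun w => gg p F k (Complex.exp (s * I) * w) - gg p F k w) z)‖ ≤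
      C * ((s / R) ^ (1 - ε) * ((nn p R (Complex.exp (s * I)) F) ^ (1 / 2 : ℝ) *
        (ee p R F + ee q R k) ^ (1 / 2 : ℝ))) := by
  obtain ⟨C, hC, h1⟩ := ta_pair hpq hε hε1
  refine ⟨40 * C, by positivity, fun F k hP R s hs hsR hR hR1 => ?_⟩
  have hp : 1 < p := hpq.lt
  have hq : 1 < q := hpq.symm.lt
  set c := Complex.exp (s * I) with hcdef
  have hc : ‖c‖ = 1 := tn_exp s
  have hcs : ‖c - 1‖ ≤ s := tn_exp_sub hs
  have hcR : ‖c - 1‖ ≤ R := hcs.trans hsR
  have hg := pair_inLq hpq hP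
  have hFc := inAp_comp_mul hp hP.hF hc
  have hD := ta_sub_inAp hp hFc hP.hF
  obtain ⟨i1, i2⟩ := h1 _ _ hg hP.orth hD R c hR hR1 hc.ge hcR
  have hae := ta_ct_sub hq hg hc.ge
  have h2 : ∫ z, (F (c * z) - F z) * (deta R z *
        ct (fun w => gg p F k (c * w) - gg p F k w) z) =
      ∫ z, (F (c * z) - F z) * (deta R z * dc c (gg p F k) z) := by
    refine integral_congr_ae ?_
    filter_upwards [hae] with z hz
    rw [hz]
  rw [h2]
  have hS0 := tg_ee_nonneg p R F
  have hk0 := tg_ee_nonneg q R k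
  have hN := tn_nonneg p R c F
  have h3 := tn_power2 hp hp hp2 hP.hF hR hc hcR hD.int
    (fun z => diff_le_vv hp hp2 (F (c * z)) (F z))
  have h4 : (ee q R (gg p F k)) ^ (1 / q) ≤ 2 * (ee p R F + ee q R k) ^ (1 / q) := by
    rw [← tn_two_root (by positivity) (by linarith : 0 < q)]
    exact Real.rpow_le_rpow (tg_ee_nonneg _ _ _) (ta_ee_gg hpq hP hR) (by positivity)
  have h5 := tn_exponents hpq hp2 hS0 (by linarith : ee p R F ≤ ee p R F + ee q R k)
  have hDe := tg_ee_nonneg p R (fun z => F (c * z) - F z)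
  have hge := tg_ee_nonneg q R (gg p F k)
  have hx1 : (0 : ℝ) ≤ 1 - ε := by linarith
  calc ‖∫ z, (F (c * z) - F z) * (deta R z * dc c (gg p F k) z)‖
      ≤ ∫ z, ‖F (c * z) - F z‖ * (eta R z / rho R z) * ‖dc c (gg p F k) z‖ :=
        tn_norm_int hR i1
    _ ≤ C * (‖c - 1‖ / R) ^ (1 - ε) * ((ee p R (fun z => F (c * z) - F z)) ^ (1 / p) *
          (ee q R (gg p F k)) ^ (1 / q)) := i2
    _ ≤ C * (s / R) ^ (1 - ε) * ((20 * ((nn p R c F) ^ (1 / 2 : ℝ) *
          (ee p R F) ^ (1 / p - 1 / 2))) * (2 * (ee p R F + ee q R k) ^ (1 / q))) := by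
        gcongr
    _ = 40 * C * ((s / R) ^ (1 - ε) * ((nn p R c F) ^ (1 / 2 : ℝ) *
          ((ee p R F) ^ (1 / p - 1 / 2) * (ee p R F + ee q R k) ^ (1 / q)))) := by ring
    _ ≤ _ := by gcongr

/-- moving the rotation to the other factor -/
theorem tn_shift {p q : ℝ} (hpq : p.HolderConjugate q) {F g : ℂ → ℂ} (hF : InAp p F)
    (hg : InLq q g) (ho : Orth p g) {R : ℝ} (hR : 0 < R) {c : ℂ} (hc : ‖c‖ = 1) :
    ∃ Y : ℂ → ℂ, (∀ᵐ z, Y z = ct (fun w => g (c * w) - g w) z) ∧
      (∀ᵐ z, Y z = dc c g z) ∧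
      (∀ᵐ z, Y (conj c * z) = -c * dc (conj c) g z) ∧
      (∀ᵐ z, dc (conj c) (fun w => g (c * w) - g w) z =
        conj c * Y (conj c * z) - Y z) ∧
      Integrable (fun z => F z * (deta R (conj c * z) * Y (conj c * z)) -
        F z * (deta R z * Y z)) ∧
      ∫ z, (F (c * z) - F z) * (deta R z * ct (fun w => g (c * w) - g w) z) =
        ∫ z, (F z * (deta R (conj c * z) * Y (conj c * z)) - F z * (deta R z * Y z)) := by
  have hp : 1 < p := hpq.lt
  have hq : 1 < q := hpq.symm.lt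
  have hc0 : c ≠ 0 := by
    intro h
    rw [h, norm_zero] at hc
    norm_num at hc
  have hcc : conj c * c = 1 := by
    rw [mul_comm, Complex.mul_conj, Complex.normSq_eq_norm_sq, hc]
    norm_num
  have hcc' : c * conj c = 1 := by rw [mul_comm, hcc]
  have hcz : ∀ z : ℂ, c * (conj c * z) = z := fun z => by rw [← mul_assoc, hcc', one_mul]
  have hc' : ‖(conj c : ℂ)‖ = 1 := by rw [RCLike.norm_conj, hc]
  have hc'0 : (conj c : ℂ) ≠ 0 := by
    intro h
    rw [h, norm_zero] at hc'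
    norm_num at hc'
  have hgc := inLq_comp_mul hq hg hc.ge
  have hoc := orth_comp_mul hp ho hg.zero hc.ge
  have hH := ta_sub_inLq hq hgc hg
  have hoH := ta_sub_orth hpq hgc hg hoc ho
  have hFc := inAp_comp_mul hp hF hc
  set Y := ct (fun w => g (c * w) - g w) with hY
  have hae := ta_ct_sub hq hg hc.ge
  have t1 := (test_identity hpq hH hoH hFc hR).2.1
  have t2 := (test_identity hpq hH hoH hF hR).2.1
  have t3 : Integrable (fun z => F z * (deta R (conj c * z) * Y (conj c * z))) := by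
    have := integrable_comp_mul hc'0 t1
    refine this.congr (ae_of_all _ fun z => ?_)
    simp only
    rw [hcz z]
  refine ⟨Y, ae_of_all _ fun z => rfl, hae, ?_, ?_, t3.sub t2, ?_⟩
  · filter_upwards [ae_comp_mul hc'0 hae] with z hz
    refine Eq.trans hz ?_
    unfold dc
    have e1 : (conj c : ℂ)⁻¹ = c := inv_eq_of_mul_eq_one_right hcc
    have e2 : c * (conj c * z) = z := by rw [← mul_assoc, hcc', one_mul]
    have e3 : (conj (conj c : ℂ))⁻¹ = conj c := by
      rw [Complex.conj_conj]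
      exact inv_eq_of_mul_eq_one_right hcc'
    rw [e2, e3, e1]
    calc c * ct g z - ct g (conj c * z) = c * ct g z - (c * conj c) * ct g (conj c * z) := by
          rw [hcc', one_mul]
      _ = _ := by ring
  · refine ae_of_all _ fun z => ?_
    unfold dc
    have e3 : (conj (conj c : ℂ))⁻¹ = conj c := by
      rw [Complex.conj_conj]
      exact inv_eq_of_mul_eq_one_right hcc'
    rw [e3]
  · have h1 : ∀ z, (F (c * z) - F z) * (deta R z * Y z) =
        F (c * z) * (deta R z * Y z) - F z * (deta R z * Y z) := fun z => by ring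
    simp_rw [h1]
    rw [integral_sub t1 t2, integral_sub t3 t2]
    congr 1
    have h2 := integral_comp_mul hc'0 (fun z => F (c * z) * (deta R z * Y z))
    rw [hc'] at h2
    simp only [one_pow, inv_one, one_smul] at h2
    rw [← h2]
    refine integral_congr_ae (ae_of_all _ fun z => ?_)
    simp only
    rw [hcz z]

/-- the cross term for `2 ≤ p` -/
theorem tn_caseB {p q ε : ℝ} (hpq : p.HolderConjugate q) (hε : 0 < ε) (hε1 : ε < 1)
    (hp2 : 2 ≤ p) :
    ∃ C : ℝ, 0 < C ∧ ∀ (F k : ℂ → ℂ), Pair p q F k → ∀ (R s : ℝ), 0 ≤ s → s ≤ R → 0 < R →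
      R ≤ 1 →
      ‖∫ z, (F (Complex.exp (s * I) * z) - F z) * (deta R z *
        ct (fun w => gg p F k (Complex.exp (s * I) * w) - gg p F k w) z)‖ ≤
      C * ((s / R) ^ (1 - ε) * ((nn p R (Complex.exp (s * I)) F) ^ (1 / 2 : ℝ) *
        (ee p R F + ee q R k) ^ (1 / 2 : ℝ))) +
      C * ((s / R) ^ (1 - ε) * (s / R) ^ (1 - ε) * (ee p R F + ee q R k)) +
      C * ((ee p R F) ^ (1 / p) * (ee q R k) ^ (1 / q)) := by
  obtain ⟨C, hC, h1⟩ := ta_pair hpq hε hε1
  obtain ⟨Cw, hCw, hw⟩ := deta_diff_le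
  refine ⟨120 * C + 2 * (Cw + 1) * C, by positivity,
    fun F k hP R s hs hsR hR hR1 => ?_⟩
  have hp : 1 < p := hpq.lt
  have hq : 1 < q := hpq.symm.lt
  have hq2 : q ≤ 2 := by
    have := hpq.inv_add_inv_eq_one
    have h2 : (1 / 2 : ℝ) ≤ q⁻¹ := by
      have : p⁻¹ ≤ 1 / 2 := by
        rw [inv_eq_one_div]
        exact one_div_le_one_div_of_le (by norm_num) hp2
      linarith
    rw [← one_div] at h2
    exact (one_div_le_one_div (by norm_num) (by linarith)).mp h2
  set c := Complex.exp (s * I) with hcdef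
  have hc : ‖c‖ = 1 := tn_exp s
  have hc' : ‖(conj c : ℂ)‖ = 1 := by rw [RCLike.norm_conj, hc]
  have hcs : ‖c - 1‖ ≤ s := tn_exp_sub hs
  have hcR : ‖c - 1‖ ≤ R := hcs.trans hsR
  have hcs' : ‖conj c - 1‖ ≤ s := by
    have : conj c - 1 = conj (c - 1) := by simp
    rw [this, RCLike.norm_conj]
    exact hcs
  have hcR' : ‖conj c - 1‖ ≤ R := hcs'.trans hsR
  have hg := pair_inLq hpq hP
  have ho := hP.orth
  set g := gg p F k with hgdef
  have hgc := inLq_comp_mul hq hg hc.ge
  have hoc := orth_comp_mul hp ho hg.zero hc.ge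
  have hH := ta_sub_inLq hq hgc hg
  have hoH := ta_sub_orth hpq hgc hg hoc ho
  obtain ⟨Y, y1, y2, y3, y4, yint, yeq⟩ := tn_shift hpq hP.hF hg ho hR hc
  obtain ⟨i1, i2⟩ := h1 _ _ hg ho hP.hF R (conj c) hR hR1 hc'.ge hcR'
  obtain ⟨j1, j2⟩ := h1 _ _ hH hoH hP.hF R (conj c) hR hR1 hc'.ge hcR'
  rw [yeq]
  have hS0 := tg_ee_nonneg p R F
  have hk0 := tg_ee_nonneg q R k
  have hN := tn_nonneg p R c F
  set e := ee p R F with hedef
  set κ := ee q R k with hκdef
  set N := nn p R c F with hNdef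
  set x := s / R with hxdef
  have hx0 : 0 ≤ x := by positivity
  have hx1 : x ≤ 1 := by
    rw [hxdef, div_le_one hR]
    exact hsR
  have hε' : (0 : ℝ) ≤ 1 - ε := by linarith
  have hxT : x ≤ x ^ (1 - ε) := by
    rcases hx0.eq_or_lt with h | h
    · rw [← h, Real.zero_rpow (by linarith)]
    · calc x = x ^ (1 : ℝ) := (Real.rpow_one x).symm
        _ ≤ x ^ (1 - ε) := Real.rpow_le_rpow_of_exponent_ge h hx1 (by linarith)
  have hT1 : x ^ (1 - ε) ≤ 1 := Real.rpow_le_one hx0 hx1 hε'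
  -- pointwise bound
  have hpt : ∀ᵐ z, ‖F z * (deta R (conj c * z) * Y (conj c * z)) - F z * (deta R z * Y z)‖ ≤
      ((Cw + 1) * x) * (‖F z‖ * (eta R z / rho R z) * ‖dc (conj c) g z‖) +
        ‖F z‖ * (eta R z / rho R z) *
          ‖dc (conj c) (fun w => g (c * w) - g w) z‖ := by
    filter_upwards [y3, y4] with z hz3 hz4
    by_cases hz : z ∈ ball (0 : ℂ) 1
    · have hY : ‖Y (conj c * z)‖ = ‖dc (conj c) g z‖ := by
        rw [hz3, norm_mul, norm_neg, hc, one_mul]
      have hrho := rho_pos hR z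
      have heta := tg_eta_nonneg R z
      have hzn : ‖z‖ ≤ 1 := by
        rw [mem_ball_zero_iff] at hz
        exact hz.le
      have hdist : ‖z - conj c * z‖ ≤ s := by
        calc ‖z - conj c * z‖ = ‖conj c - 1‖ * ‖z‖ := by
              rw [← norm_mul, ← norm_neg]
              congr 1
              ring
          _ ≤ s * 1 := by gcongr
          _ = s := mul_one s
      have hd := hw R hR z (conj c * z) (hdist.trans hsR)
      have hd2 : ‖deta R (conj c * z) - deta R z‖ ≤ Cw * x * (eta R z / rho R z) := by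
        refine hd.trans ?_
        have h5 := le_rho hR z
        calc Cw * ‖z - conj c * z‖ * eta R z / rho R z ^ 2
            ≤ Cw * s * eta R z / rho R z ^ 2 := by gcongr
          _ = Cw * (s / rho R z) * (eta R z / rho R z) := by
              field_simp
          _ ≤ Cw * x * (eta R z / rho R z) := by
              rw [hxdef]
              gcongr
      have hsx : s ≤ x := by
        rw [hxdef, le_div_iff₀ hR]
        nlinarith
      have hY2 : ‖Y (conj c * z) - Y z‖ ≤ x * ‖dc (conj c) g z‖ +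
          ‖dc (conj c) (fun w => g (c * w) - g w) z‖ := by
        have e1 : Y (conj c * z) - Y z = (1 - conj c) * Y (conj c * z) +
            dc (conj c) (fun w => g (c * w) - g w) z := by
          rw [hz4]
          ring
        rw [e1]
        refine (norm_add_le _ _).trans ?_
        gcongr
        rw [norm_mul, hY]
        gcongr
        rw [← norm_neg, neg_sub]
        exact hcs'.trans hsx
      have e2 : F z * (deta R (conj c * z) * Y (conj c * z)) - F z * (deta R z * Y z) =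
          F z * ((deta R (conj c * z) - deta R z) * Y (conj c * z) +
            deta R z * (Y (conj c * z) - Y z)) := by ring
      rw [e2, norm_mul]
      calc ‖F z‖ * ‖(deta R (conj c * z) - deta R z) * Y (conj c * z) +
            deta R z * (Y (conj c * z) - Y z)‖
          ≤ ‖F z‖ * ((Cw * x * (eta R z / rho R z)) * ‖dc (conj c) g z‖ +
            (eta R z / rho R z) * (x * ‖dc (conj c) g z‖ +
          ‖dc (conj c) (fun w => g (c * w) - g w) z‖)) := by
            gcongr
            refine (norm_add_le _ _).trans ?_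
            rw [norm_mul, norm_mul, hY]
            gcongr
            exact norm_deta_le hR z
        _ = _ := by ring
    · rw [hP.hF.zero z hz]
      simp
  have hint : Integrable (fun z =>
      ((Cw + 1) * x) * (‖F z‖ * (eta R z / rho R z) * ‖dc (conj c) g z‖) +
        ‖F z‖ * (eta R z / rho R z) *
          ‖dc (conj c) (fun w => g (c * w) - g w) z‖) := (i1.const_mul _).add j1
  have hb := norm_integral_le_of_norm_le hint hpt
  rw [integral_add (i1.const_mul _) j1, integral_const_mul] at hb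
  -- the roots
  have r1 : (ee q R g) ^ (1 / q) ≤ 2 * (e + κ) ^ (1 / q) := by
    rw [← tn_two_root (by positivity) (by linarith : 0 < q)]
    exact Real.rpow_le_rpow (tg_ee_nonneg _ _ _) (ta_ee_gg hpq hP hR) (by positivity)
  have r2 : (ee q R (fun w => g (c * w) - g w)) ^ (1 / q) ≤
      2 * (2 * ((20 * (N ^ (1 / 2 : ℝ) * e ^ (1 / q - 1 / 2))) + 10 * κ ^ (1 / q))) := by
    have hFm := inAp_measurable hP.hF
    have hpsi : ∀ z, ‖psi p (F z)‖ ^ q = ‖F z‖ ^ p := by
      intro z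
      rw [norm_psi hp, ← Real.rpow_mul (norm_nonneg _), hpq.sub_one_mul_conj]
    have hpsiL : InLq q (fun z => psi p (F z)) := by
      refine ⟨(measurable_psi p).comp hFm, fun z hz => ?_, ?_⟩
      · rw [hP.hF.zero z hz]
        unfold psi
        simp
      · simp_rw [hpsi]
        exact hP.hF.int
    have hA := inLq_comp_mul hq hpsiL hc.ge
    have hA2 := ta_sub_inLq hq hA hpsiL
    have hK := inLq_comp_mul hq hP.hk hc.ge
    have hK2 := ta_sub_inLq hq hK hP.hk
    have e1 := tg_ee_sub (R := R) hR (by linarith : 0 ≤ q)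
      hA2.meas.aestronglyMeasurable hK2.meas.aestronglyMeasurable hA2.int hK2.int
    have e2 : ee q R (fun w => g (c * w) - g w) =
        ee q R (fun z => (psi p (F (c * z)) - psi p (F z)) - (k (c * z) - k z)) := by
      unfold ee
      refine integral_congr_ae (ae_of_all _ fun z => ?_)
      simp only
      congr 2
      rw [hgdef]
      unfold gg
      rw [← map_sub, RCLike.norm_conj]
      congr 1
      ring
    rw [e2]
    have e3 : (ee q R (fun z => psi p (F (c * z)) - psi p (F z))) ^ (1 / q) ≤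
        20 * (N ^ (1 / 2 : ℝ) * e ^ (1 / q - 1 / 2)) := by
      refine tn_power2 hp hq hq2 hP.hF hR hc hcR hA2.int fun z => ?_
      have := psi_diff_le_vv hp2 (F (c * z)) (F z)
      have e4 : 2 / q - 1 = 1 - 2 / p := by
        have := hpq.inv_add_inv_eq_one
        have h5 : q⁻¹ = 1 - p⁻¹ := by linarith
        rw [div_eq_mul_inv, div_eq_mul_inv, h5]
        ring
      rw [e4]
      exact this
    have e5 := tn_root_diff hq hR hc.ge hcR hP.hk
    have n1 := tg_ee_nonneg q R (fun z => psi p (F (c * z)) - psi p (F z))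
    have n2 := tg_ee_nonneg q R (fun z => k (c * z) - k z)
    calc (ee q R (fun z => (psi p (F (c * z)) - psi p (F z)) - (k (c * z) - k z))) ^ (1 / q)
        ≤ (2 ^ q * (ee q R (fun z => psi p (F (c * z)) - psi p (F z)) +
            ee q R (fun z => k (c * z) - k z))) ^ (1 / q) :=
          Real.rpow_le_rpow (tg_ee_nonneg _ _ _) e1 (by positivity)
      _ = 2 * (ee q R (fun z => psi p (F (c * z)) - psi p (F z)) +
            ee q R (fun z => k (c * z) - k z)) ^ (1 / q) :=
          tn_two_root (by positivity) (by linarith)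
      _ ≤ 2 * (2 * ((ee q R (fun z => psi p (F (c * z)) - psi p (F z))) ^ (1 / q) +
            (ee q R (fun z => k (c * z) - k z)) ^ (1 / q))) := by
          gcongr
          exact tn_root_add n1 n2 hq
      _ ≤ _ := by gcongr
  have hge := tg_ee_nonneg q R g
  have hHe := tg_ee_nonneg q R (fun w => g (c * w) - g w)
  have hdx : ‖conj c - 1‖ / R ≤ x := by
    rw [hxdef]
    gcongr
  have hTle : (‖conj c - 1‖ / R) ^ (1 - ε) ≤ x ^ (1 - ε) :=
    Real.rpow_le_rpow (by positivity) hdx hε'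
  set T := x ^ (1 - ε) with hTdef
  have hT0 : 0 ≤ T := Real.rpow_nonneg hx0 _
  have b1 : ∫ z, ‖F z‖ * (eta R z / rho R z) * ‖dc (conj c) g z‖ ≤
      C * T * (2 * (e + κ)) := by
    refine i2.trans ?_
    have h6 := tn_exponents2 hpq hS0 (by linarith : e ≤ e + κ)
    calc C * (‖conj c - 1‖ / R) ^ (1 - ε) * (e ^ (1 / p) * ee q R g ^ (1 / q))
        ≤ C * T * (e ^ (1 / p) * (2 * (e + κ) ^ (1 / q))) := by gcongr
      _ = C * T * (2 * (e ^ (1 / p) * (e + κ) ^ (1 / q))) := by ring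
      _ ≤ _ := by gcongr
  have b2 : ∫ z, ‖F z‖ * (eta R z / rho R z) *
      ‖dc (conj c) (fun w => g (c * w) - g w) z‖ ≤
      80 * C * (T * (N ^ (1 / 2 : ℝ) * (e + κ) ^ (1 / 2 : ℝ))) +
        40 * C * (e ^ (1 / p) * κ ^ (1 / q)) := by
    refine j2.trans ?_
    have hsum : 1 / p + 1 / q = 1 := by
      rw [one_div, one_div]
      exact hpq.inv_add_inv_eq_one
    have h6 : e ^ (1 / p) * e ^ (1 / q - 1 / 2) ≤ (e + κ) ^ (1 / 2 : ℝ) := by
      rw [← Real.rpow_add_of_nonneg hS0 (by positivity) (by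
        rw [sub_nonneg]
        exact one_div_le_one_div_of_le (by linarith) hq2)]
      rw [show 1 / p + (1 / q - 1 / 2) = 1 / 2 by linarith]
      exact Real.rpow_le_rpow hS0 (by linarith) (by norm_num)
    calc C * (‖conj c - 1‖ / R) ^ (1 - ε) *
          (e ^ (1 / p) * ee q R (fun w => g (c * w) - g w) ^ (1 / q))
        ≤ C * T * (e ^ (1 / p) * (2 * (2 * ((20 * (N ^ (1 / 2 : ℝ) * e ^ (1 / q - 1 / 2))) +
            10 * κ ^ (1 / q))))) := by gcongr
      _ = 80 * C * (T * (N ^ (1 / 2 : ℝ) * (e ^ (1 / p) * e ^ (1 / q - 1 / 2)))) +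
          T * (40 * C * (e ^ (1 / p) * κ ^ (1 / q))) := by ring
      _ ≤ 80 * C * (T * (N ^ (1 / 2 : ℝ) * (e + κ) ^ (1 / 2 : ℝ))) +
          1 * (40 * C * (e ^ (1 / p) * κ ^ (1 / q))) := by
          gcongr
      _ = _ := by ring
  refine hb.trans ?_
  have n1 : 0 ≤ T * (N ^ (1 / 2 : ℝ) * (e + κ) ^ (1 / 2 : ℝ)) := by positivity
  have n2 : 0 ≤ T * T * (e + κ) := by positivity
  have n3 : 0 ≤ e ^ (1 / p) * κ ^ (1 / q) := by positivity
  have hI0 : 0 ≤ ∫ z, ‖F z‖ * (eta R z / rho R z) * ‖dc (conj c) g z‖ := by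
    refine integral_nonneg fun z => ?_
    have a1 := tg_eta_nonneg R z
    have a2 := (rho_pos hR z).le
    exact mul_nonneg (mul_nonneg (norm_nonneg _) (div_nonneg a1 a2)) (norm_nonneg _)
  have b3 : (Cw + 1) * x * ∫ z, ‖F z‖ * (eta R z / rho R z) * ‖dc (conj c) g z‖ ≤
      2 * (Cw + 1) * C * (T * T * (e + κ)) := by
    calc (Cw + 1) * x * ∫ z, ‖F z‖ * (eta R z / rho R z) * ‖dc (conj c) g z‖
        ≤ (Cw + 1) * T * (C * T * (2 * (e + κ))) := by gcongr
      _ = _ := by ring
  have hCC : 0 ≤ (Cw + 1) * C := by positivity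
  have m1 := mul_nonneg hCC n1
  have m2 := mul_nonneg hCC n3
  have m3 := mul_nonneg hC.le n1
  have m4 := mul_nonneg hC.le n2
  have m5 := mul_nonneg hC.le n3
  calc _ ≤ 2 * (Cw + 1) * C * (T * T * (e + κ)) +
        (80 * C * (T * (N ^ (1 / 2 : ℝ) * (e + κ) ^ (1 / 2 : ℝ))) +
        40 * C * (e ^ (1 / p) * κ ^ (1 / q))) := add_le_add b3 b2
    _ ≤ _ := by nlinarith

/-- the cross term -/
theorem tn_cross {p q ε : ℝ} (hpq : p.HolderConjugate q) (hε : 0 < ε) (hε1 : ε < 1) :
    ∃ C : ℝ, 0 < C ∧ ∀ (F k : ℂ → ℂ), Pair p q F k → ∀ (R s : ℝ), 0 ≤ s → s ≤ R → 0 < R →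
      R ≤ 1 →
      ‖∫ z, (F (Complex.exp (s * I) * z) - F z) * (deta R z *
        ct (fun w => gg p F k (Complex.exp (s * I) * w) - gg p F k w) z)‖ ≤
      C * ((s / R) ^ (1 - ε) * ((nn p R (Complex.exp (s * I)) F) ^ (1 / 2 : ℝ) *
        (ee p R F + ee q R k) ^ (1 / 2 : ℝ))) +
      C * ((s / R) ^ (1 - ε) * (s / R) ^ (1 - ε) * (ee p R F + ee q R k)) +
      C * ((ee p R F) ^ (1 / p) * (ee q R k) ^ (1 / q)) := by
  rcases le_total p 2 with hp2 | hp2
  · obtain ⟨C, hC, h⟩ := tn_caseA hpq hε hε1 hp2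
    refine ⟨C, hC, fun F k hP R s hs hsR hR hR1 => ?_⟩
    have h1 := h F k hP R s hs hsR hR hR1
    have e1 := tg_ee_nonneg p R F
    have e2 := tg_ee_nonneg q R k
    have e3 : 0 ≤ C * ((s / R) ^ (1 - ε) * (s / R) ^ (1 - ε) * (ee p R F + ee q R k)) := by
      positivity
    have e4 : 0 ≤ C * ((ee p R F) ^ (1 / p) * (ee q R k) ^ (1 / q)) := by positivity
    linarith
  · exact tn_caseB hpq hε hε1 hp2

theorem tang {p q ε : ℝ} (hpq : p.HolderConjugate q) (hε : 0 < ε) (hε1 : ε < 1) :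
    ∃ C : ℝ, 0 < C ∧ ∀ (F k : ℂ → ℂ), Pair p q F k → ∀ R s : ℝ, 0 ≤ s → s ≤ R / 2 → 0 < R →
      R ≤ 1 →
      nn p R (Complex.exp (s * I)) F ≤
        C * (s / R) ^ (2 - 2 * ε) * (ee p R F + ee q R k) +
          C * ((ee p R F) ^ (1 / p) * (ee q R k) ^ (1 / q)) := by
  obtain ⟨C, hC, hX⟩ := tn_cross hpq hε hε1
  have hp : 1 < p := hpq.lt
  have hq : 1 < q := hpq.symm.lt
  set cp : ℝ := 1 - |2 / p - 1| with hcp
  have hcp0 : 0 < cp := by
    rw [hcp, sub_pos, abs_lt]
    have h1 : 0 < 2 / p := by positivity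
    have h2 : 2 / p < 2 := by
      rw [div_lt_iff₀ (by linarith)]
      linarith
    constructor <;> linarith
  refine ⟨2 / cp * (C ^ 2 / (2 * cp) + C + 100), by positivity,
    fun F k hP R s hs hsR2 hR hR1 => ?_⟩
  have hsR : s ≤ R := by linarith
  have h1 := hX F k hP R s hs hsR hR hR1
  set c := Complex.exp (s * I) with hcdef
  have hc : ‖c‖ = 1 := tn_exp s
  have hcs : ‖c - 1‖ ≤ s := tn_exp_sub hs
  have hcR : ‖c - 1‖ ≤ R := hcs.trans hsR
  have hg := pair_inLq hpq hP
  have ho := hP.orth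
  have hgc := inLq_comp_mul hq hg hc.ge
  have hoc := orth_comp_mul hp ho hg.zero hc.ge
  have hH := ta_sub_inLq hq hgc hg
  have hoH := ta_sub_orth hpq hgc hg hoc ho
  have hFc := inAp_comp_mul hp hP.hF hc
  have hD := ta_sub_inAp hp hFc hP.hF
  have hK := inLq_comp_mul hq hP.hk hc.ge
  have hK2 := ta_sub_inLq hq hK hP.hk
  obtain ⟨t1, t2, t3⟩ := test_identity hpq hH hoH hD hR
  obtain ⟨v1, -, -⟩ := tn_int_vv hp hP.hF hR hc hcR
  obtain ⟨w1, w2⟩ := tg_holder hpq hR hD.int hK2.int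
  have e1 := tg_ee_nonneg p R F
  have e2 := tg_ee_nonneg q R k
  have hN0 := tn_nonneg p R c F
  have hpt : ∀ z, cp * (eta R z * ‖vv p (F (c * z)) - vv p (F z)‖ ^ 2) ≤
      ((F (c * z) - F z) * ((eta R z : ℂ) * (gg p F k (c * z) - gg p F k z))).re +
        eta R z * (‖F (c * z) - F z‖ * ‖k (c * z) - k z‖) := by
    intro z
    have he := tg_eta_nonneg R z
    have hm := mono_psi hp (F (c * z)) (F z)
    have e5 : (F (c * z) - F z) * ((eta R z : ℂ) * (gg p F k (c * z) - gg p F k z)) =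
        (eta R z : ℂ) * ((F (c * z) - F z) * conj (psi p (F (c * z)) - psi p (F z)) -
          (F (c * z) - F z) * conj (k (c * z) - k z)) := by
      unfold gg
      simp only [map_sub]
      ring
    rw [e5, Complex.re_ofReal_mul, Complex.sub_re]
    have e6 : ((F (c * z) - F z) * conj (k (c * z) - k z)).re ≤
        ‖F (c * z) - F z‖ * ‖k (c * z) - k z‖ := by
      refine (Complex.re_le_norm _).trans ?_
      rw [norm_mul, RCLike.norm_conj]
    calc cp * (eta R z * ‖vv p (F (c * z)) - vv p (F z)‖ ^ 2)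
        = eta R z * (cp * ‖vv p (F (c * z)) - vv p (F z)‖ ^ 2) := by ring
      _ ≤ eta R z * ((((F (c * z) - F z) * conj (psi p (F (c * z)) - psi p (F z))).re -
          ((F (c * z) - F z) * conj (k (c * z) - k z)).re) +
          ‖F (c * z) - F z‖ * ‖k (c * z) - k z‖) := by
          gcongr
          linarith
      _ = _ := by ring
  have hN : cp * nn p R c F ≤ ‖∫ z, (F (c * z) - F z) * (deta R z *
        ct (fun w => gg p F k (c * w) - gg p F k w) z)‖ +
      (ee p R (fun z => F (c * z) - F z)) ^ (1 / p) *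
        (ee q R (fun z => k (c * z) - k z)) ^ (1 / q) := by
    have hre : Integrable (fun z => ((F (c * z) - F z) *
        ((eta R z : ℂ) * (gg p F k (c * z) - gg p F k z))).re) := t1.re
    calc cp * nn p R c F = ∫ z, cp * (eta R z * ‖vv p (F (c * z)) - vv p (F z)‖ ^ 2) :=
          (integral_const_mul _ _).symm
      _ ≤ ∫ z, (((F (c * z) - F z) * ((eta R z : ℂ) * (gg p F k (c * z) - gg p F k z))).re +
        eta R z * (‖F (c * z) - F z‖ * ‖k (c * z) - k z‖)) :=
          integral_mono (v1.const_mul _) (hre.add w1) hpt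
      _ = (∫ z, (F (c * z) - F z) *
            ((eta R z : ℂ) * (gg p F k (c * z) - gg p F k z))).re +
          ∫ z, eta R z * (‖F (c * z) - F z‖ * ‖k (c * z) - k z‖) := by
          rw [integral_add hre w1]
          congr 1
          exact integral_re t1
      _ ≤ _ := by
          refine add_le_add ?_ w2
          have e7 : (∫ z, (F (c * z) - F z) *
            ((eta R z : ℂ) * (gg p F k (c * z) - gg p F k z))) =
            -∫ z, (F (c * z) - F z) * (deta R z *
              ct (fun w => gg p F k (c * w) - gg p F k w) z) := by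
            exact eq_neg_of_add_eq_zero_left t3
          rw [e7]
          refine (Complex.re_le_norm _).trans ?_
          rw [norm_neg]
  have hrd := tn_root_diff hp hR hc.ge hcR (tn_inLq_of_inAp hP.hF)
  have hrk := tn_root_diff hq hR hc.ge hcR hP.hk
  have d1 := tg_ee_nonneg p R (fun z => F (c * z) - F z)
  have d2 := tg_ee_nonneg q R (fun z => k (c * z) - k z)
  have hE : (ee p R (fun z => F (c * z) - F z)) ^ (1 / p) *
        (ee q R (fun z => k (c * z) - k z)) ^ (1 / q) ≤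
      100 * ((ee p R F) ^ (1 / p) * (ee q R k) ^ (1 / q)) := by
    calc _ ≤ (10 * (ee p R F) ^ (1 / p)) * (10 * (ee q R k) ^ (1 / q)) := by gcongr
      _ = _ := by ring
  set N := nn p R c F with hNdef
  set S := ee p R F + ee q R k with hSdef
  set E := (ee p R F) ^ (1 / p) * (ee q R k) ^ (1 / q) with hEdef
  set T := (s / R) ^ (1 - ε) with hTdef
  have hS0 : 0 ≤ S := by positivity
  have hE0 : 0 ≤ E := by positivity
  have hT0 : 0 ≤ T := by positivity
  have hTT : T * T = (s / R) ^ (2 - 2 * ε) := by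
    rw [hTdef, ← Real.rpow_add_of_nonneg (by positivity) (by linarith) (by linarith)]
    congr 1
    ring
  -- Young
  set a := N ^ (1 / 2 : ℝ) with hadef
  set b := S ^ (1 / 2 : ℝ) with hbdef
  have ha : a * a = N := by
    rw [hadef, ← Real.rpow_add_of_nonneg hN0 (by norm_num) (by norm_num)]
    norm_num
  have hb : b * b = S := by
    rw [hbdef, ← Real.rpow_add_of_nonneg hS0 (by norm_num) (by norm_num)]
    norm_num
  have hY : C * (T * (a * b)) ≤ cp / 2 * N + C ^ 2 / (2 * cp) * (T * T * S) := by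
    rw [← ha, ← hb]
    have h8 : 0 ≤ (cp * a - C * (T * b)) ^ 2 / (2 * cp) := by positivity
    have h9 : (cp * a - C * (T * b)) ^ 2 / (2 * cp) =
        cp / 2 * (a * a) + C ^ 2 / (2 * cp) * (T * T * (b * b)) - C * (T * (a * b)) := by
      field_simp
      ring
    linarith
  have hfin : cp / 2 * N ≤ (C ^ 2 / (2 * cp) + C) * (T * T * S) + (C + 100) * E := by
    have h10 : cp * N ≤ C * (T * (a * b)) + C * (T * T * S) + C * E + 100 * E := by linarith
    nlinarith
  have hTS : 0 ≤ T * T * S := by positivity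
  have hfin2 : cp / 2 * N ≤ (C ^ 2 / (2 * cp) + C + 100) * (T * T * S) +
      (C ^ 2 / (2 * cp) + C + 100) * E := by
    have h11 : 0 ≤ C ^ 2 / (2 * cp) * E := by positivity
    nlinarith
  calc N = 2 / cp * (cp / 2 * N) := by field_simp
    _ ≤ 2 / cp * ((C ^ 2 / (2 * cp) + C + 100) * (T * T * S) +
      (C ^ 2 / (2 * cp) + C + 100) * E) := by gcongr
    _ = _ := by
      rw [hTT]
      ring

end

end BergmanReg
end
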