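import Pool.Agent.Lib.MP_efd5b3_an.PairAux
import Pool.Agent.Lib.MP_efd5b3_an.Tang
import Pool.Agent.Lib.MP_efd5b3_an.Dyad
import Pool.Agent.Lib.MP_efd5b3_an.Sc

section

section

namespace BergmanReg

open MeasureTheory Metric Set Filter Topology Complex
open scoped ENNReal NNReal ComplexConjugate

noncomputable section

set_option maxHeartbeats 1000000

theorem st_integrable_eta {R : ℝ} (hR : 0 < R) {f : ℂ → ℝ} (hf : Integrable f) :
    Integrable (fun z => eta R z * f z) := by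
  refine hf.mono ((continuous_eta hR).aestronglyMeasurable.mul hf.aestronglyMeasurable) ?_
  refine Filter.Eventually.of_forall fun z => ?_
  rw [norm_mul, Real.norm_of_nonneg (eta_pos hR z).le]
  exact mul_le_of_le_one_left (norm_nonneg _) (eta_le_one hR z)

theorem st_holder {p q : ℝ} (hpq : p.HolderConjugate q) {R : ℝ} (hR : 0 < R) {u v : ℂ → ℝ}
    (hu0 : ∀ z, 0 ≤ u z) (hv0 : ∀ z, 0 ≤ v z) (hum : Measurable u) (hvm : Measurable v)
    (hu : Integrable (fun z => eta R z * u z ^ p)) (hv : Integrable (fun z => eta R z * v z ^ q)) :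
    Integrable (fun z => eta R z * (u z * v z)) ∧
    ∫ z, eta R z * (u z * v z) ≤
      (∫ z, eta R z * u z ^ p) ^ (1 / p) * (∫ z, eta R z * v z ^ q) ^ (1 / q) := by
  have hp : 0 < p := hpq.pos
  have hq : 0 < q := hpq.symm.pos
  have hη : ∀ z, 0 < eta R z := fun z => eta_pos hR z
  set f : ℂ → ℝ := fun z => eta R z ^ (1 / p) * u z with hf
  set g : ℂ → ℝ := fun z => eta R z ^ (1 / q) * v z with hg
  have hf0 : ∀ z, 0 ≤ f z := fun z => mul_nonneg (Real.rpow_nonneg (hη z).le _) (hu0 z)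
  have hg0 : ∀ z, 0 ≤ g z := fun z => mul_nonneg (Real.rpow_nonneg (hη z).le _) (hv0 z)
  have hfp : ∀ z, f z ^ p = eta R z * u z ^ p := by
    intro z
    rw [hf]
    simp only
    rw [Real.mul_rpow (Real.rpow_nonneg (hη z).le _) (hu0 z), ← Real.rpow_mul (hη z).le,
      one_div_mul_cancel hp.ne', Real.rpow_one]
  have hgq : ∀ z, g z ^ q = eta R z * v z ^ q := by
    intro z
    rw [hg]
    simp only
    rw [Real.mul_rpow (Real.rpow_nonneg (hη z).le _) (hv0 z), ← Real.rpow_mul (hη z).le,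
      one_div_mul_cancel hq.ne', Real.rpow_one]
  have hfg : ∀ z, f z * g z = eta R z * (u z * v z) := by
    intro z
    have : eta R z ^ (1 / p) * eta R z ^ (1 / q) = eta R z := by
      rw [← Real.rpow_add (hη z), one_div, one_div, hpq.inv_add_inv_eq_one, Real.rpow_one]
    rw [hf, hg]
    simp only
    calc eta R z ^ (1 / p) * u z * (eta R z ^ (1 / q) * v z)
        = (eta R z ^ (1 / p) * eta R z ^ (1 / q)) * (u z * v z) := by ring
      _ = _ := by rw [this]
  have hfm : AEStronglyMeasurable f volume :=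
    (((continuous_eta hR).measurable.pow_const _).mul hum).aestronglyMeasurable
  have hgm : AEStronglyMeasurable g volume :=
    (((continuous_eta hR).measurable.pow_const _).mul hvm).aestronglyMeasurable
  have hfL : MemLp f (ENNReal.ofReal p) volume := by
    rw [← integrable_norm_rpow_iff hfm (by simpa using hp) ENNReal.ofReal_ne_top,
      ENNReal.toReal_ofReal hp.le]
    refine hu.congr (Filter.Eventually.of_forall fun z => ?_)
    simp only
    rw [Real.norm_of_nonneg (hf0 z), hfp z]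
  have hgL : MemLp g (ENNReal.ofReal q) volume := by
    rw [← integrable_norm_rpow_iff hgm (by simpa using hq) ENNReal.ofReal_ne_top,
      ENNReal.toReal_ofReal hq.le]
    refine hv.congr (Filter.Eventually.of_forall fun z => ?_)
    simp only
    rw [Real.norm_of_nonneg (hg0 z), hgq z]
  constructor
  · have : (ENNReal.ofReal p).HolderConjugate (ENNReal.ofReal q) := by
      rw [ENNReal.holderConjugate_iff]
      exact hpq.inv_add_inv_ennreal
    have := MemLp.integrable_mul (p := ENNReal.ofReal p) (q := ENNReal.ofReal q) hfL hgL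
    refine this.congr (Filter.Eventually.of_forall fun z => ?_)
    simp only [Pi.mul_apply]
    exact hfg z
  · have := integral_mul_le_Lp_mul_Lq_of_nonneg hpq (Filter.Eventually.of_forall hf0)
      (Filter.Eventually.of_forall hg0) hfL hgL
    simpa only [hfg, hfp, hgq] using this

theorem st_shrink {f : ℂ → ℝ} (hf0 : ∀ z, 0 ≤ f z) (hfz : ∀ z, z ∉ ball (0 : ℂ) 1 → f z = 0)
    (hfi : Integrable f) {R t : ℝ} (hR : 0 < R) (ht0 : 0 < t) (ht : t ≤ R) (ht1 : t < 1) :
    Integrable (fun z => eta R z * f ((((1 - t)⁻¹ : ℝ) : ℂ) * z)) ∧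
    ∫ z, eta R z * f ((((1 - t)⁻¹ : ℝ) : ℂ) * z) ≤
      (1 + 3 * (t / R)) * ∫ z, eta R z * f z := by
  have h1t : 0 < 1 - t := by linarith
  set c : ℂ := (((1 - t)⁻¹ : ℝ) : ℂ) with hc
  have hcinv : c⁻¹ = ((1 - t : ℝ) : ℂ) := by
    rw [hc]; push_cast; rw [inv_inv]
  have hc0 : c ≠ 0 := by
    rw [hc]
    exact_mod_cast (inv_pos.2 h1t).ne'
  have hcn : ‖c‖ = (1 - t)⁻¹ := by
    rw [hc, Complex.norm_real, Real.norm_of_nonneg (inv_pos.2 h1t).le]
  set f' : ℂ → ℝ := fun w => eta R (c⁻¹ * w) * f w with hf'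
  have hf'i : Integrable f' := by
    refine hfi.mono ((((continuous_eta hR).comp
      (continuous_const.mul continuous_id)).aestronglyMeasurable).mul hfi.aestronglyMeasurable) ?_
    refine Filter.Eventually.of_forall fun z => ?_
    rw [hf']
    simp only
    rw [norm_mul, Real.norm_of_nonneg (eta_pos hR _).le]
    exact mul_le_of_le_one_left (norm_nonneg _) (eta_le_one hR _)
  have hcomp : ∀ z, f' (c * z) = eta R z * f (c * z) := by
    intro z
    rw [hf']
    simp only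
    rw [inv_mul_cancel_left₀ hc0]
  have hle : ∀ w, f' w ≤ (1 + 3 * (t / R)) * (eta R w * f w) := by
    intro w
    by_cases hw : w ∈ ball (0 : ℂ) 1
    · have hwn : ‖w‖ < 1 := by simpa using hw
      have hd : ‖w - c⁻¹ * w‖ ≤ t := by
        have : w - c⁻¹ * w = ((t : ℝ) : ℂ) * w := by
          rw [hcinv]; push_cast; ring
        rw [this, norm_mul, Complex.norm_real, Real.norm_of_nonneg ht0.le]
        exact mul_le_of_le_one_right ht0.le hwn.le
      have := eta_shrink hR ht hd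
      rw [hf']
      simp only
      rw [← mul_assoc]
      exact mul_le_mul_of_nonneg_right this (hf0 w)
    · rw [hf']
      simp only
      rw [hfz w hw]
      simp
  have hf'0 : ∀ w, 0 ≤ f' w := fun w => mul_nonneg (eta_pos hR _).le (hf0 w)
  constructor
  · have := integrable_comp_mul hc0 hf'i
    exact this.congr (Filter.Eventually.of_forall hcomp)
  · calc ∫ z, eta R z * f (c * z) = ∫ z, f' (c * z) := by
          refine integral_congr_ae (Filter.Eventually.of_forall fun z => ?_)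
          exact (hcomp z).symm
      _ = ((‖c‖ ^ 2)⁻¹ : ℝ) • ∫ z, f' z := integral_comp_mul hc0 f'
      _ ≤ ∫ z, f' z := by
          rw [smul_eq_mul]
          refine mul_le_of_le_one_left (integral_nonneg hf'0) ?_
          rw [hcn, inv_pow, inv_inv]
          nlinarith
      _ ≤ ∫ z, (1 + 3 * (t / R)) * (eta R z * f z) :=
          integral_mono hf'i ((st_integrable_eta hR hfi).const_mul _) hle
      _ = _ := by rw [integral_const_mul]

theorem strip {p q ε : ℝ} (hpq : p.HolderConjugate q) (hε : 0 < ε) (hε1 : ε < 1) :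
    ∃ C : ℝ, 0 < C ∧ ∀ (F k : ℂ → ℂ), Pair p q F k → ∀ R t : ℝ, 0 < t → t ≤ R / 2 → R ≤ 1 →
      ∫ z in {z : ℂ | 1 - t ≤ ‖z‖}, eta R z * ‖F z‖ ^ p ≤
        C * (t / R) ^ (1 - ε) * (ee p R F + ee q R k) +
          C * ((ee p R F) ^ (1 / p) * (ee q R k) ^ (1 / q)) := by
  obtain ⟨C0, hC0, hdiff⟩ := diff_est hpq hε hε1
  have hp0 : 0 < p := hpq.pos
  have hq0 : 0 < q := hpq.symm.pos
  have hp1 : 1 < p := hpq.lt
  have hq1 : 1 < q := hpq.symm.lt
  have hpq1 : 1 / p + 1 / q = 1 := by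
    rw [one_div, one_div]; exact hpq.inv_add_inv_eq_one
  refine ⟨p * (8 + 4 * C0), by positivity, ?_⟩
  intro F k h R t ht htR hR1
  have hR : 0 < R := by linarith
  have htR' : t ≤ R := by linarith
  have ht1 : t < 1 := by linarith
  have h1t : 0 < 1 - t := by linarith
  have hη : ∀ z, 0 < eta R z := fun z => eta_pos hR z
  -- measurability
  have hFm : Measurable F := inAp_measurable h.hF
  have hkm : Measurable k := h.hk.meas
  -- g and gc
  set g : ℂ → ℂ := gg p F k with hg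
  have hgL : InLq q g := pair_inLq hpq h
  have hgO : Orth p g := h.orth
  set c : ℂ := (((1 - t)⁻¹ : ℝ) : ℂ) with hc
  have hcn : ‖c‖ = (1 - t)⁻¹ := by
    rw [hc, Complex.norm_real, Real.norm_of_nonneg (inv_pos.2 h1t).le]
  have hc1 : 1 ≤ ‖c‖ := by
    rw [hcn]; exact (one_le_inv₀ h1t).2 (by linarith)
  have hc0 : c ≠ 0 := by
    intro h0; rw [h0, norm_zero] at hc1; linarith
  have hcs : ‖c - 1‖ = t / (1 - t) := by
    have : c - 1 = ((t / (1 - t) : ℝ) : ℂ) := by
      have h2 : ((1 - t)⁻¹ : ℝ) - 1 = t / (1 - t) := by field_simp; ring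
      rw [hc, ← h2]; push_cast; ring
    rw [this, Complex.norm_real, Real.norm_of_nonneg (div_nonneg ht.le h1t.le)]
  have hcs2 : ‖c - 1‖ ≤ 2 * t := by
    rw [hcs, div_le_iff₀ h1t]; nlinarith
  have hcsR : ‖c - 1‖ ≤ R := by linarith
  set gc : ℂ → ℂ := fun z => g (c * z) with hgc
  have hgcL : InLq q gc := inLq_comp_mul hq1 hgL hc1
  have hgcO : Orth p gc := orth_comp_mul hp1 hgO hgL.zero hc1
  obtain ⟨I1, I2, I3⟩ := test_identity hpq hgL hgO h.hF hR
  obtain ⟨J1, J2, J3⟩ := test_identity hpq hgcL hgcO h.hF hR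
  set e : ℝ := ee p R F with he
  set κ : ℝ := ee q R k with hκ
  have he0 : 0 ≤ e := integral_nonneg fun z => mul_nonneg (hη z).le (Real.rpow_nonneg (norm_nonneg _) _)
  have hκ0 : 0 ≤ κ := integral_nonneg fun z => mul_nonneg (hη z).le (Real.rpow_nonneg (norm_nonneg _) _)
  set X : ℝ := e ^ (1 / p) * κ ^ (1 / q) with hX
  have hX0 : 0 ≤ X := mul_nonneg (Real.rpow_nonneg he0 _) (Real.rpow_nonneg hκ0 _)
  have hFp0 : ∀ z, z ∉ ball (0 : ℂ) 1 → ‖F z‖ ^ p = 0 := by
    intro z hz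
    rw [h.hF.zero z hz, norm_zero, Real.zero_rpow hp0.ne']
  have hkq0 : ∀ z, z ∉ ball (0 : ℂ) 1 → ‖k z‖ ^ q = 0 := by
    intro z hz
    rw [h.hk.zero z hz, norm_zero, Real.zero_rpow hq0.ne']
  have hFe : Integrable (fun z => eta R z * ‖F z‖ ^ p) := st_integrable_eta hR h.hF.int
  have hke : Integrable (fun z => eta R z * ‖k z‖ ^ q) := st_integrable_eta hR h.hk.int
  have hFs := st_shrink (fun z => Real.rpow_nonneg (norm_nonneg (F z)) p) hFp0 h.hF.int hR ht htR' ht1
  have hks := st_shrink (fun z => Real.rpow_nonneg (norm_nonneg (k z)) q) hkq0 h.hk.int hR ht htR' ht1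
  rw [← hc] at hFs hks
  have haR : t / R ≤ 1 / 2 := by
    rw [div_le_iff₀ hR]; linarith
  have haR0 : 0 < t / R := div_pos ht hR
  -- A1
  have A1 := st_holder hpq hR (u := fun z => ‖F z‖) (v := fun z => ‖k z‖) (fun z => norm_nonneg _)
    (fun z => norm_nonneg _) hFm.norm hkm.norm hFe hke
  -- A3
  have hkcm : Measurable (fun z => k (c * z)) := hkm.comp (measurable_const.mul measurable_id)
  have A3 := st_holder hpq hR (u := fun z => ‖F z‖) (v := fun z => ‖k (c * z)‖)
    (fun z => norm_nonneg _) (fun z => norm_nonneg _) hFm.norm hkcm.norm hFe hks.1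
  have A3' : ∫ z, eta R z * (‖F z‖ * ‖k (c * z)‖) ≤ 4 * X := by
    refine A3.2.trans ?_
    have h1 : ∫ z, eta R z * ‖k (c * z)‖ ^ q ≤ 4 * κ := by
      refine hks.2.trans ?_
      refine mul_le_mul_of_nonneg_right ?_ hκ0
      linarith
    have h2 : (∫ z, eta R z * ‖k (c * z)‖ ^ q) ^ (1 / q) ≤ 4 * κ ^ (1 / q) := by
      calc (∫ z, eta R z * ‖k (c * z)‖ ^ q) ^ (1 / q) ≤ (4 * κ) ^ (1 / q) := by
            refine Real.rpow_le_rpow ?_ h1 (by positivity)
            exact integral_nonneg fun z => mul_nonneg (hη z).le (Real.rpow_nonneg (norm_nonneg _) _)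
        _ = 4 ^ (1 / q) * κ ^ (1 / q) := Real.mul_rpow (by norm_num) hκ0
        _ ≤ 4 * κ ^ (1 / q) := by
            refine mul_le_mul_of_nonneg_right ?_ (Real.rpow_nonneg hκ0 _)
            calc (4 : ℝ) ^ (1 / q) ≤ 4 ^ (1 : ℝ) := by
                  refine Real.rpow_le_rpow_of_exponent_le (by norm_num) ?_
                  rw [div_le_one hq0]; exact hq1.le
              _ = 4 := Real.rpow_one _
    calc (∫ z, eta R z * ‖F z‖ ^ p) ^ (1 / p) * (∫ z, eta R z * ‖k (c * z)‖ ^ q) ^ (1 / q)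
        ≤ e ^ (1 / p) * (4 * κ ^ (1 / q)) :=
          mul_le_mul_of_nonneg_left h2 (Real.rpow_nonneg he0 _)
      _ = 4 * X := by rw [hX]; ring
  -- A2
  set S : ℝ := ∫ z in {z : ℂ | 1 - t ≤ ‖z‖}, eta R z * ‖F z‖ ^ p with hS
  have hSm : MeasurableSet {z : ℂ | 1 - t ≤ ‖z‖} :=
    (isClosed_le continuous_const continuous_norm).measurableSet
  have hScompl : ∫ z in {z : ℂ | 1 - t ≤ ‖z‖}ᶜ, eta R z * ‖F z‖ ^ p = e - S := by
    have := integral_add_compl hSm hFe
    rw [he, ee]; linarith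
  have hyoung : ∀ z, eta R z * (‖F z‖ * ‖psi p (F (c * z))‖) ≤
      ({z : ℂ | 1 - t ≤ ‖z‖}ᶜ).indicator (fun z => eta R z * ‖F z‖ ^ p) z / p +
        (eta R z * ‖F (c * z)‖ ^ p) / q := by
    intro z
    rw [norm_psi hp1]
    by_cases hz : z ∈ {z : ℂ | 1 - t ≤ ‖z‖}
    · have hz' : 1 - t ≤ ‖z‖ := hz
      have hcz : c * z ∉ ball (0 : ℂ) 1 := by
        simp only [mem_ball, dist_zero_right, not_lt, norm_mul, hcn]
        rw [inv_mul_eq_div, one_le_div h1t]; exact hz'
      rw [h.hF.zero _ hcz, indicator_of_notMem (by simpa using hz')]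
      rw [norm_zero, Real.zero_rpow (by linarith), Real.zero_rpow hp0.ne']
      simp
    · rw [indicator_of_mem (by simpa using hz)]
      have hY := Real.young_inequality_of_nonneg (norm_nonneg (F z))
        (Real.rpow_nonneg (norm_nonneg (F (c * z))) (p - 1)) hpq
      have hexp : (‖F (c * z)‖ ^ (p - 1)) ^ q = ‖F (c * z)‖ ^ p := by
        rw [← Real.rpow_mul (norm_nonneg _)]
        congr 1
        have := hpq.sub_one_mul_conj
        exact this
      rw [hexp] at hY
      calc eta R z * (‖F z‖ * ‖F (c * z)‖ ^ (p - 1))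
          ≤ eta R z * (‖F z‖ ^ p / p + ‖F (c * z)‖ ^ p / q) :=
            mul_le_mul_of_nonneg_left hY (hη z).le
        _ = _ := by ring
  have hFcm : Measurable (fun z => F (c * z)) := hFm.comp (measurable_const.mul measurable_id)
  have hindI : Integrable (({z : ℂ | 1 - t ≤ ‖z‖}ᶜ).indicator (fun z => eta R z * ‖F z‖ ^ p)) :=
    hFe.indicator hSm.compl
  have hdom : Integrable (fun z =>
      ({z : ℂ | 1 - t ≤ ‖z‖}ᶜ).indicator (fun z => eta R z * ‖F z‖ ^ p) z / p +
        (eta R z * ‖F (c * z)‖ ^ p) / q) := (hindI.div_const p).add (hFs.1.div_const q)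
  have A2i : Integrable (fun z => eta R z * (‖F z‖ * ‖psi p (F (c * z))‖)) := by
    refine hdom.mono' ?_ (Filter.Eventually.of_forall fun z => ?_)
    · exact ((continuous_eta hR).measurable.mul
        (hFm.norm.mul ((measurable_psi p).comp hFcm).norm)).aestronglyMeasurable
    · rw [Real.norm_of_nonneg (mul_nonneg (hη z).le (mul_nonneg (norm_nonneg _) (norm_nonneg _)))]
      exact hyoung z
  have A2 : ∫ z, eta R z * (‖F z‖ * ‖psi p (F (c * z))‖) ≤
      (e - S) / p + (1 + 3 * (t / R)) * e / q := by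
    calc ∫ z, eta R z * (‖F z‖ * ‖psi p (F (c * z))‖)
        ≤ ∫ z, (({z : ℂ | 1 - t ≤ ‖z‖}ᶜ).indicator (fun z => eta R z * ‖F z‖ ^ p) z / p +
        (eta R z * ‖F (c * z)‖ ^ p) / q) := integral_mono A2i hdom hyoung
      _ = (e - S) / p + (∫ z, eta R z * ‖F (c * z)‖ ^ p) / q := by
          rw [integral_add (hindI.div_const p) (hFs.1.div_const q), integral_div, integral_div,
            integral_indicator hSm.compl, hScompl]
      _ ≤ (e - S) / p + (1 + 3 * (t / R)) * e / q := by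
          gcongr
          exact hFs.2
  -- A4
  have hctm : Measurable (fun z => dc c g z) := by
    have h1 := (stronglyMeasurable_ct hgL.meas).measurable
    have h2 : Measurable (fun z => ct g (c * z)) := h1.comp (measurable_const.mul measurable_id)
    exact (measurable_const.mul h2).sub h1
  obtain ⟨D1, D2⟩ := hdiff g hgL hgO R c hR hR1 hc1 hcsR
  obtain ⟨P1, P2⟩ := pairing_le hpq hR hFm h.hF.zero h.hF.int hctm D1
  have hge : ee q R g ≤ 2 ^ q * (e + κ) := by
    have hpt : ∀ z, eta R z * ‖g z‖ ^ q ≤ 2 ^ q * (eta R z * ‖F z‖ ^ p + eta R z * ‖k z‖ ^ q) := by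
      intro z
      have h1 : ‖g z‖ ≤ ‖psi p (F z)‖ + ‖k z‖ := by
        rw [hg, gg, RCLike.norm_conj]; exact norm_sub_le _ _
      have h2 : ‖g z‖ ^ q ≤ 2 ^ q * (‖F z‖ ^ p + ‖k z‖ ^ q) := by
        have hexp : (‖psi p (F z)‖) ^ q = ‖F z‖ ^ p := by
          rw [norm_psi hp1, ← Real.rpow_mul (norm_nonneg _)]
          congr 1
          exact hpq.sub_one_mul_conj
        have h3 : ‖g z‖ ≤ 2 * max ‖psi p (F z)‖ ‖k z‖ := by
          have := le_max_left ‖psi p (F z)‖ ‖k z‖
          have := le_max_right ‖psi p (F z)‖ ‖k z‖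
          linarith
        calc ‖g z‖ ^ q ≤ (2 * max ‖psi p (F z)‖ ‖k z‖) ^ q :=
              Real.rpow_le_rpow (norm_nonneg _) h3 hq0.le
          _ = 2 ^ q * (max ‖psi p (F z)‖ ‖k z‖) ^ q :=
              Real.mul_rpow (by norm_num) (le_max_of_le_left (norm_nonneg _))
          _ ≤ 2 ^ q * (‖F z‖ ^ p + ‖k z‖ ^ q) := by
              refine mul_le_mul_of_nonneg_left ?_ (by positivity)
              rcases le_total ‖psi p (F z)‖ ‖k z‖ with h4 | h4
              · rw [max_eq_right h4]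
                have := Real.rpow_nonneg (norm_nonneg (F z)) p
                linarith
              · rw [max_eq_left h4, hexp]
                have := Real.rpow_nonneg (norm_nonneg (k z)) q
                linarith
      calc eta R z * ‖g z‖ ^ q ≤ eta R z * (2 ^ q * (‖F z‖ ^ p + ‖k z‖ ^ q)) :=
            mul_le_mul_of_nonneg_left h2 (hη z).le
        _ = _ := by ring
    calc ee q R g = ∫ z, eta R z * ‖g z‖ ^ q := rfl
      _ ≤ ∫ z, 2 ^ q * (eta R z * ‖F z‖ ^ p + eta R z * ‖k z‖ ^ q) :=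
          integral_mono (st_integrable_eta hR hgL.int) ((hFe.add hke).const_mul _) hpt
      _ = 2 ^ q * (e + κ) := by
          rw [integral_const_mul, integral_add hFe hke]; rfl
  have hge0 : 0 ≤ ee q R g :=
    integral_nonneg fun z => mul_nonneg (hη z).le (Real.rpow_nonneg (norm_nonneg _) _)
  have A4 : ∫ z, ‖F z‖ * (eta R z / rho R z) * ‖dc c g z‖ ≤
      4 * C0 * (t / R) ^ (1 - ε) * (e + κ) := by
    have hsR : ‖c - 1‖ / R ≤ 2 * (t / R) := by
      rw [div_le_iff₀ hR, mul_assoc, div_mul_cancel₀ _ hR.ne']; exact hcs2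
    have hsR0 : 0 ≤ ‖c - 1‖ / R := by positivity
    have hpow : (‖c - 1‖ / R) ^ (1 - ε) ≤ 2 * (t / R) ^ (1 - ε) := by
      calc (‖c - 1‖ / R) ^ (1 - ε) ≤ (2 * (t / R)) ^ (1 - ε) :=
            Real.rpow_le_rpow hsR0 hsR (by linarith)
        _ = 2 ^ (1 - ε) * (t / R) ^ (1 - ε) := Real.mul_rpow (by norm_num) haR0.le
        _ ≤ 2 * (t / R) ^ (1 - ε) := by
            refine mul_le_mul_of_nonneg_right ?_ (Real.rpow_nonneg haR0.le _)
            calc (2 : ℝ) ^ (1 - ε) ≤ 2 ^ (1 : ℝ) :=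
                  Real.rpow_le_rpow_of_exponent_le (by norm_num) (by linarith)
              _ = 2 := Real.rpow_one _
    have hW0 : 0 ≤ ∫ z in ball (0 : ℂ) 1, eta R z * rho R z ^ (-q) * ‖dc c g z‖ ^ q := by
      refine integral_nonneg fun z => ?_
      exact mul_nonneg (mul_nonneg (hη z).le (Real.rpow_nonneg (rho_pos hR z).le _))
        (Real.rpow_nonneg (norm_nonneg _) _)
    have hb0 : 0 ≤ C0 * (‖c - 1‖ / R) ^ (1 - ε) := by positivity
    have h1 : (∫ z in ball (0 : ℂ) 1, eta R z * rho R z ^ (-q) * ‖dc c g z‖ ^ q) ^ (1 / q) ≤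
        C0 * (2 * (t / R) ^ (1 - ε)) * (2 * (e + κ) ^ (1 / q)) := by
      calc (∫ z in ball (0 : ℂ) 1, eta R z * rho R z ^ (-q) * ‖dc c g z‖ ^ q) ^ (1 / q)
          ≤ ((C0 * (‖c - 1‖ / R) ^ (1 - ε)) ^ q * (2 ^ q * (e + κ))) ^ (1 / q) := by
            refine Real.rpow_le_rpow hW0 (D2.trans ?_) (by positivity)
            exact mul_le_mul_of_nonneg_left hge (Real.rpow_nonneg hb0 _)
        _ = (C0 * (‖c - 1‖ / R) ^ (1 - ε)) * (2 * (e + κ) ^ (1 / q)) := by
            rw [Real.mul_rpow (Real.rpow_nonneg hb0 _) (by positivity), ← Real.rpow_mul hb0,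
              mul_one_div_cancel hq0.ne', Real.rpow_one,
              Real.mul_rpow (Real.rpow_nonneg (by norm_num) _) (by positivity),
              ← Real.rpow_mul (by norm_num : (0 : ℝ) ≤ 2), mul_one_div_cancel hq0.ne',
              Real.rpow_one]
        _ ≤ C0 * (2 * (t / R) ^ (1 - ε)) * (2 * (e + κ) ^ (1 / q)) := by
            refine mul_le_mul_of_nonneg_right ?_ (by positivity)
            exact mul_le_mul_of_nonneg_left hpow hC0.le
    have h2 : e ^ (1 / p) * (e + κ) ^ (1 / q) ≤ e + κ := by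
      rcases (add_nonneg he0 hκ0).eq_or_lt with h0 | h0
      · have he00 : e = 0 := by linarith
        rw [← h0, Real.zero_rpow (by positivity), mul_zero]
      · calc e ^ (1 / p) * (e + κ) ^ (1 / q) ≤ (e + κ) ^ (1 / p) * (e + κ) ^ (1 / q) := by
              refine mul_le_mul_of_nonneg_right ?_ (by positivity)
              exact Real.rpow_le_rpow he0 (by linarith) (by positivity)
          _ = e + κ := by rw [← Real.rpow_add h0, hpq1, Real.rpow_one]
    calc ∫ z, ‖F z‖ * (eta R z / rho R z) * ‖dc c g z‖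
        ≤ e ^ (1 / p) * (∫ z in ball (0 : ℂ) 1, eta R z * rho R z ^ (-q) * ‖dc c g z‖ ^ q) ^ (1 / q) := P2
      _ ≤ e ^ (1 / p) * (C0 * (2 * (t / R) ^ (1 - ε)) * (2 * (e + κ) ^ (1 / q))) :=
          mul_le_mul_of_nonneg_left h1 (Real.rpow_nonneg he0 _)
      _ = 4 * C0 * (t / R) ^ (1 - ε) * (e ^ (1 / p) * (e + κ) ^ (1 / q)) := by ring
      _ ≤ 4 * C0 * (t / R) ^ (1 - ε) * (e + κ) :=
          mul_le_mul_of_nonneg_left h2 (by positivity)
  -- the identity
  have hdci : Integrable (fun z => F z * (deta R z * dc c g z)) := by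
    refine (J2.sub I2).congr (Filter.Eventually.of_forall fun z => ?_)
    simp only [Pi.sub_apply]
    rw [hgc, ct_comp_mul g hc0 z, dc]
    ring
  have hid : ∫ z, F z * ((eta R z : ℂ) * g z) =
      (∫ z, F z * ((eta R z : ℂ) * gc z)) + ∫ z, F z * (deta R z * dc c g z) := by
    have h1 : ∫ z, F z * (deta R z * dc c g z) =
        (∫ z, F z * (deta R z * ct gc z)) - ∫ z, F z * (deta R z * ct g z) := by
      rw [← integral_sub J2 I2]
      refine integral_congr_ae (Filter.Eventually.of_forall fun z => ?_)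
      simp only
      rw [hgc, ct_comp_mul g hc0 z, dc]
      ring
    rw [h1]
    linear_combination I3 - J3
  -- real part of the left hand side
  have hL : e ≤ (∫ z, F z * ((eta R z : ℂ) * g z)).re + ∫ z, eta R z * (‖F z‖ * ‖k z‖) := by
    have h1 : ∀ z, eta R z * ‖F z‖ ^ p ≤
        (F z * ((eta R z : ℂ) * g z)).re + eta R z * (‖F z‖ * ‖k z‖) := by
      intro z
      have h2 : F z * ((eta R z : ℂ) * g z) =
          ((eta R z * ‖F z‖ ^ p : ℝ) : ℂ) - (eta R z : ℂ) * (F z * conj (k z)) := by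
        rw [hg, gg, map_sub]
        have := mul_conj_psi hp1 (F z)
        push_cast at this ⊢
        linear_combination (eta R z : ℂ) * this
      rw [h2, Complex.sub_re, Complex.ofReal_re]
      have h3 : ((eta R z : ℂ) * (F z * conj (k z))).re ≤ eta R z * (‖F z‖ * ‖k z‖) := by
        refine (Complex.re_le_norm _).trans ?_
        rw [norm_mul, norm_mul, RCLike.norm_conj, Complex.norm_real,
          Real.norm_of_nonneg (hη z).le]
      linarith
    calc e = ∫ z, eta R z * ‖F z‖ ^ p := rfl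
      _ ≤ ∫ z, ((F z * ((eta R z : ℂ) * g z)).re + eta R z * (‖F z‖ * ‖k z‖)) :=
          integral_mono hFe (I1.re.add A1.1) h1
      _ = _ := by
          have h4 : Integrable (fun z => (F z * ((eta R z : ℂ) * g z)).re) := I1.re
          rw [integral_add h4 A1.1]
          congr 1
          exact integral_re I1
  have hRt : (∫ z, F z * ((eta R z : ℂ) * gc z)).re ≤
      (∫ z, eta R z * (‖F z‖ * ‖psi p (F (c * z))‖)) + ∫ z, eta R z * (‖F z‖ * ‖k (c * z)‖) := by
    rw [← integral_add A2i A3.1]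
    refine ((Complex.re_le_norm _).trans (norm_integral_le_integral_norm _)).trans ?_
    refine integral_mono J1.norm (A2i.add A3.1) fun z => ?_
    simp only
    rw [norm_mul, norm_mul, Complex.norm_real, Real.norm_of_nonneg (hη z).le]
    have h1 : ‖gc z‖ ≤ ‖psi p (F (c * z))‖ + ‖k (c * z)‖ := by
      rw [hgc, hg]
      simp only [gg]
      rw [RCLike.norm_conj]; exact norm_sub_le _ _
    calc ‖F z‖ * (eta R z * ‖gc z‖)
        ≤ ‖F z‖ * (eta R z * (‖psi p (F (c * z))‖ + ‖k (c * z)‖)) := by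
          refine mul_le_mul_of_nonneg_left ?_ (norm_nonneg _)
          exact mul_le_mul_of_nonneg_left h1 (hη z).le
      _ = _ := by ring
  have hDt : (∫ z, F z * (deta R z * dc c g z)).re ≤
      ∫ z, ‖F z‖ * (eta R z / rho R z) * ‖dc c g z‖ := by
    refine ((Complex.re_le_norm _).trans (norm_integral_le_integral_norm _)).trans ?_
    refine integral_mono hdci.norm P1 fun z => ?_
    simp only
    rw [norm_mul, norm_mul, ← mul_assoc]
    refine mul_le_mul_of_nonneg_right ?_ (norm_nonneg _)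
    exact mul_le_mul_of_nonneg_left (norm_deta_le hR z) (norm_nonneg _)
  have hmain : e ≤ X + ((e - S) / p + (1 + 3 * (t / R)) * e / q) + 4 * X +
      4 * C0 * (t / R) ^ (1 - ε) * (e + κ) := by
    have hre := congrArg Complex.re hid
    rw [Complex.add_re] at hre
    have hA1 : ∫ z, eta R z * (‖F z‖ * ‖k z‖) ≤ X := A1.2
    linarith
  have hta : t / R ≤ (t / R) ^ (1 - ε) := by
    calc t / R = (t / R) ^ (1 : ℝ) := (Real.rpow_one _).symm
      _ ≤ (t / R) ^ (1 - ε) :=
        Real.rpow_le_rpow_of_exponent_ge haR0 (by linarith) (by linarith)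
  have hqe : 3 * (t / R) * e / q ≤ 3 * (t / R) ^ (1 - ε) * (e + κ) := by
    have h1 : 3 * (t / R) * e / q ≤ 3 * (t / R) * e := by
      refine div_le_self (by positivity) hq1.le
    have h2 : 3 * (t / R) * e ≤ 3 * (t / R) ^ (1 - ε) * (e + κ) := by
      have h3 : 3 * (t / R) ≤ 3 * (t / R) ^ (1 - ε) := by linarith
      exact mul_le_mul h3 (by linarith) he0 (by positivity)
    linarith
  have hSp : S / p ≤ 5 * X + (3 + 4 * C0) * (t / R) ^ (1 - ε) * (e + κ) := by
    have h1 : (1 + 3 * (t / R)) * e / q = e / q + 3 * (t / R) * e / q := by ring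
    have h2 : e / p + e / q = e := by
      have : e / p + e / q = e * (1 / p + 1 / q) := by ring
      rw [this, hpq1, mul_one]
    have h3 : (e - S) / p = e / p - S / p := by ring
    rw [h1, h3] at hmain
    have h5 : (3 + 4 * C0) * (t / R) ^ (1 - ε) * (e + κ) =
      3 * (t / R) ^ (1 - ε) * (e + κ) + 4 * C0 * (t / R) ^ (1 - ε) * (e + κ) := by ring
    rw [h5]
    linarith
  have hSfin : S ≤ p * (5 * X + (3 + 4 * C0) * (t / R) ^ (1 - ε) * (e + κ)) := by
    rwa [div_le_iff₀' hp0] at hSp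
  refine hSfin.trans ?_
  have h5 : 0 ≤ (t / R) ^ (1 - ε) * (e + κ) := by positivity
  have h6 : p * (5 * X + (3 + 4 * C0) * (t / R) ^ (1 - ε) * (e + κ)) =
    p * (3 + 4 * C0) * ((t / R) ^ (1 - ε) * (e + κ)) + p * 5 * X := by ring
  have h7 : p * (8 + 4 * C0) * (t / R) ^ (1 - ε) * (e + κ) +
      p * (8 + 4 * C0) * X =
    p * (3 + 4 * C0) * ((t / R) ^ (1 - ε) * (e + κ)) + p * 5 * X +
      p * 5 * ((t / R) ^ (1 - ε) * (e + κ)) + p * (3 + 4 * C0) * X := by ring
  rw [h6, h7]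
  have h8 : 0 ≤ p * 5 * ((t / R) ^ (1 - ε) * (e + κ)) := by positivity
  have h9 : 0 ≤ p * (3 + 4 * C0) * X := by positivity
  linarith

end

end BergmanReg
end

section

namespace BergmanReg

open MeasureTheory Metric Set Filter Topology Complex
open scoped ENNReal NNReal ComplexConjugate

noncomputable section

set_option maxHeartbeats 1000000

theorem tl_norm_exp (s : ℝ) : ‖Complex.exp (s * I)‖ = 1 := Complex.norm_exp_ofReal_mul_I s

theorem tl_sep {a b : ℝ} (hab : |a - b| ≤ 1) :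
    1 / 2 * |a - b| ≤ ‖Complex.exp (a * I) - Complex.exp (b * I)‖ := by
  have h1 : Complex.exp (a * I) - Complex.exp (b * I) =
      Complex.exp (b * I) * (Complex.exp (((a - b : ℝ) : ℂ) * I) - 1) := by
    rw [mul_sub, ← Complex.exp_add]
    push_cast
    ring_nf
  rw [h1, norm_mul, tl_norm_exp, one_mul]
  have h2 : (Complex.exp (((a - b : ℝ) : ℂ) * I) - 1).im = Real.sin (a - b) := by
    rw [Complex.sub_im, Complex.exp_ofReal_mul_I_im, Complex.one_im, sub_zero]
  have h3 : |Real.sin (a - b)| ≤ ‖Complex.exp (((a - b : ℝ) : ℂ) * I) - 1‖ := by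
    rw [← h2]; exact Complex.abs_im_le_norm _
  have h4 : 2 / Real.pi * |a - b| ≤ |Real.sin (a - b)| := by
    apply Real.mul_abs_le_abs_sin
    have := Real.pi_gt_three
    linarith
  have h5 : 1 / 2 ≤ 2 / Real.pi := by
    rw [div_le_div_iff₀ (by norm_num) Real.pi_pos]
    have := Real.pi_lt_four
    linarith
  have h6 : 1 / 2 * |a - b| ≤ 2 / Real.pi * |a - b| :=
    mul_le_mul_of_nonneg_right h5 (abs_nonneg _)
  linarith

theorem tl_exp_sub_one (s : ℝ) : ‖Complex.exp (s * I) - 1‖ ≤ |s| := by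
  have := Real.norm_exp_I_mul_ofReal_sub_one_le (x := s)
  rwa [mul_comm, Real.norm_eq_abs] at this

theorem tl_rot {f : ℂ → ℝ} {u : ℂ} (hu : ‖u‖ = 1) (r : ℝ) :
    ∫ z in ball (1 : ℂ) r, f (u * z) = ∫ z in ball u r, f z := by
  have hu0 : u ≠ 0 := by
    intro h; rw [h, norm_zero] at hu; exact zero_ne_one hu
  rw [← integral_indicator measurableSet_ball, ← integral_indicator measurableSet_ball]
  have h1 : ∀ z, (ball (1 : ℂ) r).indicator (fun z => f (u * z)) z =
      (ball u r).indicator f (u * z) := by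
    intro z
    have h2 : z ∈ ball (1 : ℂ) r ↔ u * z ∈ ball u r := by
      rw [mem_ball, mem_ball, dist_eq_norm, dist_eq_norm]
      have : u * z - u = u * (z - 1) := by ring
      rw [this, norm_mul, hu, one_mul]
    by_cases hz : z ∈ ball (1 : ℂ) r
    · rw [indicator_of_mem hz, indicator_of_mem (h2.1 hz)]
    · rw [indicator_of_notMem hz, indicator_of_notMem (fun h => hz (h2.2 h))]
  calc ∫ z, (ball (1 : ℂ) r).indicator (fun z => f (u * z)) z
      = ∫ z, (ball u r).indicator f (u * z) := integral_congr_ae (Filter.Eventually.of_forall h1)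
    _ = ((‖u‖ ^ 2)⁻¹ : ℝ) • ∫ z, (ball u r).indicator f z := integral_comp_mul hu0 _
    _ = _ := by rw [hu]; simp

theorem tl_one_step {p : ℝ} (hp : 1 < p) {F : ℂ → ℂ} (hF : InAp p F) {r R : ℝ}
    (hr : r ≤ R) (hR : 0 < R) {u : ℂ} (hu : ‖u‖ = 1) :
    ∫ z in ball (1 : ℂ) r, ‖F z‖ ^ p ≤
      2 * (∫ z in ball u r, ‖F z‖ ^ p) + 4 * nn p R u F := by
  have hFm : Measurable F := inAp_measurable hF
  have hFu := inAp_comp_mul hp hF hu
  have hFum : Measurable (fun z => F (u * z)) := inAp_measurable hFu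
  have hη : ∀ z, 0 < eta R z := fun z => eta_pos hR z
  have hvm : Measurable (fun z => ‖vv p (F (u * z)) - vv p (F z)‖ ^ 2) :=
    ((((measurable_vv p).comp hFum).sub ((measurable_vv p).comp hFm)).norm).pow_const 2
  have hsq : ∀ a : ℂ, ‖vv p a‖ ^ 2 = ‖a‖ ^ p := by
    intro a
    rw [norm_vv hp, ← Real.rpow_natCast, ← Real.rpow_mul (norm_nonneg _)]
    congr 1
    push_cast
    ring
  have hub : ∀ z, ‖vv p (F (u * z)) - vv p (F z)‖ ^ 2 ≤ 2 * ‖F (u * z)‖ ^ p + 2 * ‖F z‖ ^ p := by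
    intro z
    have h1 := norm_sub_le (vv p (F (u * z))) (vv p (F z))
    rw [← hsq, ← hsq]
    nlinarith [sq_nonneg (‖vv p (F (u * z))‖ - ‖vv p (F z)‖), norm_nonneg (vv p (F (u * z))),
      norm_nonneg (vv p (F z)), norm_nonneg (vv p (F (u * z)) - vv p (F z))]
  have hvi : Integrable (fun z => ‖vv p (F (u * z)) - vv p (F z)‖ ^ 2) := by
    refine ((hFu.int.const_mul 2).add (hF.int.const_mul 2)).mono' hvm.aestronglyMeasurable ?_
    refine Filter.Eventually.of_forall fun z => ?_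
    rw [Real.norm_of_nonneg (by positivity)]
    exact hub z
  have hnni : Integrable (fun z => eta R z * ‖vv p (F (u * z)) - vv p (F z)‖ ^ 2) := by
    refine hvi.mono ((continuous_eta hR).aestronglyMeasurable.mul
      hvi.aestronglyMeasurable) ?_
    refine Filter.Eventually.of_forall fun z => ?_
    rw [norm_mul, Real.norm_of_nonneg (hη z).le]
    exact mul_le_of_le_one_left (norm_nonneg _) (eta_le_one hR z)
  have hpt : ∀ z ∈ ball (1 : ℂ) r, ‖F z‖ ^ p ≤
      2 * ‖F (u * z)‖ ^ p + 4 * (eta R z * ‖vv p (F (u * z)) - vv p (F z)‖ ^ 2) := by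
    intro z hz
    have hz1 : ‖z - 1‖ ≤ R := by
      have : ‖z - 1‖ < r := by rwa [mem_ball, dist_eq_norm] at hz
      linarith
    have h1 : 1 / 2 ≤ eta R z := half_le_eta hR hz1
    have h2 : ‖vv p (F z)‖ ≤ ‖vv p (F (u * z))‖ + ‖vv p (F (u * z)) - vv p (F z)‖ := by
      have := norm_sub_le (vv p (F (u * z))) (vv p (F (u * z)) - vv p (F z))
      rwa [sub_sub_cancel] at this
    have h3 : ‖vv p (F z)‖ ^ 2 ≤
        2 * ‖vv p (F (u * z))‖ ^ 2 + 2 * ‖vv p (F (u * z)) - vv p (F z)‖ ^ 2 := by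
      nlinarith [sq_nonneg (‖vv p (F (u * z))‖ - ‖vv p (F (u * z)) - vv p (F z)‖),
        norm_nonneg (vv p (F (u * z))),
        norm_nonneg (vv p (F z)), norm_nonneg (vv p (F (u * z)) - vv p (F z))]
    rw [hsq, hsq] at h3
    have h4 : ‖vv p (F (u * z)) - vv p (F z)‖ ^ 2 ≤
        2 * (eta R z * ‖vv p (F (u * z)) - vv p (F z)‖ ^ 2) := by
      nlinarith [sq_nonneg ‖vv p (F (u * z)) - vv p (F z)‖]
    linarith
  calc ∫ z in ball (1 : ℂ) r, ‖F z‖ ^ p
      ≤ ∫ z in ball (1 : ℂ) r, (2 * ‖F (u * z)‖ ^ p +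
          4 * (eta R z * ‖vv p (F (u * z)) - vv p (F z)‖ ^ 2)) := by
        refine setIntegral_mono_on hF.int.integrableOn ?_ measurableSet_ball hpt
        exact ((hFu.int.const_mul 2).add (hnni.const_mul 4)).integrableOn
    _ = 2 * (∫ z in ball (1 : ℂ) r, ‖F (u * z)‖ ^ p) +
        4 * ∫ z in ball (1 : ℂ) r, eta R z * ‖vv p (F (u * z)) - vv p (F z)‖ ^ 2 := by
        rw [integral_add (hFu.int.const_mul 2).integrableOn (hnni.const_mul 4).integrableOn,
          integral_const_mul, integral_const_mul]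
    _ ≤ 2 * (∫ z in ball u r, ‖F z‖ ^ p) + 4 * nn p R u F := by
        rw [tl_rot (f := fun z => ‖F z‖ ^ p) hu r]
        have : ∫ z in ball (1 : ℂ) r, eta R z * ‖vv p (F (u * z)) - vv p (F z)‖ ^ 2 ≤
            nn p R u F := by
          rw [nn]
          refine setIntegral_le_integral hnni (Filter.Eventually.of_forall fun z => ?_)
          exact mul_nonneg (hη z).le (by positivity)
        linarith

theorem tile {p : ℝ} (hp : 1 < p) {F : ℂ → ℂ} (hF : InAp p F) {θ σ R : ℝ} (hθ : 0 < θ)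
    (hθσ : 8 * θ ≤ σ) (hσ : σ ≤ 1 / 4) (hR : 0 < R) (hR1 : R ≤ 1 / 2) {N : ℝ}
    (hN : ∀ s : ℝ, 0 ≤ s → s ≤ σ * R → nn p R (Complex.exp (s * I)) F ≤ N) :
    ∫ z in ball (1 : ℂ) (θ * R), ‖F z‖ ^ p ≤
      64 * (θ / σ) * (∫ z in {z : ℂ | 1 - θ * R ≤ ‖z‖}, eta (2 * σ * R) z * ‖F z‖ ^ p) +
        4 * N := by
  have hσ0 : 0 < σ := by linarith
  have hθR : 0 < θ * R := mul_pos hθ hR
  have hσR : 0 < 2 * σ * R := by positivity
  set x : ℝ := σ / (8 * θ) with hx
  have hx1 : 1 ≤ x := by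
    rw [hx, one_le_div (by positivity)]; exact hθσ
  set M : ℕ := ⌊x⌋₊ with hM
  have hM1 : 1 ≤ M := by
    rw [hM, Nat.one_le_floor_iff]; exact hx1
  have hM1' : (1 : ℝ) ≤ M := by exact_mod_cast hM1
  have hMx : (M : ℝ) ≤ x := Nat.floor_le (by linarith)
  have hMx2 : x / 2 ≤ M := by
    have := Nat.lt_floor_add_one x
    rw [← hM] at this
    linarith
  have hMθ : 8 * θ * M ≤ σ := by
    rw [hx, le_div_iff₀ (by positivity)] at hMx
    linarith
  set s : ℕ → ℝ := fun j => 8 * θ * R * j with hs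
  set u : ℕ → ℂ := fun j => Complex.exp ((s j : ℝ) * I) with hu
  have hu1 : ∀ j, ‖u j‖ = 1 := fun j => tl_norm_exp _
  have hs0 : ∀ j, 0 ≤ s j := fun j => by
    rw [hs]; positivity
  have hsM : ∀ j, j < M → s j ≤ σ * R := by
    intro j hj
    have hj' : (j : ℝ) ≤ M := by exact_mod_cast hj.le
    have h1 : 8 * θ * (j : ℝ) ≤ σ :=
      le_trans (mul_le_mul_of_nonneg_left hj' (by positivity)) hMθ
    calc s j = 8 * θ * (j : ℝ) * R := by rw [hs]; ring
      _ ≤ σ * R := mul_le_mul_of_nonneg_right h1 hR.le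
  have hθRR : θ * R ≤ R := by nlinarith
  -- one step
  have hstep : ∀ j ∈ Finset.range M, ∫ z in ball (1 : ℂ) (θ * R), ‖F z‖ ^ p ≤
      2 * (∫ z in ball (u j) (θ * R), ‖F z‖ ^ p) + 4 * N := by
    intro j hj
    have hj' := Finset.mem_range.1 hj
    have h1 := tl_one_step hp hF hθRR hR (hu1 j)
    have h2 := hN (s j) (hs0 j) (hsM j hj')
    have h3 : nn p R (u j) F ≤ N := h2
    linarith
  have hsum := Finset.sum_le_sum hstep
  rw [Finset.sum_add_distrib, Finset.sum_const, Finset.sum_const, Finset.card_range, nsmul_eq_mul,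
    nsmul_eq_mul, ← Finset.mul_sum] at hsum
  -- disjoint balls
  have hdisj : (↑(Finset.range M) : Set ℕ).Pairwise
      (Function.onFun Disjoint (fun j => ball (u j) (θ * R))) := by
    intro i hi j hj hij
    have hi' : i < M := Finset.mem_range.1 (Finset.mem_coe.1 hi)
    have hj' : j < M := Finset.mem_range.1 (Finset.mem_coe.1 hj)
    apply Metric.ball_disjoint_ball
    rw [dist_eq_norm]
    have hle : |s i - s j| ≤ 1 := by
      have h1 := hsM i hi'
      have h2 := hsM j hj'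
      have h3 := hs0 i
      have h4 := hs0 j
      have h5 : σ * R ≤ 1 := by nlinarith
      rw [abs_le]; constructor <;> linarith
    have h6 := tl_sep hle
    have h7 : 8 * θ * R ≤ |s i - s j| := by
      have : s i - s j = 8 * θ * R * ((i : ℝ) - j) := by rw [hs]; ring
      rw [this, abs_mul, abs_of_pos (by positivity : 0 < 8 * θ * R)]
      have h8 : (1 : ℝ) ≤ |(i : ℝ) - j| := by
        have h9 : (1 : ℤ) ≤ |(i : ℤ) - j| := by
          apply Int.one_le_abs
          intro h; apply hij; omega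
        exact_mod_cast h9
      exact le_mul_of_one_le_right (by positivity) h8
    calc θ * R + θ * R ≤ 1 / 2 * (8 * θ * R) := by nlinarith
      _ ≤ 1 / 2 * |s i - s j| := by linarith
      _ ≤ _ := h6
  have hunion : ∑ j ∈ Finset.range M, ∫ z in ball (u j) (θ * R), ‖F z‖ ^ p =
      ∫ z in ⋃ j ∈ Finset.range M, ball (u j) (θ * R), ‖F z‖ ^ p :=
    (integral_biUnion_finset (Finset.range M) (fun j _ => measurableSet_ball) hdisj
      (fun j _ => hF.int.integrableOn)).symm
  have hUm : MeasurableSet (⋃ j ∈ Finset.range M, ball (u j) (θ * R)) :=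
    Finset.measurableSet_biUnion _ fun j _ => measurableSet_ball
  have hηi : Integrable (fun z => eta (2 * σ * R) z * ‖F z‖ ^ p) := by
    refine hF.int.mono ((continuous_eta hσR).aestronglyMeasurable.mul
      hF.int.aestronglyMeasurable) ?_
    refine Filter.Eventually.of_forall fun z => ?_
    rw [norm_mul, Real.norm_of_nonneg (eta_pos hσR z).le]
    exact mul_le_of_le_one_left (norm_nonneg _) (eta_le_one hσR z)
  have hUle : ∫ z in ⋃ j ∈ Finset.range M, ball (u j) (θ * R), ‖F z‖ ^ p ≤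
      2 * ∫ z in {z : ℂ | 1 - θ * R ≤ ‖z‖}, eta (2 * σ * R) z * ‖F z‖ ^ p := by
    calc ∫ z in ⋃ j ∈ Finset.range M, ball (u j) (θ * R), ‖F z‖ ^ p
        ≤ ∫ z in ⋃ j ∈ Finset.range M, ball (u j) (θ * R),
            2 * (eta (2 * σ * R) z * ‖F z‖ ^ p) := by
          refine setIntegral_mono_on hF.int.integrableOn (hηi.const_mul 2).integrableOn hUm ?_
          intro z hz
          simp only [mem_iUnion] at hz
          obtain ⟨j, hj, hz⟩ := hz
          have hj' := Finset.mem_range.1 hj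
          have h1 : ‖z - u j‖ < θ * R := by rwa [mem_ball, dist_eq_norm] at hz
          have h2 : ‖u j - 1‖ ≤ σ * R := by
            refine (tl_exp_sub_one (s j)).trans ?_
            rw [abs_of_nonneg (hs0 j)]
            exact hsM j hj'
          have h3 : ‖z - 1‖ ≤ 2 * σ * R := by
            have h4 : ‖z - 1‖ ≤ ‖z - u j‖ + ‖u j - 1‖ := by
              have := norm_add_le (z - u j) (u j - 1)
              rwa [sub_add_sub_cancel] at this
            have h5 : θ * R ≤ σ * R := by nlinarith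
            linarith
          have h6 := half_le_eta hσR h3
          have h7 : 0 ≤ ‖F z‖ ^ p := Real.rpow_nonneg (norm_nonneg _) _
          nlinarith
      _ ≤ ∫ z in {z : ℂ | 1 - θ * R ≤ ‖z‖}, 2 * (eta (2 * σ * R) z * ‖F z‖ ^ p) := by
          refine setIntegral_mono_set (hηi.const_mul 2).integrableOn ?_ ?_
          · refine Filter.Eventually.of_forall fun z => ?_
            have h7 : 0 ≤ ‖F z‖ ^ p := Real.rpow_nonneg (norm_nonneg _) _
            have h8 := (eta_pos hσR z).le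
            simp only [Pi.zero_apply]
            positivity
          · refine Filter.Eventually.of_forall ?_
            intro z hz
            have hz' : z ∈ ⋃ j ∈ Finset.range M, ball (u j) (θ * R) := hz
            simp only [mem_iUnion] at hz'
            obtain ⟨j, hj, hz⟩ := hz'
            have h1 : ‖z - u j‖ < θ * R := by rwa [mem_ball, dist_eq_norm] at hz
            have h2 : ‖u j‖ ≤ ‖z‖ + ‖z - u j‖ := by
              have := norm_sub_le z (z - u j)
              rwa [sub_sub_cancel] at this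
            rw [hu1 j] at h2
            show 1 - θ * R ≤ ‖z‖
            linarith
      _ = _ := by rw [integral_const_mul]
  set E : ℝ := ∫ z in ball (1 : ℂ) (θ * R), ‖F z‖ ^ p with hE
  set T : ℝ := ∫ z in {z : ℂ | 1 - θ * R ≤ ‖z‖}, eta (2 * σ * R) z * ‖F z‖ ^ p with hT
  have hT0 : 0 ≤ T := by
    rw [hT]
    refine integral_nonneg fun z => ?_
    exact mul_nonneg (eta_pos hσR z).le (Real.rpow_nonneg (norm_nonneg _) _)
  rw [hunion] at hsum
  have hME : (M : ℝ) * E ≤ 4 * T + M * (4 * N) := by linarith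
  have hMpos : (0 : ℝ) < M := by linarith
  have h1 : E ≤ 4 * T / M + 4 * N := by
    have h2 : E ≤ (4 * T + M * (4 * N)) / M := by
      rw [le_div_iff₀ hMpos]; linarith
    have h3 : (4 * T + M * (4 * N)) / M = 4 * T / M + 4 * N := by
      field_simp
    rw [← h3]; exact h2
  have h4 : 4 * T / M ≤ 64 * (θ / σ) * T := by
    rw [div_le_iff₀ hMpos]
    have h5 : 1 ≤ 16 * (θ / σ) * M := by
      have h6 : x / 2 = σ / (16 * θ) := by rw [hx]; field_simp; ring
      rw [h6] at hMx2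
      calc (1 : ℝ) = 16 * (θ / σ) * (σ / (16 * θ)) := by field_simp
        _ ≤ 16 * (θ / σ) * M := mul_le_mul_of_nonneg_left hMx2 (by positivity)
    nlinarith
  linarith

theorem tl_young {p q : ℝ} (hpq : p.HolderConjugate q) {e κ τ : ℝ} (he : 0 ≤ e) (hκ : 0 ≤ κ)
    (hτ : 0 < τ) : e ^ (1 / p) * κ ^ (1 / q) ≤ τ * e + τ ^ (-(q / p)) * κ := by
  have hp0 : 0 < p := hpq.pos
  have hq0 : 0 < q := hpq.symm.pos
  have hpq1 : 1 / p + 1 / q = 1 := by
    rw [one_div, one_div]; exact hpq.inv_add_inv_eq_one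
  have h1 := Real.geom_mean_le_arith_mean2_weighted (w₁ := 1 / p) (w₂ := 1 / q)
    (p₁ := τ * e) (p₂ := τ ^ (-(q / p)) * κ) (by positivity) (by positivity) (by positivity)
    (by positivity) hpq1
  have h2 : (τ * e) ^ (1 / p) * (τ ^ (-(q / p)) * κ) ^ (1 / q) = e ^ (1 / p) * κ ^ (1 / q) := by
    rw [Real.mul_rpow hτ.le he, Real.mul_rpow (by positivity) hκ, ← Real.rpow_mul hτ.le]
    have h3 : τ ^ (1 / p) * τ ^ (-(q / p) * (1 / q)) = 1 := by
      rw [← Real.rpow_add hτ]
      have : 1 / p + -(q / p) * (1 / q) = 0 := by field_simp; ring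
      rw [this, Real.rpow_zero]
    calc τ ^ (1 / p) * e ^ (1 / p) * (τ ^ (-(q / p) * (1 / q)) * κ ^ (1 / q))
        = (τ ^ (1 / p) * τ ^ (-(q / p) * (1 / q))) * (e ^ (1 / p) * κ ^ (1 / q)) := by ring
      _ = _ := by rw [h3, one_mul]
  rw [h2] at h1
  refine h1.trans ?_
  have hp1 : 1 / p ≤ 1 := by rw [div_le_one hp0]; exact hpq.lt.le
  have hq1 : 1 / q ≤ 1 := by rw [div_le_one hq0]; exact hpq.symm.lt.le
  have h5 : 1 / p * (τ * e) ≤ τ * e := mul_le_of_le_one_left (by positivity) hp1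
  have h6 : 1 / q * (τ ^ (-(q / p)) * κ) ≤ τ ^ (-(q / p)) * κ :=
    mul_le_of_le_one_left (by positivity) hq1
  linarith

theorem one_scale {p q ε : ℝ} (hpq : p.HolderConjugate q) (hε : 0 < ε) (hε1 : ε < 1) :
    ∃ C : ℝ, 0 < C ∧ ∀ θ σ : ℝ, 0 < θ → 8 * θ ≤ σ → σ ≤ 1 / 4 → ∃ C' : ℝ, 0 < C' ∧
      ∀ (F k : ℂ → ℂ), Pair p q F k → ∀ R : ℝ, 0 < R → R ≤ 1 / 2 →
      ∫ z in ball (1 : ℂ) (θ * R), ‖F z‖ ^ p ≤
        C * (θ / σ) ^ (2 - ε) * ee p (2 * σ * R) F + C * σ ^ (2 - 2 * ε) * ee p R F +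
          C' * (ee q (2 * σ * R) k + ee q R k) := by
  obtain ⟨C1, hC1, hstrip⟩ := strip hpq hε hε1
  obtain ⟨C2, hC2, htang⟩ := tang hpq hε hε1
  refine ⟨128 * C1 + 8 * C2, by positivity, ?_⟩
  intro θ σ hθ hθσ hσ
  have hσ0 : 0 < σ := by linarith
  have ha0 : 0 < θ / σ := div_pos hθ hσ0
  set a : ℝ := θ / σ with ha
  set τ1 : ℝ := a ^ (1 - ε) with hτ1
  set τ2 : ℝ := σ ^ (2 - 2 * ε) with hτ2
  have hτ1p : 0 < τ1 := Real.rpow_pos_of_pos ha0 _
  have hτ2p : 0 < τ2 := Real.rpow_pos_of_pos hσ0 _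
  have haa : a * τ1 = a ^ (2 - ε) := by
    rw [hτ1]
    calc a * a ^ (1 - ε) = a ^ (1 : ℝ) * a ^ (1 - ε) := by rw [Real.rpow_one]
      _ = a ^ (2 - ε) := by rw [← Real.rpow_add ha0]; congr 1; ring
  set K1 : ℝ := 64 * C1 * a ^ (2 - ε) + 64 * C1 * a * τ1 ^ (-(q / p)) with hK1
  set K2 : ℝ := 4 * C2 * τ2 + 4 * C2 * τ2 ^ (-(q / p)) with hK2
  have hK1p : 0 < K1 := by positivity
  have hK2p : 0 < K2 := by positivity
  refine ⟨K1 + K2, by positivity, ?_⟩
  intro F k h R hR hR1
  have hσR : 0 < 2 * σ * R := by positivity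
  have hnn : ∀ {p R : ℝ} {G : ℂ → ℂ}, 0 < R → 0 ≤ ee p R G := fun {p R G} hR =>
    integral_nonneg fun z => mul_nonneg (eta_pos hR z).le (Real.rpow_nonneg (norm_nonneg _) _)
  set e : ℝ := ee p R F with he
  set κ : ℝ := ee q R k with hκ
  set e1 : ℝ := ee p (2 * σ * R) F with he1
  set κ1 : ℝ := ee q (2 * σ * R) k with hκ1
  have he0 : 0 ≤ e := hnn hR
  have hκ0 : 0 ≤ κ := hnn hR
  have he10 : 0 ≤ e1 := hnn hσR
  have hκ10 : 0 ≤ κ1 := hnn hσR
  have hN : ∀ s : ℝ, 0 ≤ s → s ≤ σ * R → nn p R (Complex.exp (s * I)) F ≤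
      C2 * τ2 * (e + κ) + C2 * (e ^ (1 / p) * κ ^ (1 / q)) := by
    intro s hs hsR
    have h1 := htang F k h R s hs (by nlinarith) hR (by linarith)
    refine h1.trans ?_
    have h2 : (s / R) ^ (2 - 2 * ε) ≤ τ2 := by
      refine Real.rpow_le_rpow (by positivity) ?_ (by linarith)
      rw [div_le_iff₀ hR]; exact hsR
    have h3 : C2 * (s / R) ^ (2 - 2 * ε) * (e + κ) ≤ C2 * τ2 * (e + κ) := by
      gcongr
    linarith
  have htile := tile (by exact hpq.lt) h.hF hθ hθσ hσ hR hR1 hN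
  have hst := hstrip F k h (2 * σ * R) (θ * R) (by positivity) (by nlinarith) (by nlinarith)
  have h1 : (θ * R / (2 * σ * R)) ^ (1 - ε) ≤ τ1 := by
    refine Real.rpow_le_rpow (by positivity) ?_ (by linarith)
    have : θ * R / (2 * σ * R) = a / 2 := by rw [ha]; field_simp
    rw [this]; linarith
  set T : ℝ := ∫ z in {z : ℂ | 1 - θ * R ≤ ‖z‖}, eta (2 * σ * R) z * ‖F z‖ ^ p with hT
  have hT1 : T ≤ C1 * τ1 * (e1 + κ1) + C1 * (e1 ^ (1 / p) * κ1 ^ (1 / q)) := by
    refine hst.trans ?_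
    gcongr
  have hy1 := tl_young hpq he10 hκ10 hτ1p
  have hy2 := tl_young hpq he0 hκ0 hτ2p
  have hT2 : T ≤ C1 * τ1 * (e1 + κ1) + C1 * (τ1 * e1 + τ1 ^ (-(q / p)) * κ1) := by
    have := mul_le_mul_of_nonneg_left hy1 hC1.le
    linarith
  have hN2 : C2 * τ2 * (e + κ) + C2 * (e ^ (1 / p) * κ ^ (1 / q)) ≤
      C2 * τ2 * (e + κ) + C2 * (τ2 * e + τ2 ^ (-(q / p)) * κ) := by
    have := mul_le_mul_of_nonneg_left hy2 hC2.le
    linarith
  calc ∫ z in ball (1 : ℂ) (θ * R), ‖F z‖ ^ p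
      ≤ 64 * a * T + 4 * (C2 * τ2 * (e + κ) + C2 * (e ^ (1 / p) * κ ^ (1 / q))) := htile
    _ ≤ 64 * a * (C1 * τ1 * (e1 + κ1) + C1 * (τ1 * e1 + τ1 ^ (-(q / p)) * κ1)) +
        4 * (C2 * τ2 * (e + κ) + C2 * (τ2 * e + τ2 ^ (-(q / p)) * κ)) := by
        have := mul_le_mul_of_nonneg_left hT2 (by positivity : (0 : ℝ) ≤ 64 * a)
        linarith
    _ = 128 * C1 * (a * τ1) * e1 + 8 * C2 * τ2 * e +
        ((64 * C1 * (a * τ1) + 64 * C1 * a * τ1 ^ (-(q / p))) * κ1 + K2 * κ) := by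
        rw [hK2]; ring
    _ = 128 * C1 * a ^ (2 - ε) * e1 + 8 * C2 * τ2 * e + (K1 * κ1 + K2 * κ) := by
        rw [haa]
    _ ≤ (128 * C1 + 8 * C2) * a ^ (2 - ε) * e1 + (128 * C1 + 8 * C2) * τ2 * e +
        (K1 + K2) * (κ1 + κ) := by
        have h2 : 0 ≤ 8 * C2 * a ^ (2 - ε) * e1 := by positivity
        have h3 : 0 ≤ 128 * C1 * τ2 * e := by positivity
        have h4 : 0 ≤ K1 * κ := by positivity
        have h5 : 0 ≤ K2 * κ1 := by positivity
        nlinarith

end

end BergmanReg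
end

section

/-!
# The core theorem: integration over scales and boundary points
-/

namespace BergmanReg

open MeasureTheory Metric Set Filter Topology Complex
open scoped ENNReal NNReal ComplexConjugate

noncomputable section

/-- polar coordinates with the angular integral outside -/
theorem core_polar {f : ℂ → ℝ≥0∞} (hf : Measurable f) :
    ∫⁻ z, f z = ∫⁻ t in Ioo (-Real.pi) Real.pi, ∫⁻ ρ in Ioi (0 : ℝ),
      ENNReal.ofReal ρ * f (ρ * Complex.exp (t * I)) := by
  rw [← Complex.lintegral_comp_polarCoord_symm f]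
  have htar : polarCoord.target = Ioi (0 : ℝ) ×ˢ Ioo (-Real.pi) Real.pi := rfl
  rw [htar]
  have hvol : (volume : Measure (ℝ × ℝ)) = (volume : Measure ℝ).prod volume := rfl
  rw [hvol, ← Measure.prod_restrict]
  have hmeas : Measurable fun p : ℝ × ℝ =>
      ENNReal.ofReal p.1 • f (Complex.polarCoord.symm p) := by
    have h1 : Measurable fun p : ℝ × ℝ => Complex.polarCoord.symm p := by
      have : (fun p : ℝ × ℝ => Complex.polarCoord.symm p) =
          fun p : ℝ × ℝ => (p.1 : ℂ) * (Real.cos p.2 + Real.sin p.2 * Complex.I) := by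
        funext p
        exact Complex.polarCoord_symm_apply p
      rw [this]
      fun_prop
    exact (measurable_fst.ennreal_ofReal).smul (hf.comp h1)
  rw [lintegral_prod_symm' _ hmeas]
  refine lintegral_congr fun t => lintegral_congr fun ρ => ?_
  rw [smul_eq_mul, Complex.polarCoord_symm_apply]
  congr 3
  rw [Complex.exp_mul_I, Complex.ofReal_cos, Complex.ofReal_sin]

theorem core_polar_le {f g : ℂ → ℝ≥0∞} (hf : Measurable f) (hg : Measurable g) (K m : ℝ≥0∞)
    (h : ∀ u : ℂ, ‖u‖ = 1 → ∫⁻ ρ in Ioi (0 : ℝ), ENNReal.ofReal ρ * f (ρ * u) ≤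
      K * m + K * ∫⁻ ρ in Ioi (0 : ℝ), ENNReal.ofReal ρ * g (ρ * u)) :
    ∫⁻ z, f z ≤ ENNReal.ofReal (2 * Real.pi) * (K * m) + K * ∫⁻ z, g z := by
  rw [core_polar hf, core_polar hg]
  have h1 : ∫⁻ t in Ioo (-Real.pi) Real.pi, ∫⁻ ρ in Ioi (0 : ℝ),
      ENNReal.ofReal ρ * f (ρ * Complex.exp (t * I)) ≤
      ∫⁻ t in Ioo (-Real.pi) Real.pi, (K * m + K * ∫⁻ ρ in Ioi (0 : ℝ),
        ENNReal.ofReal ρ * g (ρ * Complex.exp (t * I))) :=
    lintegral_mono fun t => h _ (Complex.norm_exp_ofReal_mul_I t)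
  refine h1.trans ?_
  rw [lintegral_add_left measurable_const]
  have hmg : Measurable fun t : ℝ => ∫⁻ ρ in Ioi (0 : ℝ),
      ENNReal.ofReal ρ * g (ρ * Complex.exp (t * I)) := by
    have h2 : Measurable fun p : ℝ × ℝ =>
        ENNReal.ofReal p.2 * g (p.2 * Complex.exp (p.1 * I)) := by
      have h3 : Measurable fun p : ℝ × ℝ => ((p.2 : ℂ) * Complex.exp (p.1 * I)) := by fun_prop
      exact (measurable_snd.ennreal_ofReal).mul (hg.comp h3)
    exact h2.lintegral_prod_right'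
  rw [lintegral_const_mul K hmg]
  gcongr
  rw [setLIntegral_const, Real.volume_Ioo, mul_comm]
  gcongr
  · apply le_of_eq
    ring

theorem core_lint_mul {a : ℝ} (ha : a ≠ 0) (f : ℝ → ℝ≥0∞) :
    ∫⁻ x, f (a * x) = ENNReal.ofReal |a⁻¹| * ∫⁻ x, f x := by
  have h1 := Real.map_volume_mul_left ha
  have h2 := (Homeomorph.mulLeft₀ a ha).toMeasurableEquiv.measurableEmbedding.lintegral_map
    (μ := volume) f
  have h3 : ⇑((Homeomorph.mulLeft₀ a ha).toMeasurableEquiv) = (a * ·) := rfl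
  rw [h3] at h2
  rw [← h2, h1, lintegral_smul_measure, smul_eq_mul]

theorem core_lint_sub (b : ℝ) (f : ℝ → ℝ≥0∞) :
    ∫⁻ x, f (b - x) = ∫⁻ x, f x := by
  exact lintegral_sub_left_eq_self f b

/-- the change of variables `h = 2 (1 - ρ)` -/
theorem core_cv1 (φ : ℝ → ℝ≥0∞) :
    ∫⁻ ρ in Ioo (0 : ℝ) 1, φ (2 * (1 - ρ)) ≤ ∫⁻ h in Ioi (0 : ℝ), φ h := by
  rw [← lintegral_indicator measurableSet_Ioo, ← lintegral_indicator measurableSet_Ioi]
  have h1 := core_lint_sub 1 (fun x => (Ioi (0 : ℝ)).indicator φ (2 * x))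
  have h2 := core_lint_mul (a := 2) (by norm_num) ((Ioi (0 : ℝ)).indicator φ)
  calc ∫⁻ ρ, (Ioo (0 : ℝ) 1).indicator (fun ρ => φ (2 * (1 - ρ))) ρ
      ≤ ∫⁻ ρ, (Ioi (0 : ℝ)).indicator φ (2 * (1 - ρ)) := by
        refine lintegral_mono fun ρ => ?_
        by_cases hρ : ρ ∈ Ioo (0 : ℝ) 1
        · rw [indicator_of_mem hρ, indicator_of_mem]
          simp only [mem_Ioi]
          linarith [hρ.2]
        · rw [indicator_of_notMem hρ]
          exact zero_le
    _ = ENNReal.ofReal |(2 : ℝ)⁻¹| * ∫⁻ x, (Ioi (0 : ℝ)).indicator φ x := by rw [h1, h2]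
    _ ≤ 1 * ∫⁻ x, (Ioi (0 : ℝ)).indicator φ x := by
        gcongr
        rw [← ENNReal.ofReal_one]
        apply ENNReal.ofReal_le_ofReal
        rw [abs_of_pos (by norm_num)]
        norm_num
    _ = _ := one_mul _

/-- the change of variables `S = a R`, `0 < a ≤ 1` -/
theorem core_cv2 {a : ℝ} (ha : 0 < a) (ha1 : a ≤ 1) (φ : ℝ → ℝ≥0∞) :
    ∫⁻ R in Ioc (0 : ℝ) (1 / 2), φ (a * R) ≤
      ENNReal.ofReal a⁻¹ * ∫⁻ R in Ioc (0 : ℝ) (1 / 2), φ R := by
  rw [← lintegral_indicator measurableSet_Ioc, ← lintegral_indicator measurableSet_Ioc]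
  have h2 := core_lint_mul (a := a) ha.ne' ((Ioc (0 : ℝ) (1 / 2)).indicator φ)
  rw [abs_of_pos (inv_pos.mpr ha)] at h2
  rw [← h2]
  refine lintegral_mono fun R => ?_
  by_cases hR : R ∈ Ioc (0 : ℝ) (1 / 2)
  · rw [indicator_of_mem hR, indicator_of_mem]
    refine ⟨mul_pos ha hR.1, ?_⟩
    nlinarith [hR.1, hR.2]
  · rw [indicator_of_notMem hR]
    exact zero_le

/-- the change of variables `ρ = 1 - R` -/
theorem core_cv3 (φ : ℝ → ℝ≥0∞) :
    ∫⁻ R in Ioc (0 : ℝ) (1 / 2), φ (1 - R) ≤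
      2 * ∫⁻ ρ in Ioi (0 : ℝ), ENNReal.ofReal ρ * (Iio (1 : ℝ)).indicator φ ρ := by
  rw [← lintegral_const_mul' _ _ (by simp), ← lintegral_indicator measurableSet_Ioc,
    ← lintegral_indicator measurableSet_Ioi]
  rw [← core_lint_sub 1]
  refine lintegral_mono fun ρ => ?_
  by_cases hR : 1 - ρ ∈ Ioc (0 : ℝ) (1 / 2)
  · rw [indicator_of_mem hR]
    have h0 : (0 : ℝ) < ρ := by linarith [hR.2]
    have h12 : (1 / 2 : ℝ) ≤ ρ := by linarith [hR.2]
    have h1 : ρ < 1 := by linarith [hR.1]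
    rw [indicator_of_mem (by exact h0), indicator_of_mem (by exact h1)]
    rw [sub_sub_cancel, ← mul_assoc]
    have h3 : (1 : ℝ≥0∞) ≤ 2 * ENNReal.ofReal ρ := by
      have : (2 : ℝ≥0∞) = ENNReal.ofReal 2 := by simp
      rw [this, ← ENNReal.ofReal_mul (by norm_num), ← ENNReal.ofReal_one]
      exact ENNReal.ofReal_le_ofReal (by linarith)
    calc φ ρ = 1 * φ ρ := (one_mul _).symm
      _ ≤ _ := by gcongr
  · rw [indicator_of_notMem hR]
    exact zero_le

theorem core_measurable_ee {q : ℝ} {k : ℂ → ℂ} (hk : Measurable k) :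
    Measurable fun R : ℝ => ee q R k := by
  have h1 : Measurable fun x : ℝ × ℂ => eta x.1 x.2 * ‖k x.2‖ ^ q := by
    unfold eta
    have h2 : Measurable fun x : ℝ × ℂ => ‖k x.2‖ ^ q := by fun_prop
    have h3 : Measurable fun x : ℝ × ℂ => x.1 ^ 2 / (x.1 ^ 2 + ‖x.2 - 1‖ ^ 2) := by fun_prop
    exact h3.mul h2
  exact (h1.stronglyMeasurable.integral_prod_right').measurable

theorem core_ee_nonneg (p R : ℝ) (F : ℂ → ℂ) : 0 ≤ ee p R F := by
  unfold ee
  refine integral_nonneg fun z => ?_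
  have : 0 ≤ eta R z := by unfold eta; positivity
  positivity

/-- the kernel integral -/
def core_B (q : ℝ) (k : ℂ → ℂ) (z : ℂ) : ℝ≥0∞ :=
  ∫⁻ w in ball (0 : ℂ) 1, ENNReal.ofReal ((‖1 - conj z * w‖ ^ 2)⁻¹) * ‖k w‖ₑ ^ q

/-- the scale integral of `|F|^p` at a boundary point -/
theorem core_scale {p q r : ℝ} (hpq : p.HolderConjugate q) (hr : 1 < r) :
    ∃ (σ : ℝ) (C : ℝ), 0 < σ ∧ σ ≤ 1 / 4 ∧ 0 < C ∧ ∀ (F k : ℂ → ℂ), Pair p q F k →
      ∫⁻ h in Ioi (0 : ℝ), (ENNReal.ofReal (h ^ 2)⁻¹ *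
          ENNReal.ofReal (∫ z in ball (1 : ℂ) h, ‖F z‖ ^ p)) ^ r ≤
        ENNReal.ofReal C * ((ENNReal.ofReal (∫ z, ‖F z‖ ^ p)) ^ r +
          ∫⁻ R in Ioc (0 : ℝ) (1 / 2), (ENNReal.ofReal (R ^ 2)⁻¹ *
            ENNReal.ofReal (ee q (2 * σ * R) k + ee q R k)) ^ r) := by
  have hr0 : 0 < r := by linarith
  have hε : 0 < 1 / (8 * r) := by positivity
  have hε1 : 1 / (8 * r) < 1 := by
    rw [div_lt_one (by positivity)]
    linarith
  obtain ⟨C, hC, h1⟩ := one_scale hpq hε hε1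
  obtain ⟨θ, σ, hθ, h8, hσ, h2⟩ := absorb hr hC rfl
  obtain ⟨C', hC', h3⟩ := h1 θ σ hθ h8 hσ
  obtain ⟨C'', hC'', h4⟩ := h2 C' hC'
  have hσ0 : 0 < σ := by linarith
  refine ⟨σ, C'', hσ0, hσ, hC'', fun F k hP => ?_⟩
  have hp : 0 < p := hpq.pos
  have hFm := hP.hF.int
  refine h4 (fun h => ENNReal.ofReal (∫ z in ball (1 : ℂ) h, ‖F z‖ ^ p))
    (fun R => ENNReal.ofReal (ee p R F))
    (fun R => ENNReal.ofReal (ee q (2 * σ * R) k + ee q R k))
    (ENNReal.ofReal (∫ z, ‖F z‖ ^ p)) ?_ ?_ ENNReal.ofReal_ne_top ?_ ?_ ?_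
  · intro a b hab
    apply ENNReal.ofReal_le_ofReal
    apply setIntegral_mono_set hFm.integrableOn
    · exact ae_of_all _ fun z => by positivity
    · exact (ball_subset_ball hab).eventuallyLE
  · intro h
    apply ENNReal.ofReal_le_ofReal
    apply setIntegral_le_integral hFm
    exact ae_of_all _ fun z => by positivity
  · have hm := core_measurable_ee (q := q) hP.hk.meas
    have h5 : Measurable fun R : ℝ => ee q (2 * σ * R) k := by
      exact hm.comp (measurable_const.mul measurable_id)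
    exact (h5.add hm).ennreal_ofReal
  · intro R hR
    exact ee_dyadic hFm hR
  · intro R hR hR2
    have h6 := h3 F k hP R hR hR2
    have e1 := core_ee_nonneg p (2 * σ * R) F
    have e2 := core_ee_nonneg p R F
    have e3 : 0 ≤ ee q (2 * σ * R) k + ee q R k :=
      add_nonneg (core_ee_nonneg _ _ _) (core_ee_nonneg _ _ _)
    have hc1 : 0 ≤ C * (θ / σ) ^ (2 - 1 / (8 * r)) := by positivity
    have hc2 : 0 ≤ C * σ ^ (2 - 2 * (1 / (8 * r))) := by positivity
    calc ENNReal.ofReal (∫ z in ball (1 : ℂ) (θ * R), ‖F z‖ ^ p)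
        ≤ ENNReal.ofReal (C * (θ / σ) ^ (2 - 1 / (8 * r)) * ee p (2 * σ * R) F +
          C * σ ^ (2 - 2 * (1 / (8 * r))) * ee p R F +
          C' * (ee q (2 * σ * R) k + ee q R k)) := ENNReal.ofReal_le_ofReal h6
      _ = _ := by
        rw [ENNReal.ofReal_add (by positivity) (by positivity),
          ENNReal.ofReal_add (by positivity) (by positivity),
          ENNReal.ofReal_mul hc1, ENNReal.ofReal_mul hc2, ENNReal.ofReal_mul hC'.le]

theorem core_add_rpow (a b : ℝ≥0∞) {r : ℝ} (hr : 0 < r) :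
    (a + b) ^ r ≤ 2 ^ r * (a ^ r + b ^ r) := by
  rcases le_total a b with h | h
  · calc (a + b) ^ r ≤ (2 * b) ^ r := by
          apply ENNReal.rpow_le_rpow _ hr.le
          rw [two_mul]
          gcongr
      _ = 2 ^ r * b ^ r := ENNReal.mul_rpow_of_nonneg _ _ hr.le
      _ ≤ _ := by gcongr; exact le_add_self
  · calc (a + b) ^ r ≤ (2 * a) ^ r := by
          apply ENNReal.rpow_le_rpow _ hr.le
          rw [two_mul]
          gcongr
      _ = 2 ^ r * a ^ r := ENNReal.mul_rpow_of_nonneg _ _ hr.le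
      _ ≤ _ := by gcongr; exact le_self_add

theorem core_bpart {q r σ : ℝ} (hr : 0 < r) (hσ : 0 < σ) (hσ4 : σ ≤ 1 / 4) {k : ℂ → ℂ}
    (hk : Measurable k) :
    ∫⁻ R in Ioc (0 : ℝ) (1 / 2), (ENNReal.ofReal (R ^ 2)⁻¹ *
        ENNReal.ofReal (ee q (2 * σ * R) k + ee q R k)) ^ r ≤
      2 ^ r * (ENNReal.ofReal (2 * σ)⁻¹ + 1) *
        ∫⁻ R in Ioc (0 : ℝ) (1 / 2), (ENNReal.ofReal ((R ^ 2)⁻¹ * ee q R k)) ^ r := by
  set φ : ℝ → ℝ≥0∞ := fun R => (ENNReal.ofReal ((R ^ 2)⁻¹ * ee q R k)) ^ r with hφ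
  have hφm : Measurable φ := by
    have h1 := core_measurable_ee (q := q) hk
    have h2 : Measurable fun R : ℝ => (R ^ 2)⁻¹ * ee q R k := by
      exact (by fun_prop : Measurable fun R : ℝ => (R ^ 2)⁻¹).mul h1
    exact h2.ennreal_ofReal.pow_const r
  have h1 : ∫⁻ R in Ioc (0 : ℝ) (1 / 2), (ENNReal.ofReal (R ^ 2)⁻¹ *
        ENNReal.ofReal (ee q (2 * σ * R) k + ee q R k)) ^ r ≤
      ∫⁻ R in Ioc (0 : ℝ) (1 / 2), 2 ^ r * (φ (2 * σ * R) + φ R) := by
    refine setLIntegral_mono' measurableSet_Ioc fun R hR => ?_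
    have hR0 : 0 < R := hR.1
    have e1 := core_ee_nonneg q (2 * σ * R) k
    have e2 := core_ee_nonneg q R k
    calc (ENNReal.ofReal (R ^ 2)⁻¹ * ENNReal.ofReal (ee q (2 * σ * R) k + ee q R k)) ^ r
        ≤ (ENNReal.ofReal (((2 * σ * R) ^ 2)⁻¹ * ee q (2 * σ * R) k) +
            ENNReal.ofReal ((R ^ 2)⁻¹ * ee q R k)) ^ r := by
          apply ENNReal.rpow_le_rpow _ hr.le
          rw [← ENNReal.ofReal_mul (by positivity), mul_add,
            ENNReal.ofReal_add (by positivity) (by positivity)]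
          gcongr
          have : (2 * σ * R) ≤ R := by nlinarith
          exact this
      _ ≤ _ := core_add_rpow _ _ hr
  refine h1.trans ?_
  have hm2 : Measurable fun R => φ (2 * σ * R) := hφm.comp (measurable_const.mul measurable_id)
  rw [lintegral_const_mul' _ _ (ENNReal.rpow_ne_top_of_nonneg hr.le (by simp)),
    lintegral_add_left hm2, mul_assoc]
  gcongr
  rw [add_mul, one_mul]
  gcongr
  exact core_cv2 (by positivity) (by linarith) φ

theorem core_ray {p q r : ℝ} (hpq : p.HolderConjugate q) (hr : 1 < r) :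
    ∃ K : ℝ≥0∞, K ≠ ⊤ ∧ ∀ (F k : ℂ → ℂ), Pair p q F k → ∀ u : ℂ, ‖u‖ = 1 →
      ∫⁻ ρ in Ioi (0 : ℝ), ENNReal.ofReal ρ * (‖F (ρ * u)‖ₑ ^ p) ^ r ≤
        K * (ENNReal.ofReal (∫ z, ‖F z‖ ^ p)) ^ r +
          K * ∫⁻ ρ in Ioi (0 : ℝ), ENNReal.ofReal ρ *
            (ball (0 : ℂ) 1).indicator (fun z => core_B q k z ^ r) (ρ * u) := by
  have hr0 : 0 < r := by linarith
  have hp : 1 < p := hpq.lt
  have hq : 1 < q := hpq.symm.lt
  obtain ⟨σ, C, hσ, hσ4, hC, h1⟩ := core_scale hpq hr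
  set K1 : ℝ≥0∞ := 4 ^ r * ENNReal.ofReal C with hK1
  set K2 : ℝ≥0∞ := 2 ^ r * (ENNReal.ofReal (2 * σ)⁻¹ + 1) with hK2
  set K3 : ℝ≥0∞ := 2 ^ r * 2 with hK3
  have hK1t : K1 ≠ ⊤ := ENNReal.mul_ne_top (ENNReal.rpow_ne_top_of_nonneg hr0.le (by simp))
    ENNReal.ofReal_ne_top
  have hK2t : K2 ≠ ⊤ := ENNReal.mul_ne_top (ENNReal.rpow_ne_top_of_nonneg hr0.le (by simp))
    (by simp)
  have hK3t : K3 ≠ ⊤ := ENNReal.mul_ne_top (ENNReal.rpow_ne_top_of_nonneg hr0.le (by simp))
    (by simp)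
  refine ⟨K1 * (1 + K2 * K3), ENNReal.mul_ne_top hK1t
    (ENNReal.add_ne_top.mpr ⟨by simp, ENNReal.mul_ne_top hK2t hK3t⟩), fun F k hP u hu => ?_⟩
  have hu0 : u ≠ 0 := by
    intro h
    rw [h, norm_zero] at hu
    norm_num at hu
  have hP' := pair_rot hpq hP hu
  have h2 := h1 _ _ hP'
  -- the mean value step
  have s1 : ∫⁻ ρ in Ioi (0 : ℝ), ENNReal.ofReal ρ * (‖F (ρ * u)‖ₑ ^ p) ^ r ≤
      4 ^ r * ∫⁻ h in Ioi (0 : ℝ), (ENNReal.ofReal (h ^ 2)⁻¹ *
          ENNReal.ofReal (∫ z in ball (1 : ℂ) h, ‖F (u * z)‖ ^ p)) ^ r := by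
    set φ : ℝ → ℝ≥0∞ := fun h => (ENNReal.ofReal (h ^ 2)⁻¹ *
          ENNReal.ofReal (∫ z in ball (1 : ℂ) h, ‖F (u * z)‖ ^ p)) ^ r with hφ
    calc ∫⁻ ρ in Ioi (0 : ℝ), ENNReal.ofReal ρ * (‖F (ρ * u)‖ₑ ^ p) ^ r
        ≤ ∫⁻ ρ in Ioo (0 : ℝ) 1, 4 ^ r * φ (2 * (1 - ρ)) := by
          rw [← lintegral_indicator measurableSet_Ioi, ← lintegral_indicator measurableSet_Ioo]
          refine lintegral_mono fun ρ => ?_
          by_cases hρ : ρ ∈ Ioo (0 : ℝ) 1
          · rw [indicator_of_mem hρ, indicator_of_mem (by exact hρ.1)]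
            have hm := mean_val hp hP'.hF hρ.1.le hρ.2
            have hm2 : ‖F (ρ * u)‖ₑ ^ p ≤ 4 * (ENNReal.ofReal ((2 * (1 - ρ)) ^ 2)⁻¹ *
                ENNReal.ofReal (∫ z in ball (1 : ℂ) (2 * (1 - ρ)), ‖F (u * z)‖ ^ p)) := by
              rw [← ofReal_norm, ENNReal.ofReal_rpow_of_nonneg (norm_nonneg _)
                (by linarith), mul_comm (ρ : ℂ) u]
              calc ENNReal.ofReal (‖F (u * ρ)‖ ^ p)
                  ≤ ENNReal.ofReal (4 * ((2 * (1 - ρ)) ^ 2)⁻¹ *
                    ∫ z in ball (1 : ℂ) (2 * (1 - ρ)), ‖F (u * z)‖ ^ p) :=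
                    ENNReal.ofReal_le_ofReal hm
                _ = _ := by
                    rw [mul_assoc, ENNReal.ofReal_mul (by norm_num),
                      ENNReal.ofReal_mul (by positivity)]
                    norm_num
            have h5 : ENNReal.ofReal ρ ≤ 1 := by
              rw [← ENNReal.ofReal_one]
              exact ENNReal.ofReal_le_ofReal hρ.2.le
            calc ENNReal.ofReal ρ * (‖F (ρ * u)‖ₑ ^ p) ^ r
                ≤ 1 * (4 * (ENNReal.ofReal ((2 * (1 - ρ)) ^ 2)⁻¹ *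
                ENNReal.ofReal (∫ z in ball (1 : ℂ) (2 * (1 - ρ)), ‖F (u * z)‖ ^ p))) ^ r := by
                  gcongr
              _ = _ := by
                  rw [one_mul, ENNReal.mul_rpow_of_nonneg _ _ hr0.le]
          · rw [indicator_of_notMem hρ]
            by_cases hρ0 : 0 < ρ
            · have hρ1 : 1 ≤ ρ := by
                by_contra hc
                exact hρ ⟨hρ0, not_le.mp hc⟩
              rw [indicator_of_mem (by exact hρ0), hP.hF.zero (ρ * u)]
              · rw [enorm_zero, ENNReal.zero_rpow_of_pos (by linarith),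
                  ENNReal.zero_rpow_of_pos hr0, mul_zero]
              · rw [mem_ball_zero_iff, norm_mul, hu, mul_one, Complex.norm_real,
                  Real.norm_eq_abs, abs_of_pos hρ0]
                exact not_lt.mpr hρ1
            · rw [indicator_of_notMem (by exact hρ0)]
      _ = 4 ^ r * ∫⁻ ρ in Ioo (0 : ℝ) 1, φ (2 * (1 - ρ)) :=
          lintegral_const_mul' _ _ (ENNReal.rpow_ne_top_of_nonneg hr0.le (by simp))
      _ ≤ _ := mul_le_mul' le_rfl (core_cv1 φ)
  -- the boundary term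
  have s2 := core_bpart (q := q) hr0 hσ hσ4 hP'.hk.meas
  have s3 : ∫⁻ R in Ioc (0 : ℝ) (1 / 2),
        (ENNReal.ofReal ((R ^ 2)⁻¹ * ee q R (fun z => k (u * z)))) ^ r ≤
      K3 * ∫⁻ ρ in Ioi (0 : ℝ), ENNReal.ofReal ρ *
            (ball (0 : ℂ) 1).indicator (fun z => core_B q k z ^ r) (ρ * u) := by
    set ψ : ℝ → ℝ≥0∞ := fun ρ => core_B q k (ρ * u) ^ r with hψ
    calc ∫⁻ R in Ioc (0 : ℝ) (1 / 2),
        (ENNReal.ofReal ((R ^ 2)⁻¹ * ee q R (fun z => k (u * z)))) ^ r
        ≤ ∫⁻ R in Ioc (0 : ℝ) (1 / 2), 2 ^ r * ψ (1 - R) := by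
          refine setLIntegral_mono' measurableSet_Ioc fun R hR => ?_
          have h6 := kappa_le hq hP.hk hu hR.1 (by linarith [hR.2])
          calc _ ≤ (2 * ∫⁻ w in ball (0 : ℂ) 1,
              ENNReal.ofReal ((‖1 - conj (((1 - R : ℝ) : ℂ) * u) * w‖ ^ 2)⁻¹) *
                ‖k w‖ₑ ^ q) ^ r := ENNReal.rpow_le_rpow h6 hr0.le
            _ = _ := ENNReal.mul_rpow_of_nonneg _ _ hr0.le
      _ = 2 ^ r * ∫⁻ R in Ioc (0 : ℝ) (1 / 2), ψ (1 - R) :=
          lintegral_const_mul' _ _ (ENNReal.rpow_ne_top_of_nonneg hr0.le (by simp))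
      _ ≤ 2 ^ r * (2 * ∫⁻ ρ in Ioi (0 : ℝ), ENNReal.ofReal ρ * (Iio (1 : ℝ)).indicator ψ ρ) := by
          gcongr
          exact core_cv3 ψ
      _ = K3 * ∫⁻ ρ in Ioi (0 : ℝ), ENNReal.ofReal ρ * (Iio (1 : ℝ)).indicator ψ ρ := by
          rw [hK3, mul_assoc]
      _ = _ := by
          congr 1
          refine setLIntegral_congr_fun measurableSet_Ioi fun ρ hρ => ?_
          have hρ0 : 0 < ρ := hρ
          have hn : ‖(ρ : ℂ) * u‖ = ρ := by
            rw [norm_mul, hu, mul_one, Complex.norm_real, Real.norm_eq_abs, abs_of_pos hρ0]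
          congr 1
          by_cases h1 : ρ < 1
          · rw [indicator_of_mem (by exact h1), indicator_of_mem]
            rw [mem_ball_zero_iff, hn]
            exact h1
          · rw [indicator_of_notMem (by exact h1), indicator_of_notMem]
            rw [mem_ball_zero_iff, hn]
            exact h1
  have s4 : ∫ z, ‖F (u * z)‖ ^ p = ∫ z, ‖F z‖ ^ p := by
    rw [integral_comp_mul hu0 (fun z => ‖F z‖ ^ p), hu]
    simp
  rw [s4] at h2
  set X := ∫⁻ ρ in Ioi (0 : ℝ), ENNReal.ofReal ρ *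
            (ball (0 : ℂ) 1).indicator (fun z => core_B q k z ^ r) (ρ * u)
  set M := (ENNReal.ofReal (∫ z, ‖F z‖ ^ p)) ^ r
  calc _ ≤ 4 ^ r * (ENNReal.ofReal C * (M + K2 * (K3 * X))) := by
        refine s1.trans ?_
        gcongr
        refine h2.trans ?_
        gcongr
        exact s2.trans (by gcongr)
    _ = K1 * M + K1 * (K2 * K3) * X := by rw [hK1]; ring
    _ ≤ K1 * (1 + K2 * K3) * M + K1 * (1 + K2 * K3) * X := by
        gcongr
        · calc K1 = K1 * 1 := (mul_one _).symm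
            _ ≤ _ := by gcongr; exact le_self_add
        · exact le_add_self

theorem core_measurable_B {q : ℝ} {k : ℂ → ℂ} (hk : Measurable k) :
    Measurable (core_B q k) := by
  have h1 : Measurable fun x : ℂ × ℂ => ENNReal.ofReal ((‖1 - conj x.1 * x.2‖ ^ 2)⁻¹) *
      ‖k x.2‖ₑ ^ q := by
    have h2 : Measurable fun x : ℂ × ℂ => conj x.1 := Complex.continuous_conj.measurable.comp
      measurable_fst
    have h3 : Measurable fun x : ℂ × ℂ => (‖1 - conj x.1 * x.2‖ ^ 2)⁻¹ := by fun_prop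
    have h4 : Measurable fun x : ℂ × ℂ => ‖k x.2‖ₑ ^ q := by fun_prop
    exact h3.ennreal_ofReal.mul h4
  exact h1.lintegral_prod_right'

theorem core {p q r : ℝ} (hpq : p.HolderConjugate q) (hr : 1 < r) {F k : ℂ → ℂ}
    (h : Pair p q F k) (hk : ∫⁻ w, (‖k w‖ₑ ^ q) ^ r < ⊤) :
    ∫⁻ z, (‖F z‖ₑ ^ p) ^ r < ⊤ := by
  have hr0 : 0 < r := by linarith
  obtain ⟨K, hK, h1⟩ := core_ray hpq hr
  obtain ⟨C, hC, h2⟩ := forelli_rudin hr
  have hFm := inAp_measurable h.hF
  have hkm := h.hk.meas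
  have h3 := core_polar_le (f := fun z => (‖F z‖ₑ ^ p) ^ r)
    (g := (ball (0 : ℂ) 1).indicator (fun z => core_B q k z ^ r))
    ((hFm.enorm.pow_const p).pow_const r)
    (((core_measurable_B hkm).pow_const r).indicator measurableSet_ball) K
    ((ENNReal.ofReal (∫ z, ‖F z‖ ^ p)) ^ r) (fun u hu => h1 F k h u hu)
  refine h3.trans_lt ?_
  have h4 : ∫⁻ z, (ball (0 : ℂ) 1).indicator (fun z => core_B q k z ^ r) z ≤
      ENNReal.ofReal C * ∫⁻ w, (‖k w‖ₑ ^ q) ^ r := by
    rw [lintegral_indicator measurableSet_ball]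
    refine (h2 (fun w => ‖k w‖ₑ ^ q) (hkm.enorm.pow_const q)).trans ?_
    gcongr
    exact Measure.restrict_le_self
  have h5 : ∫⁻ z, (ball (0 : ℂ) 1).indicator (fun z => core_B q k z ^ r) z < ⊤ :=
    h4.trans_lt (ENNReal.mul_lt_top ENNReal.ofReal_lt_top hk)
  have h6 : (ENNReal.ofReal (∫ z, ‖F z‖ ^ p)) ^ r < ⊤ :=
    ENNReal.rpow_lt_top_of_nonneg hr0.le ENNReal.ofReal_ne_top
  exact ENNReal.add_lt_top.mpr ⟨ENNReal.mul_lt_top ENNReal.ofReal_lt_top
    (ENNReal.mul_lt_top hK.lt_top h6), ENNReal.mul_lt_top hK.lt_top h5⟩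

end

end BergmanReg
end
end

section

/-!
# Variational characterisation of the extremal function (job BR-17)
-/

namespace BergmanReg

open MeasureTheory Metric Set Filter Topology Complex
open scoped ENNReal NNReal ComplexConjugate

noncomputable section

/-! ### The measure `dA` -/

lemma va_c0 : ENNReal.ofReal (Real.pi⁻¹) ≠ 0 := by
  rw [Ne, ENNReal.ofReal_eq_zero, not_le]; positivity

lemma va_int_dA {E : Type*} [NormedAddCommGroup E] {f : ℂ → E} :
    Integrable f dA ↔ IntegrableOn f (ball (0 : ℂ) 1) :=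
  integrable_smul_measure va_c0 ENNReal.ofReal_ne_top

lemma va_integral_dA {E : Type*} [NormedAddCommGroup E] [NormedSpace ℝ E] (f : ℂ → E) :
    ∫ z, f z ∂dA = Real.pi⁻¹ • ∫ z in ball (0 : ℂ) 1, f z := by
  unfold dA
  rw [integral_smul_measure, ENNReal.toReal_ofReal (by positivity)]

lemma va_ae_dA {P : ℂ → Prop} (h : ∀ z ∈ ball (0 : ℂ) 1, P z) : ∀ᵐ z ∂dA, P z := by
  unfold dA
  apply Measure.ae_smul_measure
  exact (ae_restrict_iff' measurableSet_ball).2 (Eventually.of_forall h)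

instance va_fin : IsFiniteMeasure dA := by
  constructor
  unfold dA
  rw [Measure.smul_apply, Measure.restrict_apply_univ, smul_eq_mul]
  exact ENNReal.mul_lt_top ENNReal.ofReal_lt_top measure_ball_lt_top

lemma va_aesm {f : ℂ → ℂ} (hf : DifferentiableOn ℂ f (ball 0 1)) : AEStronglyMeasurable f dA := by
  unfold dA
  exact (hf.continuousOn.aestronglyMeasurable measurableSet_ball).smul_measure _

lemma va_pow_add_le {p : ℝ} (hp : 1 < p) {x y : ℝ} (hx : 0 ≤ x) (hy : 0 ≤ y) :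
    (x + y) ^ p ≤ 2 ^ p * (x ^ p + y ^ p) := by
  have h1 : x + y ≤ 2 * max x y := by
    have := le_max_left x y; have := le_max_right x y; linarith
  have h2 : (max x y) ^ p ≤ x ^ p + y ^ p := by
    have hx' : 0 ≤ x ^ p := by positivity
    have hy' : 0 ≤ y ^ p := by positivity
    rcases max_choice x y with h | h <;> rw [h] <;> linarith
  calc (x + y) ^ p ≤ (2 * max x y) ^ p := Real.rpow_le_rpow (by linarith) h1 (by linarith)
    _ = 2 ^ p * (max x y) ^ p := Real.mul_rpow (by norm_num) (le_max_of_le_left hx)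
    _ ≤ _ := by gcongr

lemma va_smul_mem {p : ℝ} {f : ℂ → ℂ} (hf : MemA p f) (c : ℂ) :
    MemA p (fun z => c * f z) := by
  refine ⟨hf.1.const_mul c, ?_⟩
  have : (fun z => ‖c * f z‖ ^ p) = fun z => ‖c‖ ^ p * ‖f z‖ ^ p := by
    ext z
    rw [norm_mul, Real.mul_rpow (norm_nonneg _) (norm_nonneg _)]
  rw [this]
  exact hf.2.const_mul _

lemma va_norm_smul {p : ℝ} (hp : 1 < p) (f : ℂ → ℂ) (c : ℂ) :
    normA p (fun z => c * f z) = ‖c‖ * normA p f := by
  unfold normA
  have : (fun z => ‖c * f z‖ ^ p) = fun z => ‖c‖ ^ p * ‖f z‖ ^ p := by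
    ext z
    rw [norm_mul, Real.mul_rpow (norm_nonneg _) (norm_nonneg _)]
  rw [this, integral_const_mul, Real.mul_rpow (by positivity) (by positivity),
    ← Real.rpow_mul (norm_nonneg _), mul_one_div_cancel (by linarith), Real.rpow_one]

lemma va_add_mem {p : ℝ} (hp : 1 < p) {f g : ℂ → ℂ} (hf : MemA p f) (hg : MemA p g) :
    MemA p (fun z => f z + g z) := by
  refine ⟨hf.1.add hg.1, ?_⟩
  have hm : AEStronglyMeasurable (fun z => ‖f z + g z‖ ^ p) dA := by
    have h := (va_aesm (hf.1.add hg.1)).norm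
    exact (Real.continuous_rpow_const (by linarith)).comp_aestronglyMeasurable h
  refine ((hf.2.add hg.2).const_mul (2 ^ p)).mono' hm (Eventually.of_forall fun z => ?_)
  rw [Real.norm_of_nonneg (by positivity)]
  calc ‖f z + g z‖ ^ p ≤ (‖f z‖ + ‖g z‖) ^ p :=
        Real.rpow_le_rpow (norm_nonneg _) (norm_add_le _ _) (by linarith)
    _ ≤ 2 ^ p * (‖f z‖ ^ p + ‖g z‖ ^ p) := va_pow_add_le hp (norm_nonneg _) (norm_nonneg _)

lemma va_pair_int {p q : ℝ} (hpq : p.HolderConjugate q) {f g : ℂ → ℂ}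
    (hf : AEStronglyMeasurable f dA) (hg : AEStronglyMeasurable g dA)
    (hf' : Integrable (fun z => ‖f z‖ ^ p) dA) (hg' : Integrable (fun z => ‖g z‖ ^ q) dA) :
    Integrable (fun z => f z * conj (g z)) dA := by
  have hm : AEStronglyMeasurable (fun z => f z * conj (g z)) dA :=
    hf.mul (Complex.continuous_conj.comp_aestronglyMeasurable hg)
  refine ((hf'.div_const p).add (hg'.div_const q)).mono' hm (Eventually.of_forall fun z => ?_)
  rw [norm_mul, Complex.norm_conj]
  exact Real.young_inequality_of_nonneg (norm_nonneg _) (norm_nonneg _) hpq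

/-! ### A nonzero analytic function is not orthogonal to monomials -/

lemma va_polar {g : ℂ → ℂ} (hg : Measurable g) (hi : Integrable g) :
    ∫ z, g z = ∫ r in Ioi (0 : ℝ), ∫ θ in Ioo (-Real.pi) Real.pi,
      r • g (Complex.polarCoord.symm (r, θ)) := by
  have hms : Measurable (fun x : ℝ × ℝ => Complex.polarCoord.symm x) := by
    have : (fun x : ℝ × ℝ => Complex.polarCoord.symm x) =
        fun x : ℝ × ℝ => (x.1 : ℂ) * (Real.cos x.2 + Real.sin x.2 * I) := by
      ext x; exact Complex.polarCoord_symm_apply x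
    rw [this]
    fun_prop
  have hint : IntegrableOn (fun x : ℝ × ℝ => x.1 • g (Complex.polarCoord.symm x))
      (Ioi (0 : ℝ) ×ˢ Ioo (-Real.pi) Real.pi) := by
    constructor
    · exact (measurable_fst.smul (hg.comp hms)).aestronglyMeasurable
    · have h1 := Complex.lintegral_comp_polarCoord_symm (fun z => ‖g z‖ₑ)
      rw [hasFiniteIntegral_iff_enorm]
      have h2 : ∫⁻ x in Ioi (0 : ℝ) ×ˢ Ioo (-Real.pi) Real.pi,
          ‖x.1 • g (Complex.polarCoord.symm x)‖ₑ = ∫⁻ z, ‖g z‖ₑ := by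
        rw [← h1]
        apply setLIntegral_congr_fun (measurableSet_Ioi.prod measurableSet_Ioo)
        intro x hx
        simp only
        rw [enorm_smul, Real.enorm_eq_ofReal (le_of_lt hx.1), smul_eq_mul]
      rw [h2]
      exact hi.2
  have ht : _root_.polarCoord.target = Ioi (0 : ℝ) ×ˢ Ioo (-Real.pi) Real.pi := rfl
  rw [← Complex.integral_comp_polarCoord_symm, ht, Measure.volume_eq_prod]
  exact setIntegral_prod _ hint

lemma va_circle {h : ℂ → ℂ} (hh : DifferentiableOn ℂ h (ball 0 1)) {r : ℝ} (h0 : 0 < r)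
    (h1 : r < 1) :
    ∫ θ in Ioo (-Real.pi) Real.pi, h (Complex.polarCoord.symm (r, θ)) =
      (2 * Real.pi) • h 0 := by
  have hsub : closedBall (0 : ℂ) r ⊆ ball 0 1 := closedBall_subset_ball h1
  have hd : DiffContOnCl ℂ h (ball 0 |r|) := by
    rw [abs_of_pos h0]
    exact (hh.mono hsub).diffContOnCl_ball subset_rfl
  have ha := hd.circleAverage
  rw [Real.circleAverage_def] at ha
  have e1 : ∀ θ : ℝ, h (Complex.polarCoord.symm (r, θ)) = h (circleMap 0 r θ) := by
    intro θ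
    rw [Complex.polarCoord_symm_apply, circleMap, zero_add, Complex.exp_mul_I]
    push_cast
    rfl
  have e2 : ∫ θ in Ioo (-Real.pi) Real.pi, h (Complex.polarCoord.symm (r, θ)) =
      ∫ θ in (-Real.pi)..Real.pi, h (circleMap 0 r θ) := by
    rw [intervalIntegral.integral_of_le (by linarith [Real.pi_pos]), integral_Ioc_eq_integral_Ioo]
    simp only [e1]
  have hper : Function.Periodic (fun θ : ℝ => h (circleMap 0 r θ)) (2 * Real.pi) := by
    intro θ
    simp only
    rw [periodic_circleMap 0 r θ]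
  have e3 : ∫ θ in (-Real.pi)..Real.pi, h (circleMap 0 r θ) =
      ∫ θ in (0 : ℝ)..(2 * Real.pi), h (circleMap 0 r θ) := by
    have := hper.intervalIntegral_add_eq (-Real.pi) 0
    rw [zero_add, show -Real.pi + 2 * Real.pi = Real.pi by ring] at this
    exact this
  rw [e2, e3]
  rw [← ha, smul_smul, mul_inv_cancel₀ (by positivity), one_smul]

lemma va_meas_ind {f : ℂ → ℂ} (hf : ContinuousOn f (ball (0 : ℂ) 1)) :
    Measurable ((ball (0 : ℂ) 1).indicator f) := by
  classical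
  have := ContinuousOn.measurable_piecewise (g := (0 : ℂ → ℂ)) hf
    continuous_zero.continuousOn measurableSet_ball
  rwa [piecewise_eq_indicator] at this

/-- weighted mean value property on the disc -/
lemma va_mean {h : ℂ → ℂ} (hh : DifferentiableOn ℂ h (ball 0 1)) (n : ℕ)
    (hi : IntegrableOn (fun z => ((‖z‖ ^ (2 * n) : ℝ) : ℂ) * h z) (ball (0 : ℂ) 1)) :
    ∫ z in ball (0 : ℂ) 1, ((‖z‖ ^ (2 * n) : ℝ) : ℂ) * h z =
      ((2 * Real.pi / (2 * n + 2) : ℝ) : ℂ) * h 0 := by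
  set g : ℂ → ℂ := (ball (0 : ℂ) 1).indicator (fun z => ((‖z‖ ^ (2 * n) : ℝ) : ℂ) * h z) with hg
  have hcont : ContinuousOn (fun z => ((‖z‖ ^ (2 * n) : ℝ) : ℂ) * h z) (ball (0 : ℂ) 1) :=
    (Complex.continuous_ofReal.comp (continuous_norm.pow _)).continuousOn.mul hh.continuousOn
  have hgm : Measurable g := by
    exact va_meas_ind hcont
  have hgi : Integrable g := (integrable_indicator_iff measurableSet_ball).2 hi
  have e1 : ∫ z in ball (0 : ℂ) 1, ((‖z‖ ^ (2 * n) : ℝ) : ℂ) * h z = ∫ z, g z := by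
    rw [hg, integral_indicator measurableSet_ball]
  rw [e1, va_polar hgm hgi]
  have hnorm : ∀ r θ : ℝ, 0 < r → ‖Complex.polarCoord.symm (r, θ)‖ = r := by
    intro r θ hr
    have := Complex.norm_polarCoord_symm (r, θ)
    rw [this, abs_of_pos hr]
  have e2 : ∫ r in Ioi (0 : ℝ), ∫ θ in Ioo (-Real.pi) Real.pi,
      r • g (Complex.polarCoord.symm (r, θ)) =
      ∫ r in Ioi (0 : ℝ), (Ioo (0 : ℝ) 1).indicator
        (fun r => ((r ^ (2 * n + 1) * (2 * Real.pi) : ℝ) : ℂ) * h 0) r := by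
    apply setIntegral_congr_fun measurableSet_Ioi
    intro r hr
    have hr0 : 0 < r := hr
    simp only
    by_cases h1 : r < 1
    · rw [indicator_of_mem (show r ∈ Ioo (0 : ℝ) 1 from ⟨hr0, h1⟩)]
      have : ∀ θ : ℝ, r • g (Complex.polarCoord.symm (r, θ)) =
          ((r ^ (2 * n + 1) : ℝ) : ℂ) * h (Complex.polarCoord.symm (r, θ)) := by
        intro θ
        have hmem : Complex.polarCoord.symm (r, θ) ∈ ball (0 : ℂ) 1 := by
          rw [mem_ball_zero_iff, hnorm r θ hr0]; exact h1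
        rw [hg, indicator_of_mem hmem, hnorm r θ hr0, Complex.real_smul]
        push_cast
        ring
      simp only [this]
      rw [integral_const_mul, va_circle hh hr0 h1, Complex.real_smul]
      push_cast
      ring
    · rw [indicator_of_notMem (fun hh' => h1 hh'.2)]
      have : ∀ θ : ℝ, r • g (Complex.polarCoord.symm (r, θ)) = 0 := by
        intro θ
        have hmem : Complex.polarCoord.symm (r, θ) ∉ ball (0 : ℂ) 1 := by
          rw [mem_ball_zero_iff, hnorm r θ hr0]; exact h1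
        rw [hg, indicator_of_notMem hmem, smul_zero]
      simp only [this, integral_zero]
  rw [e2, setIntegral_indicator measurableSet_Ioo]
  have hinter : Ioi (0 : ℝ) ∩ Ioo 0 1 = Ioo 0 1 := inter_eq_self_of_subset_right (fun x hx => hx.1)
  rw [hinter, integral_mul_const, integral_complex_ofReal, integral_mul_const]
  have e3 : ∫ r in Ioo (0 : ℝ) 1, r ^ (2 * n + 1) = 1 / (2 * n + 2) := by
    rw [← integral_Ioc_eq_integral_Ioo, ← intervalIntegral.integral_of_le zero_le_one,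
      integral_pow]
    push_cast
    rw [one_pow, zero_pow (by omega), sub_zero]
    congr 1; ring
  rw [e3]
  congr 2
  ring

/-- a nonzero element of `A^q` is not orthogonal to all monomials -/
lemma va_monomial {q : ℝ} (hq : 1 < q) {k : ℂ → ℂ} (hk : MemA q k)
    (hk0 : ∃ z ∈ ball (0 : ℂ) 1, k z ≠ 0) :
    ∃ n : ℕ, ∫ z, z ^ n * conj (k z) ∂dA ≠ 0 := by
  have han : AnalyticOnNhd ℂ k (ball 0 1) := hk.1.analyticOnNhd isOpen_ball
  have h0 : (0 : ℂ) ∈ ball (0 : ℂ) 1 := mem_ball_self one_pos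
  have hne : ¬ ∀ᶠ z in 𝓝 (0 : ℂ), k z = 0 := by
    intro hev
    obtain ⟨z, hz, hkz⟩ := hk0
    apply hkz
    exact han.eqOn_zero_of_preconnected_of_eventuallyEq_zero
      (convex_ball (0 : ℂ) 1).isPreconnected h0 hev hz
  obtain ⟨n, g, hg, hg0, hev⟩ := ((han 0 h0).exists_eventuallyEq_pow_smul_nonzero_iff).2 hne
  simp only [sub_zero, smul_eq_mul] at hev
  set h : ℂ → ℂ := Function.update (fun z => k z / z ^ n) 0 (g 0) with hh
  have hh0 : h 0 = g 0 := by rw [hh, Function.update_self]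
  have hhne : ∀ z, z ≠ 0 → h z = k z / z ^ n := by
    intro z hz; rw [hh, Function.update_of_ne hz]
  have hheq : h =ᶠ[𝓝 0] g := by
    filter_upwards [hev] with z hz
    by_cases hz0 : z = 0
    · rw [hz0, hh0]
    · rw [hhne z hz0, hz]; field_simp
  have hk' : ∀ z ∈ ball (0 : ℂ) 1, k z = z ^ n * h z := by
    intro z _
    by_cases hz0 : z = 0
    · rw [hz0, hh0]; exact hev.self_of_nhds
    · rw [hhne z hz0]; field_simp
  have hdiff : DifferentiableOn ℂ h (ball 0 1) := by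
    intro z hz
    by_cases hz0 : z = 0
    · rw [hz0]
      exact (hg.differentiableAt.congr_of_eventuallyEq hheq).differentiableWithinAt
    · have hd : DifferentiableAt ℂ (fun z => k z / z ^ n) z :=
        ((hk.1 z hz).differentiableAt (isOpen_ball.mem_nhds hz)).div
          (differentiableAt_id.pow n) (pow_ne_zero n hz0)
      refine (hd.congr_of_eventuallyEq ?_).differentiableWithinAt
      filter_upwards [isOpen_ne.mem_nhds hz0] with w hw
      exact hhne w hw
  refine ⟨n, ?_⟩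
  have hkint : Integrable k dA := by
    refine ((integrable_const (1 : ℝ)).add hk.2).mono' (va_aesm hk.1)
      (Eventually.of_forall fun z => ?_)
    simp only [Pi.add_apply]
    have hnn : 0 ≤ ‖k z‖ ^ q := by positivity
    rcases le_total ‖k z‖ 1 with h1 | h1
    · linarith
    · have : ‖k z‖ ≤ ‖k z‖ ^ q := by
        calc ‖k z‖ = ‖k z‖ ^ (1 : ℝ) := (Real.rpow_one _).symm
          _ ≤ ‖k z‖ ^ q := Real.rpow_le_rpow_of_exponent_le h1 hq.le
      linarith
  have hmono : ∀ z ∈ ball (0 : ℂ) 1, ‖conj z ^ n‖ ≤ 1 := by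
    intro z hz
    rw [norm_pow, Complex.norm_conj]
    exact pow_le_one₀ (norm_nonneg _) (mem_ball_zero_iff.1 hz).le
  have hprod : IntegrableOn (fun z => conj z ^ n * k z) (ball (0 : ℂ) 1) := by
    have hki := va_int_dA.1 hkint
    refine Integrable.mono' hki.norm ?_ ?_
    · exact ((Complex.continuous_conj.pow n).aestronglyMeasurable).mul hki.aestronglyMeasurable
    · refine (ae_restrict_iff' measurableSet_ball).2 (Eventually.of_forall fun z hz => ?_)
      rw [norm_mul]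
      calc ‖conj z ^ n‖ * ‖k z‖ ≤ 1 * ‖k z‖ := by gcongr; exact hmono z hz
        _ = ‖k z‖ := one_mul _
  have hpt : ∀ z ∈ ball (0 : ℂ) 1, conj z ^ n * k z = ((‖z‖ ^ (2 * n) : ℝ) : ℂ) * h z := by
    intro z hz
    rw [hk' z hz, ← mul_assoc, ← mul_pow, mul_comm (conj z) z, Complex.mul_conj,
      Complex.normSq_eq_norm_sq, pow_mul]
    push_cast
    ring
  have hi : IntegrableOn (fun z => ((‖z‖ ^ (2 * n) : ℝ) : ℂ) * h z) (ball (0 : ℂ) 1) :=
    (integrableOn_congr_fun hpt measurableSet_ball).1 hprod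
  have hm := va_mean hdiff n hi
  have hconj : ∫ z, z ^ n * conj (k z) ∂dA = conj (∫ z, conj z ^ n * k z ∂dA) := by
    rw [← integral_conj]
    congr 1
    ext z
    simp
  rw [hconj, va_integral_dA, setIntegral_congr_fun measurableSet_ball hpt, hm, hh0]
  rw [Ne, map_eq_zero]
  simp only [Complex.real_smul, mul_eq_zero, not_or]
  refine ⟨?_, ?_, hg0⟩
  · exact_mod_cast (inv_pos.2 Real.pi_pos).ne'
  · have : (0 : ℝ) < 2 * Real.pi / (2 * n + 2) := by positivity
    exact_mod_cast this.ne'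

/-! ### First variation -/

lemma va_normA_pos {p : ℝ} {f : ℂ → ℂ} (h : 0 < ∫ z, ‖f z‖ ^ p ∂dA) :
    0 < normA p f := Real.rpow_pos_of_pos h _

/-- the inequality of extremality for functions of arbitrary norm -/
lemma va_ext {p q : ℝ} (hpq : p.HolderConjugate q) {k F : ℂ → ℂ}
    (hF : IsExtremal p k F) {f : ℂ → ℂ} (hf : MemA p f) (h : 0 < ∫ z, ‖f z‖ ^ p ∂dA) :
    (∫ z, f z * conj (k z) ∂dA).re ≤ normA p f * (∫ z, F z * conj (k z) ∂dA).re := by
  have hp : 1 < p := hpq.lt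
  have hN := va_normA_pos h
  set c : ℂ := (((normA p f)⁻¹ : ℝ) : ℂ) with hc
  have h1 := hF.2.2 (fun z => c * f z) (va_smul_mem hf c) (by
    rw [va_norm_smul hp, hc, Complex.norm_real, Real.norm_of_nonneg (by positivity),
      inv_mul_cancel₀ hN.ne'])
  have h2 : ∫ z, c * f z * conj (k z) ∂dA = c * ∫ z, f z * conj (k z) ∂dA := by
    rw [← integral_const_mul]
    congr 1
    ext z
    ring
  rw [h2, hc, Complex.re_ofReal_mul] at h1
  calc (∫ z, f z * conj (k z) ∂dA).re
      = normA p f * ((normA p f)⁻¹ * (∫ z, f z * conj (k z) ∂dA).re) := by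
        rw [← mul_assoc, mul_inv_cancel₀ hN.ne', one_mul]
    _ ≤ _ := by gcongr

/-- positivity of the maximum -/
lemma va_pos {p q : ℝ} (hpq : p.HolderConjugate q) {k F : ℂ → ℂ} (hk : MemA q k)
    (hk0 : ∃ z ∈ ball (0 : ℂ) 1, k z ≠ 0) (hF : IsExtremal p k F) :
    0 < (∫ z, F z * conj (k z) ∂dA).re := by
  have hp : 1 < p := hpq.lt
  by_contra hneg
  rw [not_lt] at hneg
  obtain ⟨n, hn⟩ := va_monomial hpq.symm.lt hk hk0
  apply hn
  -- monomials times constants
  have hmem : MemA p (fun z => z ^ n) := by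
    refine ⟨(differentiable_id.pow n).differentiableOn, ?_⟩
    refine Integrable.mono' (integrable_const (1 : ℝ)) ?_ ?_
    · have : Continuous fun z : ℂ => ‖z ^ n‖ ^ p :=
        (Real.continuous_rpow_const (by linarith)).comp (continuous_norm.comp (continuous_pow n))
      exact this.aestronglyMeasurable
    · apply va_ae_dA
      intro z hz
      have h1 : ‖z ^ n‖ ≤ 1 := by
        rw [norm_pow]
        exact pow_le_one₀ (norm_nonneg _) (mem_ball_zero_iff.1 hz).le
      rw [Real.norm_of_nonneg (by positivity)]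
      exact Real.rpow_le_one (norm_nonneg _) h1 (by linarith)
  have hall : ∀ c : ℂ, (c * ∫ z, z ^ n * conj (k z) ∂dA).re ≤ 0 := by
    intro c
    rcases le_or_gt (∫ z, ‖c * z ^ n‖ ^ p ∂dA) 0 with h0 | h0
    · -- then the function vanishes almost everywhere
      have hint : Integrable (fun z => ‖c * z ^ n‖ ^ p) dA := (va_smul_mem hmem c).2
      have hnn : 0 ≤ᵐ[dA] fun z => ‖c * z ^ n‖ ^ p :=
        Eventually.of_forall fun z => by simp only [Pi.zero_apply]; positivity
      have hz := (integral_eq_zero_iff_of_nonneg_ae hnn hint).1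
        (le_antisymm h0 (integral_nonneg_of_ae hnn))
      have : ∫ z, c * (z ^ n * conj (k z)) ∂dA = 0 := by
        apply integral_eq_zero_of_ae
        filter_upwards [hz] with z hz
        have h1 : ‖c * z ^ n‖ = 0 := by
          have h2 : ‖c * z ^ n‖ ^ p = 0 := hz
          rwa [Real.rpow_eq_zero (norm_nonneg _) (by linarith)] at h2
        have h2 : c * z ^ n = 0 := norm_eq_zero.1 h1
        rw [← mul_assoc, h2, zero_mul]; rfl
      rw [← integral_const_mul, this, Complex.zero_re]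
    · have h1 := va_ext hpq hF (va_smul_mem hmem c) h0
      have h2 : ∫ z, c * z ^ n * conj (k z) ∂dA = c * ∫ z, z ^ n * conj (k z) ∂dA := by
        rw [← integral_const_mul]
        congr 1
        ext z
        ring
      rw [h2] at h1
      refine h1.trans ?_
      exact mul_nonpos_of_nonneg_of_nonpos (va_normA_pos h0).le hneg
  have h3 := hall (conj (∫ z, z ^ n * conj (k z) ∂dA))
  rw [mul_comm, Complex.mul_conj, Complex.ofReal_re] at h3
  exact Complex.normSq_eq_zero.1 (le_antisymm h3 (Complex.normSq_nonneg _))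

lemma va_deriv {p : ℝ} (hp : 1 < p) {F f : ℂ → ℂ} (hF : MemA p F) (hf : MemA p f) :
    HasDerivAt (fun t : ℝ => ∫ z, ‖F z + t * f z‖ ^ p ∂dA)
      (∫ z, p * (f z * conj (psi p (F z))).re ∂dA) 0 := by
  set F' : ℝ → ℂ → ℝ := fun t z =>
    (p * ‖F z + t * f z‖ ^ (p - 2)) * ((F z + t * f z) * conj (f z)).re with hF'
  have hF'0 : ∀ z, F' 0 z = p * (f z * conj (psi p (F z))).re := by
    intro z
    simp only [hF', Complex.ofReal_zero, zero_mul, add_zero]
    unfold psi
    rw [map_mul, Complex.conj_ofReal, mul_left_comm, Complex.re_ofReal_mul, mul_assoc]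
    congr 2
    simp only [Complex.mul_re, Complex.conj_re, Complex.conj_im]
    ring
  have hmp : ∀ t : ℝ, MemA p (fun z => F z + t * f z) := fun t =>
    va_add_mem hp hF (va_smul_mem hf t)
  have key := hasDerivAt_integral_of_dominated_loc_of_deriv_le (μ := dA) (𝕜 := ℝ)
    (F := fun t z => ‖F z + t * f z‖ ^ p) (F' := F') (x₀ := 0) (s := ball (0 : ℝ) 1)
    (bound := fun z => p * (2 ^ p * (‖F z‖ ^ p + ‖f z‖ ^ p))) (ball_mem_nhds 0 one_pos)
    (Eventually.of_forall fun t => (hmp t).2.aestronglyMeasurable)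
    (by simpa using hF.2) ?_ ?_ ?_ ?_
  · have h2 := key.2
    simp only [hF'0] at h2
    exact h2
  · -- measurability
    have : F' 0 = fun z => (p * ‖F z + (0 : ℝ) * f z‖ ^ (p - 2)) *
      ((F z + (0 : ℝ) * f z) * conj (f z)).re := rfl
    rw [this]
    have hs := va_aesm (hmp 0).1
    have hs2 := va_aesm hf.1
    have h1 : AEStronglyMeasurable (fun z => p * ‖F z + (0 : ℝ) * f z‖ ^ (p - 2)) dA := by
      have hm : Measurable fun x : ℝ => p * x ^ (p - 2) := by fun_prop
      exact (hm.comp_aemeasurable hs.norm.aemeasurable).aestronglyMeasurable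
    exact h1.mul (Complex.continuous_re.comp_aestronglyMeasurable
      (hs.mul (Complex.continuous_conj.comp_aestronglyMeasurable hs2)))
  · -- bound
    refine Eventually.of_forall fun z t ht => ?_
    have ht1 : |t| ≤ 1 := by
      rw [mem_ball_zero_iff, Real.norm_eq_abs] at ht; exact ht.le
    have hn : ‖F z + t * f z‖ ≤ ‖F z‖ + ‖f z‖ := by
      refine (norm_add_le _ _).trans ?_
      rw [norm_mul, Complex.norm_real, Real.norm_eq_abs]
      have : |t| * ‖f z‖ ≤ 1 * ‖f z‖ := by gcongr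
      linarith
    have hre : |((F z + t * f z) * conj (f z)).re| ≤ ‖F z + t * f z‖ * ‖f z‖ := by
      refine (Complex.abs_re_le_norm _).trans ?_
      rw [norm_mul, Complex.norm_conj]
    have hp0 : 0 < p := by linarith
    rw [hF']
    simp only
    rw [Real.norm_eq_abs, abs_mul, abs_of_nonneg (by positivity)]
    set w := ‖F z + t * f z‖ with hw
    have hw0 : 0 ≤ w := norm_nonneg _
    have h3 : w ^ (p - 2) * w ≤ (‖F z‖ + ‖f z‖) ^ (p - 1) := by
      rcases eq_or_lt_of_le hw0 with h | h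
      · rw [← h, mul_zero]; positivity
      · calc w ^ (p - 2) * w = w ^ (p - 1) := by
              nth_rewrite 2 [← Real.rpow_one w]
              rw [← Real.rpow_add h]; congr 1; ring
          _ ≤ _ := Real.rpow_le_rpow hw0 hn (by linarith)
    have hsum0 : 0 ≤ ‖F z‖ + ‖f z‖ := by positivity
    have h4 : (‖F z‖ + ‖f z‖) ^ (p - 1) * ‖f z‖ ≤ (‖F z‖ + ‖f z‖) ^ p := by
      calc (‖F z‖ + ‖f z‖) ^ (p - 1) * ‖f z‖
          ≤ (‖F z‖ + ‖f z‖) ^ (p - 1) * (‖F z‖ + ‖f z‖) := by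
            gcongr; linarith [norm_nonneg (F z)]
        _ = (‖F z‖ + ‖f z‖) ^ p := by
            rw [← Real.rpow_add_one' hsum0 (by linarith)]; congr 1; ring
    calc p * w ^ (p - 2) * |((F z + t * f z) * conj (f z)).re|
        ≤ p * w ^ (p - 2) * (w * ‖f z‖) := by gcongr
      _ = p * ((w ^ (p - 2) * w) * ‖f z‖) := by ring
      _ ≤ p * ((‖F z‖ + ‖f z‖) ^ (p - 1) * ‖f z‖) := by gcongr
      _ ≤ p * (‖F z‖ + ‖f z‖) ^ p := by gcongr
      _ ≤ p * (2 ^ p * (‖F z‖ ^ p + ‖f z‖ ^ p)) := by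
          gcongr
          exact va_pow_add_le hp (norm_nonneg _) (norm_nonneg _)
  · exact ((hF.2.add hf.2).const_mul (2 ^ p)).const_mul p
  · -- derivative
    refine Eventually.of_forall fun z t _ => ?_
    have h1 : HasDerivAt (fun t : ℝ => F z + t * f z) (f z) t := by
      have h := (Complex.ofRealCLM.hasDerivAt (x := t)).mul_const (f z)
      have h2 := h.const_add (F z)
      simpa using h2
    have h2 := (hasFDerivAt_norm_rpow (F z + t * f z) hp).comp_hasDerivAt t h1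
    refine h2.congr_deriv ?_
    rw [hF']
    simp only [_root_.smul_apply, innerSL_apply_apply, smul_eq_mul]
    congr 1
    rw [Complex.inner]
    simp only [Complex.mul_re, Complex.conj_re, Complex.conj_im]
    ring

/-- first variation, real part -/
lemma va_first {p q : ℝ} (hpq : p.HolderConjugate q) {k F : ℂ → ℂ} (hk : MemA q k)
    (hF : IsExtremal p k F) {f : ℂ → ℂ} (hf : MemA p f) :
    (∫ z, f z * conj (k z) ∂dA).re =
      (∫ z, F z * conj (k z) ∂dA).re * ∫ z, (f z * conj (psi p (F z))).re ∂dA := by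
  have hp : 1 < p := hpq.lt
  have hp0 : 0 < p := by linarith
  set lam := (∫ z, F z * conj (k z) ∂dA).re with hlam
  set N : ℝ → ℝ := fun t => ∫ z, ‖F z + t * f z‖ ^ p ∂dA with hN
  have hN0 : N 0 = 1 := by
    have h1 : N 0 = ∫ z, ‖F z‖ ^ p ∂dA := by
      rw [hN]; simp
    have h2 := hF.2.1
    unfold normA at h2
    rw [← h1] at h2
    have h3 : 0 ≤ N 0 := by rw [h1]; positivity
    have h4 : N 0 = ((N 0) ^ (1 / p)) ^ p := by
      rw [← Real.rpow_mul h3, one_div_mul_cancel hp0.ne', Real.rpow_one]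
    rw [h4, h2, Real.one_rpow]
  have hNd := va_deriv hp hF.1 hf
  have hpairF := va_pair_int hpq (va_aesm hF.1.1) (va_aesm hk.1) hF.1.2 hk.2
  have hpairf := va_pair_int hpq (va_aesm hf.1) (va_aesm hk.1) hf.2 hk.2
  set D : ℝ → ℝ := fun t => (N t) ^ (1 / p) * lam - (lam + t * (∫ z, f z * conj (k z) ∂dA).re)
    with hD
  have hD0 : D 0 = 0 := by rw [hD]; simp [hN0]
  have hev : ∀ᶠ t in 𝓝 (0 : ℝ), 0 < N t := by
    have hc : ContinuousAt N 0 := hNd.continuousAt
    exact hc.eventually (lt_mem_nhds (by rw [hN0]; norm_num))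
  have hmin : IsLocalMin D 0 := by
    filter_upwards [hev] with t ht
    rw [hD0]
    have h1 := va_ext hpq hF (va_add_mem hp hF.1 (va_smul_mem hf (t : ℂ))) ht
    have h2 : ∫ z, (F z + t * f z) * conj (k z) ∂dA =
        (∫ z, F z * conj (k z) ∂dA) + t * ∫ z, f z * conj (k z) ∂dA := by
      rw [← integral_const_mul, ← integral_add hpairF (hpairf.const_mul _)]
      congr 1
      ext z
      ring
    rw [h2, Complex.add_re, Complex.re_ofReal_mul] at h1
    have h3 : normA p (fun z => F z + t * f z) = (N t) ^ (1 / p) := rfl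
    rw [h3] at h1
    rw [hD]
    simp only
    linarith
  have hDd : HasDerivAt D (((∫ z, p * (f z * conj (psi p (F z))).re ∂dA) * (1 / p) *
      (N 0) ^ (1 / p - 1)) * lam - (0 + 1 * (∫ z, f z * conj (k z) ∂dA).re)) 0 := by
    have h1 := (hNd.rpow_const (p := 1 / p) (Or.inl (by
      change N 0 ≠ 0
      rw [hN0]; norm_num))).mul_const lam
    have h2 := ((hasDerivAt_id (0 : ℝ)).mul_const (∫ z, f z * conj (k z) ∂dA).re).const_add lam
    have h3 : HasDerivAt D _ 0 := h1.sub h2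
    refine h3.congr_deriv ?_
    ring
  have hz := hmin.hasDerivAt_eq_zero hDd
  rw [hN0, Real.one_rpow, integral_const_mul] at hz
  have h5 : p * (∫ z, (f z * conj (psi p (F z))).re ∂dA) * (1 / p) * 1 =
      ∫ z, (f z * conj (psi p (F z))).re ∂dA := by
    field_simp
  rw [h5] at hz
  linarith

lemma va_psi_int {p q : ℝ} (hpq : p.HolderConjugate q) {F f : ℂ → ℂ} (hF : MemA p F)
    (hf : MemA p f) : Integrable (fun z => f z * conj (psi p (F z))) dA := by
  have hp : 1 < p := hpq.lt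
  apply va_pair_int hpq (va_aesm hf.1) _ hf.2 _
  · exact (continuous_psi hp).comp_aestronglyMeasurable (va_aesm hF.1)
  · have : (fun z => ‖psi p (F z)‖ ^ q) = fun z => ‖F z‖ ^ p := by
      ext z
      rw [norm_psi hp, ← Real.rpow_mul (norm_nonneg _)]
      congr 1
      exact hpq.sub_one_mul_conj
    rw [this]
    exact hF.2

/-- first variation -/
lemma va_orth {p q : ℝ} (hpq : p.HolderConjugate q) {k F : ℂ → ℂ} (hk : MemA q k)
    (hF : IsExtremal p k F) {f : ℂ → ℂ} (hf : MemA p f) :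
    ∫ z, f z * conj (k z) ∂dA =
      ((∫ z, F z * conj (k z) ∂dA).re : ℂ) * ∫ z, f z * conj (psi p (F z)) ∂dA := by
  have hre : ∀ g, MemA p g → (∫ z, g z * conj (k z) ∂dA).re =
      (((∫ z, F z * conj (k z) ∂dA).re : ℂ) * ∫ z, g z * conj (psi p (F z)) ∂dA).re := by
    intro g hg
    rw [va_first hpq hk hF hg, Complex.re_ofReal_mul]
    congr 1
    exact integral_re (va_psi_int hpq hF.1 hg)
  apply Complex.ext
  · exact hre f hf
  · have h := hre _ (va_smul_mem hf I)
    have e1 : ∀ u : ℂ → ℂ, ∫ z, I * f z * u z ∂dA = I * ∫ z, f z * u z ∂dA := by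
      intro u
      rw [← integral_const_mul]
      congr 1
      ext z
      ring
    rw [e1 (fun z => conj (k z)), e1 (fun z => conj (psi p (F z)))] at h
    rw [Complex.I_mul_re, ← mul_assoc, mul_comm _ I, mul_assoc, Complex.I_mul_re] at h
    linarith

lemma va_inAp {p : ℝ} {f : ℂ → ℂ} (hp : 1 < p) (hf : MemA p f) :
    InAp p ((ball (0 : ℂ) 1).indicator f) := by
  refine ⟨?_, ?_, ?_⟩
  · exact hf.1.congr fun z hz => indicator_of_mem hz f
  · intro z hz; exact indicator_of_notMem hz f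
  · have : (fun z => ‖(ball (0 : ℂ) 1).indicator f z‖ ^ p) =
        (ball (0 : ℂ) 1).indicator (fun z => ‖f z‖ ^ p) := by
      ext z
      by_cases hz : z ∈ ball (0 : ℂ) 1
      · rw [indicator_of_mem hz, indicator_of_mem hz]
      · rw [indicator_of_notMem hz, indicator_of_notMem hz, norm_zero, Real.zero_rpow (by linarith)]
    rw [this, integrable_indicator_iff measurableSet_ball]
    exact va_int_dA.1 hf.2

theorem variation {p q : ℝ} (hpq : p.HolderConjugate q) {k F : ℂ → ℂ} (hk : MemA q k)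
    (hk0 : ∃ z ∈ ball (0 : ℂ) 1, k z ≠ 0) (hF : IsExtremal p k F) :
    ∃ c : ℝ, 0 < c ∧ Pair p q ((ball (0 : ℂ) 1).indicator F)
      ((ball (0 : ℂ) 1).indicator fun z => (c : ℂ) * k z) := by
  have hp : 1 < p := hpq.lt
  have hq : 1 < q := hpq.symm.lt
  have hpos := va_pos hpq hk hk0 hF
  set lam := (∫ z, F z * conj (k z) ∂dA).re with hlam
  refine ⟨lam⁻¹, inv_pos.2 hpos, va_inAp hp hF.1, ?_, ?_⟩
  · have h := va_inAp hq (va_smul_mem hk (((lam⁻¹ : ℝ)) : ℂ))
    refine ⟨?_, h.zero, h.int⟩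
    exact va_meas_ind (va_smul_mem hk (((lam⁻¹ : ℝ)) : ℂ)).1.continuousOn
  · intro f hf
    have hfm : MemA p f := ⟨hf.diff, va_int_dA.2 hf.int.integrableOn⟩
    have h1 := va_orth hpq hk hF hfm
    rw [← hlam] at h1
    have hI1 := va_psi_int hpq hF.1 hfm
    have hI2 := va_pair_int hpq (va_aesm hfm.1) (va_aesm hk.1) hfm.2 hk.2
    have e1 : (fun z => f z * gg p ((ball (0 : ℂ) 1).indicator F)
        ((ball (0 : ℂ) 1).indicator fun z => ((lam⁻¹ : ℝ) : ℂ) * k z) z) =
        (ball (0 : ℂ) 1).indicator (fun z => f z * conj (psi p (F z)) -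
          ((lam⁻¹ : ℝ) : ℂ) * (f z * conj (k z))) := by
      ext z
      unfold gg
      by_cases hz : z ∈ ball (0 : ℂ) 1
      · rw [indicator_of_mem hz, indicator_of_mem hz, indicator_of_mem hz, map_sub, map_mul,
          Complex.conj_ofReal]
        ring
      · rw [indicator_of_notMem hz, indicator_of_notMem hz, indicator_of_notMem hz, hf.zero z hz,
          zero_mul]
    rw [e1, integral_indicator measurableSet_ball]
    have e2 : ∫ z, (f z * conj (psi p (F z)) - ((lam⁻¹ : ℝ) : ℂ) * (f z * conj (k z))) ∂dA = 0 := by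
      rw [integral_sub hI1 (hI2.const_mul _), integral_const_mul, h1, ← mul_assoc,
        ← Complex.ofReal_mul, inv_mul_cancel₀ hpos.ne', Complex.ofReal_one, one_mul, sub_self]
    rw [va_integral_dA] at e2
    exact (smul_eq_zero.1 e2).resolve_left (inv_pos.2 Real.pi_pos).ne'

end

end BergmanReg
end
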